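import Mathlib
import Pool.Agent.Q90.SM.Def

/-! # Individual exponents and uniform bounds in the class `Σ` (MP_16b0ee_an): definitions and statements of the pieces

`ψ ∈ Σ`, `h = log ψ'`, in disc coordinates `Y v = v ψ (1/v)`, `H v = h (1/v)` (structure `Sg Y H`). -/

set_option autoImplicit false
open Complex Filter Topology Set Metric MeasureTheory

namespace Pool.Agent.Z55U

open Pool.Agent.W677.Mar (Sg NN hat)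
open Q90.SM (IsSig marshall pmean circ)

/-- the conformal map of the unit disc onto the strip `|Re w| < 1/2`, `(2/π) arctan v` -/
noncomputable def W (v : ℂ) : ℂ :=
  Complex.log ((1 + Complex.I * v) / (1 - Complex.I * v)) / (Complex.I * (Real.pi : ℂ))

/-- `1 / kk (1 / ζ)` maps the exterior of the unit disc onto the exterior of the two tangent discs `|z| ≤ 1`,
`|z - 2| ≤ 1` -/
noncomputable def kk (v : ℂ) : ℂ := W v / (1 + W v)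

/-- the elementary summand of `log (v f' v / f v)` -/
noncomputable def S1 (v : ℂ) : ℂ :=
  Complex.log ((2 / Real.pi : ℝ) : ℂ) - Complex.log (1 + v ^ 2) - Complex.log (dslope W 0 v) - Complex.log (1 - W v)

/-- The building block: `f v = v e^{-q v}` is univalent in the disc with values in the disc of radius `1/3`,
`E = log (v f' v / f v) = log (1 - v q' v)`, and `E₁` is a Bloch function near `E`. -/
structure Blk (C : ℝ) (q E E₁ : ℂ → ℂ) : Prop where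
  dq : DifferentiableOn ℂ q (ball 0 1)
  dE : DifferentiableOn ℂ E (ball 0 1)
  dE₁ : DifferentiableOn ℂ E₁ (ball 0 1)
  qle : ∀ v ∈ ball (0:ℂ) 1, ‖q v‖ ≤ C * (1 + √(-Real.log (1 - ‖v‖)))
  small : ∀ v ∈ ball (0:ℂ) 1, ‖v * Complex.exp (-q v)‖ ≤ 1 / 3
  inj : Set.InjOn (fun v : ℂ => v * Complex.exp (-q v)) (ball 0 1)
  E0 : E 0 = 0
  eqE : ∀ v ∈ ball (0:ℂ) 1, Complex.exp (E v) = 1 - v * deriv q v
  near : ∀ v ∈ ball (0:ℂ) 1, ‖E v - E₁ v‖ ≤ C * (1 + √(-Real.log (1 - ‖v‖)))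
  bloch : ∀ v ∈ ball (0:ℂ) 1, ‖deriv E₁ v‖ * (1 - ‖v‖) ≤ C

/-! ## Piece A: the elementary map and the building block -/

/-- A1. Facts on `W`. Sketch: `(1 + iv)/(1 - iv)` has positive real part, so `|Im log| < π/2`; the derivative is
`(2/π)/(1+v²)`; for the last line `dslope W 0 v = (2/π) ∫₀¹ dt/(1+t²v²)` and `Re 1/(1+x) ≥ (1-|x|)/4` for `|x| < 1`
(`1/(3π) > 1/10`). -/
def S_W : Prop :=
  W 0 = 0 ∧
  (∀ v ∈ ball (0:ℂ) 1, HasDerivAt W (((2 / Real.pi : ℝ) : ℂ) / (1 + v ^ 2)) v) ∧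
  Set.InjOn W (ball 0 1) ∧
  (∀ v ∈ ball (0:ℂ) 1, |(W v).re| < 1 / 2) ∧
  (∀ v ∈ ball (0:ℂ) 1, 1 / 10 ≤ (dslope W 0 v).re)

/-- A2. Facts on `kk` (from A1). Sketch: `|W| < |1 + W|` and `|W| < |1 - W|` by `|Re W| < 1/2`; `(kk v)⁻¹ - 2 = (1 - W)/W`;
`‖kk v‖ ≤ ‖v‖` is the Schwarz lemma; the last line: `|kk'|/(1-|kk|²) = |W'|/(1+2 Re W)` and `1/2 + W` has positive real
part (`Pool.Agent.W677.Mar.slow`/`harn`). -/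
def S_kk : Prop :=
  DifferentiableOn ℂ kk (ball 0 1) ∧ Set.InjOn kk (ball 0 1) ∧ kk 0 = 0 ∧
  (∀ v ∈ ball (0:ℂ) 1, ‖kk v‖ ≤ ‖v‖) ∧
  (∀ v ∈ ball (0:ℂ) 1, v ≠ 0 → kk v ≠ 0 ∧ 1 ≤ ‖(kk v)⁻¹ - 2‖) ∧
  (∀ v ∈ ball (0:ℂ) 1, ‖deriv kk v‖ * (1 - ‖v‖) ≤ 4 * (1 - ‖kk v‖))

/-- A3. The two point Goluzin inequality with one point at `2` (disc coordinate `1/2`): see
`Pool.Agent.W677.Mar.exists_log`, `log_diff`, `area_log`, `log_bound` (Cauchy-Schwarz with `‖z‖` in place of `‖ζ‖` in one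
factor; `-log (1 - 1/4) ≤ 1`). -/
def S_A : Prop := ∀ Y H : ℂ → ℂ, Sg Y H → ∃ A : ℂ → ℂ, DifferentiableOn ℂ A (ball 0 1) ∧ A 0 = 0 ∧
  (∀ z ∈ ball (0:ℂ) 1, Complex.exp (A z) = NN Y (1 / 2) z) ∧
  (∀ z ∈ ball (0:ℂ) 1, ‖A z‖ ≤ √(-Real.log (1 - ‖z‖)))

/-- A4. Koebe: `ψ z = Y (1/z) · z` is univalent on `ball 2 1`, `|ψ' 2| = |exp (H (1/2))| ≥ 3/4` (Goluzin), and
`Pool.Agent.Helper265.Br.koebe_omit` (see `Pool/Agent/W746/LD/Koebe.lean`). -/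
def S_koe : Prop := ∃ c : ℝ, 0 < c ∧ ∀ Y H : ℂ → ℂ, Sg Y H → ∀ z ∈ ball (0:ℂ) 1, z ≠ 0 → 1 ≤ ‖z⁻¹ - 2‖ →
  c ≤ ‖Y z / z - 2 * Y (1 / 2)‖

/-- A5. The block (from A1-A4). Take `l = 3/c`, `q v = log l + A (kk v) + log (1 - W v) - log (dslope W 0 v)`,
`E v = H (kk v) + S1 v - A (kk v)`. Then for `v ≠ 0`, with `ψ (1/z) = Y z / z`:
`1 / (v e^{-q v}) = l (ψ (1/kk v) - ψ 2)`, hence `inj` and `small`; `|1 - W|, |W/v|`: the product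
`(1 - W) / (dslope W 0 v)` has modulus in `[1/2, 11]`, both factors have positive real part (so the logs have imaginary
part at most `π/2`); `1 - v q' v = v W' e^{H (kk v)} / (W (1 - W) NN)`; Bloch: `H_bloch`, last line of A2 and
`strip_bloch` (`Pool/Agent/W677/MarB.lean`) for the three logs in `S1`. -/
def S_blk : Prop := ∃ C : ℝ, 1 ≤ C ∧ ∀ Y H : ℂ → ℂ, Sg Y H → ∃ q E : ℂ → ℂ,
  Blk C q E (fun v => H (kk v) + S1 v)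

/-! ## Piece B: comparison of the arcs -/

/-- the point of the unit circle with `W (ph x) = -1/2 + i x/2` -/
noncomputable def ph (x : ℝ) : ℂ :=
  ((-(1 / Real.cosh (Real.pi * x / 2)) : ℝ) : ℂ) + Complex.I * ((Real.tanh (Real.pi * x / 2) : ℝ) : ℂ)

/-- the point `kk (ph x) = (-1 + i x)/(1 + i x)` of the left half of the unit circle -/
noncomputable def th (x : ℝ) : ℂ := (-1 + Complex.I * (x : ℂ)) / (1 + Complex.I * (x : ℂ))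

/-- B1. Pointwise comparison on the arc: `|kk (ρ ph x) - th x| ≤ C (1-ρ)` (`kk' = W'/(1+W)²`, `W' = (2/π)/(1+v²)` is
bounded on the segment from `ρ ph x` to `ph x`, `|1 + W| ≥ 1/2`; at the end point `W (ph x) = -1/2 + i x/2`: the quotient
`(1+iv)/(1-iv)` is `-i e^{-πx/2}`), both `kk (ρ ph x)` and `ρ th x` lie in the closed ball of radius `ρ` (A2), where
`|H'| ≤ 6/(1-ρ)` (`H_bloch`); the elementary summand `S1` is bounded on the arc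
(`|1+v²| = |v-i||v+i| ≥ (Re v)²`, `|dslope W 0 v| ≥ 1/10` and `≤ C`, `1/2 ≤ |1 - W| ≤ C`). -/
def S_pt : Prop := ∃ C : ℝ, 1 ≤ C ∧ ∀ ρ : ℝ, 1 / 2 ≤ ρ → ρ < 1 → ∀ x ∈ Icc (-1:ℝ) 1,
  ‖S1 ((ρ : ℂ) * ph x)‖ ≤ C ∧
  ∀ Y H : ℂ → ℂ, Sg Y H → ‖H (kk ((ρ : ℂ) * ph x)) - H ((ρ : ℂ) * th x)‖ ≤ C

/-- B2. Change of variables (pure calculus): for continuous `f ≥ 0` on the circle
`∫_{π/2}^{3π/2} f (e^{iθ}) dθ = ∫_{-1}^1 f (th x) 2/(1+x²) dx` (`θ = π - 2 arctan x`) and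
`∫_{-1}^{1} f (ph x) (π/2)/cosh (πx/2) dx ≤ ∫_0^{2π} f (e^{iθ}) dθ` (`θ = π - arcsin (tanh (πx/2))`), `cosh (π/2) < 3`. -/
def S_sub : Prop := ∀ f : ℝ → ℝ, Continuous f → Function.Periodic f (2 * Real.pi) → (∀ θ, 0 ≤ f θ) →
  (∀ g : ℂ → ℝ, (∀ θ : ℝ, g (Complex.exp ((θ : ℂ) * Complex.I)) = f θ) →
    (∫ θ in (Real.pi / 2)..(3 * Real.pi / 2), f θ) ≤ 2 * ∫ x in (-1:ℝ)..1, g (th x)) ∧
  (∀ g : ℂ → ℝ, (∀ θ : ℝ, g (Complex.exp ((θ : ℂ) * Complex.I)) = f θ) →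
    (∫ x in (-1:ℝ)..1, g (ph x)) ≤ 2 * ∫ θ in (0:ℝ)..(2 * Real.pi), f θ)

/-- B3. The arc comparison (from B1, B2). -/
def S_arc : Prop := ∃ C : ℝ, 1 ≤ C ∧ ∀ Y H : ℂ → ℂ, Sg Y H → ∀ (t : ℂ) (ρ : ℝ), 1 / 2 ≤ ρ → ρ < 1 →
  (∫ θ in (Real.pi / 2)..(3 * Real.pi / 2), ‖Complex.exp (t * H (circleMap 0 ρ θ))‖) ≤
    C * Real.exp (C * ‖t‖) *
      ∫ θ in (0:ℝ)..(2 * Real.pi), ‖Complex.exp (t * (H (kk (circleMap 0 ρ θ)) + S1 (circleMap 0 ρ θ)))‖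

/-! ## Piece C: the functional equation `Φ v = f (Φ (v ^ N) ^ (1/N))`, `Φ v = v e^{-P v}`, `f v = v e^{-q v}` -/

/-- C1. Existence. `P₀ = log 3`, `P_{k+1} v = P_k (v ^ N)/N + q (v e^{-P_k (v ^ N)/N})`. By induction
`‖v e^{-P_k v}‖ ≤ 1/3` (so `‖v e^{-P_k (v ^ N)/N}‖ ≤ (1/3)^(1/N) ≤ 1 - 1/(2N)`) and `‖P_k v‖ ≤ K (1 + √(log N))`;
contraction with ratio `1/2` on `‖v‖ ≤ 1/2` for `N ≥ N₀` (there `‖v e^{-P_k/N}‖ ≤ 3/4` and `q` is Lipschitz by Cauchy), then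
`sup_{‖v‖ ≤ s^(1/N)} |P_{k+2} - P_{k+1}| ≤ L_N sup_{‖v‖ ≤ s} |P_{k+1} - P_k|`; the limit is locally uniform. -/
def S_fe1 : Prop := ∀ C : ℝ, 1 ≤ C → ∃ (N₀ : ℕ) (K : ℝ), 2 ≤ N₀ ∧ 1 ≤ K ∧ ∀ N : ℕ, N₀ ≤ N →
  ∀ q E E₁ : ℂ → ℂ, Blk C q E E₁ → ∃ P : ℂ → ℂ, DifferentiableOn ℂ P (ball 0 1) ∧
    ∀ v ∈ ball (0:ℂ) 1, ‖P v‖ ≤ K * (1 + √(Real.log N)) ∧
      ‖v * Complex.exp (-P (v ^ N) / N)‖ ≤ 1 - 1 / (2 * N) ∧
      P v = P (v ^ N) / N + q (v * Complex.exp (-P (v ^ N) / N))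

/-- C2. Univalence and the logarithmic derivative. If `Φ a = Φ b` then `w a = w b` (`w v = v e^{-P (v ^ N)/N}`, `f`
injective, `Φ v = f (w v)`), hence `Φ (a ^ N) = Φ (b ^ N)`, and so on until both are in a small disc where `Φ` is injective;
then go back. `1 - v P' v = (1 - v^N P' (v^N)) exp (E (w v))`, so it never vanishes (it is `1` at `0`), and
`G = log (1 - v P')`; the last identity by uniqueness of logarithms (`Pool.Agent.W677.Mar.exp_unique`). -/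
def S_fe2 : Prop := ∀ (C : ℝ) (N : ℕ), 1 ≤ C → 2 ≤ N → ∀ q E E₁ : ℂ → ℂ, Blk C q E E₁ → ∀ P : ℂ → ℂ,
  DifferentiableOn ℂ P (ball 0 1) →
  (∀ v ∈ ball (0:ℂ) 1, ‖v * Complex.exp (-P (v ^ N) / N)‖ ≤ 1 - 1 / (2 * N) ∧
      P v = P (v ^ N) / N + q (v * Complex.exp (-P (v ^ N) / N))) →
  Set.InjOn (fun v : ℂ => v * Complex.exp (-P v)) (ball 0 1) ∧
  ∃ G : ℂ → ℂ, DifferentiableOn ℂ G (ball 0 1) ∧ G 0 = 0 ∧
    (∀ v ∈ ball (0:ℂ) 1, Complex.exp (G v) = 1 - v * deriv P v) ∧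
    (∀ v ∈ ball (0:ℂ) 1, G v = G (v ^ N) + E (v * Complex.exp (-P (v ^ N) / N)))

/-! ## Piece D: the mean inequality -/

/-- D. `mean (a θ · b (N θ)) ≥ e^{-κ} mean a · mean b`, iterated. -/
def S_mean : Prop := ∀ (a : ℝ → ℝ) (κ : ℝ) (N : ℕ), Continuous a → Function.Periodic a (2 * Real.pi) → (∀ θ, 0 < a θ) →
  1 ≤ N → 0 ≤ κ → (∀ θ θ' : ℝ, |θ - θ'| ≤ 2 * Real.pi / N → a θ ≤ Real.exp κ * a θ') →
  ∀ k : ℕ, (Real.exp (-κ) * ((1 / (2 * Real.pi)) * ∫ θ in (0:ℝ)..(2 * Real.pi), a θ)) ^ k ≤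
    (1 / (2 * Real.pi)) * ∫ θ in (0:ℝ)..(2 * Real.pi), ∏ j ∈ Finset.range k, a ((N : ℝ) ^ j * θ)

/-! ## Piece E: the fractal map -/

/-- E1. The map `Ψ ∈ Σ`: `ψ z = z exp (P (1/z) - P 0)`, `h z = G (1/z) + P (1/z) - P 0`. -/
def S_sig : Prop := ∀ P G : ℂ → ℂ, DifferentiableOn ℂ P (ball 0 1) → DifferentiableOn ℂ G (ball 0 1) → G 0 = 0 →
  Set.InjOn (fun v : ℂ => v * Complex.exp (-P v)) (ball 0 1) →
  (∀ v ∈ ball (0:ℂ) 1, Complex.exp (G v) = 1 - v * deriv P v) →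
  IsSig (fun z => z * Complex.exp (P z⁻¹ - P 0)) (fun z => G z⁻¹ + P z⁻¹ - P 0)

/-- E2. The lower bound (from C1, C2, D, E1). At `‖v‖ = 2^{-1/N^k}`, `G v = ∑_{j<k} E (w (v^(N^j))) + G (v^(N^k))`, and
`E (w u)` differs from `E₁ (ρ u/|u|)`, `ρ = 1 - 1/(N+1)`, by at most `K (1 + √(log N))` when `2^{-1/N} ≤ ‖u‖ < 1`: both points
lie in the closed ball of radius `1 - 1/(2N)` and have distance at most `K (1 + √ (log N))/N`; `a θ = exp (Re (t E₁ (ρ e^{iθ})))`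
satisfies the hypothesis of D with `κ = K ‖t‖`. -/
def S_low : Prop := ∀ C : ℝ, 1 ≤ C → ∃ (N₀ : ℕ) (K : ℝ), 2 ≤ N₀ ∧ 1 ≤ K ∧ ∀ N : ℕ, N₀ ≤ N →
  ∀ q E E₁ : ℂ → ℂ, Blk C q E E₁ →
  ∃ ψ h : ℂ → ℂ, IsSig ψ h ∧ ∀ t : ℂ, ∃ c : ℝ, 0 < c ∧ ∀ k : ℕ,
    c * (Real.exp (-(K * ‖t‖ * (1 + √(Real.log N)))) * ((1 / (2 * Real.pi)) * ∫ θ in (0:ℝ)..(2 * Real.pi),
      ‖Complex.exp (t * E₁ (circleMap 0 (1 - 1 / ((N : ℝ) + 1)) θ))‖)) ^ k ≤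
    pmean t ((2:ℝ) ^ ((1:ℝ) / (N:ℝ) ^ k)) h

/-! ## Piece F: the uniform bound -/

/-- the integral means exponent of the single map is at most `b` -/
def Exps (t : ℂ) (b : ℝ) (h : ℂ → ℂ) : Prop := ∀ ε : ℝ, 0 < ε → ∃ R₀ : ℝ, 1 < R₀ ∧ ∀ R : ℝ, 1 < R → R < R₀ →
  pmean t R h ≤ (R - 1) ^ (-(b + ε))

/-- F1. From E2 and the hypothesis: `X^k ≤ c⁻¹ (2 N^k)^(b+ε)` for large `k` gives `X ≤ N^(b+ε)`, then `ε → 0`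
(`0 ≤ b` follows from `ψ = z`, `h = 0`). -/
def S_F1 : Prop := ∀ (t : ℂ) (b : ℝ), (∀ ψ h : ℂ → ℂ, IsSig ψ h → Exps t b h) → 0 ≤ b ∧
  ∀ (X c : ℝ) (N : ℕ) (ψ h : ℂ → ℂ), 0 ≤ X → 0 < c → 2 ≤ N → IsSig ψ h →
    (∀ k : ℕ, c * X ^ k ≤ pmean t ((2:ℝ) ^ ((1:ℝ) / (N:ℝ) ^ k)) h) → X ≤ (N:ℝ) ^ b

/-- F2. The uniform bound (from A5, B3, E2, F1; rotation by `π` for the right arc). -/
def S_uni : Prop := ∃ C R₀ : ℝ, 1 ≤ C ∧ 1 < R₀ ∧ R₀ ≤ 5 / 4 ∧ ∀ (t : ℂ) (b : ℝ),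
  (∀ ψ h : ℂ → ℂ, IsSig ψ h → Exps t b h) →
  ∀ ψ h : ℂ → ℂ, IsSig ψ h → ∀ R : ℝ, 1 < R → R < R₀ →
    pmean t R h ≤ C * Real.exp (C * ‖t‖ * √(Real.log (1 / (R - 1)))) * (R - 1) ^ (-b)

/-! ## Piece G: the equivalence -/

/-- uniform bound, all `a < α` -/
def QU (α : ℝ) : Prop := ∀ a : ℝ, 0 < a → a < α → ∃ C R₀ : ℝ, 1 < R₀ ∧ ∀ R : ℝ, 1 < R → R < R₀ →
  ∀ ψ h : ℂ → ℂ, IsSig ψ h → marshall a R h ≤ C

/-- each single map, exponent zero -/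
def QI (α : ℝ) : Prop := ∀ a : ℝ, 0 < a → a < α → ∀ ψ h : ℂ → ℂ, IsSig ψ h → ∀ ε : ℝ, 0 < ε → ∃ R₀ : ℝ, 1 < R₀ ∧
  ∀ R : ℝ, 1 < R → R < R₀ → marshall a R h ≤ (R - 1) ^ (-ε)

/-- each single map, Binder's bound on the complex power means -/
def QB (α : ℝ) : Prop := ∀ t : ℂ, ‖t‖ ≤ 2 * α → ∀ ψ h : ℂ → ℂ, IsSig ψ h → Exps t (‖t‖ ^ 2 / (4 * α)) h

/-- G. The equivalence (from F2, `Q90.SM.S_gavg`, `Q90.SM.S_ext`). -/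
def S_eqv : Prop := ∀ α : ℝ, 0 < α → List.TFAE [QU α, QI α, QB α]

end Pool.Agent.Z55U
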