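import Mathlib
import Pool.Agent.Z55U.Stm

/-! # Piece A1, A2: the elementary conformal maps -/

set_option autoImplicit false
open Complex Filter Topology Set Metric MeasureTheory

namespace Pool.Agent.Z55U

theorem Iv_mem {v : ℂ} (hv : v ∈ ball (0:ℂ) 1) : ‖Complex.I * v‖ < 1 := by
  rw [norm_mul, Complex.norm_I, one_mul]
  exact mem_ball_zero_iff.1 hv

theorem one_sub_ne {v : ℂ} (hv : v ∈ ball (0:ℂ) 1) : 1 - Complex.I * v ≠ 0 := by
  intro h
  have h1 := Iv_mem hv
  have : Complex.I * v = 1 := (sub_eq_zero.1 h).symm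
  rw [this, norm_one] at h1
  exact lt_irrefl _ h1

theorem one_add_ne {v : ℂ} (hv : v ∈ ball (0:ℂ) 1) : 1 + Complex.I * v ≠ 0 := by
  intro h
  have h1 := Iv_mem hv
  have : Complex.I * v = -1 := by linear_combination h
  rw [this, norm_neg, norm_one] at h1
  exact lt_irrefl _ h1

theorem quot_re {v : ℂ} (hv : v ∈ ball (0:ℂ) 1) : 0 < ((1 + Complex.I * v) / (1 - Complex.I * v)).re := by
  have h1 := Iv_mem hv
  have h0 := one_sub_ne hv
  set x := Complex.I * v
  have h2 : 0 < Complex.normSq (1 - x) := Complex.normSq_pos.2 h0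
  rw [Complex.div_re, ← add_div]
  apply div_pos _ h2
  have h3 : ‖x‖ ^ 2 < 1 := pow_lt_one₀ (norm_nonneg _) h1 two_ne_zero
  rw [Complex.sq_norm, Complex.normSq_apply] at h3
  simp only [Complex.add_re, Complex.one_re, Complex.sub_re, Complex.add_im, Complex.one_im, Complex.sub_im]
  nlinarith

theorem W_re {v : ℂ} (hv : v ∈ ball (0:ℂ) 1) : |(W v).re| < 1 / 2 := by
  have hpi := Real.pi_pos
  have h1 : (W v).re = ((1 + Complex.I * v) / (1 - Complex.I * v)).arg / Real.pi := by
    unfold W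
    have h2 : Complex.log ((1 + Complex.I * v) / (1 - Complex.I * v)) / (Complex.I * (Real.pi : ℂ)) =
        (-Complex.I * Complex.log ((1 + Complex.I * v) / (1 - Complex.I * v))) / ((Real.pi : ℝ) : ℂ) := by
      have : ((Real.pi : ℝ) : ℂ) ≠ 0 := by exact_mod_cast hpi.ne'
      have hI : Complex.I ≠ 0 := Complex.I_ne_zero
      rw [div_eq_div_iff (mul_ne_zero hI this) this]
      linear_combination ((Real.pi : ℝ) : ℂ) * Complex.log ((1 + Complex.I * v) / (1 - Complex.I * v)) * Complex.I_mul_I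
    rw [h2, Complex.div_ofReal_re]
    congr 1
    simp [Complex.log_im]
  rw [h1, abs_div, abs_of_pos hpi, div_lt_iff₀ hpi]
  have := Complex.abs_arg_lt_pi_div_two_iff.2 (Or.inl (quot_re hv))
  linarith

theorem W_deriv {v : ℂ} (hv : v ∈ ball (0:ℂ) 1) : HasDerivAt W (((2 / Real.pi : ℝ) : ℂ) / (1 + v ^ 2)) v := by
  have hpi : ((Real.pi : ℝ) : ℂ) ≠ 0 := by exact_mod_cast Real.pi_pos.ne'
  have h0 := one_sub_ne hv
  have h0' := one_add_ne hv
  have h1 : HasDerivAt (fun v : ℂ => 1 + Complex.I * v) Complex.I v := by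
    simpa using ((hasDerivAt_id v).const_mul Complex.I).const_add 1
  have h2 : HasDerivAt (fun v : ℂ => 1 - Complex.I * v) (-Complex.I) v := by
    simpa using ((hasDerivAt_id v).const_mul Complex.I).const_sub 1
  have h3 := (h1.div h2 h0)
  have h4 : (fun v : ℂ => 1 + Complex.I * v) v / (fun v : ℂ => 1 - Complex.I * v) v ∈ Complex.slitPlane := Or.inl (quot_re hv)
  have h5 := (h3.clog h4).div_const (Complex.I * (Real.pi : ℂ))
  have e : (1:ℂ) + v ^ 2 = (1 + Complex.I * v) * (1 - Complex.I * v) := by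
    linear_combination v ^ 2 * Complex.I_mul_I
  have hI : Complex.I ≠ 0 := Complex.I_ne_zero
  have e2 : ((2 / Real.pi : ℝ) : ℂ) / (1 + v ^ 2) = ((Complex.I * (1 - Complex.I * v) - (1 + Complex.I * v) * -Complex.I) / (1 - Complex.I * v) ^ 2 /
      ((1 + Complex.I * v) / (1 - Complex.I * v)) / (Complex.I * (Real.pi : ℂ))) := by
    rw [e]
    push_cast
    field_simp
    ring
  rw [e2]
  exact h5

theorem W_inj : Set.InjOn W (ball 0 1) := by
  intro a ha b hb hab
  have hpi : ((Real.pi : ℝ) : ℂ) ≠ 0 := by exact_mod_cast Real.pi_pos.ne'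
  unfold W at hab
  rw [div_left_inj' (mul_ne_zero Complex.I_ne_zero hpi)] at hab
  have h1 : (1 + Complex.I * a) / (1 - Complex.I * a) = (1 + Complex.I * b) / (1 - Complex.I * b) := by
    have g1 : (1 + Complex.I * a) / (1 - Complex.I * a) ≠ 0 := div_ne_zero (one_add_ne ha) (one_sub_ne ha)
    have g2 : (1 + Complex.I * b) / (1 - Complex.I * b) ≠ 0 := div_ne_zero (one_add_ne hb) (one_sub_ne hb)
    rw [← Complex.exp_log g1, hab, Complex.exp_log g2]
  rw [div_eq_div_iff (one_sub_ne ha) (one_sub_ne hb)] at h1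
  have h2 : 2 * Complex.I * (a - b) = 0 := by linear_combination h1
  rcases mul_eq_zero.1 h2 with h3 | h3
  · exact absurd h3 (mul_ne_zero two_ne_zero Complex.I_ne_zero)
  · exact sub_eq_zero.1 h3

theorem W_zero : W 0 = 0 := by simp [W]

theorem re_inv_ge {x : ℂ} (hx : ‖x‖ < 1) : 1 / 2 ≤ (1 / (1 + x)).re := by
  have h3 : ‖x‖ ^ 2 < 1 := pow_lt_one₀ (norm_nonneg _) hx two_ne_zero
  rw [Complex.sq_norm, Complex.normSq_apply] at h3
  have h0 : 1 + x ≠ 0 := by
    intro h
    have : x = -1 := by linear_combination h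
    rw [this, norm_neg, norm_one] at hx
    exact lt_irrefl _ hx
  have h2 : 0 < Complex.normSq (1 + x) := Complex.normSq_pos.2 h0
  rw [one_div (1 + x), Complex.inv_re, le_div_iff₀ h2, Complex.normSq_apply]
  simp only [Complex.add_re, Complex.one_re, Complex.add_im, Complex.one_im]
  nlinarith

theorem W_dslope {v : ℂ} (hv : v ∈ ball (0:ℂ) 1) : 1 / 10 ≤ (dslope W 0 v).re := by
  have hW : DifferentiableOn ℂ W (ball 0 1) := fun x hx => (W_deriv hx).differentiableAt.differentiableWithinAt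
  have h0 : (0:ℂ) ∈ ball (0:ℂ) 1 := mem_ball_self one_pos
  rw [Pool.Agent.W677.Mar.dslope_eq hW h0 hv]
  set F : ℝ → ℂ := fun t => deriv W (0 + (Pool.Agent.W677.Mar.cl t : ℂ) * (v - 0)) with hF
  have hm : ∀ t : ℝ, 0 + (Pool.Agent.W677.Mar.cl t : ℂ) * (v - 0) ∈ ball (0:ℂ) 1 := fun t =>
    Pool.Agent.W677.Mar.seg_mem h0 hv (Pool.Agent.W677.Mar.cl_mem t)
  have hc : Continuous F := by
    apply ((hW.deriv isOpen_ball).continuousOn).comp_continuous _ hm
    exact continuous_const.add ((Complex.continuous_ofReal.comp Pool.Agent.W677.Mar.continuous_cl).mul continuous_const)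
  have h1 : (∫ t in (0:ℝ)..1, F t).re = ∫ t in (0:ℝ)..1, (F t).re := by
    have := Complex.reCLM.intervalIntegral_comp_comm (hc.intervalIntegrable (μ := volume) 0 1)
    simpa using this.symm
  rw [h1]
  have h2 : ∀ t : ℝ, 1 / 10 ≤ (F t).re := by
    intro t
    have g1 := hm t
    rw [hF]
    simp only []
    rw [(W_deriv g1).deriv]
    set x := 0 + (Pool.Agent.W677.Mar.cl t : ℂ) * (v - 0)
    have g2 : ‖x ^ 2‖ < 1 := by
      rw [norm_pow]
      exact pow_lt_one₀ (norm_nonneg _) (mem_ball_zero_iff.1 g1) two_ne_zero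
    have g3 := re_inv_ge g2
    have e : ((2 / Real.pi : ℝ) : ℂ) / (1 + x ^ 2) = ((2 / Real.pi : ℝ) : ℂ) * (1 / (1 + x ^ 2)) := by ring
    rw [e, Complex.re_ofReal_mul]
    have hpi := Real.pi_pos
    have hpi4 := Real.pi_lt_d2
    have g4 : 1 / 5 ≤ 2 / Real.pi := by
      rw [div_le_div_iff₀ (by norm_num) hpi]
      linarith
    nlinarith
  calc (1 / 10 : ℝ) = ∫ _ in (0:ℝ)..1, (1 / 10 : ℝ) := by simp
    _ ≤ ∫ t in (0:ℝ)..1, (F t).re := by
        apply intervalIntegral.integral_mono_on (by norm_num) (continuous_const.intervalIntegrable _ _)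
          ((Complex.continuous_re.comp hc).intervalIntegrable _ _)
        intro t _
        exact h2 t

theorem pW : S_W := ⟨W_zero, fun _ hv => W_deriv hv, W_inj, fun _ hv => W_re hv, fun _ hv => W_dslope hv⟩

theorem pKK : S_W → S_kk := by
  intro hW
  obtain ⟨hW0, hWd, hWi, hWr, -⟩ := hW
  have hne : ∀ v ∈ ball (0:ℂ) 1, 1 + W v ≠ 0 := by
    intro v hv h
    have h1 := (abs_lt.1 (hWr v hv)).1
    have h2 : (1 + W v).re = 0 := by rw [h]; rfl
    rw [Complex.add_re, Complex.one_re] at h2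
    linarith
  have hdW : DifferentiableOn ℂ W (ball 0 1) := fun x hx => (hWd x hx).differentiableAt.differentiableWithinAt
  have hdiff : DifferentiableOn ℂ kk (ball 0 1) := hdW.div (hdW.const_add 1) hne
  have h0 : kk 0 = 0 := by
    unfold kk
    rw [hW0, zero_div]
  have hsq : ∀ w : ℂ, ‖1 + w‖ ^ 2 - ‖w‖ ^ 2 = 1 + 2 * w.re := by
    intro w
    rw [Complex.sq_norm, Complex.sq_norm, Complex.normSq_apply, Complex.normSq_apply]
    simp only [Complex.add_re, Complex.one_re, Complex.add_im, Complex.one_im]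
    ring
  have hsq' : ∀ w : ℂ, ‖1 - w‖ ^ 2 - ‖w‖ ^ 2 = 1 - 2 * w.re := by
    intro w
    rw [Complex.sq_norm, Complex.sq_norm, Complex.normSq_apply, Complex.normSq_apply]
    simp only [Complex.sub_re, Complex.one_re, Complex.sub_im, Complex.one_im]
    ring
  have hlt1 : ∀ v ∈ ball (0:ℂ) 1, ‖kk v‖ < 1 := by
    intro v hv
    have h1 := (abs_lt.1 (hWr v hv)).1
    have h2 := hsq (W v)
    unfold kk
    rw [norm_div, div_lt_one (norm_pos_iff.2 (hne v hv))]
    apply lt_of_pow_lt_pow_left₀ 2 (norm_nonneg _)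
    linarith
  refine ⟨hdiff, ?_, h0, ?_, ?_, ?_⟩
  · intro a ha b hb hab
    unfold kk at hab
    rw [div_eq_div_iff (hne a ha) (hne b hb)] at hab
    apply hWi ha hb
    linear_combination hab
  · intro v hv
    exact Complex.norm_le_norm_of_mapsTo_ball hdiff (fun x hx => by
      rw [mem_closedBall_zero_iff]
      exact (hlt1 x hx).le) h0 (mem_ball_zero_iff.1 hv)
  · intro v hv hv0
    have hWne : W v ≠ 0 := by
      intro h
      apply hv0
      apply hWi hv (mem_ball_self one_pos)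
      rw [h, hW0]
    refine ⟨div_ne_zero hWne (hne v hv), ?_⟩
    have e : (kk v)⁻¹ - 2 = (1 - W v) / W v := by
      unfold kk
      field_simp
      ring
    rw [e, norm_div, le_div_iff₀ (norm_pos_iff.2 hWne), one_mul]
    have h1 := (abs_lt.1 (hWr v hv)).2
    have h2 := hsq' (W v)
    apply abs_le_of_sq_le_sq' _ (norm_nonneg _) |>.2
    linarith
  · intro v hv
    have hv1 := mem_ball_zero_iff.1 hv
    set δ : ℝ := 1 - ‖v‖ with hδ
    have hδ0 : 0 < δ := by linarith
    have hsub : ball v δ ⊆ ball (0:ℂ) 1 := by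
      intro x hx
      rw [mem_ball_iff_norm] at hx
      rw [mem_ball_zero_iff]
      have := norm_add_le (x - v) v
      rw [sub_add_cancel] at this
      linarith
    set P : ℂ → ℂ := fun x => 1 / 2 + W x with hP
    have hPd : DifferentiableOn ℂ P (ball 0 1) := hdW.const_add _
    have hPpos : ∀ x ∈ ball (0:ℂ) 1, 0 < (P x).re := by
      intro x hx
      have h1 := (abs_lt.1 (hWr x hx)).1
      have : (P x).re = 1 / 2 + (W x).re := by
        rw [hP]
        simp
      rw [this]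
      linarith
    have hcl : closedBall v (δ / 2) ⊆ ball v δ := closedBall_subset_ball (by linarith)
    have h1 := Complex.norm_deriv_le_of_forall_mem_sphere_norm_le (c := v) (R := δ / 2) (C := 2 * (P v).re)
      (f := fun x => P x - P v) (by linarith) ((((hPd.mono hsub).sub_const (P v)).diffContOnCl_ball hcl)) (by
        intro x hx
        rw [mem_sphere_iff_norm] at hx
        exact Pool.Agent.W677.Mar.osc hδ0 (hPd.mono hsub) (fun y hy => hPpos y (hsub hy)) hx.le)
    have h2 : deriv (fun x => P x - P v) v = deriv W v := by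
      rw [deriv_sub_const_fun, hP]
      exact ((hWd v hv).const_add (1 / 2)).deriv.trans (hWd v hv).deriv.symm
    rw [h2] at h1
    have h3 : deriv kk v = deriv W v / (1 + W v) ^ 2 := by
      have g1 := hWd v hv
      have g2 := g1.div (g1.const_add 1) (hne v hv)
      have g3 : deriv kk v = _ := g2.deriv
      rw [g3, g1.deriv]
      congr 1
      ring
    rw [h3, norm_div, norm_pow]
    have hW1 : 0 < ‖1 + W v‖ := norm_pos_iff.2 (hne v hv)
    have h4 : (P v).re = 1 / 2 + (W v).re := by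
      rw [hP]
      simp
    have h5 : 2 * (P v).re = ‖1 + W v‖ ^ 2 - ‖W v‖ ^ 2 := by
      rw [hsq, h4]
      ring
    have h6 : ‖deriv W v‖ * δ ≤ 4 * (P v).re := by
      rw [le_div_iff₀ (by linarith)] at h1
      linarith
    have hk1 := hlt1 v hv
    have hkW : ‖kk v‖ * ‖1 + W v‖ = ‖W v‖ := by
      unfold kk
      rw [norm_div]
      field_simp
    have hk0 := norm_nonneg (kk v)
    rw [div_mul_eq_mul_div, div_le_iff₀ (by positivity)]
    have h7 : ‖1 + W v‖ ^ 2 - ‖W v‖ ^ 2 = (1 - ‖kk v‖ ^ 2) * ‖1 + W v‖ ^ 2 := by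
      rw [← hkW]
      ring
    have h8 : (1 - ‖kk v‖ ^ 2) * ‖1 + W v‖ ^ 2 ≤ 2 * (1 - ‖kk v‖) * ‖1 + W v‖ ^ 2 := by
      have : 1 - ‖kk v‖ ^ 2 ≤ 2 * (1 - ‖kk v‖) := by nlinarith
      gcongr
    linarith

end Pool.Agent.Z55U
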