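import Pool.Agent.Z55U.Stm
import Pool.Agent.W677.MarG3
import Pool.Agent.Helper265.BrK

/-! # Pieces A3 and A4 of project Z55U: the two point Goluzin inequality with one point at `2`, and Koebe at `2` -/

set_option autoImplicit false
open Complex Filter Topology Set Metric MeasureTheory

namespace Pool.Agent.Z55U

open Pool.Agent.W677.Mar (Sg NN hat)

theorem half_mem : (1 / 2 : ℂ) ∈ ball (0 : ℂ) 1 := by
  rw [mem_ball_zero_iff]
  norm_num

theorem half_norm : ‖(1 / 2 : ℂ)‖ = 1 / 2 := by norm_num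

/-- `-log (3/4) ≤ 1` -/
theorem log_three_quarters : -Real.log (1 - ‖(1 / 2 : ℂ)‖ ^ 2) ≤ 1 := by
  rw [half_norm]
  have h := Real.one_sub_inv_le_log_of_pos (x := 1 - (1 / 2 : ℝ) ^ 2) (by norm_num)
  have h2 : (1 : ℝ) - (1 - (1 / 2 : ℝ) ^ 2)⁻¹ = -1 / 3 := by norm_num
  rw [h2] at h
  linarith

/-- the Cauchy-Schwarz step -/
theorem log_bound_half {Y H : ℂ → ℂ} (S : Sg Y H) {A : ℂ → ℂ}
    (hA : DifferentiableOn ℂ A (ball 0 1)) (hA0 : A 0 = 0)
    (hAe : ∀ z ∈ ball (0 : ℂ) 1, Complex.exp (A z) = NN Y (1 / 2) z) {z : ℂ} (hz : z ∈ ball (0 : ℂ) 1) :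
    ‖A z‖ ≤ √(-Real.log (1 - ‖z‖)) := by
  have hn : ‖z‖ < 1 := mem_ball_zero_iff.1 hz
  have hn0 : 0 ≤ ‖z‖ := norm_nonneg z
  have hx1 : ‖z‖ ^ 2 < 1 := pow_lt_one₀ hn0 hn two_ne_zero
  obtain ⟨L, hL⟩ : ∃ L, L = -Real.log (1 - ‖z‖ ^ 2) := ⟨_, rfl⟩
  have hL0 : 0 ≤ L := by
    rw [hL]
    have := Real.log_nonpos (by linarith : 0 ≤ 1 - ‖z‖ ^ 2) (by nlinarith)
    linarith
  have hLL : L ≤ -Real.log (1 - ‖z‖) := by
    rw [hL, neg_le_neg_iff]
    apply Real.log_le_log (by linarith)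
    nlinarith
  set c : ℕ → ℂ := fun n => (n.factorial : ℂ)⁻¹ * iteratedDeriv n A 0 with hcdef
  have hc : ∀ z ∈ ball (0:ℂ) 1, HasSum (fun j => c j * z ^ j) (A z) := by
    intro z hz
    have h1 := Complex.hasSum_taylorSeries_on_ball hA hz
    refine h1.congr_fun ?_ |> fun h => h
    intro n
    simp only [hcdef, smul_eq_mul, sub_zero]
    ring
  have hc0 : c 0 = 0 := by
    simp [hcdef, hA0]
  have hpart : ∀ N : ℕ, ‖∑ k ∈ Finset.range N, c k * z ^ k‖ ≤ √L := by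
    intro N
    have h1 : ‖∑ k ∈ Finset.range N, c k * z ^ k‖ ≤
        ∑ k ∈ Finset.range N, (Real.sqrt k * ‖c k‖) * (‖z‖ ^ k / Real.sqrt k) := by
      refine (norm_sum_le _ _).trans (Finset.sum_le_sum fun k _ => ?_)
      rw [norm_mul, norm_pow]
      rcases Nat.eq_zero_or_pos k with h | h
      · rw [h, hc0]
        simp
      · have hk : Real.sqrt k ≠ 0 := by
          have : (0 : ℝ) < k := by exact_mod_cast h
          positivity
        apply le_of_eq
        field_simp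
    have h2 := Finset.sum_mul_sq_le_sq_mul_sq (Finset.range N) (fun k : ℕ => Real.sqrt k * ‖c k‖)
      (fun k : ℕ => ‖z‖ ^ k / Real.sqrt k)
    have h3 : ∑ k ∈ Finset.range N, (Real.sqrt (k : ℝ) * ‖c k‖) ^ 2 ≤ 1 := by
      have := Pool.Agent.W677.Mar.area_log S (by norm_num) half_mem hA hAe hc N
      refine le_trans (le_of_eq (Finset.sum_congr rfl fun k _ => ?_)) (this.trans log_three_quarters)
      rw [mul_pow, Real.sq_sqrt (Nat.cast_nonneg k)]
    have h4 : ∑ k ∈ Finset.range N, (‖z‖ ^ k / Real.sqrt (k : ℝ)) ^ 2 ≤ L := by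
      have h5 := Pool.Agent.W677.Mar.hasSum_log (x := ‖z‖ ^ 2) (by positivity) hx1
      rw [← hL] at h5
      refine le_trans (le_of_eq (Finset.sum_congr rfl fun k _ => ?_)) (sum_le_hasSum
        (Finset.range N) (fun k _ => by positivity) h5)
      rw [div_pow, Real.sq_sqrt (Nat.cast_nonneg k), ← pow_mul, ← pow_mul, mul_comm]
    have h5 : (∑ k ∈ Finset.range N, (Real.sqrt k * ‖c k‖) * (‖z‖ ^ k / Real.sqrt k)) ^ 2 ≤ L := by
      refine h2.trans ?_
      calc _ ≤ 1 * L := mul_le_mul h3 h4 (Finset.sum_nonneg fun k _ => sq_nonneg _) zero_le_one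
        _ = L := one_mul L
    have h6 := Real.abs_le_sqrt h5
    exact h1.trans ((le_abs_self _).trans h6)
  exact (le_of_tendsto ((hc z hz).tendsto_sum_nat.norm) (Eventually.of_forall hpart)).trans
    (Real.sqrt_le_sqrt hLL)

theorem pA : S_A := by
  intro Y H S
  obtain ⟨f, hf, hfe, hf0⟩ := Pool.Agent.W677.Mar.exists_log S
  have hAc : ContinuousOn (fun z => f (1 / 2, z)) (ball 0 1) := by
    apply hf.comp (by fun_prop)
    intro w hw
    exact ⟨half_mem, hw⟩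
  have hAd : DifferentiableOn ℂ (fun z => f (1 / 2, z)) (ball 0 1) :=
    Pool.Agent.W677.Mar.log_diff isOpen_ball hAc (Pool.Agent.W677.Mar.NN_diff S.G.diff half_mem)
      (fun z hz => hfe (1 / 2) half_mem z hz)
  exact ⟨fun z => f (1 / 2, z), hAd, hf0 _ half_mem, fun z hz => hfe _ half_mem z hz,
    fun z hz => log_bound_half S hAd (hf0 _ half_mem) (fun z hz => hfe _ half_mem z hz) hz⟩

/-- `|exp (H (1/2))| ≥ 1/4` -/
theorem exp_H_half {Y H : ℂ → ℂ} (S : Sg Y H) : 1 / 4 ≤ ‖Complex.exp (H (1 / 2))‖ := by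
  have h1 := Pool.Agent.W677.Mar.goluzin S half_mem
  have h2 : -1 ≤ (H (1 / 2)).re := by
    have := Complex.abs_re_le_norm (H (1 / 2))
    have h3 := (abs_le.1 (this.trans (h1.trans log_three_quarters))).1
    exact h3
  rw [Complex.norm_exp]
  have h3 : Real.exp (-1) ≤ Real.exp (H (1 / 2)).re := Real.exp_le_exp.2 h2
  have h4 : (1 / 4 : ℝ) ≤ Real.exp (-1) := by
    rw [Real.exp_neg, ← one_div]
    apply one_div_le_one_div_of_le (Real.exp_pos 1)
    have := Real.exp_one_lt_d9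
    linarith
  linarith

theorem pKoe : S_koe := by
  obtain ⟨c, hc, hk⟩ := Pool.Agent.Helper265.Br.koebe_omit
  refine ⟨c * (1 / 4), by positivity, ?_⟩
  intro Y H S z hz hz0 h1
  -- the exterior map
  set φ : ℂ → ℂ := fun w => w * Y (w⁻¹) with hφ
  have hball : ∀ w ∈ ball (2:ℂ) 1, w⁻¹ ∈ ball (0:ℂ) 1 ∧ w ≠ 0 := by
    intro w hw
    rw [mem_ball, dist_eq_norm] at hw
    have h2 : 1 < ‖w‖ := by
      have h3 : ‖(2:ℂ)‖ ≤ ‖w‖ + ‖w - 2‖ := by
        have := norm_sub_le w (w - 2)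
        rwa [sub_sub_cancel] at this
      have h4 : ‖(2:ℂ)‖ = 2 := by norm_num
      linarith
    constructor
    · rw [mem_ball_zero_iff, norm_inv]
      exact inv_lt_one_of_one_lt₀ h2
    · rintro rfl
      rw [norm_zero] at h2
      linarith
  have hd : ∀ w : ℂ, w ≠ 0 → w⁻¹ ∈ ball (0:ℂ) 1 →
      HasDerivAt φ (Y w⁻¹ - w⁻¹ * deriv Y w⁻¹) w := by
    intro w hw0 hw
    have hY : HasDerivAt Y (deriv Y w⁻¹) w⁻¹ :=
      (S.G.diff.differentiableAt (isOpen_ball.mem_nhds hw)).hasDerivAt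
    have h2 : HasDerivAt (fun w : ℂ => Y w⁻¹) (deriv Y w⁻¹ * (-(w ^ 2)⁻¹)) w :=
      hY.comp w (hasDerivAt_inv hw0)
    have h3 := (hasDerivAt_id w).mul h2
    refine h3.congr_deriv ?_
    simp only [id, one_mul]
    field_simp
    ring
  have hdiff : DifferentiableOn ℂ φ (ball 2 1) := by
    intro w hw
    exact (hd w (hball w hw).2 (hball w hw).1).differentiableAt.differentiableWithinAt
  have hval : ∀ w : ℂ, φ w = Y w⁻¹ / w⁻¹ := by
    intro w
    simp only [hφ, div_inv_eq_mul]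
    ring
  have hinj : InjOn φ (ball 2 1) := by
    intro u hu w hw huw
    rw [hval, hval] at huw
    have h2 := S.G.inj ⟨(hball u hu).1, inv_ne_zero (hball u hu).2⟩
      ⟨(hball w hw).1, inv_ne_zero (hball w hw).2⟩ huw
    exact inv_injective h2
  have hnot : Y z / z ∉ φ '' ball 2 1 := by
    rintro ⟨w, hw, hwz⟩
    rw [hval] at hwz
    have h2 := S.G.inj ⟨(hball w hw).1, inv_ne_zero (hball w hw).2⟩ ⟨hz, hz0⟩ hwz
    rw [← h2, inv_inv] at h1
    rw [mem_ball, dist_eq_norm] at hw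
    linarith
  have h2 := hk φ 2 1 one_pos hdiff hinj _ hnot
  have h3 : deriv φ 2 = Complex.exp (H (1 / 2)) := by
    rw [S.eq _ half_mem]
    have h4 := (hd 2 two_ne_zero (by simpa using half_mem)).deriv
    rw [h4]
    norm_num
  rw [h3] at h2
  have h5 : φ 2 = 2 * Y (1 / 2) := by
    simp only [hφ]
    norm_num
  rw [h5, norm_sub_rev] at h2
  calc c * (1 / 4) ≤ c * 1 * ‖Complex.exp (H (1 / 2))‖ := by
        rw [mul_one]
        gcongr
        exact exp_H_half S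
    _ ≤ _ := h2

end Pool.Agent.Z55U
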