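import Pool.Agent.Z55U.Stm
/-! Piece A5 of MP_16b0ee_an: the building block. -/
set_option autoImplicit false
open Complex Filter Topology Set Metric MeasureTheory

namespace Pool.Agent.Z55U
namespace A5
open Pool.Agent.W677.Mar (Sg NN NN_mul strip_bloch H_bloch)

theorem diff_W (hW : S_W) : DifferentiableOn ℂ W (ball 0 1) :=
  fun v hv => ((hW.2.1 v hv).differentiableAt).differentiableWithinAt

theorem diff_D (hW : S_W) : DifferentiableOn ℂ (dslope W 0) (ball 0 1) :=
  (Complex.differentiableOn_dslope (isOpen_ball.mem_nhds (mem_ball_self one_pos))).2 (diff_W hW)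

theorem W_eq (hW : S_W) (v : ℂ) : W v = v * dslope W 0 v := by
  have h := sub_smul_dslope W 0 v
  rw [hW.1, sub_zero, sub_zero, smul_eq_mul] at h
  exact h.symm

theorem D_zero (hW : S_W) : dslope W 0 0 = ((2 / Real.pi : ℝ) : ℂ) := by
  rw [dslope_same, (hW.2.1 0 (mem_ball_self one_pos)).deriv]
  simp

theorem re_sub (hW : S_W) {v : ℂ} (hv : v ∈ ball (0:ℂ) 1) : 0 < (1 - W v).re := by
  have := (abs_lt.1 (hW.2.2.2.1 v hv)).2
  rw [Complex.sub_re, Complex.one_re]
  linarith

theorem re_add (hW : S_W) {v : ℂ} (hv : v ∈ ball (0:ℂ) 1) : 0 < (1 + W v).re := by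
  have := (abs_lt.1 (hW.2.2.2.1 v hv)).1
  rw [Complex.add_re, Complex.one_re]
  linarith

theorem re_D (hW : S_W) {v : ℂ} (hv : v ∈ ball (0:ℂ) 1) : 0 < (dslope W 0 v).re := by
  have := hW.2.2.2.2 v hv
  linarith

theorem re_sq {v : ℂ} (hv : v ∈ ball (0:ℂ) 1) : 0 < (1 + v ^ 2).re := by
  have h1 : ‖v ^ 2‖ < 1 := by
    rw [norm_pow]
    have h2 : ‖v‖ < 1 := by simpa using hv
    exact pow_lt_one₀ (norm_nonneg _) h2 (by norm_num)
  have h2 := (abs_le.1 (Complex.abs_re_le_norm (v ^ 2))).1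
  rw [Complex.add_re, Complex.one_re]
  linarith

theorem ne_of_re {z : ℂ} (h : 0 < z.re) : z ≠ 0 := by
  intro h0; rw [h0] at h; simp at h

theorem im_log {z : ℂ} (h : 0 < z.re) : |(Complex.log z).im| ≤ Real.pi / 2 := by
  rw [Complex.log_im]
  exact (Complex.abs_arg_lt_pi_div_two_iff.2 (Or.inl h)).le

theorem diff_log {f : ℂ → ℂ} (hf : DifferentiableOn ℂ f (ball 0 1)) (h : ∀ v ∈ ball (0:ℂ) 1, 0 < (f v).re) :
    DifferentiableOn ℂ (fun v => Complex.log (f v)) (ball 0 1) :=
  hf.clog fun v hv => Or.inl (h v hv)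

theorem diff_l1 : DifferentiableOn ℂ (fun v : ℂ => Complex.log (1 + v ^ 2)) (ball 0 1) :=
  diff_log (by fun_prop) fun _ hv => re_sq hv

theorem diff_l2 (hW : S_W) : DifferentiableOn ℂ (fun v : ℂ => Complex.log (dslope W 0 v)) (ball 0 1) :=
  diff_log (diff_D hW) fun _ hv => re_D hW hv

theorem diff_l3 (hW : S_W) : DifferentiableOn ℂ (fun v : ℂ => Complex.log (1 - W v)) (ball 0 1) :=
  diff_log ((differentiableOn_const 1).sub (diff_W hW)) fun _ hv => re_sub hW hv

theorem diff_S1 (hW : S_W) : DifferentiableOn ℂ S1 (ball 0 1) := by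
  unfold S1
  exact (((differentiableOn_const _).sub diff_l1).sub (diff_l2 hW)).sub (diff_l3 hW)

theorem S1_bloch (hW : S_W) {v : ℂ} (hv : v ∈ ball (0:ℂ) 1) : ‖deriv S1 v‖ * (1 - ‖v‖) ≤ 36 := by
  have hn : ‖v‖ < 1 := mem_ball_zero_iff.1 hv
  have hnb := isOpen_ball.mem_nhds hv
  have d1 := (diff_l1.differentiableAt hnb).hasDerivAt
  have d2 := ((diff_l2 hW).differentiableAt hnb).hasDerivAt
  have d3 := ((diff_l3 hW).differentiableAt hnb).hasDerivAt
  have h : HasDerivAt S1 (0 - deriv (fun v : ℂ => Complex.log (1 + v ^ 2)) v -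
      deriv (fun v : ℂ => Complex.log (dslope W 0 v)) v - deriv (fun v : ℂ => Complex.log (1 - W v)) v) v :=
    (((hasDerivAt_const v (Complex.log ((2 / Real.pi : ℝ) : ℂ))).sub d1).sub d2).sub d3
  have b1 := strip_bloch diff_l1 (fun z hz => im_log (re_sq hz)) hv
  have b2 := strip_bloch (diff_l2 hW) (fun z hz => im_log (re_D hW hz)) hv
  have b3 := strip_bloch (diff_l3 hW) (fun z hz => im_log (re_sub hW hz)) hv
  rw [h.deriv]
  have h1 := norm_sub_le (0 - deriv (fun v : ℂ => Complex.log (1 + v ^ 2)) v -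
      deriv (fun v : ℂ => Complex.log (dslope W 0 v)) v) (deriv (fun v : ℂ => Complex.log (1 - W v)) v)
  have h2 := norm_sub_le (0 - deriv (fun v : ℂ => Complex.log (1 + v ^ 2)) v)
      (deriv (fun v : ℂ => Complex.log (dslope W 0 v)) v)
  rw [zero_sub, norm_neg] at h2
  rw [zero_sub] at h1
  rw [zero_sub]
  have hp : 0 < 1 - ‖v‖ := by linarith
  have h3 : ‖-deriv (fun v : ℂ => Complex.log (1 + v ^ 2)) v - deriv (fun v : ℂ => Complex.log (dslope W 0 v)) v -
      deriv (fun v : ℂ => Complex.log (1 - W v)) v‖ ≤ ‖deriv (fun v : ℂ => Complex.log (1 + v ^ 2)) v‖ +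
      ‖deriv (fun v : ℂ => Complex.log (dslope W 0 v)) v‖ + ‖deriv (fun v : ℂ => Complex.log (1 - W v)) v‖ := by
    linarith
  calc _ ≤ (‖deriv (fun v : ℂ => Complex.log (1 + v ^ 2)) v‖ +
      ‖deriv (fun v : ℂ => Complex.log (dslope W 0 v)) v‖ + ‖deriv (fun v : ℂ => Complex.log (1 - W v)) v‖) *
      (1 - ‖v‖) := by gcongr
    _ ≤ 36 := by linarith

theorem exp_S1 (hW : S_W) {v : ℂ} (hv : v ∈ ball (0:ℂ) 1) : Complex.exp (S1 v) =
    ((2 / Real.pi : ℝ) : ℂ) / ((1 + v ^ 2) * dslope W 0 v * (1 - W v)) := by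
  have hpi : ((2 / Real.pi : ℝ) : ℂ) ≠ 0 := by
    have : (0:ℝ) < 2 / Real.pi := by have := Real.pi_pos; positivity
    exact_mod_cast this.ne'
  rw [S1, Complex.exp_sub, Complex.exp_sub, Complex.exp_sub, Complex.exp_log hpi,
    Complex.exp_log (ne_of_re (re_sq hv)), Complex.exp_log (ne_of_re (re_D hW hv)),
    Complex.exp_log (ne_of_re (re_sub hW hv)), div_div, div_div, mul_assoc]

/-- the quotient `(1 - W) / dslope W 0` has modulus between `1/2` and `11` -/
theorem quot_bounds (hW : S_W) (hk : S_kk) {v : ℂ} (hv : v ∈ ball (0:ℂ) 1) :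
    ‖Complex.log (1 - W v) - Complex.log (dslope W 0 v)‖ ≤ 7 := by
  have hn : ‖v‖ < 1 := mem_ball_zero_iff.1 hv
  have r1 := re_sub hW hv
  have r2 := re_D hW hv
  have n1 := ne_of_re r1
  have n2 := ne_of_re r2
  have p1 : 0 < ‖1 - W v‖ := norm_pos_iff.2 n1
  have p2 : 0 < ‖dslope W 0 v‖ := norm_pos_iff.2 n2
  have hD : 1 / 10 ≤ ‖dslope W 0 v‖ := (hW.2.2.2.2 v hv).trans (Complex.re_le_norm _)
  have hup : ‖1 - W v‖ ≤ 11 * ‖dslope W 0 v‖ := by
    have h1 : ‖1 - W v‖ ≤ 1 + ‖W v‖ := by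
      have := norm_sub_le (1:ℂ) (W v)
      rwa [norm_one] at this
    have h2 : ‖W v‖ ≤ ‖dslope W 0 v‖ := by
      rw [W_eq hW v, norm_mul]
      nlinarith
    linarith
  have hlow : ‖dslope W 0 v‖ ≤ 2 * ‖1 - W v‖ := by
    rcases le_or_gt (1 / 2) ‖v‖ with h | h
    · have hv0 : v ≠ 0 := by rw [← norm_pos_iff]; linarith
      obtain ⟨h1, h2⟩ := hk.2.2.2.2.1 v hv hv0
      have hW0 : W v ≠ 0 := by
        rw [W_eq hW v]; exact mul_ne_zero hv0 n2
      have hW1 : 1 + W v ≠ 0 := ne_of_re (re_add hW hv)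
      have h3 : (kk v)⁻¹ - 2 = (1 - W v) / W v := by
        unfold kk
        rw [inv_div]
        field_simp
        ring
      rw [h3, norm_div, le_div_iff₀ (norm_pos_iff.2 hW0), one_mul, W_eq hW v, norm_mul] at h2
      rw [← W_eq hW v] at h2
      nlinarith
    · have h1 : ‖dslope W 0 v‖ ≤ 1 := by
        by_cases hv0 : v = 0
        · rw [hv0, D_zero hW, Complex.norm_real, Real.norm_of_nonneg (by have := Real.pi_pos; positivity)]
          rw [div_le_one Real.pi_pos]
          have := Real.pi_gt_three; linarith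
        · have hvp : 0 < ‖v‖ := norm_pos_iff.2 hv0
          have h2 := Convex.norm_image_sub_le_of_norm_hasDerivWithin_le (f := W)
            (f' := fun x => ((2 / Real.pi : ℝ) : ℂ) / (1 + x ^ 2)) (s := ball (0:ℂ) (1/2)) (C := 1) (x := 0) (y := v)
            (fun x hx => (hW.2.1 x (ball_subset_ball (by norm_num) hx)).hasDerivWithinAt)
            (fun x hx => by
              have hx2 : ‖x‖ < 1 / 2 := mem_ball_zero_iff.1 hx
              have h5 : 3 / 4 ≤ ‖1 + x ^ 2‖ := by
                have h6 := norm_sub_norm_le (1:ℂ) (-x ^ 2)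
                rw [norm_one, norm_neg, norm_pow, sub_neg_eq_add] at h6
                nlinarith [norm_nonneg x]
              rw [norm_div, Complex.norm_real, Real.norm_of_nonneg (by have := Real.pi_pos; positivity)]
              rw [div_le_one (by linarith)]
              have h7 : 2 / Real.pi ≤ 3 / 4 := by
                rw [div_le_iff₀ Real.pi_pos]
                have := Real.pi_gt_three; linarith
              linarith)
            (convex_ball _ _) (mem_ball_self (by norm_num)) (mem_ball_zero_iff.2 h)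
          rw [hW.1, sub_zero, sub_zero, one_mul, W_eq hW v, norm_mul] at h2
          have h8 : ‖v‖ * ‖dslope W 0 v‖ ≤ ‖v‖ * 1 := by linarith
          exact le_of_mul_le_mul_left h8 hvp
      have h2 : 1 / 2 ≤ ‖1 - W v‖ := by
        refine le_trans ?_ (Complex.re_le_norm _)
        have := (abs_lt.1 (hW.2.2.2.1 v hv)).2
        rw [Complex.sub_re, Complex.one_re]
        linarith
      linarith
  have hre : |(Complex.log (1 - W v) - Complex.log (dslope W 0 v)).re| ≤ 3 := by
    rw [Complex.sub_re, Complex.log_re, Complex.log_re, abs_le]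
    have hlog11 : Real.log 11 ≤ 3 := by
      rw [Real.log_le_iff_le_exp (by norm_num)]
      have : Real.exp 3 = Real.exp 1 ^ 3 := by rw [← Real.exp_nat_mul]; norm_num
      rw [this]
      have he := Real.exp_one_gt_d9
      calc (11:ℝ) ≤ (2.7182818283 : ℝ) ^ 3 := by norm_num
        _ ≤ Real.exp 1 ^ 3 := by gcongr
    have hlog2 : Real.log 2 ≤ 3 := by
      have := Real.log_two_lt_d9; linarith
    constructor
    · have h1 := Real.log_le_log p2 hlow
      rw [Real.log_mul (by norm_num) p1.ne'] at h1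
      linarith
    · have h1 := Real.log_le_log p1 hup
      rw [Real.log_mul (by norm_num) p2.ne'] at h1
      linarith
  have him : |(Complex.log (1 - W v) - Complex.log (dslope W 0 v)).im| ≤ 4 := by
    rw [Complex.sub_im]
    have h1 := im_log r1
    have h2 := im_log r2
    have h3 := Real.pi_lt_d2
    have h4 := abs_sub (Complex.log (1 - W v)).im (Complex.log (dslope W 0 v)).im
    linarith
  refine (Complex.norm_le_abs_re_add_abs_im _).trans ?_
  linarith

theorem key (hW : S_W) (hk : S_kk) {Y : ℂ → ℂ} {v : ℂ} (hv : v ∈ ball (0:ℂ) 1) (hv0 : v ≠ 0) :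
    v * (Y (kk v) / kk v - 2 * Y (1 / 2)) = NN Y (1 / 2) (kk v) * ((1 - W v) / dslope W 0 v) := by
  have hk0 := (hk.2.2.2.2.1 v hv hv0).1
  have hD := ne_of_re (re_D hW hv)
  have hW0 : W v ≠ 0 := by
    rw [W_eq hW v]; exact mul_ne_zero hv0 hD
  have hW1 : 1 + W v ≠ 0 := ne_of_re (re_add hW hv)
  have h1 := NN_mul Y (1 / 2) (kk v)
  have h3 : (1 - W v) = W v * ((kk v)⁻¹ - 2) := by
    unfold kk
    rw [inv_div]
    field_simp
    ring
  have h4 : (1 - W v) / dslope W 0 v = v * ((kk v)⁻¹ - 2) := by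
    rw [h3]
    nth_rewrite 1 [W_eq hW v]
    field_simp
  rw [h4]
  field_simp
  linear_combination 2 * h1

end A5

open A5 Pool.Agent.W677.Mar in
theorem pBlk : S_W → S_kk → S_A → S_koe → S_blk := by
  intro hW hk hA ⟨c, hc, hkoe⟩
  set l : ℝ := 3 / c with hl
  have hlp : 0 < l := by positivity
  have hlc : ((l : ℝ) : ℂ) ≠ 0 := by exact_mod_cast hlp.ne'
  set C : ℝ := max 60 (‖Complex.log (l : ℂ)‖ + 8) with hCdef
  have hC60 : 60 ≤ C := le_max_left _ _
  have hCl : ‖Complex.log (l : ℂ)‖ + 8 ≤ C := le_max_right _ _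
  refine ⟨C, by linarith, ?_⟩
  intro Y H hS
  obtain ⟨A, hAd, hA0, hAe, hAb⟩ := hA Y H hS
  have hkm : ∀ v ∈ ball (0:ℂ) 1, kk v ∈ ball (0:ℂ) 1 := by
    intro v hv
    have h1 := hk.2.2.2.1 v hv
    rw [mem_ball_zero_iff] at hv ⊢
    linarith
  have hAk : DifferentiableOn ℂ (fun v => A (kk v)) (ball 0 1) := hAd.comp hk.1 hkm
  have hHk : DifferentiableOn ℂ (fun v => H (kk v)) (ball 0 1) := hS.dH.comp hk.1 hkm
  have hAle : ∀ v ∈ ball (0:ℂ) 1, ‖A (kk v)‖ ≤ √(-Real.log (1 - ‖v‖)) := by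
    intro v hv
    refine (hAb _ (hkm v hv)).trans ?_
    apply Real.sqrt_le_sqrt
    apply neg_le_neg
    have h1 := hk.2.2.2.1 v hv
    have h2 : ‖v‖ < 1 := mem_ball_zero_iff.1 hv
    exact Real.log_le_log (by linarith) (by linarith)
  set q : ℂ → ℂ := fun v => Complex.log (l : ℂ) + A (kk v) + (Complex.log (1 - W v) - Complex.log (dslope W 0 v))
    with hq
  have hqd : DifferentiableOn ℂ q (ball 0 1) :=
    ((differentiableOn_const _).add hAk).add ((diff_l3 hW).sub (diff_l2 hW))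
  have hqe : ∀ v ∈ ball (0:ℂ) 1, Complex.exp (q v) =
      l * (NN Y (1 / 2) (kk v) * ((1 - W v) / dslope W 0 v)) := by
    intro v hv
    simp only [hq]
    rw [Complex.exp_add, Complex.exp_add, Complex.exp_sub, Complex.exp_log hlc, hAe _ (hkm v hv),
      Complex.exp_log (ne_of_re (re_sub hW hv)), Complex.exp_log (ne_of_re (re_D hW hv))]
    ring
  have hqe2 : ∀ v ∈ ball (0:ℂ) 1, v ≠ 0 → Complex.exp (q v) =
      v * (l * (Y (kk v) / kk v - 2 * Y (1 / 2))) := by
    intro v hv hv0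
    rw [hqe v hv, ← key hW hk hv hv0]
    ring
  have hF : ∀ v ∈ ball (0:ℂ) 1, v ≠ 0 →
      (v * Complex.exp (-q v)) * (l * (Y (kk v) / kk v - 2 * Y (1 / 2))) = 1 := by
    intro v hv hv0
    have h1 := hqe2 v hv hv0
    rw [Complex.exp_neg]
    field_simp
    rw [h1]
    ring
  refine ⟨q, fun v => H (kk v) + S1 v - A (kk v), ?_⟩
  constructor
  · exact hqd
  · exact (hHk.add (diff_S1 hW)).sub hAk
  · exact hHk.add (diff_S1 hW)
  · intro v hv
    have h1 := quot_bounds hW hk hv
    have h2 := hAle v hv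
    have h3 : ‖q v‖ ≤ ‖Complex.log (l : ℂ)‖ + ‖A (kk v)‖ + ‖Complex.log (1 - W v) - Complex.log (dslope W 0 v)‖ := by
      simp only [hq]
      exact (norm_add_le _ _).trans (by gcongr; exact norm_add_le _ _)
    have h4 : 0 ≤ √(-Real.log (1 - ‖v‖)) := Real.sqrt_nonneg _
    nlinarith
  · intro v hv
    by_cases hv0 : v = 0
    · rw [hv0, zero_mul, norm_zero]; norm_num
    · have h1 := congrArg norm (hF v hv hv0)
      obtain ⟨h2, h3⟩ := hk.2.2.2.2.1 v hv hv0
      have h4 := hkoe Y H hS _ (hkm v hv) h2 h3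
      rw [norm_one, norm_mul (v * Complex.exp (-q v)), norm_mul (l : ℂ), Complex.norm_real, Real.norm_of_nonneg hlp.le] at h1
      have h5 : 3 ≤ l * ‖Y (kk v) / kk v - 2 * Y (1 / 2)‖ := by
        calc (3:ℝ) = l * c := by rw [hl]; field_simp
          _ ≤ _ := by gcongr
      have h6 := norm_nonneg (v * Complex.exp (-q v))
      nlinarith
  · intro v hv w hw hvw
    have hvw' : v * Complex.exp (-q v) = w * Complex.exp (-q w) := hvw
    by_cases hv0 : v = 0
    · rw [hv0, zero_mul] at hvw'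
      rcases mul_eq_zero.1 hvw'.symm with h | h
      · rw [hv0, h]
      · exact absurd h (Complex.exp_ne_zero _)
    · have hw0 : w ≠ 0 := by
        intro h
        rw [h, zero_mul] at hvw'
        rcases mul_eq_zero.1 hvw' with h | h
        · exact hv0 h
        · exact absurd h (Complex.exp_ne_zero _)
      have h1 := hF v hv hv0
      have h2 := hF w hw hw0
      rw [← hvw'] at h2
      have h3 : v * Complex.exp (-q v) ≠ 0 := mul_ne_zero hv0 (Complex.exp_ne_zero _)
      have h4 := mul_left_cancel₀ h3 (h1.trans h2.symm)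
      have h5 := mul_left_cancel₀ hlc h4
      have h6 : Y (kk v) / kk v = Y (kk w) / kk w := by
        linear_combination h5
      have h7 := hS.G.inj ⟨hkm v hv, (hk.2.2.2.2.1 v hv hv0).1⟩ ⟨hkm w hw, (hk.2.2.2.2.1 w hw hw0).1⟩ h6
      exact hk.2.1 hv hw h7
  · show H (kk 0) + S1 0 - A (kk 0) = 0
    rw [hk.2.2.1, hS.H0, hA0, S1, D_zero hW, hW.1]
    simp
  · intro v hv
    by_cases hv0 : v = 0
    · show Complex.exp (H (kk v) + S1 v - A (kk v)) = _
      rw [hv0, hk.2.2.1, hS.H0, hA0, S1, D_zero hW, hW.1]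
      simp
    · have hnb := isOpen_ball.mem_nhds hv
      have hk0 := (hk.2.2.2.2.1 v hv hv0).1
      have hkb := hkm v hv
      have hD := ne_of_re (re_D hW hv)
      have hW1 : 1 + W v ≠ 0 := ne_of_re (re_add hW hv)
      have hWs : 1 - W v ≠ 0 := ne_of_re (re_sub hW hv)
      have hW0 : W v ≠ 0 := by
        rw [W_eq hW v]; exact mul_ne_zero hv0 hD
      have dq := (hqd.differentiableAt hnb).hasDerivAt
      have dW := hW.2.1 v hv
      set w' : ℂ := ((2 / Real.pi : ℝ) : ℂ) / (1 + v ^ 2) with hw'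
      have dk : HasDerivAt kk (w' / (1 + W v) ^ 2) v := by
        have h1 := dW.div (dW.const_add 1) hW1
        refine h1.congr_deriv ?_
        field_simp
        ring
      have dY := (hS.G.diff.differentiableAt (isOpen_ball.mem_nhds hkb)).hasDerivAt
      have dYk := dY.comp v dk
      have dX := dYk.div dk hk0
      have dR := (hasDerivAt_id v).mul ((dX.sub_const (2 * Y (1 / 2))).const_mul ((l : ℝ) : ℂ))
      have dL := dq.cexp
      have hev : (fun v => Complex.exp (q v)) =ᶠ[𝓝 v]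
          (id * fun v => (l : ℂ) * ((Y ∘ kk / kk) v - 2 * Y (1 / 2))) := by
        have h1 : ∀ᶠ x in 𝓝 v, x ≠ 0 := isOpen_ne.mem_nhds hv0
        filter_upwards [hnb, h1] with x hx hx0
        rw [hqe2 x hx hx0]
        rfl
      have hd := (dL.congr_of_eventuallyEq hev.symm).unique dR
      have hE := hS.eq _ hkb
      have hx := hqe v hv
      have hx2 := hqe2 v hv hv0
      have hkW : kk v * (1 + W v) = W v := by
        unfold kk; field_simp
      have hWD := W_eq hW v
      have hN : NN Y (1 / 2) (kk v) ≠ 0 := NN_ne hS (by rw [mem_ball_zero_iff]; norm_num) hkb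
      have a0 : Complex.exp (q v) * deriv q v = l * (Y (kk v) / kk v - 2 * Y (1 / 2)) +
          v * (l * ((deriv Y (kk v) * (w' / (1 + W v) ^ 2) * kk v - Y (kk v) * (w' / (1 + W v) ^ 2)) / kk v ^ 2)) := by
        rw [hd]
        simp [id]
      have a1 : (1 - v * deriv q v) * Complex.exp (q v) = l * Complex.exp (H (kk v)) * w' / dslope W 0 v ^ 2 := by
        have b1 : (1 - v * deriv q v) * Complex.exp (q v) = Complex.exp (q v) -
            v * (Complex.exp (q v) * deriv q v) := by ring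
        have b2 : (kk v * (1 + W v)) ^ 2 = (v * dslope W 0 v) ^ 2 := by rw [hkW, ← hWD]
        rw [b1, a0, hE, hx2]
        have b3 : l * (Y (kk v) - kk v * deriv Y (kk v)) * w' / dslope W 0 v ^ 2 =
            v ^ 2 * (l * (Y (kk v) - kk v * deriv Y (kk v)) * w' / (kk v * (1 + W v)) ^ 2) := by
          rw [b2]
          field_simp
        rw [b3]
        field_simp
        ring
      show Complex.exp (H (kk v) + S1 v - A (kk v)) = _
      rw [Complex.exp_sub, Complex.exp_add, exp_S1 hW hv, hAe _ hkb]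
      rw [hx] at a1
      have hv2 : 1 + v ^ 2 ≠ 0 := ne_of_re (re_sq hv)
      have a2 : (1 - v * deriv q v) * (NN Y (1 / 2) (kk v) * (1 - W v)) * dslope W 0 v =
          Complex.exp (H (kk v)) * w' := by
        have c1 : (l : ℂ) * ((1 - v * deriv q v) * (NN Y (1 / 2) (kk v) * (1 - W v)) * dslope W 0 v) =
            l * (Complex.exp (H (kk v)) * w') := by
          field_simp at a1
          linear_combination (l : ℂ) * a1
        exact mul_left_cancel₀ hlc c1
      rw [hw'] at a2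
      have c3 : Complex.exp (H (kk v)) * ((((2 / Real.pi : ℝ) : ℂ)) / ((1 + v ^ 2) * dslope W 0 v * (1 - W v))) /
          NN Y (1 / 2) (kk v) = (Complex.exp (H (kk v)) * ((((2 / Real.pi : ℝ) : ℂ)) / (1 + v ^ 2))) /
          (NN Y (1 / 2) (kk v) * (1 - W v) * dslope W 0 v) := by
        field_simp
      rw [c3, ← a2]
      field_simp
  · intro v hv
    have h1 : H (kk v) + S1 v - A (kk v) - (H (kk v) + S1 v) = -A (kk v) := by ring
    show ‖H (kk v) + S1 v - A (kk v) - (H (kk v) + S1 v)‖ ≤ _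
    rw [h1, norm_neg]
    have h2 := hAle v hv
    have h4 : 0 ≤ √(-Real.log (1 - ‖v‖)) := Real.sqrt_nonneg _
    nlinarith
  · intro v hv
    have hn : ‖v‖ < 1 := mem_ball_zero_iff.1 hv
    have hnb := isOpen_ball.mem_nhds hv
    have hkb := hkm v hv
    have dk := (hk.1.differentiableAt hnb).hasDerivAt
    have dH := (hS.dH.differentiableAt (isOpen_ball.mem_nhds hkb)).hasDerivAt
    have dS := ((diff_S1 hW).differentiableAt hnb).hasDerivAt
    have h := (dH.comp v dk).add dS
    have h' : deriv (fun v => H (kk v) + S1 v) v = deriv H (kk v) * deriv kk v + deriv S1 v := h.deriv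
    rw [h']
    have h1 := norm_add_le (deriv H (kk v) * deriv kk v) (deriv S1 v)
    rw [norm_mul] at h1
    have h2 := S1_bloch hW hv
    have h3 := hk.2.2.2.2.2 v hv
    have h4 := H_bloch hS hkb
    have h5 := norm_nonneg (deriv H (kk v))
    have hp : 0 < 1 - ‖v‖ := by linarith
    have h6 : ‖deriv H (kk v)‖ * (‖deriv kk v‖ * (1 - ‖v‖)) ≤ ‖deriv H (kk v)‖ * (4 * (1 - ‖kk v‖)) := by gcongr
    calc ‖deriv H (kk v) * deriv kk v + deriv S1 v‖ * (1 - ‖v‖)
        ≤ (‖deriv H (kk v)‖ * ‖deriv kk v‖ + ‖deriv S1 v‖) * (1 - ‖v‖) := by gcongr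
      _ ≤ C := by nlinarith

end Pool.Agent.Z55U
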