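import Pool.Agent.Z55U.Stm
/-! Piece B23 of MP_16b0ee_an: change of variables on the arcs and the comparison of the arcs. -/
set_option autoImplicit false
open Complex Filter Topology Set Metric MeasureTheory

namespace Pool.Agent.Z55U
open Pool.Agent.W677.Mar (Sg NN hat)

theorem exp_arctan (s : ℝ) : Complex.exp (((Real.arctan s : ℝ) : ℂ) * Complex.I) =
    (1 + Complex.I * s) / ((√(1 + s ^ 2) : ℝ) : ℂ) := by
  rw [Complex.exp_mul_I, ← Complex.ofReal_cos, ← Complex.ofReal_sin, Real.cos_arctan, Real.sin_arctan]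
  push_cast
  field_simp

theorem exp_neg_arctan (s : ℝ) : Complex.exp (((-Real.arctan s : ℝ) : ℂ) * Complex.I) =
    (1 - Complex.I * s) / ((√(1 + s ^ 2) : ℝ) : ℂ) := by
  have := exp_arctan (-s)
  rw [Real.arctan_neg] at this
  rw [this]
  push_cast
  rw [neg_sq]
  ring

theorem one_add_I_mul_ne (x : ℝ) : (1 + Complex.I * x : ℂ) ≠ 0 := by
  intro h
  have := congrArg Complex.re h
  simp at this

theorem one_sub_I_mul_ne (x : ℝ) : (1 - Complex.I * x : ℂ) ≠ 0 := by
  intro h
  have := congrArg Complex.re h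
  simp at this

theorem th_eq (x : ℝ) : Complex.exp (((Real.pi - 2 * Real.arctan x : ℝ) : ℂ) * Complex.I) = th x := by
  have h1 : (((Real.pi - 2 * Real.arctan x : ℝ) : ℂ) * Complex.I) = (Real.pi : ℂ) * Complex.I +
      ((((-Real.arctan x : ℝ) : ℂ) * Complex.I) + (((-Real.arctan x : ℝ) : ℂ) * Complex.I)) := by
    push_cast; ring
  have hs3 : (((√(1 + x ^ 2) : ℝ) : ℂ)) ^ 2 = (1 + Complex.I * x) * (1 - Complex.I * x) := by
    rw [← Complex.ofReal_pow, Real.sq_sqrt (by positivity)]
    push_cast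
    linear_combination ((x:ℂ) ^ 2) * Complex.I_sq
  have hs : (((√(1 + x ^ 2) : ℝ) : ℂ)) ≠ 0 := by
    have : (0:ℝ) < √(1 + x ^ 2) := Real.sqrt_pos.2 (by positivity)
    exact_mod_cast this.ne'
  rw [h1, Complex.exp_add, Complex.exp_pi_mul_I, Complex.exp_add, exp_neg_arctan, th,
    div_mul_div_comm, ← sq (((√(1 + x ^ 2) : ℝ) : ℂ)), hs3]
  have ha := one_add_I_mul_ne x
  have hb := one_sub_I_mul_ne x
  field_simp
  ring

theorem ph_eq (x : ℝ) :
    Complex.exp (((Real.pi - Real.arctan (Real.sinh (Real.pi * x / 2)) : ℝ) : ℂ) * Complex.I) = ph x := by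
  set s := Real.sinh (Real.pi * x / 2) with hs
  have h1 : (((Real.pi - Real.arctan s : ℝ) : ℂ) * Complex.I) = (Real.pi : ℂ) * Complex.I +
      (((-Real.arctan s : ℝ) : ℂ) * Complex.I) := by
    push_cast; ring
  have hc : √(1 + s ^ 2) = Real.cosh (Real.pi * x / 2) := by
    have h2 : 1 + s ^ 2 = Real.cosh (Real.pi * x / 2) ^ 2 := by
      rw [Real.cosh_sq]; ring
    rw [h2, Real.sqrt_sq (Real.cosh_pos _).le]
  rw [h1, Complex.exp_add, Complex.exp_pi_mul_I, exp_neg_arctan, hc, ph, Real.tanh_eq_sinh_div_cosh, ← hs]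
  have hne : ((Real.cosh (Real.pi * x / 2) : ℝ) : ℂ) ≠ 0 := by
    exact_mod_cast (Real.cosh_pos (Real.pi * x / 2)).ne'
  rw [Complex.ofReal_neg, Complex.ofReal_div, Complex.ofReal_div, Complex.ofReal_one]
  field_simp
  ring

theorem cosh_half_pi : Real.cosh (Real.pi / 2) ≤ 3 := by
  have h1 : Real.exp Real.pi ≤ 25 := by
    have hp : Real.pi ≤ 3 + 142 / 1000 := by
      have := Real.pi_lt_d4; linarith
    have h2 : Real.exp Real.pi ≤ Real.exp 3 * Real.exp (142 / 1000) := by
      rw [← Real.exp_add]; exact Real.exp_le_exp.2 hp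
    have h3 : Real.exp 3 ≤ 21 := by
      have : Real.exp 3 = Real.exp 1 ^ 3 := by rw [← Real.exp_nat_mul]; norm_num
      rw [this]
      have he := Real.exp_one_lt_d9
      have he0 := Real.exp_pos 1
      calc Real.exp 1 ^ 3 ≤ (2.7182818286 : ℝ) ^ 3 := by gcongr
        _ ≤ 21 := by norm_num
    have h4 : Real.exp (142 / 1000) ≤ 1000 / 858 := by
      have h5 : 1 - 142 / 1000 ≤ Real.exp (-(142 / 1000 : ℝ)) := by
        have := Real.add_one_le_exp (-(142 / 1000 : ℝ)); linarith
      rw [Real.exp_neg] at h5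
      have h6 := Real.exp_pos (142 / 1000)
      rw [le_inv_comm₀ (by norm_num) h6] at h5
      refine h5.trans ?_
      norm_num
    calc Real.exp Real.pi ≤ Real.exp 3 * Real.exp (142 / 1000) := h2
      _ ≤ 21 * (1000 / 858) := by gcongr
      _ ≤ 25 := by norm_num
  have h2 : Real.exp (Real.pi / 2) ≤ 5 := by
    have h3 : Real.exp (Real.pi / 2) ^ 2 ≤ 5 ^ 2 := by
      rw [← Real.exp_nat_mul]
      have : ((2:ℕ) : ℝ) * (Real.pi / 2) = Real.pi := by push_cast; ring
      rw [this]; linarith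
    exact le_of_sq_le_sq h3 (by norm_num)
  have h3 : Real.exp (-(Real.pi / 2)) ≤ 1 := Real.exp_le_one_iff.2 (by have := Real.pi_pos; linarith)
  rw [Real.cosh_eq]
  linarith

theorem subst_a (f : ℝ → ℝ) (hf : Continuous f) :
    (∫ x in (-1:ℝ)..1, f (Real.pi - 2 * Real.arctan x) * (2 / (1 + x ^ 2))) =
      ∫ θ in (Real.pi / 2)..(3 * Real.pi / 2), f θ := by
  have h1 := intervalIntegral.integral_comp_mul_deriv (a := (-1:ℝ)) (b := 1)
    (f := fun x : ℝ => Real.pi - 2 * Real.arctan x) (f' := fun x : ℝ => -(2 / (1 + x ^ 2))) (g := f)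
    (fun x _ => by
      have := ((Real.hasDerivAt_arctan x).const_mul 2).const_sub Real.pi
      exact this.congr_deriv (by ring))
    (by
      apply Continuous.continuousOn
      apply Continuous.neg
      exact continuous_const.div (by fun_prop) (fun x => by positivity)) hf
  have e1 : Real.pi - 2 * Real.arctan (-1) = 3 * Real.pi / 2 := by
    rw [Real.arctan_neg, Real.arctan_one]; ring
  have e2 : Real.pi - 2 * Real.arctan 1 = Real.pi / 2 := by
    rw [Real.arctan_one]; ring
  simp only [Function.comp_apply] at h1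
  rw [e1, e2, intervalIntegral.integral_symm (Real.pi / 2) (3 * Real.pi / 2)] at h1
  have h2 : (∫ x in (-1:ℝ)..1, f (Real.pi - 2 * Real.arctan x) * -(2 / (1 + x ^ 2))) =
      - ∫ x in (-1:ℝ)..1, f (Real.pi - 2 * Real.arctan x) * (2 / (1 + x ^ 2)) := by
    rw [← intervalIntegral.integral_neg]
    congr 1
    funext x
    ring
  rw [h2] at h1
  linarith

theorem subst_b (f : ℝ → ℝ) (hf : Continuous f) :
    (∫ x in (-1:ℝ)..1, f (Real.pi - Real.arctan (Real.sinh (Real.pi * x / 2))) *
      ((Real.pi / 2) / Real.cosh (Real.pi * x / 2))) =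
      ∫ θ in (Real.pi - Real.arctan (Real.sinh (Real.pi / 2)))..
        (Real.pi + Real.arctan (Real.sinh (Real.pi / 2))), f θ := by
  have h1 := intervalIntegral.integral_comp_mul_deriv (a := (-1:ℝ)) (b := 1)
    (f := fun x : ℝ => Real.pi - Real.arctan (Real.sinh (Real.pi * x / 2)))
    (f' := fun x : ℝ => -((Real.pi / 2) / Real.cosh (Real.pi * x / 2))) (g := f)
    (fun x _ => by
      have h0 : HasDerivAt (fun x : ℝ => Real.pi * x / 2) (Real.pi / 2) x := by
        have := ((hasDerivAt_id x).const_mul Real.pi).div_const 2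
        simpa using this
      have := (h0.sinh.arctan).const_sub Real.pi
      refine this.congr_deriv ?_
      have h2 : 1 + Real.sinh (Real.pi * x / 2) ^ 2 = Real.cosh (Real.pi * x / 2) ^ 2 := by
        rw [Real.cosh_sq]; ring
      rw [h2]
      have h3 := (Real.cosh_pos (Real.pi * x / 2)).ne'
      field_simp)
    (by
      apply Continuous.continuousOn
      apply Continuous.neg
      exact continuous_const.div (by fun_prop) (fun x => (Real.cosh_pos _).ne')) hf
  have e1 : Real.pi - Real.arctan (Real.sinh (Real.pi * (-1) / 2)) =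
      Real.pi + Real.arctan (Real.sinh (Real.pi / 2)) := by
    have : Real.pi * (-1) / 2 = -(Real.pi / 2) := by ring
    rw [this, Real.sinh_neg, Real.arctan_neg]; ring
  have e2 : Real.pi - Real.arctan (Real.sinh (Real.pi * 1 / 2)) =
      Real.pi - Real.arctan (Real.sinh (Real.pi / 2)) := by
    rw [mul_one]
  simp only [Function.comp_apply] at h1
  rw [e1, e2, intervalIntegral.integral_symm (Real.pi - _) (Real.pi + _)] at h1
  have h2 : (∫ x in (-1:ℝ)..1, f (Real.pi - Real.arctan (Real.sinh (Real.pi * x / 2))) *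
      -((Real.pi / 2) / Real.cosh (Real.pi * x / 2))) =
      - ∫ x in (-1:ℝ)..1, f (Real.pi - Real.arctan (Real.sinh (Real.pi * x / 2))) *
      ((Real.pi / 2) / Real.cosh (Real.pi * x / 2)) := by
    rw [← intervalIntegral.integral_neg]
    congr 1
    funext x
    ring
  rw [h2] at h1
  linarith

theorem cont_th : Continuous th := by
  unfold th
  exact (by fun_prop : Continuous fun x : ℝ => (-1 + Complex.I * (x : ℂ))).div (by fun_prop)
    (fun x => one_add_I_mul_ne x)

theorem cont_tanh : Continuous Real.tanh := by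
  have : Real.tanh = fun x => Real.sinh x / Real.cosh x := by
    funext x; exact Real.tanh_eq_sinh_div_cosh x
  rw [this]
  exact Real.continuous_sinh.div Real.continuous_cosh (fun x => (Real.cosh_pos x).ne')

theorem cont_ph : Continuous ph := by
  unfold ph
  have h1 : Continuous fun x : ℝ => (-(1 / Real.cosh (Real.pi * x / 2)) : ℝ) :=
    (continuous_const.div (by fun_prop) (fun x => (Real.cosh_pos _).ne')).neg
  have h2 : Continuous fun x : ℝ => Real.tanh (Real.pi * x / 2) := cont_tanh.comp (by fun_prop)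
  exact (Complex.continuous_ofReal.comp h1).add (continuous_const.mul (Complex.continuous_ofReal.comp h2))

theorem norm_th (x : ℝ) : ‖th x‖ = 1 := by
  rw [← th_eq, Complex.norm_exp_ofReal_mul_I]

theorem norm_ph (x : ℝ) : ‖ph x‖ = 1 := by
  rw [← ph_eq, Complex.norm_exp_ofReal_mul_I]

theorem pSub : S_sub := by
  intro f hf _ hpos
  constructor
  · intro g hg
    have h1 : ∀ x : ℝ, g (th x) = f (Real.pi - 2 * Real.arctan x) := by
      intro x; rw [← th_eq, hg]
    simp only [h1]
    rw [← subst_a f hf, ← intervalIntegral.integral_const_mul]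
    apply intervalIntegral.integral_mono_on (by norm_num)
    · apply Continuous.intervalIntegrable
      apply Continuous.mul
      · exact hf.comp (continuous_const.sub (continuous_const.mul Real.continuous_arctan))
      · exact continuous_const.div (by fun_prop) (fun x => by positivity)
    · apply Continuous.intervalIntegrable
      exact continuous_const.mul (hf.comp (continuous_const.sub (continuous_const.mul Real.continuous_arctan)))
    · intro x _
      have h2 : 2 / (1 + x ^ 2) ≤ 2 := by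
        rw [div_le_iff₀ (by positivity)]
        nlinarith [sq_nonneg x]
      have h3 := hpos (Real.pi - 2 * Real.arctan x)
      calc f (Real.pi - 2 * Real.arctan x) * (2 / (1 + x ^ 2)) ≤ f (Real.pi - 2 * Real.arctan x) * 2 := by gcongr
        _ = 2 * f (Real.pi - 2 * Real.arctan x) := by ring
  · intro g hg
    have h1 : ∀ x : ℝ, g (ph x) = f (Real.pi - Real.arctan (Real.sinh (Real.pi * x / 2))) := by
      intro x; rw [← ph_eq, hg]
    simp only [h1]
    have hc : Continuous fun x : ℝ => f (Real.pi - Real.arctan (Real.sinh (Real.pi * x / 2))) :=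
      hf.comp (continuous_const.sub (Real.continuous_arctan.comp (by fun_prop)))
    have h2 : (∫ x in (-1:ℝ)..1, f (Real.pi - Real.arctan (Real.sinh (Real.pi * x / 2)))) ≤
        2 * ∫ x in (-1:ℝ)..1, f (Real.pi - Real.arctan (Real.sinh (Real.pi * x / 2))) *
          ((Real.pi / 2) / Real.cosh (Real.pi * x / 2)) := by
      rw [← intervalIntegral.integral_const_mul]
      apply intervalIntegral.integral_mono_on (by norm_num)
      · exact hc.intervalIntegrable _ _
      · apply Continuous.intervalIntegrable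
        apply continuous_const.mul
        exact hc.mul (continuous_const.div (by fun_prop) (fun x => (Real.cosh_pos _).ne'))
      · intro x hx
        have h3 := hpos (Real.pi - Real.arctan (Real.sinh (Real.pi * x / 2)))
        have h4 : Real.cosh (Real.pi * x / 2) ≤ 3 := by
          refine le_trans ?_ cosh_half_pi
          rw [Real.cosh_le_cosh]
          have hpi := Real.pi_pos
          rw [abs_of_pos (by linarith : 0 < Real.pi / 2)]
          have h5 : Real.pi * x / 2 = Real.pi / 2 * x := by ring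
          rw [h5, abs_mul, abs_of_pos (by linarith : 0 < Real.pi / 2)]
          have h6 : |x| ≤ 1 := abs_le.2 ⟨hx.1, hx.2⟩
          calc Real.pi / 2 * |x| ≤ Real.pi / 2 * 1 := by gcongr
            _ = Real.pi / 2 := mul_one _
        have h7 : 1 / 2 ≤ (Real.pi / 2) / Real.cosh (Real.pi * x / 2) := by
          rw [le_div_iff₀ (Real.cosh_pos _)]
          have := Real.pi_gt_three
          linarith
        nlinarith
    refine h2.trans ?_
    rw [subst_b f hf]
    have hpi := Real.pi_pos
    have h5 : 0 ≤ Real.arctan (Real.sinh (Real.pi / 2)) :=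
      Real.arctan_nonneg.2 (Real.sinh_nonneg_iff.2 (by linarith))
    have h6 := Real.arctan_lt_pi_div_two (Real.sinh (Real.pi / 2))
    have h7 : (∫ θ in (Real.pi - Real.arctan (Real.sinh (Real.pi / 2)))..
        (Real.pi + Real.arctan (Real.sinh (Real.pi / 2))), f θ) ≤ ∫ θ in (0:ℝ)..(2 * Real.pi), f θ := by
      apply intervalIntegral.integral_mono_interval (by linarith) (by linarith) (by linarith)
      · exact Filter.Eventually.of_forall hpos
      · exact hf.intervalIntegrable _ _
    linarith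

theorem cont_W (hW : S_W) : ContinuousOn W (ball 0 1) :=
  fun v hv => ((hW.2.1 v hv).continuousAt).continuousWithinAt

theorem diff_W (hW : S_W) : DifferentiableOn ℂ W (ball 0 1) :=
  fun v hv => ((hW.2.1 v hv).differentiableAt).differentiableWithinAt

theorem cont_S1 (hW : S_W) : ContinuousOn S1 (ball 0 1) := by
  have h0 : (0:ℂ) ∈ ball (0:ℂ) 1 := mem_ball_self one_pos
  have hd : ContinuousOn (dslope W 0) (ball 0 1) := by
    rw [continuousOn_dslope (isOpen_ball.mem_nhds h0)]
    exact ⟨cont_W hW, (hW.2.1 0 h0).differentiableAt⟩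
  unfold S1
  refine ((continuousOn_const.sub ?_).sub ?_).sub ?_
  · apply ContinuousOn.clog (by fun_prop)
    intro v hv
    left
    have h1 : ‖v ^ 2‖ < 1 := by
      rw [norm_pow]
      have h2 : ‖v‖ < 1 := by simpa using hv
      exact pow_lt_one₀ (norm_nonneg _) h2 (by norm_num)
    have h2 := (abs_le.1 (Complex.abs_re_le_norm (v ^ 2))).1
    rw [Complex.add_re, Complex.one_re]
    linarith
  · apply ContinuousOn.clog hd
    intro v hv
    left
    have := hW.2.2.2.2 v hv
    linarith
  · apply ContinuousOn.clog (continuousOn_const.sub (cont_W hW))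
    intro v hv
    left
    have := (abs_lt.1 (hW.2.2.2.1 v hv)).2
    show 0 < (1 - W v).re
    rw [Complex.sub_re, Complex.one_re]
    linarith

theorem pArc : S_W → S_kk → S_pt → S_sub → S_arc := by
  intro hW hk ⟨C, hC, hpt⟩ hsub
  refine ⟨4 * C, by linarith, ?_⟩
  intro Y H hS t ρ hρ hρ1
  have hρ0 : 0 < ρ := by linarith
  have hmem : ∀ z : ℂ, ‖z‖ = 1 → (ρ : ℂ) * z ∈ ball (0:ℂ) 1 := by
    intro z hz
    rw [mem_ball_zero_iff, norm_mul, hz, mul_one, Complex.norm_real, Real.norm_of_nonneg hρ0.le]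
    exact hρ1
  have hcm : ∀ θ : ℝ, circleMap 0 ρ θ = (ρ : ℂ) * Complex.exp ((θ : ℂ) * Complex.I) := by
    intro θ; rw [circleMap, zero_add]
  have hcb : ∀ θ : ℝ, circleMap 0 ρ θ ∈ ball (0:ℂ) 1 := by
    intro θ
    rw [hcm]
    exact hmem _ (Complex.norm_exp_ofReal_mul_I θ)
  have hHc : ContinuousOn H (ball 0 1) := hS.dH.continuousOn
  have hkm : ∀ v ∈ ball (0:ℂ) 1, kk v ∈ ball (0:ℂ) 1 := by
    intro v hv
    have h1 := hk.2.2.2.1 v hv
    rw [mem_ball_zero_iff] at hv ⊢
    linarith
  have hEc : ContinuousOn (fun v => H (kk v) + S1 v) (ball 0 1) :=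
    (hHc.comp hk.1.continuousOn hkm).add (cont_S1 hW)
  -- the first function
  have hc1 : Continuous fun θ : ℝ => ‖Complex.exp (t * H (circleMap 0 ρ θ))‖ := by
    apply Continuous.norm
    apply Complex.continuous_exp.comp
    exact continuous_const.mul (hHc.comp_continuous (continuous_circleMap 0 ρ) hcb)
  have hc2 : Continuous fun θ : ℝ => ‖Complex.exp (t * (H (kk (circleMap 0 ρ θ)) + S1 (circleMap 0 ρ θ)))‖ := by
    apply Continuous.norm
    apply Complex.continuous_exp.comp
    exact continuous_const.mul (hEc.comp_continuous (continuous_circleMap 0 ρ) hcb)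
  have hs1 := (hsub (fun θ : ℝ => ‖Complex.exp (t * H (circleMap 0 ρ θ))‖) hc1
    (fun θ => by simp only [periodic_circleMap 0 ρ θ]) (fun θ => norm_nonneg _)).1
    (fun z => ‖Complex.exp (t * H ((ρ : ℂ) * z))‖) (fun θ => by simp only [hcm])
  have hs2 := (hsub (fun θ : ℝ => ‖Complex.exp (t * (H (kk (circleMap 0 ρ θ)) + S1 (circleMap 0 ρ θ)))‖) hc2
    (fun θ => by simp only [periodic_circleMap 0 ρ θ]) (fun θ => norm_nonneg _)).2
    (fun z => ‖Complex.exp (t * (H (kk ((ρ : ℂ) * z)) + S1 ((ρ : ℂ) * z)))‖) (fun θ => by simp only [hcm])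
  have hmid : (∫ x in (-1:ℝ)..1, ‖Complex.exp (t * H ((ρ : ℂ) * th x))‖) ≤
      Real.exp (2 * C * ‖t‖) * ∫ x in (-1:ℝ)..1, ‖Complex.exp (t * (H (kk ((ρ : ℂ) * ph x)) + S1 ((ρ : ℂ) * ph x)))‖ := by
    rw [← intervalIntegral.integral_const_mul]
    have i1 : Continuous fun x : ℝ => ‖Complex.exp (t * H ((ρ : ℂ) * th x))‖ := by
      apply Continuous.norm
      apply Complex.continuous_exp.comp
      exact continuous_const.mul (hHc.comp_continuous (continuous_const.mul cont_th) (fun x => hmem _ (norm_th x)))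
    have i2 : Continuous fun x : ℝ => ‖Complex.exp (t * (H (kk ((ρ : ℂ) * ph x)) + S1 ((ρ : ℂ) * ph x)))‖ := by
      apply Continuous.norm
      apply Complex.continuous_exp.comp
      exact continuous_const.mul (hEc.comp_continuous (continuous_const.mul cont_ph) (fun x => hmem _ (norm_ph x)))
    apply intervalIntegral.integral_mono_on (by norm_num) (i1.intervalIntegrable _ _)
      ((continuous_const.mul i2).intervalIntegrable _ _)
    intro x hx
    obtain ⟨hp1, hp2⟩ := hpt ρ hρ hρ1 x hx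
    have hp3 := hp2 Y H hS
    show ‖Complex.exp (t * H ((ρ : ℂ) * th x))‖ ≤ Real.exp (2 * C * ‖t‖) *
      ‖Complex.exp (t * (H (kk ((ρ : ℂ) * ph x)) + S1 ((ρ : ℂ) * ph x)))‖
    rw [Complex.norm_exp, Complex.norm_exp, ← Real.exp_add]
    apply Real.exp_le_exp.2
    have e1 : t * H ((ρ : ℂ) * th x) = t * (H (kk ((ρ : ℂ) * ph x)) + S1 ((ρ : ℂ) * ph x)) -
        (t * (H (kk ((ρ : ℂ) * ph x)) - H ((ρ : ℂ) * th x)) + t * S1 ((ρ : ℂ) * ph x)) := by ring
    rw [e1, Complex.sub_re]
    have e2 := (abs_le.1 (Complex.abs_re_le_norm (t * (H (kk ((ρ : ℂ) * ph x)) - H ((ρ : ℂ) * th x)) +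
      t * S1 ((ρ : ℂ) * ph x)))).1
    have e3 : ‖t * (H (kk ((ρ : ℂ) * ph x)) - H ((ρ : ℂ) * th x)) + t * S1 ((ρ : ℂ) * ph x)‖ ≤ 2 * C * ‖t‖ := by
      refine (norm_add_le _ _).trans ?_
      rw [norm_mul, norm_mul]
      have ht := norm_nonneg t
      nlinarith
    linarith
  have hnn : 0 ≤ ∫ θ in (0:ℝ)..(2 * Real.pi),
      ‖Complex.exp (t * (H (kk (circleMap 0 ρ θ)) + S1 (circleMap 0 ρ θ)))‖ :=
    intervalIntegral.integral_nonneg (by have := Real.pi_pos; linarith) (fun _ _ => norm_nonneg _)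
  have hexp : Real.exp (2 * C * ‖t‖) ≤ Real.exp (4 * C * ‖t‖) := by
    apply Real.exp_le_exp.2
    have := norm_nonneg t
    have h2 : 0 ≤ C * ‖t‖ := by positivity
    linarith
  calc (∫ θ in (Real.pi / 2)..(3 * Real.pi / 2), ‖Complex.exp (t * H (circleMap 0 ρ θ))‖)
      ≤ 2 * ∫ x in (-1:ℝ)..1, ‖Complex.exp (t * H ((ρ : ℂ) * th x))‖ := hs1
    _ ≤ 2 * (Real.exp (2 * C * ‖t‖) *
        ∫ x in (-1:ℝ)..1, ‖Complex.exp (t * (H (kk ((ρ : ℂ) * ph x)) + S1 ((ρ : ℂ) * ph x)))‖) := by gcongr
    _ ≤ 2 * (Real.exp (2 * C * ‖t‖) * (2 * ∫ θ in (0:ℝ)..(2 * Real.pi),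
        ‖Complex.exp (t * (H (kk (circleMap 0 ρ θ)) + S1 (circleMap 0 ρ θ)))‖)) := by gcongr
    _ = 4 * Real.exp (2 * C * ‖t‖) * ∫ θ in (0:ℝ)..(2 * Real.pi),
        ‖Complex.exp (t * (H (kk (circleMap 0 ρ θ)) + S1 (circleMap 0 ρ θ)))‖ := by ring
    _ ≤ (4 * C) * Real.exp (4 * C * ‖t‖) * ∫ θ in (0:ℝ)..(2 * Real.pi),
        ‖Complex.exp (t * (H (kk (circleMap 0 ρ θ)) + S1 (circleMap 0 ρ θ)))‖ := by
      gcongr
      linarith

end Pool.Agent.Z55U
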