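import Mathlib
import Pool.Agent.Z55U.Stm

/-! # Piece F1 -/

set_option autoImplicit false
open Complex Filter Topology Set Metric MeasureTheory

namespace Pool.Agent.Z55U

open Q90.SM (IsSig marshall pmean circ)

theorem sig_id : IsSig (fun z => z) (fun _ => 0) := by
  refine ⟨differentiableOn_id, fun a _ b _ h => h, ⟨0, ?_⟩, differentiableOn_const _, ?_, tendsto_const_nhds⟩
  · simp
  · intro z _
    simp

theorem pmean_zero (t : ℂ) (R : ℝ) : pmean t R (fun _ => 0) = 1 := by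
  unfold pmean
  have := Real.pi_pos
  simp
  field_simp

theorem rad_lower {N k : ℕ} (hN : 2 ≤ N) :
    1 < (2:ℝ) ^ ((1:ℝ) / (N:ℝ) ^ k) ∧ 1 / (2 * (N:ℝ) ^ k) ≤ (2:ℝ) ^ ((1:ℝ) / (N:ℝ) ^ k) - 1 := by
  have hN0 : (0:ℝ) < N := by
    have : 0 < N := by omega
    exact_mod_cast this
  have hx : 0 < (1:ℝ) / (N:ℝ) ^ k := by positivity
  refine ⟨Real.one_lt_rpow one_lt_two hx, ?_⟩
  have h1 : (2:ℝ) ^ ((1:ℝ) / (N:ℝ) ^ k) = Real.exp (Real.log 2 * ((1:ℝ) / (N:ℝ) ^ k)) :=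
    Real.rpow_def_of_pos two_pos _
  have h2 := Real.add_one_le_exp (Real.log 2 * ((1:ℝ) / (N:ℝ) ^ k))
  have h3 : (1:ℝ) / 2 ≤ Real.log 2 := by
    have := Real.log_two_gt_d9
    linarith
  have h4 : 1 / (2 * (N:ℝ) ^ k) = 1 / 2 * ((1:ℝ) / (N:ℝ) ^ k) := by
    field_simp
  rw [h1, h4]
  have h5 : 1 / 2 * ((1:ℝ) / (N:ℝ) ^ k) ≤ Real.log 2 * ((1:ℝ) / (N:ℝ) ^ k) := by gcongr
  linarith

theorem rad_tendsto {N : ℕ} (hN : 2 ≤ N) :
    Tendsto (fun k : ℕ => (2:ℝ) ^ ((1:ℝ) / (N:ℝ) ^ k)) atTop (𝓝 1) := by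
  have hN1 : (1:ℝ) < N := by
    have : 1 < N := by omega
    exact_mod_cast this
  have h1 : Tendsto (fun k : ℕ => (1:ℝ) / (N:ℝ) ^ k) atTop (𝓝 0) := by
    have := tendsto_pow_atTop_nhds_zero_of_lt_one (r := 1 / (N:ℝ)) (by positivity) (by
      rw [div_lt_one (by linarith)]
      exact hN1)
    refine this.congr fun k => ?_
    rw [div_pow, one_pow]
  have h2 : Tendsto (fun x : ℝ => (2:ℝ) ^ x) (𝓝 0) (𝓝 1) := by
    have := (Real.continuous_const_rpow (two_ne_zero : (2:ℝ) ≠ 0)).tendsto (0:ℝ)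
    rwa [Real.rpow_zero] at this
  exact h2.comp h1

theorem pF1 : S_F1 := by
  intro t b hb
  have hb0 : 0 ≤ b := by
    by_contra hneg
    push Not at hneg
    obtain ⟨R₀, hR₀, h⟩ := hb _ _ sig_id (-b / 2) (by linarith)
    set δ : ℝ := min (1 / 2) ((R₀ - 1) / 2) with hδ
    have hδ0 : 0 < δ := lt_min (by norm_num) (by linarith)
    have hδ1 : δ ≤ 1 / 2 := min_le_left _ _
    have hδ2 : δ ≤ (R₀ - 1) / 2 := min_le_right _ _
    have h1 := h (1 + δ) (by linarith) (by linarith)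
    rw [pmean_zero, add_sub_cancel_left] at h1
    have h2 : δ ^ (-(b + -b / 2)) < 1 := Real.rpow_lt_one hδ0.le (by linarith) (by linarith)
    linarith
  refine ⟨hb0, ?_⟩
  intro X c N ψ h hX hc hN hS hk
  have hN1 : (1:ℝ) < N := by
    have : 1 < N := by omega
    exact_mod_cast this
  have hN0 : (0:ℝ) < N := by linarith
  have key : ∀ ε : ℝ, 0 < ε → X ≤ (N:ℝ) ^ (b + ε) := by
    intro ε hε
    obtain ⟨R₀, hR₀, hR⟩ := hb ψ h hS ε hε
    by_contra hcon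
    push Not at hcon
    set Z : ℝ := (N:ℝ) ^ (b + ε) with hZ
    have hZ0 : 0 < Z := Real.rpow_pos_of_pos hN0 _
    have hq : 1 < X / Z := by rwa [one_lt_div hZ0]
    have h1 := tendsto_pow_atTop_atTop_of_one_lt hq
    have h2 := (rad_tendsto hN).eventually_lt_const hR₀
    obtain ⟨k, hk1, hk2⟩ := ((h1.eventually_gt_atTop ((2:ℝ) ^ (b + ε) / c)).and h2).exists
    obtain ⟨g1, g2⟩ := rad_lower (k := k) hN
    have h3 := (hk k).trans (hR _ g1 hk2)
    have h4 : ((2:ℝ) ^ ((1:ℝ) / (N:ℝ) ^ k) - 1) ^ (-(b + ε)) ≤ (1 / (2 * (N:ℝ) ^ k)) ^ (-(b + ε)) :=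
      Real.rpow_le_rpow_of_nonpos (by positivity) g2 (by linarith)
    have h5 : (1 / (2 * (N:ℝ) ^ k)) ^ (-(b + ε)) = (2:ℝ) ^ (b + ε) * Z ^ k := by
      rw [one_div, Real.inv_rpow (by positivity), Real.rpow_neg (by positivity), inv_inv,
        Real.mul_rpow (by norm_num) (by positivity), hZ, ← Real.rpow_natCast, ← Real.rpow_natCast, ← Real.rpow_mul hN0.le,
        ← Real.rpow_mul hN0.le, mul_comm (k:ℝ)]
    rw [h5] at h4
    have h6 : c * X ^ k ≤ (2:ℝ) ^ (b + ε) * Z ^ k := h3.trans h4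
    rw [div_pow, div_lt_div_iff₀ hc (by positivity)] at hk1
    nlinarith
  have hlim : Tendsto (fun ε : ℝ => (N:ℝ) ^ (b + ε)) (𝓝[>] 0) (𝓝 ((N:ℝ) ^ b)) := by
    have h1 : Continuous fun ε : ℝ => (N:ℝ) ^ (b + ε) :=
      (Real.continuous_const_rpow hN0.ne').comp (continuous_const.add continuous_id)
    have := (h1.tendsto 0).mono_left (nhdsWithin_le_nhds (s := Ioi 0))
    simpa using this
  refine ge_of_tendsto hlim ?_
  filter_upwards [self_mem_nhdsWithin] with ε hε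
  exact key ε hε

end Pool.Agent.Z55U
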