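import Mathlib
import Pool.Agent.Z55U.F1
import Pool.Agent.Q90.SM.Ext

/-! # Piece F2 -/

set_option autoImplicit false
open Complex Filter Topology Set Metric MeasureTheory

namespace Pool.Agent.Z55U

open Pool.Agent.W677.Mar (Sg NN hat IsG0)
open Pool.Agent.TH325.SI (mn)
open Q90.SM (IsSig marshall pmean circ FF S_ext)

/-- Lipschitz bound for a Bloch function -/
theorem bloch_lip {f : ℂ → ℂ} {C : ℝ} (hf : DifferentiableOn ℂ f (ball 0 1))
    (hb : ∀ v ∈ ball (0:ℂ) 1, ‖deriv f v‖ * (1 - ‖v‖) ≤ C) {r : ℝ} (hr : r < 1) {u v : ℂ} (hu : ‖u‖ ≤ r) (hv : ‖v‖ ≤ r) :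
    ‖f u - f v‖ ≤ C / (1 - r) * ‖u - v‖ := by
  have hsub : closedBall (0:ℂ) r ⊆ ball 0 1 := closedBall_subset_ball hr
  have hr0 : 0 < 1 - r := by linarith
  refine (convex_closedBall (0:ℂ) r).norm_image_sub_le_of_norm_deriv_le (𝕜 := ℂ) (f := f) ?_ ?_ ?_ ?_
  · intro x hx
    exact hf.differentiableAt (isOpen_ball.mem_nhds (hsub hx))
  · intro x hx
    have h1 := hb x (hsub hx)
    have h2 : ‖x‖ ≤ r := mem_closedBall_zero_iff.1 hx
    rw [le_div_iff₀ hr0]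
    refine le_trans ?_ h1
    gcongr
  · exact mem_closedBall_zero_iff.2 hv
  · exact mem_closedBall_zero_iff.2 hu

theorem sg_neg {Y H : ℂ → ℂ} (S : Sg Y H) : Sg (fun v => Y (-v)) (fun v => H (-v)) := by
  have hneg : MapsTo (fun v : ℂ => -v) (ball 0 1) (ball 0 1) := by
    intro v hv
    rw [mem_ball_zero_iff] at hv ⊢
    rwa [norm_neg]
  have hd : DifferentiableOn ℂ (fun v : ℂ => -v) (ball 0 1) := differentiableOn_id.neg
  refine ⟨⟨S.G.diff.comp hd hneg, by simpa using S.G.one, ?_⟩, S.dH.comp hd hneg, by simpa using S.H0, ?_⟩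
  · intro a ha b hb hab
    have ha' : -a ∈ ball (0:ℂ) 1 \ {0} := ⟨hneg ha.1, by simpa using ha.2⟩
    have hb' : -b ∈ ball (0:ℂ) 1 \ {0} := ⟨hneg hb.1, by simpa using hb.2⟩
    have h1 : Y (-a) / -a = Y (-b) / -b := by
      rw [div_neg, div_neg, neg_inj]
      exact hab
    have := S.G.inj ha' hb' h1
    exact neg_inj.1 this
  · intro w hw
    have h1 := S.eq (-w) (hneg hw)
    have h2 : deriv (fun v => Y (-v)) w = -deriv Y (-w) := by
      exact deriv_comp_neg Y w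
    rw [h1, h2]
    ring

theorem circle_mem {r : ℝ} (h0 : 0 ≤ r) (h1 : r < 1) (θ : ℝ) : circleMap 0 r θ ∈ ball (0:ℂ) 1 := by
  rw [mem_ball_zero_iff, norm_circleMap_zero, abs_of_nonneg h0]
  exact h1

theorem cont_exp {H : ℂ → ℂ} (hH : DifferentiableOn ℂ H (ball 0 1)) (t : ℂ) {r : ℝ} (h0 : 0 ≤ r) (h1 : r < 1) :
    Continuous fun θ : ℝ => ‖Complex.exp (t * H (circleMap 0 r θ))‖ := by
  have hc : Continuous fun θ : ℝ => H (circleMap 0 r θ) :=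
    hH.continuousOn.comp_continuous (continuous_circleMap 0 r) (circle_mem h0 h1)
  exact (Complex.continuous_exp.comp (continuous_const.mul hc)).norm

theorem circleMap_add_pi (r θ : ℝ) : circleMap 0 r (θ + Real.pi) = -circleMap 0 r θ := by
  unfold circleMap
  push_cast
  rw [add_mul, Complex.exp_add, Complex.exp_pi_mul_I]
  ring

/-- the full circle is the union of the two arcs -/
theorem two_arcs {f : ℝ → ℝ} (hc : Continuous f) (hp : Function.Periodic f (2 * Real.pi)) :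
    (∫ θ in (0:ℝ)..(2 * Real.pi), f θ) = (∫ θ in (Real.pi / 2)..(3 * Real.pi / 2), f θ) +
      ∫ θ in (Real.pi / 2)..(3 * Real.pi / 2), f (θ + Real.pi) := by
  rw [intervalIntegral.integral_comp_add_right f Real.pi]
  have e1 : Real.pi / 2 + Real.pi = 3 * Real.pi / 2 := by ring
  have e2 : 3 * Real.pi / 2 + Real.pi = Real.pi / 2 + 2 * Real.pi := by ring
  rw [e1, e2, intervalIntegral.integral_add_adjacent_intervals (hc.intervalIntegrable _ _) (hc.intervalIntegrable _ _)]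
  have := hp.intervalIntegral_add_eq 0 (Real.pi / 2)
  rw [zero_add] at this
  exact this

theorem pmean_eq (hx : S_ext) {ψ h : ℂ → ℂ} (hS : IsSig ψ h) (t : ℂ) {R : ℝ} (hR : 1 < R) :
    pmean t R h = (2 * Real.pi)⁻¹ * ∫ θ in (0:ℝ)..(2 * Real.pi), ‖Complex.exp (t * hat h 0 (circleMap 0 R⁻¹ θ))‖ := by
  rw [(hx ψ h hS).2.2 t R hR]
  unfold mn
  congr 1
  apply intervalIntegral.integral_congr
  intro θ _
  show ‖FF t (hat h 0) (circleMap 0 R⁻¹ θ)‖ ^ 2 = _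
  unfold FF
  rw [← norm_pow, ← Complex.exp_nat_mul]
  congr 2
  push_cast
  ring

/-- moving a bounded distance multiplies the mean by at most a constant -/
theorem exp_move {t a b : ℂ} {D : ℝ} (h : ‖a - b‖ ≤ D) :
    ‖Complex.exp (t * a)‖ ≤ Real.exp (D * ‖t‖) * ‖Complex.exp (t * b)‖ := by
  rw [Complex.norm_exp, Complex.norm_exp, ← Real.exp_add]
  apply Real.exp_le_exp.2
  have h1 : (t * a).re - (t * b).re ≤ ‖t‖ * ‖a - b‖ := by
    rw [← Complex.sub_re, ← mul_sub, ← norm_mul]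
    exact Complex.re_le_norm _
  have h2 : ‖t‖ * ‖a - b‖ ≤ ‖t‖ * D := by gcongr
  linarith

/-- the left arc at the radius `1 - 1/(N+1)` -/
theorem left_arc (hB : S_blk) (hA : S_arc) (hL : S_low) (h1 : S_F1) : ∃ (N₀ : ℕ) (C : ℝ), 2 ≤ N₀ ∧ 1 ≤ C ∧
    ∀ (t : ℂ) (b : ℝ), (∀ ψ h : ℂ → ℂ, IsSig ψ h → Exps t b h) → ∀ Y H : ℂ → ℂ, Sg Y H → ∀ N : ℕ, N₀ ≤ N →
      (∫ θ in (Real.pi / 2)..(3 * Real.pi / 2), ‖Complex.exp (t * H (circleMap 0 (1 - 1 / ((N : ℝ) + 1)) θ))‖) ≤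
        C * Real.exp (C * ‖t‖ * (1 + √(Real.log N))) * (N:ℝ) ^ b := by
  obtain ⟨C₁, hC₁, hB⟩ := hB
  obtain ⟨C₂, hC₂, hA⟩ := hA
  obtain ⟨N₀, K, hN₀, hK, hL⟩ := hL C₁ hC₁
  have hpi := Real.pi_pos
  have hpi3 := Real.pi_gt_three
  refine ⟨N₀, C₂ * (2 * Real.pi) + C₂ + K, hN₀, by nlinarith, ?_⟩
  intro t b hb Y H S N hN
  have hN2 : 2 ≤ N := hN₀.trans hN
  have hNr : (2:ℝ) ≤ N := by exact_mod_cast hN2
  have hρ1 : 1 / ((N:ℝ) + 1) ≤ 1 / 2 := by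
    apply one_div_le_one_div_of_le <;> linarith
  have hρ0 : 0 < 1 / ((N:ℝ) + 1) := by positivity
  obtain ⟨q, E, B⟩ := hB Y H S
  obtain ⟨ψ, h, hS, hk⟩ := hL N hN q E _ B
  obtain ⟨c, hc, hk⟩ := hk t
  obtain ⟨hb0, hX⟩ := h1 t b hb
  set ρ : ℝ := 1 - 1 / ((N : ℝ) + 1) with hρ
  set I₁ : ℝ := ∫ θ in (0:ℝ)..(2 * Real.pi), ‖Complex.exp (t * (H (kk (circleMap 0 ρ θ)) + S1 (circleMap 0 ρ θ)))‖ with hI₁
  have hI₁0 : 0 ≤ I₁ := intervalIntegral.integral_nonneg (by positivity) fun θ _ => norm_nonneg _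
  have h2 := hX (Real.exp (-(K * ‖t‖ * (1 + √(Real.log N)))) * ((1 / (2 * Real.pi)) * I₁)) c N ψ h (by positivity) hc hN2 hS hk
  have h3 := hA Y H S t ρ (by linarith) (by linarith)
  rw [← hI₁] at h3
  have h4 : I₁ ≤ 2 * Real.pi * Real.exp (K * ‖t‖ * (1 + √(Real.log N))) * (N:ℝ) ^ b := by
    have e : I₁ = 2 * Real.pi * Real.exp (K * ‖t‖ * (1 + √(Real.log N))) *
        (Real.exp (-(K * ‖t‖ * (1 + √(Real.log N)))) * ((1 / (2 * Real.pi)) * I₁)) := by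
      rw [Real.exp_neg]
      field_simp
    rw [e]
    gcongr
  have hs : 0 ≤ √(Real.log N) := Real.sqrt_nonneg _
  have hNb : 0 ≤ (N:ℝ) ^ b := by positivity
  calc (∫ θ in (Real.pi / 2)..(3 * Real.pi / 2), ‖Complex.exp (t * H (circleMap 0 ρ θ))‖)
      ≤ C₂ * Real.exp (C₂ * ‖t‖) * I₁ := h3
    _ ≤ C₂ * Real.exp (C₂ * ‖t‖) * (2 * Real.pi * Real.exp (K * ‖t‖ * (1 + √(Real.log N))) * (N:ℝ) ^ b) := by gcongr
    _ = (C₂ * (2 * Real.pi)) * Real.exp (C₂ * ‖t‖ + K * ‖t‖ * (1 + √(Real.log N))) * (N:ℝ) ^ b := by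
        rw [Real.exp_add]
        ring
    _ ≤ (C₂ * (2 * Real.pi) + C₂ + K) * Real.exp ((C₂ * (2 * Real.pi) + C₂ + K) * ‖t‖ * (1 + √(Real.log N))) * (N:ℝ) ^ b := by
        gcongr
        · linarith
        · have h5 : 0 ≤ ‖t‖ := norm_nonneg t
          have h6 : 0 ≤ C₂ * (2 * Real.pi) * ‖t‖ * (1 + √(Real.log N)) := by positivity
          have h7 : 0 ≤ C₂ * ‖t‖ * √(Real.log N) := by positivity
          nlinarith

/-- the full circle at the radius `1 - 1/(N+1)` -/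
theorem full_circle (hB : S_blk) (hA : S_arc) (hL : S_low) (h1 : S_F1) : ∃ (N₀ : ℕ) (C : ℝ), 2 ≤ N₀ ∧ 1 ≤ C ∧
    ∀ (t : ℂ) (b : ℝ), (∀ ψ h : ℂ → ℂ, IsSig ψ h → Exps t b h) → ∀ Y H : ℂ → ℂ, Sg Y H → ∀ N : ℕ, N₀ ≤ N →
      (∫ θ in (0:ℝ)..(2 * Real.pi), ‖Complex.exp (t * H (circleMap 0 (1 - 1 / ((N : ℝ) + 1)) θ))‖) ≤
        C * Real.exp (C * ‖t‖ * (1 + √(Real.log N))) * (N:ℝ) ^ b := by
  obtain ⟨N₀, C, hN₀, hC, hl⟩ := left_arc hB hA hL h1
  refine ⟨N₀, 2 * C, hN₀, by linarith, ?_⟩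
  intro t b hb Y H S N hN
  have hN2 : 2 ≤ N := hN₀.trans hN
  have hNr : (2:ℝ) ≤ N := by exact_mod_cast hN2
  have hρ1 : 1 / ((N:ℝ) + 1) ≤ 1 / 2 := by
    apply one_div_le_one_div_of_le <;> linarith
  have hρ0 : 0 < 1 / ((N:ℝ) + 1) := by positivity
  have hcont := cont_exp S.dH t (r := 1 - 1 / ((N : ℝ) + 1)) (by linarith) (by linarith)
  rw [two_arcs hcont (by
    intro θ
    show ‖Complex.exp (t * H (circleMap 0 _ (θ + 2 * Real.pi)))‖ = _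
    rw [periodic_circleMap 0 _ θ])]
  have g1 := hl t b hb Y H S N hN
  have g2 := hl t b hb _ _ (sg_neg S) N hN
  have e : ∀ θ : ℝ, ‖Complex.exp (t * H (circleMap 0 (1 - 1 / ((N : ℝ) + 1)) (θ + Real.pi)))‖ =
      ‖Complex.exp (t * H (-circleMap 0 (1 - 1 / ((N : ℝ) + 1)) θ))‖ := by
    intro θ
    rw [circleMap_add_pi]
  simp only [e]
  have hs : 0 ≤ √(Real.log N) := Real.sqrt_nonneg _
  have h5 : 0 ≤ ‖t‖ := norm_nonneg t
  have h6 : Real.exp (C * ‖t‖ * (1 + √(Real.log N))) ≤ Real.exp (2 * C * ‖t‖ * (1 + √(Real.log N))) := by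
    apply Real.exp_le_exp.2
    have : 0 ≤ C * ‖t‖ * (1 + √(Real.log N)) := by positivity
    linarith
  calc _ ≤ C * Real.exp (C * ‖t‖ * (1 + √(Real.log N))) * (N:ℝ) ^ b + C * Real.exp (C * ‖t‖ * (1 + √(Real.log N))) * (N:ℝ) ^ b :=
        add_le_add g1 g2
    _ = 2 * C * Real.exp (C * ‖t‖ * (1 + √(Real.log N))) * (N:ℝ) ^ b := by ring
    _ ≤ _ := by gcongr

theorem pUni (hx : S_ext) (hB : S_blk) (hA : S_arc) (hL : S_low) (h1 : S_F1) : S_uni := by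
  obtain ⟨N₀, C, hN₀, hC, hf⟩ := full_circle hB hA hL h1
  have hpi := Real.pi_pos
  have hpi3 := Real.pi_gt_three
  have hN₀r : (2:ℝ) ≤ N₀ := by exact_mod_cast hN₀
  refine ⟨8 + 2 * C, min (5 / 4) (1 + 1 / ((N₀:ℝ) + 1)), by linarith, ?_, min_le_left _ _, ?_⟩
  · apply lt_min (by norm_num)
    have : 0 < 1 / ((N₀:ℝ) + 1) := by positivity
    linarith
  intro t b hb ψ h hS R hR hR'
  have hR1 : R < 5 / 4 := hR'.trans_le (min_le_left _ _)
  have hR2 : R < 1 + 1 / ((N₀:ℝ) + 1) := hR'.trans_le (min_le_right _ _)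
  have hR0 : 0 < R - 1 := by linarith
  set x : ℝ := 1 / (R - 1) with hxdef
  have hx0 : 0 < x := by positivity
  have hx4 : 4 ≤ x := by
    rw [hxdef, le_div_iff₀ hR0]
    linarith
  have hxN : (N₀:ℝ) + 1 ≤ x := by
    have h2 : R - 1 < 1 / ((N₀:ℝ) + 1) := by linarith
    rw [lt_div_iff₀ (by linarith)] at h2
    rw [hxdef, le_div_iff₀ hR0]
    linarith
  set N : ℕ := ⌊x⌋₊ with hN
  have hNx : (N:ℝ) ≤ x := Nat.floor_le hx0.le
  have hxN1 : x < (N:ℝ) + 1 := Nat.lt_floor_add_one x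
  have hNN : N₀ ≤ N := by
    have : (N₀:ℝ) < (N:ℝ) + 1 := by linarith
    have : N₀ < N + 1 := by exact_mod_cast this
    omega
  have hNr : (2:ℝ) ≤ N := by
    have : 2 ≤ N := hN₀.trans hNN
    exact_mod_cast this
  have hN1 : 0 < 1 / ((N:ℝ) + 1) := by positivity
  have hN1' : 1 / ((N:ℝ) + 1) ≤ 1 / 3 := by
    apply one_div_le_one_div_of_le <;> linarith
  obtain ⟨hb0, -⟩ := h1 t b hb
  have S := (hx ψ h hS).1
  rw [pmean_eq hx hS t hR]
  set H := hat h 0 with hH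
  have hRi0 : 0 < R⁻¹ := by positivity
  have hRi1 : R⁻¹ < 1 := inv_lt_one_of_one_lt₀ hR
  -- distances
  have d1 : 4 / 5 * (1 / ((N:ℝ) + 1)) ≤ 1 - R⁻¹ := by
    have e1 : 1 - R⁻¹ = (R - 1) / R := by field_simp
    have e2 : 1 / ((N:ℝ) + 1) ≤ R - 1 := by
      rw [div_le_iff₀ (by linarith)]
      have : 1 = (R - 1) * x := by rw [hxdef]; field_simp
      nlinarith
    rw [e1, le_div_iff₀ (by linarith)]
    have : 4 / 5 * (1 / ((N:ℝ) + 1)) * R ≤ 4 / 5 * (1 / ((N:ℝ) + 1)) * (5 / 4) := by gcongr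
    linarith
  have d2 : 1 - R⁻¹ ≤ 2 * (1 / ((N:ℝ) + 1)) := by
    have e1 : 1 - R⁻¹ = (R - 1) / R := by field_simp
    have e2 : R - 1 ≤ 1 / (N:ℝ) := by
      rw [le_div_iff₀ (by linarith)]
      have : 1 = (R - 1) * x := by rw [hxdef]; field_simp
      nlinarith
    have e3 : 1 / (N:ℝ) ≤ 2 * (1 / ((N:ℝ) + 1)) := by
      rw [mul_one_div, div_le_div_iff₀ (by linarith) (by linarith)]
      linarith
    rw [e1, div_le_iff₀ (by linarith)]
    have : 2 * (1 / ((N:ℝ) + 1)) * 1 ≤ 2 * (1 / ((N:ℝ) + 1)) * R := by gcongr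
    linarith
  have hmove : ∀ θ : ℝ, ‖H (circleMap 0 R⁻¹ θ) - H (circleMap 0 (1 - 1 / ((N : ℝ) + 1)) θ)‖ ≤ 8 := by
    intro θ
    have g := bloch_lip S.dH (fun v hv => Pool.Agent.W677.Mar.H_bloch S hv) (r := 1 - 4 / 5 * (1 / ((N:ℝ) + 1))) (by linarith)
      (u := circleMap 0 R⁻¹ θ) (v := circleMap 0 (1 - 1 / ((N : ℝ) + 1)) θ)
      (by rw [norm_circleMap_zero, abs_of_pos hRi0]; linarith)
      (by rw [norm_circleMap_zero, abs_of_nonneg (by linarith)]; linarith)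
    refine g.trans ?_
    have e : circleMap 0 R⁻¹ θ - circleMap 0 (1 - 1 / ((N : ℝ) + 1)) θ =
        ((R⁻¹ - (1 - 1 / ((N : ℝ) + 1)) : ℝ) : ℂ) * Complex.exp ((θ : ℂ) * Complex.I) := by
      unfold circleMap
      push_cast
      ring
    rw [e, norm_mul, Complex.norm_exp_ofReal_mul_I, mul_one, Complex.norm_real, Real.norm_eq_abs]
    have h7 : |R⁻¹ - (1 - 1 / ((N : ℝ) + 1))| ≤ 1 / ((N : ℝ) + 1) := by
      rw [abs_le]
      constructor <;> linarith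
    have e3 : 1 - (1 - 4 / 5 * (1 / ((N:ℝ) + 1))) = 4 / 5 * (1 / ((N:ℝ) + 1)) := by ring
    rw [e3]
    calc 6 / (4 / 5 * (1 / ((N:ℝ) + 1))) * |R⁻¹ - (1 - 1 / ((N : ℝ) + 1))|
        ≤ 6 / (4 / 5 * (1 / ((N:ℝ) + 1))) * (1 / ((N : ℝ) + 1)) := by gcongr
      _ = 15 / 2 := by
          field_simp
          norm_num
      _ ≤ 8 := by norm_num
  have hc1 := cont_exp S.dH t hRi0.le hRi1
  have hc2 := cont_exp S.dH t (r := 1 - 1 / ((N : ℝ) + 1)) (by linarith) (by linarith)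
  have h8 : (∫ θ in (0:ℝ)..(2 * Real.pi), ‖Complex.exp (t * H (circleMap 0 R⁻¹ θ))‖) ≤
      Real.exp (8 * ‖t‖) * ∫ θ in (0:ℝ)..(2 * Real.pi), ‖Complex.exp (t * H (circleMap 0 (1 - 1 / ((N : ℝ) + 1)) θ))‖ := by
    rw [← intervalIntegral.integral_const_mul]
    apply intervalIntegral.integral_mono_on (by positivity) (hc1.intervalIntegrable _ _)
      ((hc2.const_mul _).intervalIntegrable _ _)
    intro θ _
    exact exp_move (hmove θ)
  have h9 := hf t b hb _ H S N hNN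
  have hlogx : 1 ≤ Real.log x := by
    have h10 : Real.exp 1 ≤ x := by
      have := Real.exp_one_lt_d9
      linarith
    have := Real.log_le_log (Real.exp_pos 1) h10
    rwa [Real.log_exp] at this
  have hsx : 1 ≤ √(Real.log x) := by
    rw [Real.one_le_sqrt]
    exact hlogx
  have hNpos : 0 < (N:ℝ) := by linarith
  have hsN : √(Real.log N) ≤ √(Real.log x) := Real.sqrt_le_sqrt (Real.log_le_log hNpos hNx)
  have hNb : (N:ℝ) ^ b ≤ (R - 1) ^ (-b) := by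
    have e : (R - 1) ^ (-b) = x ^ b := by
      rw [hxdef, one_div, Real.inv_rpow hR0.le, Real.rpow_neg hR0.le]
    rw [e]
    exact Real.rpow_le_rpow hNpos.le hNx hb0
  have h5 : 0 ≤ ‖t‖ := norm_nonneg t
  have hs : 0 ≤ √(Real.log N) := Real.sqrt_nonneg _
  have h12 : (2 * Real.pi)⁻¹ ≤ 1 := by
    apply inv_le_one_of_one_le₀
    linarith
  calc (2 * Real.pi)⁻¹ * ∫ θ in (0:ℝ)..(2 * Real.pi), ‖Complex.exp (t * H (circleMap 0 R⁻¹ θ))‖
      ≤ (2 * Real.pi)⁻¹ * (Real.exp (8 * ‖t‖) * (C * Real.exp (C * ‖t‖ * (1 + √(Real.log N))) * (N:ℝ) ^ b)) := by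
        have := h8.trans (mul_le_mul_of_nonneg_left h9 (Real.exp_pos (8 * ‖t‖)).le)
        gcongr
    _ ≤ 1 * (Real.exp (8 * ‖t‖) * (C * Real.exp (C * ‖t‖ * (1 + √(Real.log N))) * (N:ℝ) ^ b)) := by
        gcongr
    _ = C * Real.exp (8 * ‖t‖ + C * ‖t‖ * (1 + √(Real.log N))) * (N:ℝ) ^ b := by
        rw [Real.exp_add]
        ring
    _ ≤ (8 + 2 * C) * Real.exp ((8 + 2 * C) * ‖t‖ * √(Real.log x)) * (R - 1) ^ (-b) := by
        gcongr
        · linarith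
        · have h13 : 8 * ‖t‖ ≤ 8 * ‖t‖ * √(Real.log x) := by nlinarith
          have h14 : C * ‖t‖ * (1 + √(Real.log N)) ≤ C * ‖t‖ * (√(Real.log x) + √(Real.log x)) := by
            gcongr
          nlinarith

end Pool.Agent.Z55U
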