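import Mathlib
import Pool.Agent.Z55U.F2
import Pool.Agent.Z55U.B23

/-! # Piece B1 (helper24): the pointwise comparison on the arc -/

set_option autoImplicit false
set_option linter.all false
open Complex Filter Topology Set Metric MeasureTheory

namespace Pool.Agent.Z55U

open Pool.Agent.W677.Mar (Sg NN hat)

namespace B1

theorem log36 : Real.log 36 ≤ 4 := by
  rw [Real.log_le_iff_le_exp (by norm_num)]
  have h : Real.exp 4 = Real.exp 1 ^ 4 := by rw [← Real.exp_nat_mul]; norm_num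
  rw [h]
  have he := Real.exp_one_gt_d9
  calc (36:ℝ) ≤ (2.7 : ℝ) ^ 4 := by norm_num
    _ ≤ Real.exp 1 ^ 4 := by gcongr; linarith

theorem norm_log_le {z : ℂ} (h1 : 1 / 36 ≤ ‖z‖) (h2 : ‖z‖ ≤ 36) : ‖Complex.log z‖ ≤ 8 := by
  have h0 : 0 < ‖z‖ := by linarith
  have h3 : |(Complex.log z).re| ≤ 4 := by
    rw [Complex.log_re, abs_le]
    constructor
    · have h4 : Real.log (1 / 36) ≤ Real.log ‖z‖ := Real.log_le_log (by norm_num) h1
      rw [one_div, Real.log_inv] at h4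
      have := log36
      linarith
    · exact (Real.log_le_log h0 h2).trans log36
  have h4 : |(Complex.log z).im| ≤ 4 := by
    rw [Complex.log_im]
    have := Complex.abs_arg_le_pi z
    have := Real.pi_le_four
    linarith
  have := Complex.norm_le_abs_re_add_abs_im (Complex.log z)
  linarith

/-- the quotient in the definition of `W` -/
noncomputable def Nq (v : ℂ) : ℂ := (1 + Complex.I * v) / (1 - Complex.I * v)

theorem W_eq (v : ℂ) : W v = Complex.log (Nq v) / (Complex.I * (Real.pi : ℂ)) := rfl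

theorem norm_add_I (v : ℂ) : |v.re| ≤ ‖1 + Complex.I * v‖ := by
  have h : (1 + Complex.I * v).im = v.re := by simp
  rw [← h]
  exact Complex.abs_im_le_norm _

theorem norm_sub_I (v : ℂ) : |v.re| ≤ ‖1 - Complex.I * v‖ := by
  have h : (1 - Complex.I * v).im = -v.re := by simp
  have h2 := Complex.abs_im_le_norm (1 - Complex.I * v)
  rwa [h, abs_neg] at h2

theorem sq_fac (v : ℂ) : 1 + v ^ 2 = (1 + Complex.I * v) * (1 - Complex.I * v) := by
  linear_combination (v ^ 2) * Complex.I_sq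

theorem Nq_re_im {v : ℂ} (h : v.re ≠ 0) : Nq v = (((1 - ‖v‖ ^ 2 : ℝ) : ℂ) + ((2 * v.re : ℝ) : ℂ) * Complex.I) /
    ((‖1 - Complex.I * v‖ ^ 2 : ℝ) : ℂ) := by
  have h0 : 1 - Complex.I * v ≠ 0 := by
    intro h1
    have h2 := norm_sub_I v
    rw [h1, norm_zero] at h2
    exact h (abs_nonpos_iff.1 h2)
  have h1 : ((‖1 - Complex.I * v‖ ^ 2 : ℝ) : ℂ) = (1 - Complex.I * v) * (starRingEnd ℂ) (1 - Complex.I * v) := by
    rw [Complex.mul_conj, Complex.normSq_eq_norm_sq]
  have h2 : (starRingEnd ℂ) (1 - Complex.I * v) ≠ 0 := (map_ne_zero _).2 h0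
  have h3 : (((1 - ‖v‖ ^ 2 : ℝ) : ℂ) + ((2 * v.re : ℝ) : ℂ) * Complex.I) =
      (1 + Complex.I * v) * (starRingEnd ℂ) (1 - Complex.I * v) := by
    rw [← Complex.normSq_eq_norm_sq]
    apply Complex.ext
    · simp [Complex.normSq_apply]
      ring
    · simp [Complex.normSq_apply]
      ring
  rw [h1, h3, Nq, mul_div_mul_right _ _ h2]

/-- facts at a point of the closed disc off the imaginary axis -/
theorem facts {v : ℂ} (hr : 1 / 6 ≤ |v.re|) (hv : ‖v‖ ≤ 1) :
    Nq v ∈ slitPlane ∧ 1 / 36 ≤ ‖1 + v ^ 2‖ ∧ |(W v).re| ≤ 1 / 2 ∧ ‖W v‖ ≤ 2 ∧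
      HasDerivAt W (((2 / Real.pi : ℝ) : ℂ) / (1 + v ^ 2)) v := by
  have hre : v.re ≠ 0 := by
    intro h
    rw [h, abs_zero] at hr
    norm_num at hr
  have ha := norm_add_I v
  have hb := norm_sub_I v
  have ha0 : 0 < ‖1 + Complex.I * v‖ := by linarith
  have hb0 : 0 < ‖1 - Complex.I * v‖ := by linarith
  have hane : 1 + Complex.I * v ≠ 0 := norm_pos_iff.1 ha0
  have hbne : 1 - Complex.I * v ≠ 0 := norm_pos_iff.1 hb0
  have hNe := Nq_re_im hre
  have him : (Nq v).im = 2 * v.re / ‖1 - Complex.I * v‖ ^ 2 := by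
    rw [hNe, Complex.div_ofReal_im, Complex.add_im, Complex.ofReal_im, zero_add, Complex.im_ofReal_mul,
      Complex.I_im, mul_one]
  have hrN : (Nq v).re = (1 - ‖v‖ ^ 2) / ‖1 - Complex.I * v‖ ^ 2 := by
    rw [hNe, Complex.div_ofReal_re, Complex.add_re, Complex.ofReal_re, Complex.re_ofReal_mul,
      Complex.I_re, mul_zero, add_zero]
  have hslit : Nq v ∈ slitPlane := by
    rw [Complex.mem_slitPlane_iff]
    right
    rw [him]
    exact div_ne_zero (mul_ne_zero two_ne_zero hre) (by positivity)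
  have hsq : 1 / 36 ≤ ‖1 + v ^ 2‖ := by
    rw [sq_fac, norm_mul]
    nlinarith
  have hre0 : 0 ≤ (Nq v).re := by
    rw [hrN]
    apply div_nonneg _ (by positivity)
    nlinarith [norm_nonneg v]
  have hpi := Real.pi_pos
  have hWre : (W v).re = (Nq v).arg / Real.pi := by
    rw [W_eq]
    have : Complex.log (Nq v) / (Complex.I * (Real.pi : ℂ)) = (-Complex.I * Complex.log (Nq v)) / (Real.pi : ℂ) := by
      have hpi' : (Real.pi : ℂ) ≠ 0 := by exact_mod_cast hpi.ne'
      field_simp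
      linear_combination (Complex.log (Nq v)) * Complex.I_sq
    rw [this, Complex.div_ofReal_re]
    simp [Complex.log_im]
  have hWim : (W v).im = -Real.log ‖Nq v‖ / Real.pi := by
    rw [W_eq]
    have : Complex.log (Nq v) / (Complex.I * (Real.pi : ℂ)) = (-Complex.I * Complex.log (Nq v)) / (Real.pi : ℂ) := by
      have hpi' : (Real.pi : ℂ) ≠ 0 := by exact_mod_cast hpi.ne'
      field_simp
      linear_combination (Complex.log (Nq v)) * Complex.I_sq
    rw [this, Complex.div_ofReal_im]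
    simp [Complex.log_re]
  have hW1 : |(W v).re| ≤ 1 / 2 := by
    rw [hWre, abs_div, abs_of_pos hpi, div_le_iff₀ hpi]
    have := Complex.abs_arg_le_pi_div_two_iff.2 hre0
    linarith
  have ha2 : ‖1 + Complex.I * v‖ ≤ 2 := by
    refine (norm_add_le _ _).trans ?_
    rw [norm_mul, Complex.norm_I, norm_one, one_mul]
    linarith
  have hb2 : ‖1 - Complex.I * v‖ ≤ 2 := by
    refine (norm_sub_le _ _).trans ?_
    rw [norm_mul, Complex.norm_I, norm_one, one_mul]
    linarith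
  have hW2 : |(W v).im| ≤ 3 / 2 := by
    rw [hWim, abs_div, abs_of_pos hpi, div_le_iff₀ hpi, abs_neg]
    have h1 : ‖Nq v‖ = ‖1 + Complex.I * v‖ / ‖1 - Complex.I * v‖ := by rw [Nq, norm_div]
    have h2 : 1 / 36 ≤ ‖Nq v‖ := by
      rw [h1, le_div_iff₀ hb0]
      linarith
    have h3 : ‖Nq v‖ ≤ 36 := by
      rw [h1, div_le_iff₀ hb0]
      linarith
    have h4 : |Real.log ‖Nq v‖| ≤ 4 := by
      rw [abs_le]
      constructor
      · have h5 := Real.log_le_log (by norm_num) h2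
        rw [one_div, Real.log_inv] at h5
        have := log36
        linarith
      · exact (Real.log_le_log (by linarith) h3).trans log36
    have := Real.pi_gt_three
    linarith
  refine ⟨hslit, hsq, hW1, ?_, ?_⟩
  · have := Complex.norm_le_abs_re_add_abs_im (W v)
    linarith
  · have h1 : HasDerivAt (fun v : ℂ => 1 + Complex.I * v) Complex.I v := by
      simpa using ((hasDerivAt_id v).const_mul Complex.I).const_add 1
    have h2 : HasDerivAt (fun v : ℂ => 1 - Complex.I * v) (-Complex.I) v := by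
      simpa using ((hasDerivAt_id v).const_mul Complex.I).const_sub 1
    have h3 := ((h1.div h2 hbne).clog (by exact hslit)).div_const (Complex.I * (Real.pi : ℂ))
    refine h3.congr_deriv ?_
    have hpi' : (Real.pi : ℂ) ≠ 0 := by exact_mod_cast hpi.ne'
    rw [sq_fac]
    simp only [Pi.div_apply]
    push_cast
    field_simp
    ring

theorem cosh_le {x : ℝ} (hx : x ∈ Icc (-1:ℝ) 1) : Real.cosh (Real.pi * x / 2) ≤ 3 := by
  refine le_trans ?_ cosh_half_pi
  rw [Real.cosh_le_cosh, abs_div, abs_mul, abs_of_pos Real.pi_pos, abs_of_pos (by positivity : (0:ℝ) < Real.pi / 2)]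
  have h1 : |x| ≤ 1 := abs_le.2 hx
  rw [abs_of_pos (by norm_num : (0:ℝ) < 2)]
  have := Real.pi_pos
  gcongr
  nlinarith

theorem norm_ph (x : ℝ) : ‖ph x‖ = 1 := by
  rw [← ph_eq, Complex.norm_exp_ofReal_mul_I]

theorem norm_th (x : ℝ) : ‖th x‖ = 1 := by
  rw [← th_eq, Complex.norm_exp_ofReal_mul_I]

theorem ph_re (x : ℝ) : (ph x).re = -(1 / Real.cosh (Real.pi * x / 2)) := by
  unfold ph
  rw [Complex.add_re, Complex.ofReal_re, mul_comm Complex.I, Complex.re_ofReal_mul, Complex.I_re, mul_zero, add_zero]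

theorem ph_re_le {x : ℝ} (hx : x ∈ Icc (-1:ℝ) 1) {s : ℝ} (hs : 1 / 2 ≤ s) : 1 / 6 ≤ |((s : ℂ) * ph x).re| := by
  have h1 : ((s : ℂ) * ph x).re = s * (ph x).re := by simp
  have hc := Real.cosh_pos (Real.pi * x / 2)
  have h3 := cosh_le hx
  rw [h1, ph_re, mul_neg, abs_neg, abs_of_nonneg (by positivity)]
  have h2 : 1 / 3 ≤ 1 / Real.cosh (Real.pi * x / 2) := one_div_le_one_div_of_le hc h3
  nlinarith

theorem norm_sph {x s : ℝ} (hs0 : 0 ≤ s) : ‖(s : ℂ) * ph x‖ = s := by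
  rw [norm_mul, norm_ph, mul_one, Complex.norm_real, Real.norm_eq_abs, abs_of_nonneg hs0]

/-- the end point -/
theorem W_ph (x : ℝ) : W (ph x) = -1 / 2 + Complex.I * (x : ℂ) / 2 := by
  obtain ⟨y, hy⟩ : ∃ y : ℝ, y = Real.pi * x / 2 := ⟨_, rfl⟩
  have hc : (0:ℝ) < Real.cosh y := Real.cosh_pos y
  have hcne : ((Real.cosh y : ℝ) : ℂ) ≠ 0 := by exact_mod_cast hc.ne'
  have hv : ph x = (-1 + Complex.I * ((Real.sinh y : ℝ) : ℂ)) / ((Real.cosh y : ℝ) : ℂ) := by
    unfold ph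
    rw [← hy, Real.tanh_eq_sinh_div_cosh]
    push_cast
    field_simp
  have e1 : ((Real.exp (-y) : ℝ) : ℂ) = ((Real.cosh y : ℝ) : ℂ) - ((Real.sinh y : ℝ) : ℂ) := by
    rw [← Real.cosh_sub_sinh]
    push_cast
    ring
  have e2 : ((Real.exp y : ℝ) : ℂ) = ((Real.cosh y : ℝ) : ℂ) + ((Real.sinh y : ℝ) : ℂ) := by
    rw [← Real.cosh_add_sinh]
    push_cast
    ring
  have hN : Nq (ph x) = Complex.exp (-(y : ℂ) - Complex.I * ((Real.pi : ℂ) / 2)) := by
    have h1 : Complex.exp (-(y : ℂ) - Complex.I * ((Real.pi : ℂ) / 2)) = -Complex.I * ((Real.exp (-y) : ℝ) : ℂ) := by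
      rw [sub_eq_add_neg, Complex.exp_add]
      have h2 : -(Complex.I * ((Real.pi : ℂ) / 2)) = (((-(Real.pi / 2) : ℝ)) : ℂ) * Complex.I := by
        push_cast
        ring
      rw [h2, Complex.exp_mul_I, ← Complex.ofReal_cos, ← Complex.ofReal_sin, Real.cos_neg, Real.sin_neg,
        Real.cos_pi_div_two, Real.sin_pi_div_two]
      push_cast
      ring
    rw [h1, Nq, hv]
    have h3 : 1 + Complex.I * ((-1 + Complex.I * ((Real.sinh y : ℝ) : ℂ)) / ((Real.cosh y : ℝ) : ℂ)) =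
        (((Real.exp (-y) : ℝ) : ℂ) - Complex.I) / ((Real.cosh y : ℝ) : ℂ) := by
      rw [e1]
      field_simp
      linear_combination (((Real.sinh y : ℝ) : ℂ)) * Complex.I_sq
    have h4 : 1 - Complex.I * ((-1 + Complex.I * ((Real.sinh y : ℝ) : ℂ)) / ((Real.cosh y : ℝ) : ℂ)) =
        (((Real.exp y : ℝ) : ℂ) + Complex.I) / ((Real.cosh y : ℝ) : ℂ) := by
      rw [e2]
      field_simp
      linear_combination (-((Real.sinh y : ℝ) : ℂ)) * Complex.I_sq
    have h5 : ((Real.exp y : ℝ) : ℂ) + Complex.I ≠ 0 := by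
      intro h
      have := congrArg Complex.im h
      simp at this
    rw [h3, h4, div_div_div_cancel_right₀ hcne, div_eq_iff h5]
    have h6 : ((Real.exp (-y) : ℝ) : ℂ) * ((Real.exp y : ℝ) : ℂ) = 1 := by
      rw [← Complex.ofReal_mul, ← Real.exp_add, neg_add_cancel, Real.exp_zero, Complex.ofReal_one]
    linear_combination Complex.I * h6 + (((Real.exp (-y) : ℝ) : ℂ)) * Complex.I_sq
  have hlog : Complex.log (Nq (ph x)) = -(y : ℂ) - Complex.I * ((Real.pi : ℂ) / 2) := by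
    rw [hN]
    have him : (-(y : ℂ) - Complex.I * ((Real.pi : ℂ) / 2)).im = -(Real.pi / 2) := by
      have : (-(y : ℂ) - Complex.I * ((Real.pi : ℂ) / 2)) = ((-y : ℝ) : ℂ) + ((-(Real.pi / 2) : ℝ) : ℂ) * Complex.I := by
        push_cast
        ring
      rw [this, Complex.add_im, Complex.ofReal_im, Complex.im_ofReal_mul, Complex.I_im, mul_one, zero_add]
    apply Complex.log_exp
    · rw [him]
      have := Real.pi_pos
      linarith
    · rw [him]
      have := Real.pi_pos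
      linarith
  rw [W_eq, hlog, hy]
  have hpi' : (Real.pi : ℂ) ≠ 0 := by exact_mod_cast Real.pi_pos.ne'
  push_cast
  field_simp
  linear_combination (-(x:ℂ)) * Complex.I_sq

theorem kk_ph (x : ℝ) : kk (ph x) = th x := by
  unfold kk th
  rw [W_ph]
  have h1 : (1 + Complex.I * x : ℂ) ≠ 0 := one_add_I_mul_ne x
  have h2 : (1:ℂ) + (-1 / 2 + Complex.I * (x:ℂ) / 2) = (1 + Complex.I * x) / 2 := by ring
  rw [h2]
  field_simp

theorem one_add_W {w : ℂ} (h : |w.re| ≤ 1 / 2) : 1 / 2 ≤ ‖1 + w‖ := by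
  have h1 : (1 + w).re = 1 + w.re := by simp
  have h2 := Complex.abs_re_le_norm (1 + w)
  rw [h1] at h2
  have h3 := (abs_le.1 h).1
  rw [abs_of_nonneg (by linarith)] at h2
  linarith

theorem kk_near {x : ℝ} (hx : x ∈ Icc (-1:ℝ) 1) {ρ : ℝ} (hρ : 1 / 2 ≤ ρ) (hρ1 : ρ < 1) :
    ‖kk ((ρ : ℂ) * ph x) - th x‖ ≤ 144 * (1 - ρ) := by
  have hd : ∀ s ∈ Icc ρ 1, HasDerivWithinAt (fun s : ℝ => kk ((s : ℂ) * ph x))
      (ph x * ((((2 / Real.pi : ℝ) : ℂ) / (1 + ((s : ℂ) * ph x) ^ 2)) / (1 + W ((s : ℂ) * ph x)) ^ 2)) (Icc ρ 1) s := by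
    intro s hs
    obtain ⟨-, -, h3, -, h5⟩ := facts (ph_re_le hx (hρ.trans hs.1)) (by rw [norm_sph (by linarith [hs.1])]; exact hs.2)
    have h6 := one_add_W h3
    have h7 : 1 + W ((s : ℂ) * ph x) ≠ 0 := norm_pos_iff.1 (by linarith)
    have h8 : HasDerivAt kk ((((2 / Real.pi : ℝ) : ℂ) / (1 + ((s : ℂ) * ph x) ^ 2)) / (1 + W ((s : ℂ) * ph x)) ^ 2)
        ((s : ℂ) * ph x) := by
      have h9 := h5.div (h5.const_add 1) h7
      refine h9.congr_deriv ?_
      congr 1
      ring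
    have h10 : HasDerivAt (fun s : ℝ => (s : ℂ) * ph x) (ph x) s := by
      simpa using (Complex.ofRealCLM.hasDerivAt (x := s)).mul_const (ph x)
    have h11 := h8.comp s h10
    rw [mul_comm] at h11
    exact h11.hasDerivWithinAt
  have hbound : ∀ s ∈ Ico ρ 1, ‖ph x * ((((2 / Real.pi : ℝ) : ℂ) / (1 + ((s : ℂ) * ph x) ^ 2)) /
      (1 + W ((s : ℂ) * ph x)) ^ 2)‖ ≤ 144 := by
    intro s hs
    obtain ⟨-, h2, h3, -, h5⟩ := facts (ph_re_le hx (hρ.trans hs.1)) (by rw [norm_sph (by linarith [hs.1])]; exact hs.2.le)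
    have h6 := one_add_W h3
    have h7 : (1 / 2) ^ 2 ≤ ‖1 + W ((s : ℂ) * ph x)‖ ^ 2 := by gcongr
    rw [norm_mul, norm_ph, one_mul, norm_div, norm_div, norm_pow, Complex.norm_real, Real.norm_eq_abs,
      abs_of_pos (by positivity)]
    have hpi := Real.pi_gt_three
    have h8 : 2 / Real.pi ≤ 1 := by
      rw [div_le_one Real.pi_pos]
      linarith
    rw [div_div, div_le_iff₀ (by positivity)]
    have h9 : (1 / 36) * (1 / 2) ^ 2 ≤ ‖1 + ((s : ℂ) * ph x) ^ 2‖ * ‖1 + W ((s : ℂ) * ph x)‖ ^ 2 := by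
      gcongr
    nlinarith
  have h := norm_image_sub_le_of_norm_deriv_le_segment' hd hbound 1 ⟨hρ1.le, le_rfl⟩
  simp only [Complex.ofReal_one, one_mul, kk_ph] at h
  rw [norm_sub_rev]
  exact h

end B1

open B1 in
theorem pPt (hW : S_W) (hK : S_kk) : S_pt := by
  refine ⟨6 * 145, by norm_num, ?_⟩
  intro ρ hρ hρ1 x hx
  have hρ0 : 0 ≤ ρ := by linarith
  obtain ⟨v, hv⟩ : ∃ v, v = (ρ : ℂ) * ph x := ⟨_, rfl⟩
  have hvn : ‖v‖ = ρ := by rw [hv]; exact norm_sph hρ0
  have hvB : v ∈ ball (0:ℂ) 1 := by rw [mem_ball_zero_iff, hvn]; exact hρ1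
  have hre : 1 / 6 ≤ |v.re| := by rw [hv]; exact ph_re_le hx hρ
  obtain ⟨h1, h2, h3, h4, h5⟩ := facts hre (by rw [hvn]; exact hρ1.le)
  rw [← hv]
  constructor
  · have hv0 : v ≠ 0 := norm_pos_iff.1 (by rw [hvn]; linarith)
    have g1 : ‖Complex.log ((2 / Real.pi : ℝ) : ℂ)‖ ≤ 8 := by
      apply norm_log_le
      · rw [Complex.norm_real, Real.norm_eq_abs, abs_of_pos (by positivity), div_le_div_iff₀ (by norm_num) Real.pi_pos]
        have := Real.pi_le_four
        linarith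
      · rw [Complex.norm_real, Real.norm_eq_abs, abs_of_pos (by positivity), div_le_iff₀ Real.pi_pos]
        have := Real.pi_gt_three
        linarith
    have g2 : ‖Complex.log (1 + v ^ 2)‖ ≤ 8 := by
      apply norm_log_le h2
      refine (norm_add_le _ _).trans ?_
      rw [norm_one, norm_pow, hvn]
      nlinarith
    have g3 : ‖Complex.log (dslope W 0 v)‖ ≤ 8 := by
      apply norm_log_le
      · have e1 := hW.2.2.2.2 v hvB
        have e2 := Complex.abs_re_le_norm (dslope W 0 v)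
        rw [abs_of_nonneg (by linarith)] at e2
        linarith
      · rw [dslope_of_ne _ hv0, slope_def_module, hW.1, sub_zero, sub_zero, smul_eq_mul, norm_mul, norm_inv, hvn]
        calc ρ⁻¹ * ‖W v‖ ≤ (1 / 2)⁻¹ * 2 := by gcongr
          _ ≤ 36 := by norm_num
    have g4 : ‖Complex.log (1 - W v)‖ ≤ 8 := by
      apply norm_log_le
      · have e1 : (1 - W v).re = 1 - (W v).re := by simp
        have e2 := Complex.abs_re_le_norm (1 - W v)
        have e3 := (abs_le.1 h3).2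
        rw [e1, abs_of_nonneg (by linarith)] at e2
        linarith
      · refine (norm_sub_le _ _).trans ?_
        rw [norm_one]
        linarith
    unfold S1
    calc ‖Complex.log ((2 / Real.pi : ℝ) : ℂ) - Complex.log (1 + v ^ 2) - Complex.log (dslope W 0 v) - Complex.log (1 - W v)‖
        ≤ ‖Complex.log ((2 / Real.pi : ℝ) : ℂ) - Complex.log (1 + v ^ 2) - Complex.log (dslope W 0 v)‖ + ‖Complex.log (1 - W v)‖ :=
          norm_sub_le _ _
      _ ≤ ‖Complex.log ((2 / Real.pi : ℝ) : ℂ) - Complex.log (1 + v ^ 2)‖ + ‖Complex.log (dslope W 0 v)‖ + ‖Complex.log (1 - W v)‖ := by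
          gcongr
          exact norm_sub_le _ _
      _ ≤ ‖Complex.log ((2 / Real.pi : ℝ) : ℂ)‖ + ‖Complex.log (1 + v ^ 2)‖ + ‖Complex.log (dslope W 0 v)‖ + ‖Complex.log (1 - W v)‖ := by
          gcongr
          exact norm_sub_le _ _
      _ ≤ 6 * 145 := by linarith
  · intro Y H S
    have k1 : ‖kk v‖ ≤ ρ := by
      have := hK.2.2.2.1 v hvB
      rwa [hvn] at this
    have k2 : ‖(ρ : ℂ) * th x‖ ≤ ρ := by
      rw [norm_mul, norm_th, mul_one, Complex.norm_real, Real.norm_eq_abs, abs_of_nonneg hρ0]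
    have k3 : ‖kk v - (ρ : ℂ) * th x‖ ≤ 145 * (1 - ρ) := by
      have e1 := kk_near hx hρ hρ1
      rw [← hv] at e1
      have e2 : kk v - (ρ : ℂ) * th x = (kk v - th x) + ((1 - ρ : ℝ) : ℂ) * th x := by
        push_cast
        ring
      rw [e2]
      refine (norm_add_le _ _).trans ?_
      rw [norm_mul, norm_th, mul_one, Complex.norm_real, Real.norm_eq_abs, abs_of_nonneg (by linarith)]
      linarith
    have k4 := bloch_lip S.dH (fun w hw => Pool.Agent.W677.Mar.H_bloch S hw) hρ1 k1 k2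
    refine k4.trans ?_
    have hpos : 0 < 1 - ρ := by linarith
    calc 6 / (1 - ρ) * ‖kk v - (ρ : ℂ) * th x‖ ≤ 6 / (1 - ρ) * (145 * (1 - ρ)) := by gcongr
      _ = 6 * 145 := by field_simp

end Pool.Agent.Z55U
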