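import Pool.Agent.Z55U.Stm
import Pool.Agent.W677.MarG2

/-! # C2: univalence and the logarithmic derivative -/

set_option autoImplicit false
open Complex Filter Topology Set Metric MeasureTheory

namespace Pool.Agent.Z55U

namespace C2

/-- logarithm of a function without zeros in the disc -/
theorem exists_log_ball {D : ℂ → ℂ} (hD : DifferentiableOn ℂ D (ball 0 1)) (h0 : ∀ v ∈ ball (0:ℂ) 1, D v ≠ 0)
    (h1 : D 0 = 1) : ∃ G : ℂ → ℂ, DifferentiableOn ℂ G (ball 0 1) ∧ G 0 = 0 ∧
      ∀ v ∈ ball (0:ℂ) 1, Complex.exp (G v) = D v := by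
  have hd : DifferentiableOn ℂ (fun v => deriv D v / D v) (ball 0 1) :=
    (hD.deriv isOpen_ball).div hD h0
  obtain ⟨G, hG0, hG⟩ := (hd.isExactOn_ball).with_val_at 0 0
  have hGd : DifferentiableOn ℂ G (ball 0 1) := fun v hv => (hG v hv).differentiableAt.differentiableWithinAt
  refine ⟨G, hGd, hG0, ?_⟩
  have hc : ∀ v ∈ ball (0:ℂ) 1, Complex.exp (-G v) * D v = Complex.exp (-G 0) * D 0 := by
    intro v hv
    refine (convex_ball (0:ℂ) 1).is_const_of_fderivWithin_eq_zero (𝕜 := ℂ)
      (f := fun v => Complex.exp (-G v) * D v) ?_ ?_ hv (mem_ball_self one_pos)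
    · exact (hGd.neg.cexp).mul hD
    · intro x hx
      have hDx : HasDerivAt D (deriv D x) x := (hD.differentiableAt (isOpen_ball.mem_nhds hx)).hasDerivAt
      have h3 := ((hG x hx).neg.cexp).mul hDx
      have h4 : HasDerivAt (fun v => Complex.exp (-G v) * D v) 0 x := by
        refine HasDerivAt.congr_deriv h3 ?_
        have h5 : deriv D x / D x * D x = deriv D x := div_mul_cancel₀ _ (h0 x hx)
        linear_combination (-Complex.exp (-G x)) * h5
      rw [(h4.hasFDerivAt.hasFDerivWithinAt).fderivWithin (isOpen_ball.uniqueDiffWithinAt hx)]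
      ext
      simp
  intro v hv
  have h5 := hc v hv
  rw [hG0, h1, neg_zero, Complex.exp_zero, one_mul, Complex.exp_neg, inv_mul_eq_one₀ (Complex.exp_ne_zero _)] at h5
  exact h5

theorem pow_mem {v : ℂ} (hv : v ∈ ball (0:ℂ) 1) {N : ℕ} (hN : 2 ≤ N) : v ^ N ∈ ball (0:ℂ) 1 := by
  rw [mem_ball_zero_iff] at hv ⊢
  rw [norm_pow]
  exact pow_lt_one₀ (norm_nonneg _) hv (by omega)

/-- iterated powers tend to zero -/
theorem tendsto_iter {v : ℂ} (hv : v ∈ ball (0:ℂ) 1) {N : ℕ} (hN : 2 ≤ N) :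
    Tendsto (fun k : ℕ => v ^ N ^ k) atTop (𝓝 0) := by
  rw [mem_ball_zero_iff] at hv
  have h1 : Tendsto (fun k : ℕ => v ^ k) atTop (𝓝 0) := tendsto_pow_atTop_nhds_zero_of_norm_lt_one hv
  exact h1.comp (tendsto_pow_atTop_atTop_of_one_lt (by omega))

theorem iter_mem {v : ℂ} (hv : v ∈ ball (0:ℂ) 1) {N : ℕ} (hN : 2 ≤ N) (k : ℕ) : v ^ N ^ k ∈ ball (0:ℂ) 1 := by
  rw [mem_ball_zero_iff] at hv ⊢
  rw [norm_pow]
  exact pow_lt_one₀ (norm_nonneg _) hv (pow_ne_zero _ (by omega))

theorem wN {P : ℂ → ℂ} {N : ℕ} (hN : 2 ≤ N) (v : ℂ) :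
    (v * Complex.exp (-P (v ^ N) / N)) ^ N = v ^ N * Complex.exp (-P (v ^ N)) := by
  rw [mul_pow, ← Complex.exp_nat_mul]
  congr 2
  have : (N : ℂ) ≠ 0 := by
    exact_mod_cast (by omega : N ≠ 0)
  field_simp

/-- the function is injective near the origin -/
theorem loc_inj {P : ℂ → ℂ} (hP : DifferentiableOn ℂ P (ball 0 1)) :
    ∃ s ∈ 𝓝 (0:ℂ), Set.InjOn (fun v : ℂ => v * Complex.exp (-P v)) s := by
  have hP0 : AnalyticAt ℂ P 0 := hP.analyticAt (isOpen_ball.mem_nhds (mem_ball_self one_pos))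
  have hf : AnalyticAt ℂ (fun v : ℂ => v * Complex.exp (-P v)) 0 :=
    analyticAt_id.mul (hP0.neg.cexp)
  have hd : HasDerivAt (fun v : ℂ => v * Complex.exp (-P v)) (Complex.exp (-P 0)) 0 := by
    have h1 := (hasDerivAt_id (0:ℂ)).mul ((hP0.differentiableAt.hasDerivAt).neg.cexp)
    refine HasDerivAt.congr_deriv h1 ?_
    simp
  have hs : HasStrictDerivAt (fun v : ℂ => v * Complex.exp (-P v)) (Complex.exp (-P 0)) 0 := by
    have := hf.hasStrictDerivAt
    rwa [hd.deriv] at this
  have h := hs.hasStrictFDerivAt_equiv (Complex.exp_ne_zero _)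
  refine ⟨_, h.eventually_left_inverse, ?_⟩
  intro x hx y hy hxy
  have hx' := hx
  have hy' := hy
  simp only [Set.mem_ofPred_eq] at hx' hy'
  rw [← hx', ← hy']
  exact congrArg _ hxy

end C2

open C2 in
theorem pFe2 : S_fe2 := by
  intro C N hC hN q E E₁ B P hP hPe
  set w : ℂ → ℂ := fun v => v * Complex.exp (-P (v ^ N) / N) with hw
  have hN0 : (N : ℂ) ≠ 0 := by exact_mod_cast (by omega : N ≠ 0)
  have hNr : (0:ℝ) < N := by exact_mod_cast (by omega : 0 < N)
  have hwb : ∀ v ∈ ball (0:ℂ) 1, w v ∈ ball (0:ℂ) 1 := by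
    intro v hv
    rw [mem_ball_zero_iff]
    have h1 := (hPe v hv).1
    have h2 : 0 < 1 / (2 * (N:ℝ)) := by positivity
    have h3 : ‖w v‖ ≤ 1 - 1 / (2 * (N:ℝ)) := h1
    linarith
  have hPhi : ∀ v ∈ ball (0:ℂ) 1, v * Complex.exp (-P v) = w v * Complex.exp (-q (w v)) := by
    intro v hv
    have h1 := (hPe v hv).2
    have h2 : P v = P (v ^ N) / N + q (w v) := h1
    rw [h2, neg_add, Complex.exp_add, ← mul_assoc, neg_div']
  constructor
  · -- injectivity
    intro a ha b hb hab
    have h1 : ∀ k : ℕ, a ^ N ^ k * Complex.exp (-P (a ^ N ^ k)) = b ^ N ^ k * Complex.exp (-P (b ^ N ^ k)) ∧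
        w (a ^ N ^ k) = w (b ^ N ^ k) := by
      intro k
      induction k with
      | zero =>
        have h3 : a * Complex.exp (-P a) = b * Complex.exp (-P b) := hab
        refine ⟨by simpa using h3, ?_⟩
        rw [hPhi a ha, hPhi b hb] at h3
        simpa using B.inj (hwb a ha) (hwb b hb) h3
      | succ k ih =>
        have h4 : a ^ N ^ (k + 1) * Complex.exp (-P (a ^ N ^ (k + 1))) =
            b ^ N ^ (k + 1) * Complex.exp (-P (b ^ N ^ (k + 1))) := by
          rw [pow_succ N k, pow_mul, pow_mul, ← wN hN, ← wN hN]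
          exact congrArg (· ^ N) ih.2
        refine ⟨h4, ?_⟩
        rw [hPhi _ (iter_mem ha hN _), hPhi _ (iter_mem hb hN _)] at h4
        exact B.inj (hwb _ (iter_mem ha hN _)) (hwb _ (iter_mem hb hN _)) h4
    obtain ⟨s, hs, hinj⟩ := loc_inj hP
    have h5 : ∀ᶠ k : ℕ in atTop, a ^ N ^ k = b ^ N ^ k := by
      filter_upwards [(tendsto_iter ha hN).eventually_mem hs, (tendsto_iter hb hN).eventually_mem hs] with k h6 h7
      exact hinj h6 h7 (h1 k).1
    obtain ⟨k, hk⟩ := h5.exists
    have h8 : ∀ k : ℕ, a ^ N ^ k = b ^ N ^ k → a = b := by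
      intro k
      induction k with
      | zero => intro h; simpa using h
      | succ k ih =>
        intro h
        refine ih ?_
        have h9 := (h1 k).2
        have h10 : (a ^ N ^ k) ^ N = (b ^ N ^ k) ^ N := by rw [← pow_mul, ← pow_mul, ← pow_succ]; exact h
        simp only [hw] at h9
        rw [h10] at h9
        exact mul_right_cancel₀ (Complex.exp_ne_zero _) h9
    exact h8 k hk
  · -- the logarithmic derivative
    have hdP : ∀ v ∈ ball (0:ℂ) 1, HasDerivAt P (deriv P v) v := fun v hv =>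
      (hP.differentiableAt (isOpen_ball.mem_nhds hv)).hasDerivAt
    have hdw : ∀ v ∈ ball (0:ℂ) 1, HasDerivAt w
        (Complex.exp (-P (v ^ N) / N) * (1 - v ^ N * deriv P (v ^ N))) v := by
      intro v hv
      have h1 : HasDerivAt (fun v : ℂ => v ^ N) (N * v ^ (N - 1)) v := hasDerivAt_pow N v
      have h2 : HasDerivAt (fun v : ℂ => P (v ^ N)) (deriv P (v ^ N) * (N * v ^ (N - 1))) v :=
        (hdP _ (pow_mem hv hN)).comp v h1
      have h3 := (hasDerivAt_id v).mul ((h2.neg.div_const (N:ℂ)).cexp)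
      refine HasDerivAt.congr_deriv h3 ?_
      have h4 : v ^ N = v * v ^ (N - 1) := by
        rw [← pow_succ']
        congr 1
        omega
      simp only [id, one_mul]
      have h5 : -(deriv P (v ^ N) * (N * v ^ (N - 1))) / N = -(deriv P (v ^ N) * v ^ (N - 1)) := by
        field_simp
      rw [h5]
      linear_combination (Complex.exp (-P (v ^ N) / N) * deriv P (v ^ N)) * h4
    have hkey : ∀ v ∈ ball (0:ℂ) 1, 1 - v * deriv P v = (1 - v ^ N * deriv P (v ^ N)) * Complex.exp (E (w v)) := by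
      intro v hv
      have h1 : HasDerivAt (fun v : ℂ => v ^ N) (N * v ^ (N - 1)) v := hasDerivAt_pow N v
      have h2 : HasDerivAt (fun v : ℂ => P (v ^ N)) (deriv P (v ^ N) * (N * v ^ (N - 1))) v :=
        (hdP _ (pow_mem hv hN)).comp v h1
      have hq : HasDerivAt q (deriv q (w v)) (w v) :=
        (B.dq.differentiableAt (isOpen_ball.mem_nhds (hwb v hv))).hasDerivAt
      have h3 := (h2.div_const (N:ℂ)).add (hq.comp v (hdw v hv))
      have h4 : HasDerivAt P _ v := h3.congr_of_eventuallyEq (by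
        filter_upwards [isOpen_ball.mem_nhds hv] with u hu
        exact (hPe u hu).2)
      have h5 := h4.unique (hdP v hv)
      rw [B.eqE _ (hwb v hv), ← h5]
      have h6 : v ^ N = v * v ^ (N - 1) := by
        rw [← pow_succ']
        congr 1
        omega
      have h7 : w v = v * Complex.exp (-P (v ^ N) / N) := rfl
      have h8 : v * ((deriv P (v ^ N) * (N * v ^ (N - 1))) / N) = v ^ N * deriv P (v ^ N) := by
        rw [h6]
        field_simp
      linear_combination (-1 : ℂ) * h8 - deriv q (w v) * (1 - v ^ N * deriv P (v ^ N)) * (-h7)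
    have hdD : DifferentiableOn ℂ (fun v => 1 - v * deriv P v) (ball 0 1) :=
      (differentiableOn_const 1).sub (differentiableOn_id.mul (hP.deriv isOpen_ball))
    have hD0 : ∀ v ∈ ball (0:ℂ) 1, 1 - v * deriv P v ≠ 0 := by
      intro v hv hz
      have h1 : ∀ k : ℕ, 1 - v ^ N ^ k * deriv P (v ^ N ^ k) = 0 := by
        intro k
        induction k with
        | zero => simpa using hz
        | succ k ih =>
          rw [hkey _ (iter_mem hv hN k)] at ih
          have h2 := (mul_eq_zero.mp ih).resolve_right (Complex.exp_ne_zero _)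
          rwa [← pow_mul, ← pow_succ] at h2
      have h3 : Tendsto (fun k : ℕ => 1 - v ^ N ^ k * deriv P (v ^ N ^ k)) atTop (𝓝 (1 - 0 * deriv P 0)) := by
        have h4 : ContinuousAt (fun v => 1 - v * deriv P v) 0 :=
          (hdD.differentiableAt (isOpen_ball.mem_nhds (mem_ball_self one_pos))).continuousAt
        exact h4.tendsto.comp (tendsto_iter hv hN)
      have h5 : Tendsto (fun k : ℕ => 1 - v ^ N ^ k * deriv P (v ^ N ^ k)) atTop (𝓝 0) := by
        simp only [h1]
        exact tendsto_const_nhds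
      have h6 := tendsto_nhds_unique h3 h5
      simp at h6
    obtain ⟨G, hG, hG0, hGe⟩ := exists_log_ball hdD hD0 (by simp)
    refine ⟨G, hG, hG0, hGe, ?_⟩
    have hw_c : DifferentiableOn ℂ w (ball 0 1) := fun v hv => (hdw v hv).differentiableAt.differentiableWithinAt
    intro v hv
    refine Pool.Agent.W677.Mar.exp_unique (convex_ball (0:ℂ) 1).isPreconnected
      (g := fun v => G (v ^ N) + E (v * Complex.exp (-P (v ^ N) / N))) hG.continuousOn ?_ ?_
      (mem_ball_self one_pos) ?_ hv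
    · refine ContinuousOn.add ?_ ?_
      · exact hG.continuousOn.comp (continuous_pow N).continuousOn fun v hv => pow_mem hv hN
      · exact B.dE.continuousOn.comp hw_c.continuousOn fun v hv => hwb v hv
    · intro v hv
      rw [hGe v hv, Complex.exp_add, hGe _ (pow_mem hv hN), hkey v hv]
    · have h1 : (0:ℂ) ^ N = 0 := zero_pow (by omega)
      simp only [h1, zero_mul, hG0, B.E0, add_zero]

end Pool.Agent.Z55U
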