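import Mathlib
import Pool.Agent.Z55U.Stm

/-! # Piece E1: the map in the class `Σ` -/

set_option autoImplicit false
open Complex Filter Topology Set Metric MeasureTheory

namespace Pool.Agent.Z55U

open Q90.SM (IsSig marshall pmean circ)

theorem pSig : S_sig := by
  intro P G hP hG hG0 hinj he
  have hmem : ∀ z : ℂ, 1 < ‖z‖ → z⁻¹ ∈ ball (0:ℂ) 1 := by
    intro z hz
    rw [mem_ball_zero_iff, norm_inv]
    exact inv_lt_one_of_one_lt₀ hz
  have hne : ∀ z : ℂ, 1 < ‖z‖ → z ≠ 0 := by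
    intro z hz h0
    rw [h0, norm_zero] at hz
    linarith
  have hinv : DifferentiableOn ℂ (fun z : ℂ => z⁻¹) {z : ℂ | 1 < ‖z‖} := by
    intro z hz
    exact (differentiableAt_inv (hne z hz)).differentiableWithinAt
  have hPi : DifferentiableOn ℂ (fun z : ℂ => P z⁻¹) {z : ℂ | 1 < ‖z‖} := hP.comp hinv hmem
  have hGi : DifferentiableOn ℂ (fun z : ℂ => G z⁻¹) {z : ℂ | 1 < ‖z‖} := hG.comp hinv hmem
  have h0 : (0:ℂ) ∈ ball (0:ℂ) 1 := mem_ball_self one_pos
  have ti : Tendsto (fun z : ℂ => z⁻¹) (Bornology.cobounded ℂ) (𝓝 0) := tendsto_inv₀_cobounded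
  have tP : Tendsto (fun z : ℂ => P z⁻¹) (Bornology.cobounded ℂ) (𝓝 (P 0)) :=
    ((hP.continuousOn.continuousAt (isOpen_ball.mem_nhds h0)).tendsto).comp ti
  have tG : Tendsto (fun z : ℂ => G z⁻¹) (Bornology.cobounded ℂ) (𝓝 0) := by
    have := ((hG.continuousOn.continuousAt (isOpen_ball.mem_nhds h0)).tendsto).comp ti
    rwa [hG0] at this
  refine ⟨?_, ?_, ?_, ?_, ?_, ?_⟩
  · exact differentiableOn_id.mul ((hPi.sub_const _).cexp)
  · intro a ha b hb hab
    have ha0 := hne a ha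
    have hb0 := hne b hb
    have h1 : a * Complex.exp (P a⁻¹) = b * Complex.exp (P b⁻¹) := by
      have h2 : a * Complex.exp (P a⁻¹ - P 0) = b * Complex.exp (P b⁻¹ - P 0) := hab
      rw [Complex.exp_sub, Complex.exp_sub, mul_div_assoc', mul_div_assoc', div_left_inj' (Complex.exp_ne_zero _)] at h2
      exact h2
    have h3 : (fun v : ℂ => v * Complex.exp (-P v)) a⁻¹ = (fun v : ℂ => v * Complex.exp (-P v)) b⁻¹ := by
      show a⁻¹ * Complex.exp (-P a⁻¹) = b⁻¹ * Complex.exp (-P b⁻¹)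
      rw [Complex.exp_neg, Complex.exp_neg, ← mul_inv, ← mul_inv, h1]
    exact inv_injective (hinj (hmem a ha) (hmem b hb) h3)
  · -- the expansion at infinity
    refine ⟨deriv P 0, ?_⟩
    have hd : HasDerivAt (fun v : ℂ => Complex.exp (P v - P 0)) (deriv P 0) 0 := by
      have h1 : HasDerivAt P (deriv P 0) 0 := (hP.differentiableAt (isOpen_ball.mem_nhds h0)).hasDerivAt
      have h2 := (h1.sub_const (P 0)).cexp
      simpa using h2
    have h3 := hd.tendsto_slope
    have h4 : Tendsto (fun z : ℂ => z⁻¹) (Bornology.cobounded ℂ) (𝓝[≠] 0) := by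
      apply tendsto_nhdsWithin_iff.2
      refine ⟨ti, ?_⟩
      have : ∀ᶠ z in Bornology.cobounded ℂ, 1 < ‖z‖ := tendsto_norm_cobounded_atTop.eventually_gt_atTop 1
      filter_upwards [this] with z hz
      exact inv_ne_zero (hne z hz)
    refine (h3.comp h4).congr' ?_
    have : ∀ᶠ z in Bornology.cobounded ℂ, 1 < ‖z‖ := tendsto_norm_cobounded_atTop.eventually_gt_atTop 1
    filter_upwards [this] with z hz
    have hz0 := hne z hz
    show slope (fun v : ℂ => Complex.exp (P v - P 0)) 0 z⁻¹ = z * Complex.exp (P z⁻¹ - P 0) - z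
    rw [slope_def_field, sub_self (P 0), Complex.exp_zero, sub_zero, div_inv_eq_mul]
    ring
  · exact (hGi.add hPi).sub_const _
  · intro z hz
    have hz0 := hne z hz
    have h1 : HasDerivAt (fun z : ℂ => P z⁻¹) (deriv P z⁻¹ * -(z ^ 2)⁻¹) z :=
      ((hP.differentiableAt (isOpen_ball.mem_nhds (hmem z hz))).hasDerivAt).comp z (hasDerivAt_inv hz0)
    have h2 := (hasDerivAt_id z).mul ((h1.sub_const (P 0)).cexp)
    have h3 : deriv (fun z : ℂ => z * Complex.exp (P z⁻¹ - P 0)) z =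
        1 * Complex.exp (P z⁻¹ - P 0) + z * (Complex.exp (P z⁻¹ - P 0) * (deriv P z⁻¹ * -(z ^ 2)⁻¹)) := h2.deriv
    rw [h3]
    show Complex.exp (G z⁻¹ + P z⁻¹ - P 0) = _
    rw [add_sub_assoc, Complex.exp_add, he _ (hmem z hz)]
    field_simp
    ring
  · have := (tG.add tP).sub_const (P 0)
    simpa using this

end Pool.Agent.Z55U
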