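import Mathlib
import Pool.Agent.Z55U.Stm
import Pool.Agent.Z55U.F2

/-! # Piece E2 (helper24): the lower bound -/

set_option autoImplicit false
set_option linter.all false
open Complex Filter Topology Set Metric MeasureTheory

namespace Pool.Agent.Z55U

open Pool.Agent.W677.Mar (Sg NN hat)
open Q90.SM (IsSig marshall pmean circ)

namespace E2

/-- the iterated functional equation -/
theorem iter {N : ℕ} (hN : 1 ≤ N) {G F : ℂ → ℂ} (h : ∀ v ∈ ball (0:ℂ) 1, G v = G (v ^ N) + F v) {v : ℂ}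
    (hv : v ∈ ball (0:ℂ) 1) (k : ℕ) : G v = (∑ j ∈ Finset.range k, F (v ^ N ^ j)) + G (v ^ N ^ k) := by
  induction k with
  | zero => simp
  | succ k ih =>
    rw [ih, Finset.sum_range_succ]
    have h1 : v ^ N ^ k ∈ ball (0:ℂ) 1 := by
      rw [mem_ball_zero_iff] at hv ⊢
      rw [norm_pow]
      exact pow_lt_one₀ (norm_nonneg _) hv (pow_pos hN k).ne'
    rw [h _ h1, ← pow_mul, ← pow_succ]
    ring

theorem circleMap_pow' (r θ : ℝ) (m : ℕ) : circleMap 0 r θ ^ m = circleMap 0 (r ^ m) (m * θ) := by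
  rw [circleMap_zero, circleMap_zero, mul_pow, ← Complex.exp_nat_mul]
  push_cast
  ring_nf

/-- a number whose `N`-th power is at least `1/2` -/
theorem near_one {N : ℕ} (hN : 2 ≤ N) {s : ℝ} (hs : 0 ≤ s) (h : 1 / 2 ≤ s ^ N) : 1 - 1 / (N : ℝ) ≤ s := by
  by_contra hlt
  rw [not_le] at hlt
  have hN0 : (0:ℝ) < N := by positivity
  have h1 : s ^ N < (1 - 1 / (N:ℝ)) ^ N := pow_lt_pow_left₀ hlt hs (by omega)
  have h2 : (1 - 1 / (N:ℝ)) ^ N ≤ Real.exp (-1) :=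
    Real.one_sub_div_pow_le_exp_neg (by exact_mod_cast (by omega : 1 ≤ N))
  have h3 : Real.exp (-1) < 1 / 2 := by
    rw [Real.exp_neg, ← one_div]
    apply one_div_lt_one_div_of_lt (by norm_num)
    have := Real.exp_one_gt_d9
    linarith
  linarith

/-- comparison of the two points -/
theorem close {C K : ℝ} (hC : 1 ≤ C) (hK : 1 ≤ K) {N : ℕ} (hN : 2 ≤ N) (hNK : 4 * K ^ 2 ≤ N) {q E E₁ P : ℂ → ℂ}
    (B : Blk C q E E₁) (hP : ∀ v ∈ ball (0:ℂ) 1, ‖P v‖ ≤ K * (1 + √(Real.log N)) ∧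
      ‖v * Complex.exp (-P (v ^ N) / N)‖ ≤ 1 - 1 / (2 * N)) {s φ : ℝ} (hs : 1 - 1 / (N:ℝ) ≤ s) (hs1 : s < 1) :
    ‖E (circleMap 0 s φ * Complex.exp (-P (circleMap 0 s φ ^ N) / N)) - E₁ (circleMap 0 (1 - 1 / ((N:ℝ) + 1)) φ)‖ ≤
      (6 * C + 4 * C * K) * (1 + √(Real.log N)) := by
  have hNr : (2:ℝ) ≤ N := by exact_mod_cast hN
  have hN0 : (0:ℝ) < N := by linarith
  obtain ⟨L, hL⟩ : ∃ L, L = √(Real.log N) := ⟨_, rfl⟩
  have hL0 : 0 ≤ L := by rw [hL]; exact Real.sqrt_nonneg _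
  have hs0 : 0 ≤ s := by
    have : 1 / (N:ℝ) ≤ 1 := by
      rw [div_le_one hN0]
      linarith
    linarith
  obtain ⟨u, hu⟩ : ∃ u, u = circleMap 0 s φ := ⟨_, rfl⟩
  have hun : ‖u‖ = s := by rw [hu, norm_circleMap_zero, abs_of_nonneg hs0]
  have huB : u ∈ ball (0:ℂ) 1 := by rw [mem_ball_zero_iff, hun]; exact hs1
  rw [← hu]
  obtain ⟨x, hx⟩ : ∃ x, x = -P (u ^ N) / N := ⟨_, rfl⟩
  have hw := (hP u huB).2
  rw [← hx] at hw ⊢
  obtain ⟨w, hww⟩ : ∃ w, w = u * Complex.exp x := ⟨_, rfl⟩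
  rw [← hww] at hw ⊢
  have h2N : 0 < 1 / (2 * (N:ℝ)) := by positivity
  have hwB : w ∈ ball (0:ℂ) 1 := by rw [mem_ball_zero_iff]; linarith
  -- the first difference
  have hsq : √(-Real.log (1 - ‖w‖)) ≤ 1 + L := by
    have h1 : -Real.log (1 - ‖w‖) ≤ Real.log 2 + Real.log N := by
      rw [← Real.log_mul (by norm_num) hN0.ne', ← Real.log_inv]
      apply Real.log_le_log
      · rw [inv_pos]
        linarith
      · rw [inv_le_comm₀ (by linarith) (by positivity), ← one_div]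
        linarith
    have h2 : Real.log 2 ≤ 1 := by
      have := Real.log_two_lt_d9
      linarith
    have hlog : 0 ≤ Real.log N := Real.log_nonneg (by linarith)
    refine Real.sqrt_le_iff.2 ⟨by linarith, ?_⟩
    have h3 : L ^ 2 = Real.log N := by rw [hL]; exact Real.sq_sqrt hlog
    nlinarith
  have hd1 : ‖E w - E₁ w‖ ≤ C * (2 + L) := by
    refine (B.near w hwB).trans ?_
    have : C * (1 + √(-Real.log (1 - ‖w‖))) ≤ C * (1 + (1 + L)) := by gcongr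
    linarith
  -- the distance
  have huN : u ^ N ∈ ball (0:ℂ) 1 := by
    rw [mem_ball_zero_iff, norm_pow, hun]
    exact pow_lt_one₀ hs0 hs1 (by omega)
  have hxn : ‖x‖ ≤ K * (1 + L) / N := by
    rw [hx, norm_div, norm_neg, Complex.norm_natCast]
    apply div_le_div_of_nonneg_right _ hN0.le
    rw [hL]
    exact (hP _ huN).1
  have hx1 : K * (1 + L) / N ≤ 1 := by
    rw [div_le_one hN0]
    have h1 : L ≤ √(N:ℝ) := by
      rw [hL]
      apply Real.sqrt_le_sqrt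
      have := Real.log_le_sub_one_of_pos hN0
      linarith
    have h2 : 1 ≤ √(N:ℝ) := by
      rw [Real.one_le_sqrt]
      linarith
    have h3 : 2 * K ≤ √(N:ℝ) := by
      apply Real.le_sqrt_of_sq_le
      nlinarith
    have h4 : √(N:ℝ) * √(N:ℝ) = N := Real.mul_self_sqrt hN0.le
    calc K * (1 + L) ≤ K * (√(N:ℝ) + √(N:ℝ)) := by gcongr
      _ = 2 * K * √(N:ℝ) := by ring
      _ ≤ √(N:ℝ) * √(N:ℝ) := by gcongr
      _ = N := h4
  have hexp : ‖Complex.exp x - 1‖ ≤ 2 * (K * (1 + L) / N) := by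
    refine (Complex.norm_exp_sub_one_le (hxn.trans hx1)).trans ?_
    linarith
  obtain ⟨ρ, hρ⟩ : ∃ ρ : ℝ, ρ = 1 - 1 / ((N:ℝ) + 1) := ⟨_, rfl⟩
  rw [← hρ]
  have hρ1 : 1 / ((N:ℝ) + 1) ≤ 1 / N := by
    apply one_div_le_one_div_of_le <;> linarith
  have hρ2 : 0 < 1 / ((N:ℝ) + 1) := by positivity
  have hρ3 : 1 / (2 * (N:ℝ)) ≤ 1 / ((N:ℝ) + 1) := by
    apply one_div_le_one_div_of_le <;> linarith
  have hρ4 : 1 / ((N:ℝ) + 1) ≤ 1 := by
    rw [div_le_one (by linarith)]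
    linarith
  have hρ0 : 0 ≤ ρ := by linarith
  have hdist : ‖w - circleMap 0 ρ φ‖ ≤ 2 * (K * (1 + L) / N) + 2 / N := by
    have h1 : w - circleMap 0 ρ φ = Complex.exp ((φ:ℂ) * Complex.I) * ((s:ℂ) * (Complex.exp x - 1) + ((s - ρ : ℝ) : ℂ)) := by
      rw [hww, hu, circleMap_zero, circleMap_zero]
      push_cast
      ring
    rw [h1, norm_mul, Complex.norm_exp_ofReal_mul_I, one_mul]
    refine (norm_add_le _ _).trans ?_
    rw [norm_mul, Complex.norm_real, Complex.norm_real, Real.norm_eq_abs, Real.norm_eq_abs, abs_of_nonneg hs0]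
    have h2 : s * ‖Complex.exp x - 1‖ ≤ 1 * (2 * (K * (1 + L) / N)) := by
      apply mul_le_mul hs1.le hexp (norm_nonneg _) zero_le_one
    have h3 : |s - ρ| ≤ 2 / N := by
      have h4 : (2:ℝ) / N = 1 / N + 1 / N := by ring
      have h5 : 0 < 1 / (N:ℝ) := by positivity
      rw [abs_le]
      constructor
      · rw [h4]
        linarith
      · rw [h4]
        linarith
    linarith
  have hd2 : ‖E₁ w - E₁ (circleMap 0 ρ φ)‖ ≤ C * 4 * (K * (1 + L)) + 4 * C := by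
    have h1 := bloch_lip B.dE₁ B.bloch (r := 1 - 1 / (2 * (N:ℝ))) (by linarith) (u := w) (v := circleMap 0 ρ φ) hw (by
      rw [norm_circleMap_zero, abs_of_nonneg hρ0]
      linarith)
    refine h1.trans ?_
    have h2 : C / (1 - (1 - 1 / (2 * (N:ℝ)))) = C * (2 * N) := by
      field_simp
      ring
    rw [h2]
    calc C * (2 * N) * ‖w - circleMap 0 ρ φ‖ ≤ C * (2 * N) * (2 * (K * (1 + L) / N) + 2 / N) := by gcongr
      _ = C * 4 * (K * (1 + L)) + 4 * C := by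
        field_simp
        ring
  rw [← hL]
  calc ‖E w - E₁ (circleMap 0 ρ φ)‖ ≤ ‖E w - E₁ w‖ + ‖E₁ w - E₁ (circleMap 0 ρ φ)‖ := norm_sub_le_norm_sub_add_norm_sub _ _ _
    _ ≤ C * (2 + L) + (C * 4 * (K * (1 + L)) + 4 * C) := add_le_add hd1 hd2
    _ ≤ (6 * C + 4 * C * K) * (1 + L) := by nlinarith [mul_nonneg (by linarith : (0:ℝ) ≤ C) hL0]

/-- the oscillation of the Bloch function -/
theorem osc {C : ℝ} (hC : 1 ≤ C) {N : ℕ} (hN : 2 ≤ N) {E₁ : ℂ → ℂ} (hd : DifferentiableOn ℂ E₁ (ball 0 1))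
    (hb : ∀ v ∈ ball (0:ℂ) 1, ‖deriv E₁ v‖ * (1 - ‖v‖) ≤ C) {θ θ' : ℝ} (h : |θ - θ'| ≤ 2 * Real.pi / N) :
    ‖E₁ (circleMap 0 (1 - 1 / ((N:ℝ) + 1)) θ) - E₁ (circleMap 0 (1 - 1 / ((N:ℝ) + 1)) θ')‖ ≤ 13 * C := by
  have hNr : (2:ℝ) ≤ N := by exact_mod_cast hN
  have hN0 : (0:ℝ) < N := by linarith
  obtain ⟨ρ, hρ⟩ : ∃ ρ : ℝ, ρ = 1 - 1 / ((N:ℝ) + 1) := ⟨_, rfl⟩
  rw [← hρ]
  have hρ2 : 0 < 1 / ((N:ℝ) + 1) := by positivity
  have hρ4 : 1 / ((N:ℝ) + 1) ≤ 1 := by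
    rw [div_le_one (by linarith)]
    linarith
  have hρ0 : 0 ≤ ρ := by linarith
  have hρ1 : ρ < 1 := by linarith
  have h1 := bloch_lip hd hb hρ1 (u := circleMap 0 ρ θ) (v := circleMap 0 ρ θ')
    (by rw [norm_circleMap_zero, abs_of_nonneg hρ0]) (by rw [norm_circleMap_zero, abs_of_nonneg hρ0])
  refine h1.trans ?_
  have h2 : ‖circleMap 0 ρ θ - circleMap 0 ρ θ'‖ ≤ |θ - θ'| := by
    have h3 := (lipschitzWith_circleMap 0 ρ).dist_le_mul θ θ'
    rw [dist_eq_norm, Real.dist_eq] at h3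
    refine h3.trans ?_
    have h4 : ((Real.nnabs ρ : NNReal) : ℝ) ≤ 1 := by
      rw [Real.coe_nnabs, abs_of_nonneg hρ0]
      exact hρ1.le
    calc _ ≤ 1 * |θ - θ'| := by gcongr
      _ = _ := one_mul _
  have h3 : C / (1 - ρ) = C * (N + 1) := by
    rw [hρ]
    field_simp
    ring
  rw [h3]
  have hpi := Real.pi_lt_d2
  have hpi0 := Real.pi_pos
  calc C * (N + 1) * ‖circleMap 0 ρ θ - circleMap 0 ρ θ'‖ ≤ C * (N + 1) * (2 * Real.pi / N) := by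
        gcongr
        exact h2.trans h
    _ = C * (2 * Real.pi * ((N + 1) / N)) := by ring
    _ ≤ C * (2 * Real.pi * 2) := by
        gcongr
        rw [div_le_iff₀ hN0]
        linarith
    _ ≤ 13 * C := by nlinarith

end E2

open E2 in
theorem pLow (h1 : S_fe1) (h2 : S_fe2) (h3 : S_mean) (h4 : S_sig) : S_low := by
  intro C hC
  obtain ⟨N₁, K₁, hN₁, hK₁, hfe⟩ := h1 C hC
  refine ⟨max N₁ ⌈4 * K₁ ^ 2⌉₊, (6 * C + 4 * C * K₁) + 13 * C, hN₁.trans (le_max_left _ _), by nlinarith, ?_⟩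
  intro N hN q E E₁ B
  have hN2 : 2 ≤ N := hN₁.trans ((le_max_left _ _).trans hN)
  have hNK : 4 * K₁ ^ 2 ≤ N := by
    have h5 := Nat.le_ceil (4 * K₁ ^ 2)
    have h6 : ((⌈4 * K₁ ^ 2⌉₊ : ℕ) : ℝ) ≤ N := by exact_mod_cast (le_max_right _ _).trans hN
    linarith
  have hNr : (2:ℝ) ≤ N := by exact_mod_cast hN2
  have hN0 : (0:ℝ) < N := by linarith
  obtain ⟨P, hPd, hP⟩ := hfe N ((le_max_left _ _).trans hN) q E E₁ B
  obtain ⟨hinj, G, hGd, hG0, hGexp, hGeq⟩ := h2 C N hC hN2 q E E₁ B P hPd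
    fun v hv => ⟨(hP v hv).2.1, (hP v hv).2.2⟩
  refine ⟨_, _, h4 P G hPd hGd hG0 hinj hGexp, ?_⟩
  intro t
  obtain ⟨M, hM⟩ : ∃ M : ℝ, ∀ v ∈ closedBall (0:ℂ) (1 / 2), ‖G v‖ ≤ M := by
    refine (isCompact_closedBall (0:ℂ) (1 / 2)).exists_bound_of_continuousOn ?_
    exact hGd.continuousOn.mono (closedBall_subset_ball (by norm_num))
  obtain ⟨L, hL⟩ : ∃ L, L = √(Real.log N) := ⟨_, rfl⟩
  have hL0 : 0 ≤ L := by rw [hL]; exact Real.sqrt_nonneg _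
  have hpi := Real.pi_pos
  obtain ⟨ρ, hρ⟩ : ∃ ρ : ℝ, ρ = 1 - 1 / ((N:ℝ) + 1) := ⟨_, rfl⟩
  have hρ2 : 0 < 1 / ((N:ℝ) + 1) := by positivity
  have hρ4 : 1 / ((N:ℝ) + 1) ≤ 1 := by
    rw [div_le_one (by linarith)]
    linarith
  have hρ0 : 0 ≤ ρ := by linarith
  have hρ1 : ρ < 1 := by linarith
  -- the function `a`
  obtain ⟨a, ha⟩ : ∃ a : ℝ → ℝ, a = fun θ => ‖Complex.exp (t * E₁ (circleMap 0 ρ θ))‖ := ⟨_, rfl⟩
  have hac : Continuous a := by rw [ha]; exact cont_exp B.dE₁ t hρ0 hρ1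
  have hap : Function.Periodic a (2 * Real.pi) := by
    intro θ
    rw [ha]
    show ‖Complex.exp (t * E₁ (circleMap 0 ρ (θ + 2 * Real.pi)))‖ = _
    rw [periodic_circleMap 0 ρ θ]
  have ha0 : ∀ θ, 0 < a θ := by
    intro θ
    rw [ha]
    exact norm_pos_iff.2 (Complex.exp_ne_zero _)
  have hκ : 0 ≤ 13 * C * ‖t‖ := by positivity
  have hmean := h3 a (13 * C * ‖t‖) N hac hap ha0 (by omega) hκ (by
    intro θ θ' h
    rw [ha]
    refine exp_move ?_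
    rw [hρ]
    exact osc hC hN2 B.dE₁ B.bloch h)
  refine ⟨Real.exp (-(‖t‖ * (2 * (K₁ * (1 + L)) + M))), Real.exp_pos _, ?_⟩
  intro k
  obtain ⟨R, hR⟩ : ∃ R : ℝ, R = (2:ℝ) ^ ((1:ℝ) / (N:ℝ) ^ k) := ⟨_, rfl⟩
  rw [← hR, ← hρ, ← hL]
  have hR1 : 1 < R := by rw [hR]; exact Real.one_lt_rpow (by norm_num) (by positivity)
  have hR0 : 0 < R := by linarith
  have hRk : R ^ N ^ k = 2 := by
    rw [hR, ← Real.rpow_natCast, ← Real.rpow_mul (by norm_num)]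
    push_cast
    rw [one_div_mul_cancel (by positivity), Real.rpow_one]
  obtain ⟨r, hr⟩ : ∃ r : ℝ, r = R⁻¹ := ⟨_, rfl⟩
  have hr0 : 0 < r := by rw [hr]; positivity
  have hr1 : r < 1 := by rw [hr]; exact inv_lt_one_of_one_lt₀ hR1
  have hrk : r ^ N ^ k = 1 / 2 := by rw [hr, inv_pow, hRk, one_div]
  -- the function which is integrated
  obtain ⟨g, hg⟩ : ∃ g : ℝ → ℝ, g = fun θ => ‖Complex.exp (t * (G (circleMap 0 r θ) + P (circleMap 0 r θ) - P 0))‖ :=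
    ⟨_, rfl⟩
  have hgc : Continuous g := by
    have := cont_exp (H := fun v => G v + P v - P 0) ((hGd.add hPd).sub (differentiableOn_const _)) t hr0.le hr1
    rw [hg]
    exact this
  have hgp : Function.Periodic g (2 * Real.pi) := by
    intro θ
    rw [hg]
    show ‖Complex.exp (t * (G (circleMap 0 r (θ + 2 * Real.pi)) + P (circleMap 0 r (θ + 2 * Real.pi)) - P 0))‖ = _
    rw [periodic_circleMap 0 r θ]
  have hpm : pmean t R (fun z => G z⁻¹ + P z⁻¹ - P 0) = (1 / (2 * Real.pi)) * ∫ θ in (0:ℝ)..(2 * Real.pi), g θ := by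
    unfold pmean
    congr 1
    have e1 : ∀ θ : ℝ, ‖Complex.exp (t * (G (circ R θ)⁻¹ + P (circ R θ)⁻¹ - P 0))‖ = g (-θ) := by
      intro θ
      have e2 : (circ R θ)⁻¹ = circleMap 0 r (-θ) := by
        unfold circ
        rw [circleMap_zero, hr, mul_inv, ← Complex.exp_neg]
        push_cast
        ring_nf
      rw [e2, hg]
    simp only [e1]
    rw [intervalIntegral.integral_comp_neg]
    have e3 := hgp.intervalIntegral_add_eq (-(2 * Real.pi)) 0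
    rw [neg_add_cancel, zero_add] at e3
    rw [neg_zero]
    exact e3
  rw [hpm]
  -- the pointwise bound
  obtain ⟨K₂, hK₂⟩ : ∃ K₂, K₂ = 6 * C + 4 * C * K₁ := ⟨_, rfl⟩
  have hK₂0 : 0 ≤ K₂ := by rw [hK₂]; positivity
  have hpt : ∀ θ : ℝ, Real.exp (-(‖t‖ * (2 * (K₁ * (1 + L)) + M))) *
      (Real.exp (-(K₂ * ‖t‖ * (1 + L)))) ^ k * ∏ j ∈ Finset.range k, a ((N:ℝ) ^ j * θ) ≤ g θ := by
    intro θ
    obtain ⟨v, hv⟩ : ∃ v, v = circleMap 0 r θ := ⟨_, rfl⟩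
    have hvB : v ∈ ball (0:ℂ) 1 := by rw [hv]; exact circle_mem hr0.le hr1 θ
    have hit := iter (by omega : 1 ≤ N) hGeq hvB k
    have hlast : ‖G (v ^ N ^ k)‖ ≤ M := by
      apply hM
      rw [mem_closedBall_zero_iff, norm_pow, hv, norm_circleMap_zero, abs_of_nonneg hr0.le, hrk]
    have hterm : ∀ j ∈ Finset.range k, ‖E (v ^ N ^ j * Complex.exp (-P ((v ^ N ^ j) ^ N) / N)) -
        E₁ (circleMap 0 ρ ((N:ℝ) ^ j * θ))‖ ≤ K₂ * (1 + L) := by
      intro j hj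
      rw [Finset.mem_range] at hj
      have e1 : v ^ N ^ j = circleMap 0 (r ^ N ^ j) ((N:ℝ) ^ j * θ) := by
        rw [hv, circleMap_pow']
        push_cast
        rfl
      rw [e1, hρ, hK₂, hL]
      have hs1 : r ^ N ^ j < 1 := pow_lt_one₀ hr0.le hr1 (by positivity)
      refine close hC hK₁ hN2 hNK B (fun v hv => ⟨(hP v hv).1, (hP v hv).2.1⟩) ?_ hs1
      apply near_one hN2 (by positivity)
      have e2 : r ^ N ^ k = (r ^ N ^ j) ^ N ^ (k - j) := by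
        rw [← pow_mul, ← pow_add]
        congr 2
        omega
      rw [← hrk, e2]
      apply pow_le_pow_of_le_one (by positivity) hs1.le
      calc N = N ^ 1 := (pow_one N).symm
        _ ≤ N ^ (k - j) := Nat.pow_le_pow_right (by omega) (by omega)
    have hprod : ∏ j ∈ Finset.range k, a ((N:ℝ) ^ j * θ) =
        ‖Complex.exp (t * ∑ j ∈ Finset.range k, E₁ (circleMap 0 ρ ((N:ℝ) ^ j * θ)))‖ := by
      rw [Finset.mul_sum, Complex.exp_sum, norm_prod, ha]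
    have hgθ : g θ = ‖Complex.exp (t * (G v + P v - P 0))‖ := by rw [hg, hv]
    rw [hprod, hgθ]
    have hdiff : ‖(∑ j ∈ Finset.range k, E₁ (circleMap 0 ρ ((N:ℝ) ^ j * θ))) - (G v + P v - P 0)‖ ≤
        k * (K₂ * (1 + L)) + (2 * (K₁ * (1 + L)) + M) := by
      have e1 : (∑ j ∈ Finset.range k, E₁ (circleMap 0 ρ ((N:ℝ) ^ j * θ))) - (G v + P v - P 0) =
          (∑ j ∈ Finset.range k, (E₁ (circleMap 0 ρ ((N:ℝ) ^ j * θ)) -
            E (v ^ N ^ j * Complex.exp (-P ((v ^ N ^ j) ^ N) / N)))) + (P 0 - P v - G (v ^ N ^ k)) := by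
        rw [hit, Finset.sum_sub_distrib]
        ring
      rw [e1]
      refine (norm_add_le _ _).trans (add_le_add ?_ ?_)
      · refine (norm_sum_le_of_le (n := fun _ => K₂ * (1 + L)) _ fun j hj => ?_).trans ?_
        · rw [norm_sub_rev]
          exact hterm j hj
        · rw [Finset.sum_const, Finset.card_range, nsmul_eq_mul]
      · have h0 : (0:ℂ) ∈ ball (0:ℂ) 1 := by simp
        have g1 := (hP 0 h0).1
        have g2 := (hP v hvB).1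
        rw [← hL] at g1 g2
        calc ‖P 0 - P v - G (v ^ N ^ k)‖ ≤ ‖P 0 - P v‖ + ‖G (v ^ N ^ k)‖ := norm_sub_le _ _
          _ ≤ ‖P 0‖ + ‖P v‖ + ‖G (v ^ N ^ k)‖ := by gcongr; exact norm_sub_le _ _
          _ ≤ _ := by linarith
    have h5 := exp_move (t := t) hdiff
    have h6 : Real.exp (-(‖t‖ * (2 * (K₁ * (1 + L)) + M))) * (Real.exp (-(K₂ * ‖t‖ * (1 + L)))) ^ k =
        (Real.exp ((k * (K₂ * (1 + L)) + (2 * (K₁ * (1 + L)) + M)) * ‖t‖))⁻¹ := by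
      rw [← Real.exp_nat_mul, ← Real.exp_add, ← Real.exp_neg]
      congr 1
      ring
    rw [h6, inv_mul_le_iff₀ (Real.exp_pos _)]
    exact h5
  -- integration
  have hint : Real.exp (-(‖t‖ * (2 * (K₁ * (1 + L)) + M))) * (Real.exp (-(K₂ * ‖t‖ * (1 + L)))) ^ k *
      ∫ θ in (0:ℝ)..(2 * Real.pi), ∏ j ∈ Finset.range k, a ((N:ℝ) ^ j * θ) ≤
      ∫ θ in (0:ℝ)..(2 * Real.pi), g θ := by
    rw [← intervalIntegral.integral_const_mul]
    apply intervalIntegral.integral_mono_on (by positivity)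
    · apply Continuous.intervalIntegrable
      exact continuous_const.mul (continuous_finset_prod _ fun j _ => hac.comp (continuous_const.mul continuous_id))
    · exact hgc.intervalIntegrable _ _
    · intro θ _
      exact hpt θ
  have hmk := hmean k
  have hI : (∫ θ in (0:ℝ)..(2 * Real.pi), ‖Complex.exp (t * E₁ (circleMap 0 ρ θ))‖) = ∫ θ in (0:ℝ)..(2 * Real.pi), a θ := by
    rw [ha]
  rw [hI]
  obtain ⟨I, hIdef⟩ : ∃ I, I = (1 / (2 * Real.pi)) * ∫ θ in (0:ℝ)..(2 * Real.pi), a θ := ⟨_, rfl⟩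
  obtain ⟨J, hJ⟩ : ∃ J, J = ∫ θ in (0:ℝ)..(2 * Real.pi), ∏ j ∈ Finset.range k, a ((N:ℝ) ^ j * θ) := ⟨_, rfl⟩
  rw [← hIdef, ← hJ] at hmk
  rw [← hJ] at hint
  rw [← hIdef, ← hK₂]
  have hI0 : 0 ≤ I := by
    rw [hIdef]
    exact mul_nonneg (by positivity) (intervalIntegral.integral_nonneg (by positivity) fun θ _ => (ha0 θ).le)
  have ht0 : 0 ≤ ‖t‖ := norm_nonneg t
  have hstep : Real.exp (-((K₂ + 13 * C) * ‖t‖ * (1 + L))) * I ≤
      Real.exp (-(K₂ * ‖t‖ * (1 + L))) * (Real.exp (-(13 * C * ‖t‖)) * I) := by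
    rw [← mul_assoc, ← Real.exp_add]
    apply mul_le_mul_of_nonneg_right _ hI0
    apply Real.exp_le_exp.2
    have : 0 ≤ 13 * C * ‖t‖ * L := by positivity
    nlinarith
  calc Real.exp (-(‖t‖ * (2 * (K₁ * (1 + L)) + M))) * (Real.exp (-((K₂ + 13 * C) * ‖t‖ * (1 + L))) * I) ^ k
      ≤ Real.exp (-(‖t‖ * (2 * (K₁ * (1 + L)) + M))) *
        (Real.exp (-(K₂ * ‖t‖ * (1 + L))) * (Real.exp (-(13 * C * ‖t‖)) * I)) ^ k := by
        gcongr
    _ = Real.exp (-(‖t‖ * (2 * (K₁ * (1 + L)) + M))) * (Real.exp (-(K₂ * ‖t‖ * (1 + L)))) ^ k *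
        (Real.exp (-(13 * C * ‖t‖)) * I) ^ k := by
        rw [mul_pow (Real.exp (-(K₂ * ‖t‖ * (1 + L))))]
        ring
    _ ≤ Real.exp (-(‖t‖ * (2 * (K₁ * (1 + L)) + M))) * (Real.exp (-(K₂ * ‖t‖ * (1 + L)))) ^ k *
        (1 / (2 * Real.pi) * J) := by
        gcongr
    _ = (1 / (2 * Real.pi)) * (Real.exp (-(‖t‖ * (2 * (K₁ * (1 + L)) + M))) *
        (Real.exp (-(K₂ * ‖t‖ * (1 + L)))) ^ k * J) := by ring
    _ ≤ _ := by gcongr

end Pool.Agent.Z55U
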