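import Mathlib
import Pool.Agent.Z55U.Stm

/-! # Piece C1: existence of the solution of the functional equation -/

set_option autoImplicit false
open Complex Filter Topology Set Metric MeasureTheory

namespace Pool.Agent.Z55U

/-- `v e^{-P (v^N)/N}` -/
noncomputable def ww (P : ℂ → ℂ) (N : ℕ) (v : ℂ) : ℂ := v * Complex.exp (-P (v ^ N) / N)

/-- the iteration -/
noncomputable def itP (q : ℂ → ℂ) (N : ℕ) : ℕ → ℂ → ℂ
  | 0 => fun _ => ((Real.log 3 : ℝ) : ℂ)
  | k + 1 => fun v => itP q N k (v ^ N) / N + q (ww (itP q N k) N v)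

theorem pow_mem {N : ℕ} (hN : 2 ≤ N) {v : ℂ} (hv : v ∈ ball (0:ℂ) 1) : v ^ N ∈ ball (0:ℂ) 1 := by
  rw [mem_ball_zero_iff] at hv ⊢
  rw [norm_pow]
  exact pow_lt_one₀ (norm_nonneg _) hv (by omega)

theorem ww_pow (P : ℂ → ℂ) {N : ℕ} (hN : 2 ≤ N) (v : ℂ) : ww P N v ^ N = v ^ N * Complex.exp (-P (v ^ N)) := by
  unfold ww
  rw [mul_pow, ← Complex.exp_nat_mul]
  congr 2
  have : (N:ℂ) ≠ 0 := by
    have : N ≠ 0 := by omega
    exact_mod_cast this
  field_simp

theorem ww_le {P : ℂ → ℂ} {N : ℕ} (hN : 2 ≤ N) (h : ∀ v ∈ ball (0:ℂ) 1, ‖v * Complex.exp (-P v)‖ ≤ 1 / 3) {v : ℂ}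
    (hv : v ∈ ball (0:ℂ) 1) : ‖ww P N v‖ ≤ 1 - 1 / (2 * N) := by
  have hN0 : (0:ℝ) < N := by
    have : 0 < N := by omega
    exact_mod_cast this
  have hN2 : (2:ℝ) ≤ N := by exact_mod_cast hN
  have h1 : ‖ww P N v‖ ^ N ≤ 1 / 3 := by
    rw [← norm_pow, ww_pow P hN]
    exact h _ (pow_mem hN hv)
  have h3 : (1:ℝ) / (2 * N) ≤ 1 := by
    rw [div_le_one (by positivity)]
    linarith
  have h2 : (1:ℝ) / 2 ≤ (1 - 1 / (2 * N)) ^ N := by
    have := one_add_mul_le_pow (a := -(1 / (2 * (N:ℝ)))) (by linarith) N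
    have e : 1 + (N:ℝ) * -(1 / (2 * (N:ℝ))) = 1 / 2 := by
      field_simp
      norm_num
    rw [e] at this
    simpa [sub_eq_add_neg] using this
  have h4 : ‖ww P N v‖ ^ N < (1 - 1 / (2 * N)) ^ N := by linarith
  exact (lt_of_pow_lt_pow_left₀ N (by linarith) h4).le

theorem ww_mem {P : ℂ → ℂ} {N : ℕ} (hN : 2 ≤ N) (h : ∀ v ∈ ball (0:ℂ) 1, ‖v * Complex.exp (-P v)‖ ≤ 1 / 3) {v : ℂ}
    (hv : v ∈ ball (0:ℂ) 1) : ww P N v ∈ ball (0:ℂ) 1 := by
  rw [mem_ball_zero_iff]
  refine (ww_le hN h hv).trans_lt ?_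
  have hN0 : (0:ℝ) < N := by
    have : 0 < N := by omega
    exact_mod_cast this
  have : 0 < 1 / (2 * (N:ℝ)) := by positivity
  linarith

theorem exp_sub_le {a b : ℂ} {M : ℝ} (ha : a.re ≤ M) (hb : b.re ≤ M) :
    ‖Complex.exp a - Complex.exp b‖ ≤ Real.exp M * ‖a - b‖ := by
  refine (convex_halfSpace_re_le M).norm_image_sub_le_of_norm_deriv_le (𝕜 := ℂ) (f := Complex.exp) ?_ ?_ ?_ ?_
  · intro x _
    exact Complex.differentiableAt_exp
  · intro x hx
    rw [Complex.deriv_exp, Complex.norm_exp]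
    exact Real.exp_le_exp.2 hx
  · exact hb
  · exact ha

section

variable {C : ℝ} {q E E₁ : ℂ → ℂ} {N : ℕ}

theorem it_small (hN : 2 ≤ N) (B : Blk C q E E₁) (k : ℕ) :
    ∀ v ∈ ball (0:ℂ) 1, ‖v * Complex.exp (-itP q N k v)‖ ≤ 1 / 3 := by
  induction k with
  | zero =>
    intro v hv
    rw [mem_ball_zero_iff] at hv
    show ‖v * Complex.exp (-((Real.log 3 : ℝ) : ℂ))‖ ≤ 1 / 3
    rw [norm_mul, Complex.norm_exp, Complex.neg_re, Complex.ofReal_re, Real.exp_neg, Real.exp_log (by norm_num)]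
    nlinarith [norm_nonneg v]
  | succ k ih =>
    intro v hv
    have h1 := B.small (ww (itP q N k) N v) (ww_mem hN ih hv)
    have e : v * Complex.exp (-itP q N (k + 1) v) = ww (itP q N k) N v * Complex.exp (-q (ww (itP q N k) N v)) := by
      show v * Complex.exp (-(itP q N k (v ^ N) / N + q (ww (itP q N k) N v))) = _
      rw [neg_add, Complex.exp_add, ← mul_assoc, ← neg_div]
      rfl
    rw [e]
    exact h1

theorem ww_diff {P : ℂ → ℂ} (hN : 2 ≤ N) (hP : DifferentiableOn ℂ P (ball 0 1)) : DifferentiableOn ℂ (ww P N) (ball 0 1) := by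
  have h1 : DifferentiableOn ℂ (fun v : ℂ => P (v ^ N)) (ball 0 1) :=
    hP.comp (differentiableOn_id.pow N) fun v hv => pow_mem hN hv
  exact differentiableOn_id.mul ((h1.neg.div_const _).cexp)

theorem it_diff (hN : 2 ≤ N) (B : Blk C q E E₁) (k : ℕ) : DifferentiableOn ℂ (itP q N k) (ball 0 1) := by
  induction k with
  | zero => exact differentiableOn_const _
  | succ k ih =>
    have h1 : DifferentiableOn ℂ (fun v : ℂ => itP q N k (v ^ N)) (ball 0 1) :=
      ih.comp (differentiableOn_id.pow N) fun v hv => pow_mem hN hv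
    exact (h1.div_const _).add (B.dq.comp (ww_diff hN ih) fun v hv => ww_mem hN (it_small hN B k) hv)

/-- the bound for `q` at height `1/(2N)` -/
theorem q_bd (hC : 1 ≤ C) (hN : 2 ≤ N) (B : Blk C q E E₁) {x : ℂ} (hx : ‖x‖ ≤ 1 - 1 / (2 * N)) :
    ‖q x‖ ≤ 2 * C * (1 + √(Real.log N)) := by
  have hN2 : (2:ℝ) ≤ N := by exact_mod_cast hN
  have hN0 : (0:ℝ) < N := by linarith
  have h0 : 0 < 1 / (2 * (N:ℝ)) := by positivity
  have hm : x ∈ ball (0:ℂ) 1 := by
    rw [mem_ball_zero_iff]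
    linarith
  refine (B.qle x hm).trans ?_
  have h1 : -Real.log (1 - ‖x‖) ≤ Real.log 2 + Real.log N := by
    have h2 : Real.log (1 / (2 * (N:ℝ))) ≤ Real.log (1 - ‖x‖) := Real.log_le_log h0 (by linarith)
    rw [one_div, Real.log_inv, Real.log_mul (by norm_num) hN0.ne'] at h2
    linarith
  have hl2 : Real.log 2 ≤ 1 := by
    have := Real.log_two_lt_d9
    linarith
  have hlN : 0 ≤ Real.log N := Real.log_nonneg (by linarith)
  have h3 : √(-Real.log (1 - ‖x‖)) ≤ 1 + √(Real.log N) := by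
    apply Real.sqrt_le_iff.2
    have hs := Real.sqrt_nonneg (Real.log N)
    refine ⟨by positivity, ?_⟩
    have e : (1 + √(Real.log N)) ^ 2 = 1 + 2 * √(Real.log N) + Real.log N := by
      rw [add_sq, Real.sq_sqrt hlN]
      ring
    rw [e]
    linarith
  have hs := Real.sqrt_nonneg (Real.log N)
  nlinarith

theorem it_bd (hC : 1 ≤ C) (hN : 2 ≤ N) (B : Blk C q E E₁) (k : ℕ) :
    ∀ v ∈ ball (0:ℂ) 1, ‖itP q N k v‖ ≤ 4 * C * (1 + √(Real.log N)) := by
  have hN2 : (2:ℝ) ≤ N := by exact_mod_cast hN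
  have hs := Real.sqrt_nonneg (Real.log N)
  induction k with
  | zero =>
    intro v _
    show ‖((Real.log 3 : ℝ) : ℂ)‖ ≤ _
    rw [Complex.norm_real, Real.norm_of_nonneg (Real.log_nonneg (by norm_num))]
    have h1 : Real.log 3 ≤ 3 - 1 := Real.log_le_sub_one_of_pos (by norm_num)
    nlinarith [mul_nonneg (by linarith : (0:ℝ) ≤ C) hs]
  | succ k ih =>
    intro v hv
    have h1 := ih _ (pow_mem hN hv)
    have h2 := q_bd hC hN B (ww_le hN (it_small hN B k) hv)
    show ‖itP q N k (v ^ N) / N + q (ww (itP q N k) N v)‖ ≤ _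
    have h3 : ‖itP q N k (v ^ N) / N‖ ≤ 2 * C * (1 + √(Real.log N)) := by
      rw [norm_div, Complex.norm_natCast, div_le_iff₀ (by linarith)]
      have : 0 ≤ 2 * C * (1 + √(Real.log N)) := by positivity
      nlinarith
    refine (norm_add_le _ _).trans ?_
    linarith

/-- one step of the iteration -/
theorem it_step (hC : 1 ≤ C) (hN : 2 ≤ N) (B : Blk C q E E₁) {L : ℝ} (hL : 0 ≤ L) {v : ℂ} (hv : v ∈ ball (0:ℂ) 1) (k : ℕ)
    (hq : ‖q (ww (itP q N (k + 1)) N v) - q (ww (itP q N k) N v)‖ ≤ L * ‖ww (itP q N (k + 1)) N v - ww (itP q N k) N v‖) :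
    ‖itP q N (k + 2) v - itP q N (k + 1) v‖ ≤
      (1 + L * ‖v‖ * Real.exp (4 * C * (1 + √(Real.log N)) / N)) / N * ‖itP q N (k + 1) (v ^ N) - itP q N k (v ^ N)‖ := by
  have hN2 : (2:ℝ) ≤ N := by exact_mod_cast hN
  have hN0 : (0:ℝ) < N := by linarith
  set δ := ‖itP q N (k + 1) (v ^ N) - itP q N k (v ^ N)‖ with hδ
  have e : itP q N (k + 2) v - itP q N (k + 1) v = (itP q N (k + 1) (v ^ N) - itP q N k (v ^ N)) / N +
      (q (ww (itP q N (k + 1)) N v) - q (ww (itP q N k) N v)) := by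
    show (itP q N (k + 1) (v ^ N) / N + q (ww (itP q N (k + 1)) N v)) - (itP q N k (v ^ N) / N + q (ww (itP q N k) N v)) = _
    ring
  have h1 : ‖(itP q N (k + 1) (v ^ N) - itP q N k (v ^ N)) / (N:ℂ)‖ = δ / N := by
    rw [norm_div, Complex.norm_natCast]
  have hre : ∀ j : ℕ, (-itP q N j (v ^ N) / (N:ℂ)).re ≤ 4 * C * (1 + √(Real.log N)) / N := by
    intro j
    have g1 := it_bd hC hN B j _ (pow_mem hN hv)
    refine (Complex.re_le_norm _).trans ?_
    rw [norm_div, norm_neg, Complex.norm_natCast]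
    gcongr
  have h2 : ‖ww (itP q N (k + 1)) N v - ww (itP q N k) N v‖ ≤
      ‖v‖ * (Real.exp (4 * C * (1 + √(Real.log N)) / N) * (δ / N)) := by
    unfold ww
    rw [← mul_sub, norm_mul]
    gcongr
    refine (exp_sub_le (hre (k + 1)) (hre k)).trans (le_of_eq ?_)
    congr 1
    rw [← sub_div, neg_sub_neg, norm_div, Complex.norm_natCast, norm_sub_rev]
  rw [e]
  refine (norm_add_le _ _).trans ?_
  rw [h1]
  calc δ / N + ‖q (ww (itP q N (k + 1)) N v) - q (ww (itP q N k) N v)‖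
      ≤ δ / N + L * (‖v‖ * (Real.exp (4 * C * (1 + √(Real.log N)) / N) * (δ / N))) := by
        gcongr
        exact hq.trans (by gcongr)
    _ = _ := by ring

/-- a Lipschitz constant of `q` on a closed ball -/
theorem q_lip (B : Blk C q E E₁) {r : ℝ} (hr : r < 1) : ∃ L : ℝ, 0 ≤ L ∧ ∀ x y : ℂ, ‖x‖ ≤ r → ‖y‖ ≤ r → ‖q x - q y‖ ≤ L * ‖x - y‖ := by
  have hsub : closedBall (0:ℂ) r ⊆ ball 0 1 := closedBall_subset_ball hr
  have hc : ContinuousOn (deriv q) (closedBall (0:ℂ) r) := ((B.dq.deriv isOpen_ball).continuousOn).mono hsub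
  obtain ⟨L, hL⟩ := (isCompact_closedBall (0:ℂ) r).exists_bound_of_continuousOn hc
  refine ⟨max L 0, le_max_right _ _, ?_⟩
  intro x y hx hy
  refine (convex_closedBall (0:ℂ) r).norm_image_sub_le_of_norm_deriv_le (𝕜 := ℂ) (f := q) ?_ ?_ ?_ ?_
  · intro z hz
    exact B.dq.differentiableAt (isOpen_ball.mem_nhds (hsub hz))
  · intro z hz
    exact (hL z hz).trans (le_max_left _ _)
  · exact mem_closedBall_zero_iff.2 hy
  · exact mem_closedBall_zero_iff.2 hx

/-- an explicit Lipschitz constant on the ball of radius `3/4` -/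
theorem q_lip34 (hC : 1 ≤ C) (B : Blk C q E E₁) {x y : ℂ} (hx : ‖x‖ ≤ 3 / 4) (hy : ‖y‖ ≤ 3 / 4) :
    ‖q x - q y‖ ≤ 32 * C * ‖x - y‖ := by
  have hsub : closedBall (0:ℂ) (3 / 4) ⊆ ball 0 1 := closedBall_subset_ball (by norm_num)
  have hb : ∀ z : ℂ, ‖z‖ ≤ 7 / 8 → ‖q z‖ ≤ 4 * C := by
    intro z hz
    have hm : z ∈ ball (0:ℂ) 1 := by
      rw [mem_ball_zero_iff]
      linarith
    refine (B.qle z hm).trans ?_
    have h1 : -Real.log (1 - ‖z‖) ≤ 9 := by
      have h2 : Real.log (1 / 8) ≤ Real.log (1 - ‖z‖) := Real.log_le_log (by norm_num) (by linarith)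
      have h3 : Real.log (1 / 8) = -Real.log 8 := by rw [one_div, Real.log_inv]
      have h4 : Real.log 8 ≤ 8 - 1 := Real.log_le_sub_one_of_pos (by norm_num)
      linarith
    have h5 : √(-Real.log (1 - ‖z‖)) ≤ 3 := by
      apply Real.sqrt_le_iff.2
      refine ⟨by norm_num, by linarith⟩
    nlinarith
  refine (convex_closedBall (0:ℂ) (3 / 4)).norm_image_sub_le_of_norm_deriv_le (𝕜 := ℂ) (f := q) ?_ ?_ ?_ ?_
  · intro z hz
    exact B.dq.differentiableAt (isOpen_ball.mem_nhds (hsub hz))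
  · intro z hz
    rw [mem_closedBall_zero_iff] at hz
    have hs : closedBall z (1 / 8) ⊆ ball 0 1 := by
      intro w hw
      rw [mem_closedBall_iff_norm] at hw
      rw [mem_ball_zero_iff]
      have := norm_add_le (w - z) z
      rw [sub_add_cancel] at this
      linarith
    have h1 := Complex.norm_deriv_le_of_forall_mem_sphere_norm_le (c := z) (R := 1 / 8) (C := 4 * C)
      (by norm_num) (B.dq.diffContOnCl_ball hs) (by
        intro w hw
        rw [mem_sphere_iff_norm] at hw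
        apply hb
        have := norm_add_le (w - z) z
        rw [sub_add_cancel, hw] at this
        linarith)
    refine h1.trans (le_of_eq ?_)
    ring
  · exact mem_closedBall_zero_iff.2 hy
  · exact mem_closedBall_zero_iff.2 hx

/-- geometric convergence on every smaller disc -/
theorem it_geom (hC : 1 ≤ C) (hN : 2 ≤ N) (B : Blk C q E E₁)
    (hs1 : Real.exp (4 * C * (1 + √(Real.log N)) / N) ≤ 3 / 2) (hs2 : 2 * (1 + 32 * C) ≤ N) (m : ℕ) :
    ∃ A : ℝ, 0 ≤ A ∧ ∀ (k : ℕ) (v : ℂ), v ∈ ball (0:ℂ) 1 → ‖v‖ ^ (N ^ m) ≤ 1 / 2 →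
      ‖itP q N (k + 1) v - itP q N k v‖ ≤ A * (1 / 2) ^ k := by
  have hN2 : (2:ℝ) ≤ N := by exact_mod_cast hN
  have hN0 : (0:ℝ) < N := by linarith
  have hs := Real.sqrt_nonneg (Real.log N)
  have hC0 : 0 ≤ C := by linarith
  set M := 4 * C * (1 + √(Real.log N)) with hM
  have hM0 : 0 ≤ M := by positivity
  have hbase : ∀ v ∈ ball (0:ℂ) 1, ‖itP q N 1 v - itP q N 0 v‖ ≤ 2 * M := by
    intro v hv
    have h1 := it_bd hC hN B 1 v hv
    have h2 := it_bd hC hN B 0 v hv
    refine (norm_sub_le _ _).trans ?_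
    linarith
  induction m with
  | zero =>
    refine ⟨2 * M, by positivity, ?_⟩
    intro k
    induction k with
    | zero =>
      intro v hv _
      rw [pow_zero, mul_one]
      exact hbase v hv
    | succ k ih =>
      intro v hv hv2
      rw [pow_zero, pow_one] at hv2
      have hw : ∀ j : ℕ, ‖ww (itP q N j) N v‖ ≤ 3 / 4 := by
        intro j
        unfold ww
        rw [norm_mul, Complex.norm_exp]
        have g1 := it_bd hC hN B j _ (pow_mem hN hv)
        have g2 : (-itP q N j (v ^ N) / (N:ℂ)).re ≤ M / N := by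
          refine (Complex.re_le_norm _).trans ?_
          rw [norm_div, norm_neg, Complex.norm_natCast]
          gcongr
        have g3 := (Real.exp_le_exp.2 g2).trans hs1
        have := Real.exp_pos (-itP q N j (v ^ N) / (N:ℂ)).re
        nlinarith [norm_nonneg v]
      have h1 := it_step hC hN B (L := 32 * C) (by positivity) hv k (q_lip34 hC B (hw (k + 1)) (hw k))
      have hp : ‖v ^ N‖ ≤ 1 / 2 := by
        rw [norm_pow]
        calc ‖v‖ ^ N ≤ ‖v‖ ^ 1 := pow_le_pow_of_le_one (norm_nonneg _) (by linarith) (by omega)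
          _ ≤ 1 / 2 := by rw [pow_one]; exact hv2
      have h2 := ih (v ^ N) (pow_mem hN hv) (by rwa [pow_zero, pow_one])
      refine h1.trans ?_
      have h3 : (1 + 32 * C * ‖v‖ * Real.exp (M / N)) / N ≤ 1 / 2 := by
        rw [div_le_iff₀ hN0]
        have : 32 * C * ‖v‖ * Real.exp (M / N) ≤ 32 * C * (1 / 2) * (3 / 2) := by gcongr
        nlinarith
      calc _ ≤ 1 / 2 * (2 * M * (1 / 2) ^ k) := by
            gcongr
        _ = 2 * M * (1 / 2) ^ (k + 1) := by
            rw [pow_succ]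
            ring
  | succ m ih =>
    obtain ⟨A, hA, ih⟩ := ih
    have hr : 1 - 1 / (2 * (N:ℝ)) < 1 := by
      have : 0 < 1 / (2 * (N:ℝ)) := by positivity
      linarith
    obtain ⟨L, hL, hq⟩ := q_lip B hr
    set Λ := (1 + L * 1 * Real.exp (M / N)) / N with hΛ
    have hΛ0 : 0 ≤ Λ := by positivity
    refine ⟨2 * M + 2 * Λ * A, by positivity, ?_⟩
    intro k v hv hvm
    rcases k with _ | k
    · rw [pow_zero, mul_one]
      have := hbase v hv
      have : 0 ≤ 2 * Λ * A := by positivity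
      linarith [hbase v hv]
    · have h1 := it_step hC hN B hL hv k (hq _ _ (ww_le hN (it_small hN B (k + 1)) hv) (ww_le hN (it_small hN B k) hv))
      have h2 := ih k (v ^ N) (pow_mem hN hv) (by
        rw [norm_pow, ← pow_mul, ← pow_succ']
        exact hvm)
      have hv1 : ‖v‖ ≤ 1 := (mem_ball_zero_iff.1 hv).le
      calc _ ≤ Λ * (A * (1 / 2) ^ k) := by
            refine h1.trans ?_
            rw [hΛ]
            gcongr
        _ ≤ (2 * M + 2 * Λ * A) * (1 / 2) ^ (k + 1) := by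
            rw [pow_succ]
            have : 0 ≤ M * (1 / 2) ^ k := by positivity
            nlinarith

theorem exists_m (hN : 2 ≤ N) {v : ℂ} (hv : v ∈ ball (0:ℂ) 1) : ∃ m : ℕ, ‖v‖ ^ (N ^ m) < 1 / 2 := by
  have h1 : Tendsto (fun m : ℕ => N ^ m) atTop atTop := tendsto_pow_atTop_atTop_of_one_lt (by omega)
  have h2 := (tendsto_pow_atTop_nhds_zero_of_lt_one (norm_nonneg v) (mem_ball_zero_iff.1 hv)).comp h1
  exact (h2.eventually_lt_const (by norm_num : (0:ℝ) < 1 / 2)).exists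

/-- the limit -/
theorem exists_lim (hC : 1 ≤ C) (hN : 2 ≤ N) (B : Blk C q E E₁)
    (hs1 : Real.exp (4 * C * (1 + √(Real.log N)) / N) ≤ 3 / 2) (hs2 : 2 * (1 + 32 * C) ≤ N) :
    ∃ P : ℂ → ℂ, DifferentiableOn ℂ P (ball 0 1) ∧ ∀ v ∈ ball (0:ℂ) 1, ‖P v‖ ≤ 4 * C * (1 + √(Real.log N)) ∧
      ‖v * Complex.exp (-P (v ^ N) / N)‖ ≤ 1 - 1 / (2 * N) ∧
      P v = P (v ^ N) / N + q (v * Complex.exp (-P (v ^ N) / N)) := by
  have hg := it_geom hC hN B hs1 hs2
  have hconv : ∀ v ∈ ball (0:ℂ) 1, ∃ l : ℂ, Tendsto (fun k => itP q N k v) atTop (𝓝 l) := by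
    intro v hv
    obtain ⟨m, hm⟩ := exists_m hN hv
    obtain ⟨A, hA, hk⟩ := hg m
    apply cauchySeq_tendsto_of_complete
    refine cauchySeq_of_le_geometric (1 / 2) A (by norm_num) fun k => ?_
    rw [dist_comm, dist_eq_norm]
    exact hk k v hv hm.le
  classical
  set P : ℂ → ℂ := fun v => if h : v ∈ ball (0:ℂ) 1 then (hconv v h).choose else 0 with hPdef
  have hP : ∀ v ∈ ball (0:ℂ) 1, Tendsto (fun k => itP q N k v) atTop (𝓝 (P v)) := by
    intro v hv
    have : P v = (hconv v hv).choose := by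
      rw [hPdef]
      exact dif_pos hv
    rw [this]
    exact (hconv v hv).choose_spec
  have hsmall : ∀ v ∈ ball (0:ℂ) 1, ‖v * Complex.exp (-P v)‖ ≤ 1 / 3 := by
    intro v hv
    have h1 : Tendsto (fun k => ‖v * Complex.exp (-itP q N k v)‖) atTop (𝓝 ‖v * Complex.exp (-P v)‖) :=
      (((Complex.continuous_exp.tendsto _).comp (hP v hv).neg).const_mul v).norm
    exact le_of_tendsto h1 (Eventually.of_forall fun k => it_small hN B k v hv)
  refine ⟨P, ?_, ?_⟩
  · have hloc : TendstoLocallyUniformlyOn (fun k => itP q N k) P atTop (ball 0 1) := by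
      rw [Metric.tendstoLocallyUniformlyOn_iff]
      intro ε hε v hv
      obtain ⟨m, hm⟩ := exists_m hN hv
      obtain ⟨A, hA, hk⟩ := hg m
      have hopen : IsOpen ({x : ℂ | ‖x‖ ^ (N ^ m) < 1 / 2}) :=
        isOpen_lt (continuous_norm.pow _) continuous_const
      refine ⟨{x : ℂ | ‖x‖ ^ (N ^ m) < 1 / 2} ∩ ball 0 1, ?_, ?_⟩
      · apply mem_nhdsWithin_of_mem_nhds
        exact (hopen.inter isOpen_ball).mem_nhds ⟨hm, hv⟩
      · have h1 : Tendsto (fun k : ℕ => A * (1 / 2 : ℝ) ^ k / (1 - 1 / 2)) atTop (𝓝 0) := by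
          have := ((tendsto_pow_atTop_nhds_zero_of_lt_one (by norm_num : (0:ℝ) ≤ 1 / 2) (by norm_num)).const_mul A).div_const
            (1 - 1 / 2)
          simpa using this
        filter_upwards [h1.eventually_lt_const hε] with k hk2 x hx
        have h2 := dist_le_of_le_geometric_of_tendsto (1 / 2) A (by norm_num) (f := fun k => itP q N k x) (fun k => by
          rw [dist_comm, dist_eq_norm]
          exact hk k x hx.2 (le_of_lt hx.1)) (hP x hx.2) k
        rw [dist_comm]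
        exact h2.trans_lt hk2
    exact hloc.differentiableOn (Eventually.of_forall fun k => it_diff hN B k) isOpen_ball
  · intro v hv
    have hw := ww_le hN hsmall hv
    refine ⟨le_of_tendsto (hP v hv).norm (Eventually.of_forall fun k => it_bd hC hN B k v hv), hw, ?_⟩
    have h1 : Tendsto (fun k => itP q N (k + 1) v) atTop (𝓝 (P v)) := (tendsto_add_atTop_iff_nat 1).2 (hP v hv)
    have h2 : Tendsto (fun k => itP q N k (v ^ N) / (N:ℂ)) atTop (𝓝 (P (v ^ N) / N)) := (hP _ (pow_mem hN hv)).div_const _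
    have h3 : Tendsto (fun k => ww (itP q N k) N v) atTop (𝓝 (ww P N v)) := by
      unfold ww
      exact (((Complex.continuous_exp.tendsto _).comp ((hP _ (pow_mem hN hv)).neg.div_const (N:ℂ)))).const_mul v
    have hwm : ww P N v ∈ ball (0:ℂ) 1 := ww_mem hN hsmall hv
    have h4 : Tendsto (fun k => q (ww (itP q N k) N v)) atTop (𝓝 (q (ww P N v))) :=
      ((B.dq.continuousOn.continuousAt (isOpen_ball.mem_nhds hwm)).tendsto).comp h3
    exact tendsto_nhds_unique h1 (h2.add h4)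

end

theorem pFe1 : S_fe1 := by
  intro C hC
  have h1 : Tendsto (fun N : ℕ => 4 * C * (1 + √(Real.log N)) / (N:ℝ)) atTop (𝓝 0) := by
    have h2 : Tendsto (fun x : ℝ => 4 * C * (1 + √(Real.log x)) / x) atTop (𝓝 0) := by
      have h3 : Tendsto (fun x : ℝ => 1 / x) atTop (𝓝 0) := by
        simpa using tendsto_inv_atTop_zero (𝕜 := ℝ)
      have h4 : Tendsto (fun x : ℝ => (1 + Real.log x) / x) atTop (𝓝 0) := by
        have h5 : Tendsto (fun x : ℝ => Real.log x / x) atTop (𝓝 0) := by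
          have := Real.isLittleO_log_id_atTop.tendsto_div_nhds_zero
          simpa using this
        have := h3.add h5
        rw [add_zero] at this
        refine this.congr fun x => ?_
        rw [add_div]
      have h6 : Tendsto (fun x : ℝ => 4 * C * (2 * ((1 + Real.log x) / x))) atTop (𝓝 0) := by
        have := (h4.const_mul 2).const_mul (4 * C)
        simpa using this
      refine squeeze_zero' ?_ ?_ h6
      · filter_upwards [eventually_gt_atTop 0] with x hx
        positivity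
      · filter_upwards [eventually_ge_atTop 1] with x hx
        have hlog : 0 ≤ Real.log x := Real.log_nonneg hx
        have hsq : √(Real.log x) ≤ 1 + Real.log x := by
          apply Real.sqrt_le_iff.2
          refine ⟨by positivity, by nlinarith⟩
        have : 0 < x := by linarith
        rw [← mul_div_assoc, ← mul_div_assoc]
        gcongr
        linarith
    exact h2.comp tendsto_natCast_atTop_atTop
  have h2 : Tendsto (fun N : ℕ => Real.exp (4 * C * (1 + √(Real.log N)) / (N:ℝ))) atTop (𝓝 1) := by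
    have := (Real.continuous_exp.tendsto 0).comp h1
    rwa [Real.exp_zero] at this
  obtain ⟨N₁, hN₁⟩ := eventually_atTop.1 (h2.eventually_lt_const (by norm_num : (1:ℝ) < 3 / 2))
  obtain ⟨N₂, hN₂⟩ := exists_nat_ge (2 * (1 + 32 * C))
  refine ⟨max 2 (max N₁ N₂), 4 * C, le_max_left _ _, by linarith, ?_⟩
  intro N hN q E E₁ B
  have hN2 : 2 ≤ N := (le_max_left _ _).trans hN
  have hNN₁ : N₁ ≤ N := (le_max_left _ _).trans ((le_max_right _ _).trans hN)
  have hNN₂ : N₂ ≤ N := (le_max_right _ _).trans ((le_max_right _ _).trans hN)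
  have h3 : 2 * (1 + 32 * C) ≤ (N:ℝ) := hN₂.trans (by exact_mod_cast hNN₂)
  exact exists_lim hC hN2 B (hN₁ N hNN₁).le h3

end Pool.Agent.Z55U
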