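import Mathlib
import Pool.Agent.Z55U.C1

/-! # The universal map (MP_16b0ee_an): statements of the second round

The functional equation of the first round, now with a sequence of blocks: `Φ_i v = f_i (Φ_{i+1} (v ^ N_i) ^ (1/N_i))`,
`Φ_i v = v e^{-P_i v}`, `f_i v = v e^{-q_i v}`. With a suitable sequence of blocks one gets one single map in `Σ` whose
complex power means dominate all maps of `Σ`. -/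

set_option autoImplicit false
open Complex Filter Topology Set Metric MeasureTheory

namespace Pool.Agent.Z55U

open Pool.Agent.W677.Mar (Sg NN hat)
open Q90.SM (IsSig marshall pmean circ)

/-- a sequence of blocks with integers `N i ≥ 2` -/
structure Sys (C : ℝ) (N : ℕ → ℕ) (q E E₁ : ℕ → ℂ → ℂ) : Prop where
  two : ∀ i, 2 ≤ N i
  blk : ∀ i, Blk C (q i) (E i) (E₁ i)

/-- a solution `P` of the functional equations, `‖P i‖ ≤ p i` -/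
structure Sol (C : ℝ) (N : ℕ → ℕ) (q P : ℕ → ℂ → ℂ) (p : ℕ → ℝ) : Prop where
  dP : ∀ i, DifferentiableOn ℂ (P i) (ball 0 1)
  le : ∀ i, ∀ v ∈ ball (0:ℂ) 1, ‖P i v‖ ≤ p i
  half : ∀ i (v : ℂ), ‖v‖ ≤ 1 / 2 → ‖P i v‖ ≤ 6 * C
  w : ∀ i, ∀ v ∈ ball (0:ℂ) 1, ‖ww (P (i + 1)) (N i) v‖ ≤ 1 - 1 / (2 * (N i : ℝ))
  w34 : ∀ i (v : ℂ), ‖v‖ ≤ 1 / 2 → ‖ww (P (i + 1)) (N i) v‖ ≤ 3 / 4
  eq : ∀ i, ∀ v ∈ ball (0:ℂ) 1, P i v = P (i + 1) (v ^ N i) / N i + q i (ww (P (i + 1)) (N i) v)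

/-- the bounds `p i` dominate the recursion -/
def Pp (C : ℝ) (N : ℕ → ℕ) (p : ℕ → ℝ) : Prop :=
  (∀ i, 2 ≤ p i) ∧ ∀ i, p (i + 1) / 2 + 2 * C * (1 + √(Real.log (N i))) ≤ p i

/-- the mean of a block at the scale `1/N` -/
noncomputable def Xm (N : ℕ) (E₁ : ℂ → ℂ) (t : ℂ) : ℝ :=
  (1 / (2 * Real.pi)) * ∫ θ in (0:ℝ)..(2 * Real.pi), ‖Complex.exp (t * E₁ (circleMap 0 (1 - 1 / ((N : ℝ) + 1)) θ))‖

/-- H1. Existence (adapt `C1.lean`): iterates of depth `k` at level `i`: `I 0 i = log 3`,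
`I (k+1) i v = I k (i+1) (v ^ N i) / N i + q i (ww (I k (i+1)) (N i) v)`. For `‖v‖ ≤ 1/2` all iterates are bounded by `6 C`
when `N i ≥ N₀` (`‖w‖ ≤ (1/2) e^{6C/N} ≤ 3/4`, `‖q w‖ ≤ C (1 + √(log 4))`), so the contraction on `‖v‖ ≤ 1/2` has ratio
`1/2` uniformly in `i`; on `‖v‖ ^ (N i ⋯ N (i+m-1)) ≤ 1/2` induct on `m` (all `i`) as in `it_geom`. -/
def S_gfe1 : Prop := ∀ C : ℝ, 1 ≤ C → ∃ N₀ : ℕ, 2 ≤ N₀ ∧ ∀ (N : ℕ → ℕ) (q E E₁ : ℕ → ℂ → ℂ) (p : ℕ → ℝ),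
  (∀ i, N₀ ≤ N i) → Sys C N q E E₁ → Pp C N p → ∃ P : ℕ → ℂ → ℂ, Sol C N q P p

/-- H2. Univalence and logarithmic derivatives (adapt `C2.lean`). By `half` and Cauchy there is `r₀ = r₀ (C)` such that for
`‖v‖ ≤ r₀` all `i`: `‖v P_i' v‖ ≤ 1/2` and `v e^{-P_i v}` is injective on `ball 0 r₀` (`g v = v e^{-(P v - P 0)}` has
`|g' - 1| < 1`), `‖G i v‖ ≤ 1`. The last bound: induction on `m` for `‖v‖ ≤ 1/2`, `‖v‖ ^ (2^m) ≤ r₀`: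
`‖G i v‖ ≤ 1 + 20 C m` (on `‖x‖ ≤ 3/4`: `‖E i x‖ ≤ 20 C` by `E0`, `near`, `bloch`). -/
def S_gfe2 : Prop := ∀ C : ℝ, 1 ≤ C → ∃ KG : ℝ, 1 ≤ KG ∧ ∀ (N : ℕ → ℕ) (q E E₁ P : ℕ → ℂ → ℂ) (p : ℕ → ℝ),
  Sys C N q E E₁ → Sol C N q P p →
  (∀ i, Set.InjOn (fun v : ℂ => v * Complex.exp (-P i v)) (ball 0 1)) ∧
  ∃ G : ℕ → ℂ → ℂ, ∀ i, DifferentiableOn ℂ (G i) (ball 0 1) ∧ G i 0 = 0 ∧
    (∀ v ∈ ball (0:ℂ) 1, Complex.exp (G i v) = 1 - v * deriv (P i) v) ∧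
    (∀ v ∈ ball (0:ℂ) 1, G i v = G (i + 1) (v ^ N i) + E i (ww (P (i + 1)) (N i) v)) ∧
    (∀ v : ℂ, ‖v‖ ≤ 1 / 2 → ‖G i v‖ ≤ KG)

/-- H3. The mean inequality (adapt `D.lean`, `mean_step`). -/
def S_gmean : Prop := ∀ (a : ℕ → ℝ → ℝ) (κ : ℝ) (N : ℕ → ℕ), (∀ i, Continuous (a i)) →
  (∀ i, Function.Periodic (a i) (2 * Real.pi)) → (∀ i θ, 0 < a i θ) → (∀ i, 1 ≤ N i) → 0 ≤ κ →
  (∀ i, ∀ θ θ' : ℝ, |θ - θ'| ≤ 2 * Real.pi / N i → a i θ ≤ Real.exp κ * a i θ') →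
  ∀ k : ℕ, (∏ i ∈ Finset.range k, (Real.exp (-κ) * ((1 / (2 * Real.pi)) * ∫ θ in (0:ℝ)..(2 * Real.pi), a i θ))) ≤
    (1 / (2 * Real.pi)) * ∫ θ in (0:ℝ)..(2 * Real.pi), ∏ j ∈ Finset.range k, a j ((∏ i ∈ Finset.range j, (N i : ℝ)) * θ)

/-- H4. The lower bound (adapt `E2.lean`; from H1, H2, H3, `S_sig`); the displacement is now
`‖w - u‖ ≤ 2 p (i+1) / N i` (trivially if `p (i+1) ≥ N i`, as both are in the unit disc). The map is the one of level `0`,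
`h = G 0 (1/z) + P 0 (1/z) - P 0 0`. -/
def S_glow : Prop := ∀ C : ℝ, 1 ≤ C → ∃ (N₀ : ℕ) (K : ℝ), 2 ≤ N₀ ∧ 1 ≤ K ∧ ∀ (N : ℕ → ℕ) (q E E₁ : ℕ → ℂ → ℂ) (p : ℕ → ℝ),
  (∀ i, N₀ ≤ N i) → Sys C N q E E₁ → Pp C N p →
  ∃ ψ h : ℂ → ℂ, IsSig ψ h ∧ ∀ t : ℂ, ∃ c : ℝ, 0 < c ∧ ∀ k : ℕ,
    c * ∏ i ∈ Finset.range k, (Real.exp (-(K * ‖t‖ * (1 + √(Real.log (N i)) + p (i + 1)))) * Xm (N i) (E₁ i) t) ≤
    pmean t ((2:ℝ) ^ ((1:ℝ) / ∏ i ∈ Finset.range k, (N i : ℝ))) h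

/-- H5. Countably many blocks suffice: separability of the continuous functions on the circle. -/
def S_den : Prop := ∀ C r : ℝ, 0 < r → r < 1 → (∃ q E E₁ : ℂ → ℂ, Blk C q E E₁) →
  ∃ q E E₁ : ℕ → ℂ → ℂ, (∀ m, Blk C (q m) (E m) (E₁ m)) ∧ ∀ q' E' E₁' : ℂ → ℂ, Blk C q' E' E₁' →
    ∃ m, ∀ θ : ℝ, ‖E₁' (circleMap 0 r θ) - E₁ m (circleMap 0 r θ)‖ ≤ 1

/-- H6. The universal map: every block at every scale is bounded by the exponent of one single map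
(from H4, H5: in the `r`-th run `2^(2^r) ≤ i + 4 < 2^(2^(r+1))` the block with the number `Nat.unpair (Nat.unpair r).1` is used). -/
def S_star : Prop := ∀ C : ℝ, 1 ≤ C → (∃ q E E₁ : ℂ → ℂ, Blk C q E E₁) →
  ∃ (N₀ : ℕ) (K : ℝ) (ψ h : ℂ → ℂ), 2 ≤ N₀ ∧ 1 ≤ K ∧ IsSig ψ h ∧ ∀ (t : ℂ) (b : ℝ), Exps t b h → 0 ≤ b ∧
    ∀ N : ℕ, N₀ ≤ N → ∀ q E E₁ : ℂ → ℂ, Blk C q E E₁ →
      Xm N E₁ t ≤ Real.exp (K * ‖t‖ * (1 + √(Real.log N))) * (N:ℝ) ^ b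

/-- H7. The uniform bound by the exponent of the universal map `h₀`. -/
def Uni (h₀ : ℂ → ℂ) : Prop := ∃ C R₀ : ℝ, 1 ≤ C ∧ 1 < R₀ ∧ R₀ ≤ 5 / 4 ∧ ∀ (t : ℂ) (b : ℝ), Exps t b h₀ →
  ∀ ψ h : ℂ → ℂ, IsSig ψ h → ∀ R : ℝ, 1 < R → R < R₀ →
    pmean t R h ≤ C * Real.exp (C * ‖t‖ * √(Real.log (1 / (R - 1)))) * (R - 1) ^ (-b)

def S_uni2 : Prop := ∃ ψ₀ h₀ : ℂ → ℂ, IsSig ψ₀ h₀ ∧ Uni h₀

/-- the Marshall bound with exponent zero for the single map -/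
def QIs (h₀ : ℂ → ℂ) (α : ℝ) : Prop := ∀ a : ℝ, 0 < a → a < α → ∀ ε : ℝ, 0 < ε → ∃ R₀ : ℝ, 1 < R₀ ∧
  ∀ R : ℝ, 1 < R → R < R₀ → marshall a R h₀ ≤ (R - 1) ^ (-ε)

/-- Binder's bound for the single map -/
def QBs (h₀ : ℂ → ℂ) (α : ℝ) : Prop := ∀ t : ℂ, ‖t‖ ≤ 2 * α → Exps t (‖t‖ ^ 2 / (4 * α)) h₀

/-- H8. The equivalence for the universal map (adapt `G.lean`; `QU α` is the uniform bound for all of `Σ`). -/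
def S_eqv2 : Prop := ∀ ψ₀ h₀ : ℂ → ℂ, IsSig ψ₀ h₀ → Uni h₀ → ∀ α : ℝ, 0 < α →
  List.TFAE [QU α, QI α, QB α, QIs h₀ α, QBs h₀ α]

end Pool.Agent.Z55U
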