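import Mathlib
import Pool.Agent.Z55U.Stm2

/-! # Piece H1: existence of the solution of the system of functional equations -/

set_option autoImplicit false
open Complex Filter Topology Set Metric MeasureTheory

namespace Pool.Agent.Z55U

namespace H1

/-- the iteration -/
noncomputable def it (q : ℕ → ℂ → ℂ) (N : ℕ → ℕ) : ℕ → ℕ → ℂ → ℂ
  | 0, _ => fun _ => ((Real.log 3 : ℝ) : ℂ)
  | k + 1, i => fun v => it q N k (i + 1) (v ^ N i) / N i + q i (ww (it q N k (i + 1)) (N i) v)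

/-- the products of the exponents -/
def Mm (N : ℕ → ℕ) : ℕ → ℕ → ℕ
  | 0, _ => 1
  | m + 1, i => N i * Mm N m (i + 1)

section

variable {C : ℝ} {N : ℕ → ℕ} {q E E₁ : ℕ → ℂ → ℂ} {p : ℕ → ℝ}

theorem two_pow_le (hN : ∀ i, 2 ≤ N i) (m : ℕ) : ∀ i, 2 ^ m ≤ Mm N m i := by
  induction m with
  | zero => intro i; simp [Mm]
  | succ m ih =>
    intro i
    show 2 ^ (m + 1) ≤ N i * Mm N m (i + 1)
    rw [pow_succ, mul_comm]
    exact Nat.mul_le_mul (hN i) (ih (i + 1))

theorem it_small (S : Sys C N q E E₁) (k : ℕ) :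
    ∀ i, ∀ v ∈ ball (0:ℂ) 1, ‖v * Complex.exp (-it q N k i v)‖ ≤ 1 / 3 := by
  induction k with
  | zero =>
    intro i v hv
    rw [mem_ball_zero_iff] at hv
    show ‖v * Complex.exp (-((Real.log 3 : ℝ) : ℂ))‖ ≤ 1 / 3
    rw [norm_mul, Complex.norm_exp, Complex.neg_re, Complex.ofReal_re, Real.exp_neg, Real.exp_log (by norm_num)]
    nlinarith [norm_nonneg v]
  | succ k ih =>
    intro i v hv
    have h1 := (S.blk i).small (ww (it q N k (i + 1)) (N i) v) (ww_mem (S.two i) (ih (i + 1)) hv)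
    have e : v * Complex.exp (-it q N (k + 1) i v) = ww (it q N k (i + 1)) (N i) v *
        Complex.exp (-q i (ww (it q N k (i + 1)) (N i) v)) := by
      show v * Complex.exp (-(it q N k (i + 1) (v ^ N i) / N i + q i (ww (it q N k (i + 1)) (N i) v))) = _
      rw [neg_add, Complex.exp_add, ← mul_assoc, ← neg_div]
      rfl
    rw [e]
    exact h1

theorem it_diff (S : Sys C N q E E₁) (k : ℕ) : ∀ i, DifferentiableOn ℂ (it q N k i) (ball 0 1) := by
  induction k with
  | zero => intro i; exact differentiableOn_const _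
  | succ k ih =>
    intro i
    have h1 : DifferentiableOn ℂ (fun v : ℂ => it q N k (i + 1) (v ^ N i)) (ball 0 1) :=
      (ih (i + 1)).comp (differentiableOn_id.pow (N i)) fun v hv => pow_mem (S.two i) hv
    exact (h1.div_const _).add ((S.blk i).dq.comp (ww_diff (S.two i) (ih (i + 1)))
      fun v hv => ww_mem (S.two i) (it_small S k (i + 1)) hv)

theorem log3_le : ‖((Real.log 3 : ℝ) : ℂ)‖ ≤ 2 := by
  rw [Complex.norm_real, Real.norm_of_nonneg (Real.log_nonneg (by norm_num))]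
  have h1 : Real.log 3 ≤ 3 - 1 := Real.log_le_sub_one_of_pos (by norm_num)
  linarith

theorem it_bd (hC : 1 ≤ C) (S : Sys C N q E E₁) (hp : Pp C N p) (k : ℕ) :
    ∀ i, ∀ v ∈ ball (0:ℂ) 1, ‖it q N k i v‖ ≤ p i := by
  induction k with
  | zero =>
    intro i v _
    exact log3_le.trans (hp.1 i)
  | succ k ih =>
    intro i v hv
    have hN2 : (2:ℝ) ≤ N i := by exact_mod_cast S.two i
    have h1 := ih (i + 1) _ (pow_mem (S.two i) hv)
    have h2 := q_bd hC (S.two i) (S.blk i) (ww_le (S.two i) (it_small S k (i + 1)) hv)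
    show ‖it q N k (i + 1) (v ^ N i) / N i + q i (ww (it q N k (i + 1)) (N i) v)‖ ≤ _
    have h3 : ‖it q N k (i + 1) (v ^ N i) / N i‖ ≤ p (i + 1) / 2 := by
      rw [norm_div, Complex.norm_natCast]
      have : 0 ≤ p (i + 1) := by linarith [hp.1 (i + 1)]
      gcongr
    refine (norm_add_le _ _).trans ?_
    linarith [hp.2 i]

/-- the smallness of `w` for `‖v‖ ≤ 1/2` -/
theorem ww34 {P : ℂ → ℂ} {n : ℕ} (hn : 2 ≤ n) (hs1 : Real.exp (6 * C / n) ≤ 3 / 2) {v : ℂ} (hv : ‖v‖ ≤ 1 / 2)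
    (hP : ‖P (v ^ n)‖ ≤ 6 * C) : ‖ww P n v‖ ≤ 3 / 4 := by
  have hN0 : (0:ℝ) < n := by
    have : 0 < n := by omega
    exact_mod_cast this
  unfold ww
  rw [norm_mul, Complex.norm_exp]
  have g2 : (-P (v ^ n) / (n:ℂ)).re ≤ 6 * C / n := by
    refine (Complex.re_le_norm _).trans ?_
    rw [norm_div, norm_neg, Complex.norm_natCast]
    gcongr
  have g3 := (Real.exp_le_exp.2 g2).trans hs1
  have := Real.exp_pos (-P (v ^ n) / (n:ℂ)).re
  nlinarith [norm_nonneg v]

theorem pow_half {n : ℕ} (hn : 2 ≤ n) {v : ℂ} (hv : ‖v‖ ≤ 1 / 2) : ‖v ^ n‖ ≤ 1 / 2 := by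
  rw [norm_pow]
  calc ‖v‖ ^ n ≤ ‖v‖ ^ 1 := pow_le_pow_of_le_one (norm_nonneg _) (by linarith) (by omega)
    _ ≤ 1 / 2 := by rw [pow_one]; exact hv

theorem half_mem {v : ℂ} (hv : ‖v‖ ≤ 1 / 2) : v ∈ ball (0:ℂ) 1 := by
  rw [mem_ball_zero_iff]
  linarith

/-- `q` on the ball of radius `3/4` -/
theorem q34 (hC : 1 ≤ C) {q E E₁ : ℂ → ℂ} (B : Blk C q E E₁) {x : ℂ} (hx : ‖x‖ ≤ 3 / 4) : ‖q x‖ ≤ 3 * C := by
  have hm : x ∈ ball (0:ℂ) 1 := by
    rw [mem_ball_zero_iff]
    linarith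
  refine (B.qle x hm).trans ?_
  have h1 : -Real.log (1 - ‖x‖) ≤ 3 := by
    have h2 : Real.log (1 / 4) ≤ Real.log (1 - ‖x‖) := Real.log_le_log (by norm_num) (by linarith)
    have h3 : Real.log (1 / 4) = -Real.log 4 := by rw [one_div, Real.log_inv]
    have h4 : Real.log 4 ≤ 4 - 1 := Real.log_le_sub_one_of_pos (by norm_num)
    linarith
  have h5 : √(-Real.log (1 - ‖x‖)) ≤ 2 := by
    apply Real.sqrt_le_iff.2
    refine ⟨by norm_num, by linarith⟩
  nlinarith

theorem it_half (hC : 1 ≤ C) (S : Sys C N q E E₁) (hs1 : ∀ i, Real.exp (6 * C / N i) ≤ 3 / 2) (k : ℕ) :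
    ∀ i, ∀ v : ℂ, ‖v‖ ≤ 1 / 2 → ‖it q N k i v‖ ≤ 6 * C := by
  induction k with
  | zero =>
    intro i v _
    exact log3_le.trans (by linarith)
  | succ k ih =>
    intro i v hv
    have hN2 : (2:ℝ) ≤ N i := by exact_mod_cast S.two i
    have h1 := ih (i + 1) _ (pow_half (S.two i) hv)
    have h2 := q34 hC (S.blk i) (ww34 (S.two i) (hs1 i) hv h1)
    show ‖it q N k (i + 1) (v ^ N i) / N i + q i (ww (it q N k (i + 1)) (N i) v)‖ ≤ _
    have h3 : ‖it q N k (i + 1) (v ^ N i) / N i‖ ≤ 3 * C := by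
      rw [norm_div, Complex.norm_natCast, div_le_iff₀ (by linarith)]
      nlinarith
    refine (norm_add_le _ _).trans ?_
    linarith

/-- one step of the iteration -/
theorem it_step (S : Sys C N q E E₁) {L M : ℝ} (hL : 0 ≤ L) {v : ℂ} (i k : ℕ)
    (hM : ∀ j : ℕ, ‖it q N j (i + 1) (v ^ N i)‖ ≤ M)
    (hq : ‖q i (ww (it q N (k + 1) (i + 1)) (N i) v) - q i (ww (it q N k (i + 1)) (N i) v)‖ ≤
      L * ‖ww (it q N (k + 1) (i + 1)) (N i) v - ww (it q N k (i + 1)) (N i) v‖) :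
    ‖it q N (k + 2) i v - it q N (k + 1) i v‖ ≤
      (1 + L * ‖v‖ * Real.exp (M / N i)) / N i * ‖it q N (k + 1) (i + 1) (v ^ N i) - it q N k (i + 1) (v ^ N i)‖ := by
  have hN2 : (2:ℝ) ≤ N i := by exact_mod_cast S.two i
  have hN0 : (0:ℝ) < N i := by linarith
  set δ := ‖it q N (k + 1) (i + 1) (v ^ N i) - it q N k (i + 1) (v ^ N i)‖ with hδ
  have e : it q N (k + 2) i v - it q N (k + 1) i v =
      (it q N (k + 1) (i + 1) (v ^ N i) - it q N k (i + 1) (v ^ N i)) / N i +
      (q i (ww (it q N (k + 1) (i + 1)) (N i) v) - q i (ww (it q N k (i + 1)) (N i) v)) := by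
    show (it q N (k + 1) (i + 1) (v ^ N i) / N i + q i (ww (it q N (k + 1) (i + 1)) (N i) v)) -
      (it q N k (i + 1) (v ^ N i) / N i + q i (ww (it q N k (i + 1)) (N i) v)) = _
    ring
  have h1 : ‖(it q N (k + 1) (i + 1) (v ^ N i) - it q N k (i + 1) (v ^ N i)) / (N i:ℂ)‖ = δ / N i := by
    rw [norm_div, Complex.norm_natCast]
  have hre : ∀ j : ℕ, (-it q N j (i + 1) (v ^ N i) / (N i:ℂ)).re ≤ M / N i := by
    intro j
    have g1 := hM j
    refine (Complex.re_le_norm _).trans ?_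
    rw [norm_div, norm_neg, Complex.norm_natCast]
    gcongr
  have h2 : ‖ww (it q N (k + 1) (i + 1)) (N i) v - ww (it q N k (i + 1)) (N i) v‖ ≤
      ‖v‖ * (Real.exp (M / N i) * (δ / N i)) := by
    unfold ww
    rw [← mul_sub, norm_mul]
    gcongr
    refine (exp_sub_le (hre (k + 1)) (hre k)).trans (le_of_eq ?_)
    congr 1
    rw [← sub_div, neg_sub_neg, norm_div, Complex.norm_natCast, norm_sub_rev]
  rw [e]
  refine (norm_add_le _ _).trans ?_
  rw [h1]
  calc δ / N i + ‖q i (ww (it q N (k + 1) (i + 1)) (N i) v) - q i (ww (it q N k (i + 1)) (N i) v)‖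
      ≤ δ / N i + L * (‖v‖ * (Real.exp (M / N i) * (δ / N i))) := by
        gcongr
        exact hq.trans (by gcongr)
    _ = _ := by ring

/-- geometric convergence on every smaller disc -/
theorem it_geom (hC : 1 ≤ C) (S : Sys C N q E E₁) (hp : Pp C N p)
    (hs1 : ∀ i, Real.exp (6 * C / N i) ≤ 3 / 2) (hs2 : ∀ i, 2 * (1 + 32 * C) ≤ N i) (m : ℕ) :
    ∀ i, ∃ A : ℝ, 0 ≤ A ∧ ∀ (k : ℕ) (v : ℂ), v ∈ ball (0:ℂ) 1 → ‖v‖ ^ (Mm N m i) ≤ 1 / 2 →
      ‖it q N (k + 1) i v - it q N k i v‖ ≤ A * (1 / 2) ^ k := by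
  have hC0 : 0 ≤ C := by linarith
  induction m with
  | zero =>
    have main : ∀ (k i : ℕ) (v : ℂ), ‖v‖ ≤ 1 / 2 →
        ‖it q N (k + 1) i v - it q N k i v‖ ≤ 12 * C * (1 / 2) ^ k := by
      intro k
      induction k with
      | zero =>
        intro i v hv
        have h1 := it_half hC S hs1 1 i v hv
        have h2 := it_half hC S hs1 0 i v hv
        rw [pow_zero, mul_one]
        refine (norm_sub_le _ _).trans ?_
        linarith
      | succ k ih =>
        intro i v hv2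
        have hN2 : (2:ℝ) ≤ N i := by exact_mod_cast S.two i
        have hN0 : (0:ℝ) < N i := by linarith
        have hw : ∀ j : ℕ, ‖ww (it q N j (i + 1)) (N i) v‖ ≤ 3 / 4 := fun j =>
          ww34 (S.two i) (hs1 i) hv2 (it_half hC S hs1 j (i + 1) _ (pow_half (S.two i) hv2))
        have h1 := it_step S (L := 32 * C) (M := 6 * C) (by positivity) i k
          (fun j => it_half hC S hs1 j (i + 1) _ (pow_half (S.two i) hv2))
          (q_lip34 hC (S.blk i) (hw (k + 1)) (hw k))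
        have h2 := ih (i + 1) (v ^ N i) (pow_half (S.two i) hv2)
        refine h1.trans ?_
        have h3 : (1 + 32 * C * ‖v‖ * Real.exp (6 * C / N i)) / N i ≤ 1 / 2 := by
          rw [div_le_iff₀ hN0]
          have : 32 * C * ‖v‖ * Real.exp (6 * C / N i) ≤ 32 * C * (1 / 2) * (3 / 2) := by
            have := hs1 i
            gcongr
          nlinarith [hs2 i]
        calc _ ≤ 1 / 2 * (12 * C * (1 / 2) ^ k) := by
              gcongr
          _ = 12 * C * (1 / 2) ^ (k + 1) := by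
              rw [pow_succ]
              ring
    intro i
    refine ⟨12 * C, by positivity, ?_⟩
    intro k v hv hvm
    have e : Mm N 0 i = 1 := rfl
    rw [e, pow_one] at hvm
    exact main k i v hvm
  | succ m ih =>
    intro i
    obtain ⟨A, hA, ih⟩ := ih (i + 1)
    have hN2 : (2:ℝ) ≤ N i := by exact_mod_cast S.two i
    have hN0 : (0:ℝ) < N i := by linarith
    have hr : 1 - 1 / (2 * (N i:ℝ)) < 1 := by
      have : 0 < 1 / (2 * (N i:ℝ)) := by positivity
      linarith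
    obtain ⟨L, hL, hq⟩ := q_lip (S.blk i) hr
    have hpi : 0 ≤ p i := by linarith [hp.1 i]
    set Λ := (1 + L * 1 * Real.exp (p (i + 1) / N i)) / N i with hΛ
    have hΛ0 : 0 ≤ Λ := by positivity
    refine ⟨2 * p i + 2 * Λ * A, by positivity, ?_⟩
    intro k v hv hvm
    rcases k with _ | k
    · rw [pow_zero, mul_one]
      have h1 := it_bd hC S hp 1 i v hv
      have h2 := it_bd hC S hp 0 i v hv
      have : 0 ≤ 2 * Λ * A := by positivity
      refine (norm_sub_le _ _).trans ?_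
      linarith
    · have h1 := it_step S (M := p (i + 1)) hL i k
        (fun j => it_bd hC S hp j (i + 1) _ (pow_mem (S.two i) hv))
        (hq _ _ (ww_le (S.two i) (it_small S (k + 1) (i + 1)) hv) (ww_le (S.two i) (it_small S k (i + 1)) hv))
      have h2 := ih k (v ^ N i) (pow_mem (S.two i) hv) (by
        rw [norm_pow, ← pow_mul]
        exact hvm)
      have hv1 : ‖v‖ ≤ 1 := (mem_ball_zero_iff.1 hv).le
      calc _ ≤ Λ * (A * (1 / 2) ^ k) := by
            refine h1.trans ?_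
            rw [hΛ]
            gcongr
        _ ≤ (2 * p i + 2 * Λ * A) * (1 / 2) ^ (k + 1) := by
            rw [pow_succ]
            have : 0 ≤ p i * (1 / 2) ^ k := by positivity
            nlinarith

theorem exists_m (hN : ∀ i, 2 ≤ N i) (i : ℕ) {v : ℂ} (hv : v ∈ ball (0:ℂ) 1) : ∃ m : ℕ, ‖v‖ ^ (Mm N m i) < 1 / 2 := by
  have h1 : Tendsto (fun m : ℕ => Mm N m i) atTop atTop :=
    tendsto_atTop_mono (fun m => two_pow_le hN m i) (tendsto_pow_atTop_atTop_of_one_lt (by norm_num))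
  have h2 := (tendsto_pow_atTop_nhds_zero_of_lt_one (norm_nonneg v) (mem_ball_zero_iff.1 hv)).comp h1
  exact (h2.eventually_lt_const (by norm_num : (0:ℝ) < 1 / 2)).exists

/-- the limit -/
theorem exists_lim (hC : 1 ≤ C) (S : Sys C N q E E₁) (hp : Pp C N p)
    (hs1 : ∀ i, Real.exp (6 * C / N i) ≤ 3 / 2) (hs2 : ∀ i, 2 * (1 + 32 * C) ≤ N i) :
    ∃ P : ℕ → ℂ → ℂ, Sol C N q P p := by
  have hg := it_geom hC S hp hs1 hs2
  have hconv : ∀ i, ∀ v ∈ ball (0:ℂ) 1, ∃ l : ℂ, Tendsto (fun k => it q N k i v) atTop (𝓝 l) := by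
    intro i v hv
    obtain ⟨m, hm⟩ := exists_m S.two i hv
    obtain ⟨A, hA, hk⟩ := hg m i
    apply cauchySeq_tendsto_of_complete
    refine cauchySeq_of_le_geometric (1 / 2) A (by norm_num) fun k => ?_
    rw [dist_comm, dist_eq_norm]
    exact hk k v hv hm.le
  classical
  set P : ℕ → ℂ → ℂ := fun i v => if h : v ∈ ball (0:ℂ) 1 then (hconv i v h).choose else 0 with hPdef
  have hP : ∀ i, ∀ v ∈ ball (0:ℂ) 1, Tendsto (fun k => it q N k i v) atTop (𝓝 (P i v)) := by
    intro i v hv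
    have : P i v = (hconv i v hv).choose := by
      rw [hPdef]
      exact dif_pos hv
    rw [this]
    exact (hconv i v hv).choose_spec
  have hsmall : ∀ i, ∀ v ∈ ball (0:ℂ) 1, ‖v * Complex.exp (-P i v)‖ ≤ 1 / 3 := by
    intro i v hv
    have h1 : Tendsto (fun k => ‖v * Complex.exp (-it q N k i v)‖) atTop (𝓝 ‖v * Complex.exp (-P i v)‖) :=
      (((Complex.continuous_exp.tendsto _).comp (hP i v hv).neg).const_mul v).norm
    exact le_of_tendsto h1 (Eventually.of_forall fun k => it_small S k i v hv)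
  have hhalf : ∀ i (v : ℂ), ‖v‖ ≤ 1 / 2 → ‖P i v‖ ≤ 6 * C := fun i v hv =>
    le_of_tendsto (hP i v (half_mem hv)).norm (Eventually.of_forall fun k => it_half hC S hs1 k i v hv)
  refine ⟨P, ⟨?_, ?_, hhalf, ?_, ?_, ?_⟩⟩
  · intro i
    have hloc : TendstoLocallyUniformlyOn (fun k => it q N k i) (P i) atTop (ball 0 1) := by
      rw [Metric.tendstoLocallyUniformlyOn_iff]
      intro ε hε v hv
      obtain ⟨m, hm⟩ := exists_m S.two i hv
      obtain ⟨A, hA, hk⟩ := hg m i
      have hopen : IsOpen ({x : ℂ | ‖x‖ ^ (Mm N m i) < 1 / 2}) :=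
        isOpen_lt (continuous_norm.pow _) continuous_const
      refine ⟨{x : ℂ | ‖x‖ ^ (Mm N m i) < 1 / 2} ∩ ball 0 1, ?_, ?_⟩
      · apply mem_nhdsWithin_of_mem_nhds
        exact (hopen.inter isOpen_ball).mem_nhds ⟨hm, hv⟩
      · have h1 : Tendsto (fun k : ℕ => A * (1 / 2 : ℝ) ^ k / (1 - 1 / 2)) atTop (𝓝 0) := by
          have := ((tendsto_pow_atTop_nhds_zero_of_lt_one (by norm_num : (0:ℝ) ≤ 1 / 2) (by norm_num)).const_mul A).div_const
            (1 - 1 / 2)
          simpa using this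
        filter_upwards [h1.eventually_lt_const hε] with k hk2 x hx
        have h2 := dist_le_of_le_geometric_of_tendsto (1 / 2) A (by norm_num) (f := fun k => it q N k i x) (fun k => by
          rw [dist_comm, dist_eq_norm]
          exact hk k x hx.2 (le_of_lt hx.1)) (hP i x hx.2) k
        rw [dist_comm]
        exact h2.trans_lt hk2
    exact hloc.differentiableOn (Eventually.of_forall fun k => it_diff S k i) isOpen_ball
  · intro i v hv
    exact le_of_tendsto (hP i v hv).norm (Eventually.of_forall fun k => it_bd hC S hp k i v hv)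
  · intro i v hv
    exact ww_le (S.two i) (hsmall (i + 1)) hv
  · intro i v hv
    exact ww34 (S.two i) (hs1 i) hv (hhalf (i + 1) _ (pow_half (S.two i) hv))
  · intro i v hv
    have h1 : Tendsto (fun k => it q N (k + 1) i v) atTop (𝓝 (P i v)) := (tendsto_add_atTop_iff_nat 1).2 (hP i v hv)
    have h2 : Tendsto (fun k => it q N k (i + 1) (v ^ N i) / (N i:ℂ)) atTop (𝓝 (P (i + 1) (v ^ N i) / N i)) :=
      (hP (i + 1) _ (pow_mem (S.two i) hv)).div_const _
    have h3 : Tendsto (fun k => ww (it q N k (i + 1)) (N i) v) atTop (𝓝 (ww (P (i + 1)) (N i) v)) := by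
      unfold ww
      exact (((Complex.continuous_exp.tendsto _).comp
        ((hP (i + 1) _ (pow_mem (S.two i) hv)).neg.div_const (N i:ℂ)))).const_mul v
    have hwm : ww (P (i + 1)) (N i) v ∈ ball (0:ℂ) 1 := ww_mem (S.two i) (hsmall (i + 1)) hv
    have h4 : Tendsto (fun k => q i (ww (it q N k (i + 1)) (N i) v)) atTop (𝓝 (q i (ww (P (i + 1)) (N i) v))) :=
      (((S.blk i).dq.continuousOn.continuousAt (isOpen_ball.mem_nhds hwm)).tendsto).comp h3
    exact tendsto_nhds_unique h1 (h2.add h4)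

end

end H1

theorem pGfe1 : S_gfe1 := by
  intro C hC
  have h1 : Tendsto (fun N : ℕ => 6 * C / (N:ℝ)) atTop (𝓝 0) :=
    tendsto_const_nhds.div_atTop tendsto_natCast_atTop_atTop
  have h2 : Tendsto (fun N : ℕ => Real.exp (6 * C / (N:ℝ))) atTop (𝓝 1) := by
    have := (Real.continuous_exp.tendsto 0).comp h1
    rwa [Real.exp_zero] at this
  obtain ⟨N₁, hN₁⟩ := eventually_atTop.1 (h2.eventually_lt_const (by norm_num : (1:ℝ) < 3 / 2))
  obtain ⟨N₂, hN₂⟩ := exists_nat_ge (2 * (1 + 32 * C))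
  refine ⟨max 2 (max N₁ N₂), le_max_left _ _, ?_⟩
  intro N q E E₁ p hN S hp
  refine H1.exists_lim hC S hp (fun i => ?_) (fun i => ?_)
  · exact (hN₁ (N i) ((le_max_left _ _).trans ((le_max_right _ _).trans (hN i)))).le
  · have hNN₂ : N₂ ≤ N i := (le_max_right _ _).trans ((le_max_right _ _).trans (hN i))
    exact hN₂.trans (by exact_mod_cast hNN₂)

end Pool.Agent.Z55U
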