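import Pool.Agent.Z55U.Stm2
import Pool.Agent.Z55U.C2

/-! # H2: univalence and logarithmic derivatives for a sequence of blocks -/

set_option autoImplicit false
open Complex Filter Topology Set Metric MeasureTheory

namespace Pool.Agent.Z55U

namespace H2

section

variable {C : ℝ} {q E E₁ P Q : ℂ → ℂ} {N : ℕ}

theorem ww_ball (hN : 2 ≤ N) (hw : ∀ v ∈ ball (0:ℂ) 1, ‖ww Q N v‖ ≤ 1 - 1 / (2 * (N:ℝ))) :
    ∀ v ∈ ball (0:ℂ) 1, ww Q N v ∈ ball (0:ℂ) 1 := by
  intro v hv
  have hNr : (0:ℝ) < N := by exact_mod_cast (by omega : 0 < N)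
  rw [mem_ball_zero_iff]
  have h1 := hw v hv
  have h2 : 0 < 1 / (2 * (N:ℝ)) := by positivity
  linarith

theorem phi_eq (he : ∀ v ∈ ball (0:ℂ) 1, P v = Q (v ^ N) / N + q (ww Q N v)) :
    ∀ v ∈ ball (0:ℂ) 1, v * Complex.exp (-P v) = ww Q N v * Complex.exp (-q (ww Q N v)) := by
  intro v hv
  rw [he v hv, neg_add, Complex.exp_add, ← mul_assoc, neg_div']
  rfl

theorem has_ww (hN : 2 ≤ N) (hQ : DifferentiableOn ℂ Q (ball 0 1)) : ∀ v ∈ ball (0:ℂ) 1,
    HasDerivAt (ww Q N) (Complex.exp (-Q (v ^ N) / N) * (1 - v ^ N * deriv Q (v ^ N))) v := by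
  intro v hv
  have hN0 : (N : ℂ) ≠ 0 := by exact_mod_cast (by omega : N ≠ 0)
  have h1 : HasDerivAt (fun v : ℂ => v ^ N) (N * v ^ (N - 1)) v := hasDerivAt_pow N v
  have h0 : HasDerivAt Q (deriv Q (v ^ N)) (v ^ N) :=
    (hQ.differentiableAt (isOpen_ball.mem_nhds (pow_mem hN hv))).hasDerivAt
  have h2 : HasDerivAt (fun v : ℂ => Q (v ^ N)) (deriv Q (v ^ N) * (N * v ^ (N - 1))) v := h0.comp v h1
  have h3 := (hasDerivAt_id v).mul ((h2.neg.div_const (N:ℂ)).cexp)
  refine HasDerivAt.congr_deriv h3 ?_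
  have h4 : v ^ N = v * v ^ (N - 1) := by
    rw [← pow_succ']
    congr 1
    omega
  simp only [id, one_mul]
  have h5 : -(deriv Q (v ^ N) * (N * v ^ (N - 1))) / N = -(deriv Q (v ^ N) * v ^ (N - 1)) := by
    field_simp
  rw [h5]
  linear_combination (Complex.exp (-Q (v ^ N) / N) * deriv Q (v ^ N)) * h4

theorem key (hN : 2 ≤ N) (B : Blk C q E E₁) (hP : DifferentiableOn ℂ P (ball 0 1)) (hQ : DifferentiableOn ℂ Q (ball 0 1))
    (hw : ∀ v ∈ ball (0:ℂ) 1, ‖ww Q N v‖ ≤ 1 - 1 / (2 * (N:ℝ)))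
    (he : ∀ v ∈ ball (0:ℂ) 1, P v = Q (v ^ N) / N + q (ww Q N v)) :
    ∀ v ∈ ball (0:ℂ) 1, 1 - v * deriv P v = (1 - v ^ N * deriv Q (v ^ N)) * Complex.exp (E (ww Q N v)) := by
  intro v hv
  have hN0 : (N : ℂ) ≠ 0 := by exact_mod_cast (by omega : N ≠ 0)
  have h1 : HasDerivAt (fun v : ℂ => v ^ N) (N * v ^ (N - 1)) v := hasDerivAt_pow N v
  have h0 : HasDerivAt Q (deriv Q (v ^ N)) (v ^ N) :=
    (hQ.differentiableAt (isOpen_ball.mem_nhds (pow_mem hN hv))).hasDerivAt
  have h2 : HasDerivAt (fun v : ℂ => Q (v ^ N)) (deriv Q (v ^ N) * (N * v ^ (N - 1))) v := h0.comp v h1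
  have hwv := ww_ball hN hw v hv
  have hq : HasDerivAt q (deriv q (ww Q N v)) (ww Q N v) :=
    (B.dq.differentiableAt (isOpen_ball.mem_nhds hwv)).hasDerivAt
  have h3 := (h2.div_const (N:ℂ)).add (hq.comp v (has_ww hN hQ v hv))
  have h4 : HasDerivAt P _ v := h3.congr_of_eventuallyEq (by
    filter_upwards [isOpen_ball.mem_nhds hv] with u hu
    exact he u hu)
  have h5 := h4.unique ((hP.differentiableAt (isOpen_ball.mem_nhds hv)).hasDerivAt)
  rw [B.eqE _ hwv, ← h5]
  have h6 : v ^ N = v * v ^ (N - 1) := by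
    rw [← pow_succ']
    congr 1
    omega
  have h7 : ww Q N v = v * Complex.exp (-Q (v ^ N) / N) := rfl
  have h8 : v * ((deriv Q (v ^ N) * (N * v ^ (N - 1))) / N) = v ^ N * deriv Q (v ^ N) := by
    rw [h6]
    field_simp
  linear_combination (-1 : ℂ) * h8 - deriv q (ww Q N v) * (1 - v ^ N * deriv Q (v ^ N)) * (-h7)

/-- Cauchy's estimate -/
theorem cauchy (_hC : 1 ≤ C) (hP : DifferentiableOn ℂ P (ball 0 1)) (h6 : ∀ v : ℂ, ‖v‖ ≤ 1 / 2 → ‖P v‖ ≤ 6 * C) :
    ∀ v : ℂ, ‖v‖ ≤ 1 / 4 → ‖deriv P v‖ ≤ 24 * C := by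
  intro v hv
  have hsub : closedBall v (1/4) ⊆ ball (0:ℂ) 1 := by
    intro z hz
    rw [mem_closedBall, dist_eq_norm] at hz
    rw [mem_ball_zero_iff]
    have : ‖z‖ ≤ ‖z - v‖ + ‖v‖ := by simpa using norm_add_le (z - v) v
    linarith
  have h1 := Complex.norm_deriv_le_of_forall_mem_sphere_norm_le (f := P) (c := v) (R := 1 / 4) (C := 6 * C) (by norm_num)
    ((hP.mono hsub).diffContOnCl_ball (Subset.refl _)) (by
      intro z hz
      rw [mem_sphere, dist_eq_norm] at hz
      apply h6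
      have : ‖z‖ ≤ ‖z - v‖ + ‖v‖ := by simpa using norm_add_le (z - v) v
      linarith)
  refine h1.trans (le_of_eq ?_)
  ring

theorem D_small (hC : 1 ≤ C) (hP : DifferentiableOn ℂ P (ball 0 1)) (h6 : ∀ v : ℂ, ‖v‖ ≤ 1 / 2 → ‖P v‖ ≤ 6 * C) :
    ∀ v : ℂ, ‖v‖ ≤ 1 / (96 * C) → ‖v * deriv P v‖ ≤ 1 / 4 := by
  intro v hv
  have hC0 : 0 < C := by linarith
  have h1 : 1 / (96 * C) ≤ 1 / 4 := by
    rw [div_le_div_iff₀ (by positivity) (by norm_num)]
    linarith
  have h2 := cauchy hC hP h6 v (hv.trans h1)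
  rw [norm_mul]
  calc ‖v‖ * ‖deriv P v‖ ≤ 1 / (96 * C) * (24 * C) := by gcongr
    _ = 1 / 4 := by
      field_simp
      norm_num

/-- uniform local injectivity -/
theorem inj_small (hC : 1 ≤ C) (hP : DifferentiableOn ℂ P (ball 0 1)) (h6 : ∀ v : ℂ, ‖v‖ ≤ 1 / 2 → ‖P v‖ ≤ 6 * C) :
    Set.InjOn (fun v : ℂ => v * Complex.exp (-P v)) (closedBall 0 (1 / (96 * C))) := by
  have hC0 : 0 < C := by linarith
  have hr : 1 / (96 * C) ≤ 1 / 4 := by
    rw [div_le_div_iff₀ (by positivity) (by norm_num)]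
    linarith
  have hr0 : 0 < 1 / (96 * C) := by positivity
  have hb : ∀ v ∈ closedBall (0:ℂ) (1 / (96 * C)), ‖v‖ ≤ 1 / (96 * C) := fun v hv => by
    rwa [mem_closedBall_zero_iff] at hv
  have hdP : ∀ v ∈ closedBall (0:ℂ) (1 / (96 * C)), HasDerivAt P (deriv P v) v := by
    intro v hv
    refine (hP.differentiableAt (isOpen_ball.mem_nhds ?_)).hasDerivAt
    rw [mem_ball_zero_iff]
    have := hb v hv
    linarith
  have hx : ∀ v ∈ closedBall (0:ℂ) (1 / (96 * C)), ‖P v - P 0‖ ≤ 1 / 4 := by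
    intro v hv
    have h1 := (convex_closedBall (0:ℂ) (1 / (96 * C))).norm_image_sub_le_of_norm_hasDerivWithin_le (f := P) (f' := deriv P)
      (C := 24 * C) (fun x hx => (hdP x hx).hasDerivWithinAt) (fun x hx => cauchy hC hP h6 x ((hb x hx).trans hr))
      (mem_closedBall_self hr0.le) hv
    refine h1.trans ?_
    rw [sub_zero]
    calc 24 * C * ‖v‖ ≤ 24 * C * (1 / (96 * C)) := by
          have := hb v hv
          gcongr
      _ = 1 / 4 := by
        field_simp
        norm_num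
  have hF : ∀ v ∈ closedBall (0:ℂ) (1 / (96 * C)), HasDerivAt (fun v : ℂ => v * Complex.exp (-(P v - P 0)) - v)
      (Complex.exp (-(P v - P 0)) * (1 - v * deriv P v) - 1) v := by
    intro v hv
    have h1 := ((hasDerivAt_id v).mul (((hdP v hv).sub_const (P 0)).neg.cexp)).sub (hasDerivAt_id v)
    refine HasDerivAt.congr_deriv h1 ?_
    simp only [id, Pi.neg_apply]
    ring
  have hF' : ∀ v ∈ closedBall (0:ℂ) (1 / (96 * C)), ‖Complex.exp (-(P v - P 0)) * (1 - v * deriv P v) - 1‖ ≤ 7 / 8 := by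
    intro v hv
    have h1 := hx v hv
    have h2 := D_small hC hP h6 v (hb v hv)
    have h3 : ‖Complex.exp (-(P v - P 0)) - 1‖ ≤ 1 / 2 := by
      have := Complex.norm_exp_sub_one_le (x := -(P v - P 0)) (by rw [norm_neg]; linarith)
      rw [norm_neg] at this
      linarith
    have h4 : ‖Complex.exp (-(P v - P 0))‖ ≤ 3 / 2 := by
      have : ‖Complex.exp (-(P v - P 0))‖ ≤ ‖Complex.exp (-(P v - P 0)) - 1‖ + ‖(1:ℂ)‖ := by
        simpa using norm_add_le (Complex.exp (-(P v - P 0)) - 1) 1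
      rw [norm_one] at this
      linarith
    calc ‖Complex.exp (-(P v - P 0)) * (1 - v * deriv P v) - 1‖
        = ‖(Complex.exp (-(P v - P 0)) - 1) - Complex.exp (-(P v - P 0)) * (v * deriv P v)‖ := by
          congr 1
          ring
      _ ≤ ‖Complex.exp (-(P v - P 0)) - 1‖ + ‖Complex.exp (-(P v - P 0)) * (v * deriv P v)‖ := norm_sub_le _ _
      _ ≤ 1 / 2 + 3 / 2 * (1 / 4) := by
          rw [norm_mul]
          gcongr
      _ = 7 / 8 := by norm_num
  intro a ha b hb' hab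
  have h1 : a * Complex.exp (-(P a - P 0)) = b * Complex.exp (-(P b - P 0)) := by
    have e : ∀ v : ℂ, v * Complex.exp (-(P v - P 0)) = Complex.exp (P 0) * (v * Complex.exp (-P v)) := by
      intro v
      rw [neg_sub, sub_eq_add_neg, Complex.exp_add]
      ring
    rw [e, e]
    exact congrArg _ hab
  have h2 := (convex_closedBall (0:ℂ) (1 / (96 * C))).norm_image_sub_le_of_norm_hasDerivWithin_le
      (f := fun v : ℂ => v * Complex.exp (-(P v - P 0)) - v)
      (C := 7 / 8) (fun x hx => (hF x hx).hasDerivWithinAt) hF' ha hb'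
  have h3 : (b * Complex.exp (-(P b - P 0)) - b) - (a * Complex.exp (-(P a - P 0)) - a) = -(b - a) := by
    rw [h1]
    ring
  rw [h3, norm_neg] at h2
  have h4 : ‖b - a‖ = 0 := by
    have := norm_nonneg (b - a)
    linarith
  exact (sub_eq_zero.1 (norm_eq_zero.1 h4)).symm

/-- bound of the block -/
theorem E_le (hC : 1 ≤ C) (B : Blk C q E E₁) : ∀ x : ℂ, ‖x‖ ≤ 3 / 4 → ‖E x‖ ≤ 10 * C := by
  intro x hx
  have hC0 : 0 < C := by linarith
  have hxb : x ∈ ball (0:ℂ) 1 := by rw [mem_ball_zero_iff]; linarith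
  have h1 : ‖E₁ x - E₁ 0‖ ≤ 4 * C * (3 / 4) := by
    have h2 := (convex_closedBall (0:ℂ) (3 / 4)).norm_image_sub_le_of_norm_hasDerivWithin_le (f := E₁) (f' := deriv E₁)
      (C := 4 * C) (x := 0) (y := x) (fun y hy => by
        have hy' : y ∈ ball (0:ℂ) 1 := by
          rw [mem_closedBall_zero_iff] at hy
          rw [mem_ball_zero_iff]
          linarith
        exact ((B.dE₁.differentiableAt (isOpen_ball.mem_nhds hy')).hasDerivAt).hasDerivWithinAt) (fun y hy => by
        rw [mem_closedBall_zero_iff] at hy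
        have hy' : y ∈ ball (0:ℂ) 1 := by
          rw [mem_ball_zero_iff]
          linarith
        have h3 := B.bloch y hy'
        have h4 : ‖deriv E₁ y‖ * (1 / 4) ≤ C := by
          refine le_trans ?_ h3
          gcongr
          linarith
        linarith) (by rw [mem_closedBall_zero_iff, norm_zero]; norm_num) (by rwa [mem_closedBall_zero_iff])
    rw [sub_zero] at h2
    refine h2.trans ?_
    gcongr
  have h2 : ‖E x - E₁ x‖ ≤ C * 3 := by
    refine (B.near x hxb).trans ?_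
    gcongr
    have h3 : -Real.log (1 - ‖x‖) ≤ 4 := by
      have h4 : Real.log (1 / 4) ≤ Real.log (1 - ‖x‖) := Real.log_le_log (by norm_num) (by linarith)
      have h5 : -(3:ℝ) ≤ Real.log (1 / 4) := by
        have h6 := Real.one_sub_inv_le_log_of_pos (x := 1 / 4) (by norm_num)
        norm_num at h6 ⊢
        linarith
      linarith
    have h4 : √(-Real.log (1 - ‖x‖)) ≤ 2 := by
      rw [Real.sqrt_le_left (by norm_num)]
      linarith
    linarith
  have h3 : ‖E 0 - E₁ 0‖ ≤ C * 1 := by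
    refine (B.near 0 (by simp)).trans ?_
    simp
  rw [B.E0, zero_sub, norm_neg] at h3
  calc ‖E x‖ = ‖(E x - E₁ x) + (E₁ x - E₁ 0) + E₁ 0‖ := by
        congr 1
        ring
    _ ≤ ‖E x - E₁ x‖ + ‖E₁ x - E₁ 0‖ + ‖E₁ 0‖ := norm_add₃_le
    _ ≤ C * 3 + 4 * C * (3 / 4) + C * 1 := by gcongr
    _ ≤ 10 * C := by linarith

end

end H2

open H2 in
theorem pGfe2 : S_gfe2 := by
  intro C hC
  have hC0 : 0 < C := by linarith
  set r₀ : ℝ := 1 / (96 * C) with hr₀
  have hr0 : 0 < r₀ := by positivity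
  have hr1 : r₀ ≤ 1 / 4 := by
    rw [hr₀, div_le_div_iff₀ (by positivity) (by norm_num)]
    linarith
  have hex : ∀ x : ℝ, 0 ≤ x → x < 1 → ∃ m : ℕ, x ^ (2 ^ m) ≤ r₀ := by
    intro x hx0 hx1
    have h1 : Tendsto (fun k : ℕ => x ^ k) atTop (𝓝 0) := tendsto_pow_atTop_nhds_zero_of_lt_one hx0 hx1
    have h2 : Tendsto (fun m : ℕ => x ^ 2 ^ m) atTop (𝓝 0) :=
      h1.comp (tendsto_pow_atTop_atTop_of_one_lt (by norm_num))
    exact ((h2.eventually_lt_const hr0).exists).imp fun m hm => hm.le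
  have hstep : ∀ (x : ℂ) (N m : ℕ), 2 ≤ N → ‖x‖ ≤ 1 → ‖x‖ ^ (2 ^ (m + 1)) ≤ r₀ → ‖x ^ N‖ ^ (2 ^ m) ≤ r₀ := by
    intro x N m hN hx h
    rw [norm_pow, ← pow_mul]
    refine le_trans (pow_le_pow_of_le_one (norm_nonneg _) hx ?_) h
    rw [pow_succ, mul_comm]
    exact Nat.mul_le_mul_right _ hN
  obtain ⟨m₀, hm₀⟩ := hex (1 / 2) (by norm_num) (by norm_num)
  refine ⟨1 + 10 * C * m₀, by
    have : 0 ≤ 10 * C * m₀ := by positivity
    linarith, ?_⟩
  intro N q E E₁ P p hS hs
  have hle : ∀ {v : ℂ}, v ∈ ball (0:ℂ) 1 → ‖v‖ < 1 := fun hv => by rwa [mem_ball_zero_iff] at hv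
  have hwb := fun i => ww_ball (hS.two i) (hs.w i)
  have hPhi := fun i => phi_eq (hs.eq i)
  have hkey := fun i => key (hS.two i) (hS.blk i) (hs.dP i) (hs.dP (i + 1)) (hs.w i) (hs.eq i)
  refine ⟨?_, ?_⟩
  · have inj : ∀ m : ℕ, ∀ i, ∀ a ∈ ball (0:ℂ) 1, ∀ b ∈ ball (0:ℂ) 1, ‖a‖ ^ (2 ^ m) ≤ r₀ → ‖b‖ ^ (2 ^ m) ≤ r₀ →
        a * Complex.exp (-P i a) = b * Complex.exp (-P i b) → a = b := by
      intro m
      induction m with
      | zero =>
        intro i a _ b _ h1 h2 hab
        rw [pow_zero, pow_one] at h1 h2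
        exact inj_small hC (hs.dP i) (hs.half i) (by rwa [mem_closedBall_zero_iff]) (by rwa [mem_closedBall_zero_iff]) hab
      | succ m ih =>
        intro i a ha b hb h1 h2 hab
        rw [hPhi i a ha, hPhi i b hb] at hab
        have h3 : ww (P (i + 1)) (N i) a = ww (P (i + 1)) (N i) b := (hS.blk i).inj (hwb i a ha) (hwb i b hb) hab
        have h4 : a ^ N i = b ^ N i := by
          refine ih (i + 1) _ (pow_mem (hS.two i) ha) _ (pow_mem (hS.two i) hb) (hstep a _ m (hS.two i) (hle ha).le h1)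
            (hstep b _ m (hS.two i) (hle hb).le h2) ?_
          rw [← ww_pow _ (hS.two i), ← ww_pow _ (hS.two i), h3]
        unfold ww at h3
        rw [h4] at h3
        exact mul_right_cancel₀ (Complex.exp_ne_zero _) h3
    intro i a ha b hb hab
    obtain ⟨m, hm⟩ := hex ‖a‖ (norm_nonneg _) (hle ha)
    obtain ⟨m', hm'⟩ := hex ‖b‖ (norm_nonneg _) (hle hb)
    refine inj (max m m') i a ha b hb ?_ ?_ hab
    · exact (pow_le_pow_of_le_one (norm_nonneg _) (hle ha).le
        (Nat.pow_le_pow_right (by norm_num) (le_max_left _ _))).trans hm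
    · exact (pow_le_pow_of_le_one (norm_nonneg _) (hle hb).le
        (Nat.pow_le_pow_right (by norm_num) (le_max_right _ _))).trans hm'
  · have hdD : ∀ i, DifferentiableOn ℂ (fun v => 1 - v * deriv (P i) v) (ball 0 1) := fun i =>
      (differentiableOn_const 1).sub (differentiableOn_id.mul ((hs.dP i).deriv isOpen_ball))
    have hne' : ∀ m : ℕ, ∀ i, ∀ v ∈ ball (0:ℂ) 1, ‖v‖ ^ (2 ^ m) ≤ r₀ → 1 - v * deriv (P i) v ≠ 0 := by
      intro m
      induction m with
      | zero =>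
        intro i v _ h1 h0
        rw [pow_zero, pow_one] at h1
        have h2 := D_small hC (hs.dP i) (hs.half i) v h1
        rw [← sub_eq_zero.1 h0, norm_one] at h2
        norm_num at h2
      | succ m ih =>
        intro i v hv h1
        rw [hkey i v hv]
        exact mul_ne_zero (ih (i + 1) _ (pow_mem (hS.two i) hv) (hstep v _ m (hS.two i) (hle hv).le h1))
          (Complex.exp_ne_zero _)
    have hne : ∀ i, ∀ v ∈ ball (0:ℂ) 1, 1 - v * deriv (P i) v ≠ 0 := by
      intro i v hv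
      obtain ⟨m, hm⟩ := hex ‖v‖ (norm_nonneg _) (hle hv)
      exact hne' m i v hv hm
    choose G hG hG0 hGe using fun i => C2.exists_log_ball (hdD i) (hne i) (by simp)
    have hfe : ∀ i, ∀ v ∈ ball (0:ℂ) 1, G i v = G (i + 1) (v ^ N i) + E i (ww (P (i + 1)) (N i) v) := by
      intro i v hv
      have hw_c : DifferentiableOn ℂ (ww (P (i + 1)) (N i)) (ball 0 1) := fun v hv =>
        (has_ww (hS.two i) (hs.dP (i + 1)) v hv).differentiableAt.differentiableWithinAt
      refine Pool.Agent.W677.Mar.exp_unique (convex_ball (0:ℂ) 1).isPreconnected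
        (g := fun v => G (i + 1) (v ^ N i) + E i (ww (P (i + 1)) (N i) v)) (hG i).continuousOn ?_ ?_
        (mem_ball_self one_pos) ?_ hv
      · refine ContinuousOn.add ?_ ?_
        · exact (hG (i + 1)).continuousOn.comp (continuous_pow (N i)).continuousOn fun v hv => pow_mem (hS.two i) hv
        · exact (hS.blk i).dE.continuousOn.comp hw_c.continuousOn fun v hv => hwb i v hv
      · intro v hv
        rw [hGe i v hv, Complex.exp_add, hGe (i + 1) _ (pow_mem (hS.two i) hv), hkey i v hv]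
      · have h1 : (0:ℂ) ^ N i = 0 := zero_pow (by have := hS.two i; omega)
        have h2 : ww (P (i + 1)) (N i) 0 = 0 := by simp [ww]
        simp only [h1, h2, hG0, (hS.blk i).E0, add_zero]
    have hsm : ∀ i (v : ℂ), ‖v‖ ≤ r₀ → ‖G i v‖ ≤ 1 := by
      intro i v hv
      have hsub : closedBall (0:ℂ) r₀ ⊆ ball 0 1 := closedBall_subset_ball (by linarith)
      have h1 : ∀ x ∈ closedBall (0:ℂ) r₀, ‖-(x * deriv (P i) x)‖ ≤ 1 / 4 := by
        intro x hx
        rw [mem_closedBall_zero_iff] at hx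
        rw [norm_neg]
        exact D_small hC (hs.dP i) (hs.half i) x hx
      have h2 : G i v = Complex.log (1 + -(v * deriv (P i) v)) := by
        refine Pool.Agent.W677.Mar.exp_unique (convex_closedBall (0:ℂ) r₀).isPreconnected
          (g := fun v => Complex.log (1 + -(v * deriv (P i) v))) ((hG i).continuousOn.mono hsub) ?_ ?_
          (mem_closedBall_self hr0.le) ?_ (by rwa [mem_closedBall_zero_iff])
        · refine ContinuousOn.clog ?_ ?_
          · exact ((hdD i).continuousOn.mono hsub).congr fun x _ => by ring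
          · intro x hx
            exact Complex.mem_slitPlane_of_norm_lt_one (by have := h1 x hx; linarith)
        · intro x hx
          have h3 : (1:ℂ) + -(x * deriv (P i) x) = 1 - x * deriv (P i) x := by ring
          rw [hGe i x (hsub hx), h3, Complex.exp_log (hne i x (hsub hx))]
        · simp [hG0]
      rw [h2]
      have h3 := h1 v (by rwa [mem_closedBall_zero_iff])
      have h4 := Complex.norm_log_one_add_half_le_self (z := -(v * deriv (P i) v)) (by linarith)
      linarith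
    have hbd : ∀ m : ℕ, ∀ i (v : ℂ), ‖v‖ ≤ 1 / 2 → ‖v‖ ^ (2 ^ m) ≤ r₀ → ‖G i v‖ ≤ 1 + 10 * C * m := by
      intro m
      induction m with
      | zero =>
        intro i v _ h1
        rw [pow_zero, pow_one] at h1
        have := hsm i v h1
        simpa using this
      | succ m ih =>
        intro i v hv h1
        have hvb : v ∈ ball (0:ℂ) 1 := by rw [mem_ball_zero_iff]; linarith
        have h2 : ‖v ^ N i‖ ≤ 1 / 2 := by
          rw [norm_pow]
          refine le_trans (pow_le_of_le_one (norm_nonneg _) (by linarith) ?_) hv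
          have := hS.two i
          omega
        have h3 := ih (i + 1) _ h2 (hstep v _ m (hS.two i) (by linarith) h1)
        have h4 := E_le hC (hS.blk i) _ (hs.w34 i v hv)
        rw [hfe i v hvb]
        push_cast
        calc ‖G (i + 1) (v ^ N i) + E i (ww (P (i + 1)) (N i) v)‖ ≤ ‖G (i + 1) (v ^ N i)‖ + ‖E i (ww (P (i + 1)) (N i) v)‖ :=
              norm_add_le _ _
          _ ≤ (1 + 10 * C * m) + 10 * C := by gcongr
          _ = 1 + 10 * C * (m + 1) := by ring
    refine ⟨G, fun i => ⟨hG i, hG0 i, hGe i, hfe i, fun v hv => hbd m₀ i v hv ?_⟩⟩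
    refine le_trans ?_ hm₀
    gcongr

end Pool.Agent.Z55U
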