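import Mathlib
import Pool.Agent.Z55U.Stm

/-! # Piece D: the mean inequality -/

set_option autoImplicit false
open Complex Filter Topology Set Metric MeasureTheory

namespace Pool.Agent.Z55U

theorem mean_step {a b : ℝ → ℝ} {κ : ℝ} {N : ℕ} (ha : Continuous a) (hb : Continuous b)
    (hbp : Function.Periodic b (2 * Real.pi)) (hb0 : ∀ θ, 0 ≤ b θ) (hN : 1 ≤ N)
    (hs : ∀ θ θ' : ℝ, |θ - θ'| ≤ 2 * Real.pi / N → a θ ≤ Real.exp κ * a θ') :
    Real.exp (-κ) * ((∫ θ in (0:ℝ)..(2 * Real.pi), a θ) * ∫ θ in (0:ℝ)..(2 * Real.pi), b θ) ≤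
      2 * Real.pi * ∫ θ in (0:ℝ)..(2 * Real.pi), a θ * b (N * θ) := by
  have hpi := Real.pi_pos
  have hN0 : (0:ℝ) < N := by exact_mod_cast hN
  set p : ℕ → ℝ := fun i => 2 * Real.pi / N * i with hp
  have hp0 : p 0 = 0 := by simp [hp]
  have hpN : p N = 2 * Real.pi := by
    rw [hp]
    field_simp
  have hstep : ∀ i : ℕ, p (i + 1) - p i = 2 * Real.pi / N := by
    intro i
    rw [hp]
    push_cast
    ring
  have hle : ∀ i : ℕ, p i ≤ p (i + 1) := by
    intro i
    have := hstep i
    have h1 : 0 < 2 * Real.pi / N := by positivity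
    linarith
  have hbN : Continuous fun θ : ℝ => b (N * θ) := hb.comp (continuous_const.mul continuous_id)
  have hab : Continuous fun θ : ℝ => a θ * b (N * θ) := ha.mul hbN
  set J : ℝ := ∫ θ in (0:ℝ)..(2 * Real.pi), b θ with hJ
  -- the integral of `b (N θ)` on a small interval
  have hbi : ∀ i : ℕ, ∫ θ in (p i)..(p (i + 1)), b (N * θ) = J / N := by
    intro i
    rw [intervalIntegral.integral_comp_mul_left b hN0.ne']
    have e1 : (N:ℝ) * p i = 2 * Real.pi * i := by
      rw [hp]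
      field_simp
    have e2 : (N:ℝ) * p (i + 1) = 2 * Real.pi * i + 2 * Real.pi := by
      rw [hp]
      push_cast
      field_simp
    rw [e1, e2, hbp.intervalIntegral_add_eq (2 * Real.pi * i) 0, zero_add, ← hJ, smul_eq_mul]
    field_simp
  have hi : ∀ i : ℕ, Real.exp (-κ) * ((∫ θ in (p i)..(p (i + 1)), a θ) * J) ≤
      2 * Real.pi * ∫ θ in (p i)..(p (i + 1)), a θ * b (N * θ) := by
    intro i
    have hpt : ∀ θ ∈ Icc (p i) (p (i + 1)), Real.exp (-κ) * ((N / (2 * Real.pi)) * ∫ θ' in (p i)..(p (i + 1)), a θ') ≤ a θ := by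
      intro θ hθ
      have h1 : (∫ θ' in (p i)..(p (i + 1)), a θ') ≤ ∫ _ in (p i)..(p (i + 1)), Real.exp κ * a θ := by
        apply intervalIntegral.integral_mono_on (hle i) (ha.intervalIntegrable _ _) (continuous_const.intervalIntegrable _ _)
        intro θ' hθ'
        apply hs
        rw [← hstep i, abs_le]
        constructor <;> linarith [hθ.1, hθ.2, hθ'.1, hθ'.2]
      rw [intervalIntegral.integral_const, smul_eq_mul, hstep i] at h1
      calc Real.exp (-κ) * ((N / (2 * Real.pi)) * ∫ θ' in (p i)..(p (i + 1)), a θ')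
          ≤ Real.exp (-κ) * ((N / (2 * Real.pi)) * (2 * Real.pi / N * (Real.exp κ * a θ))) := by gcongr
        _ = (Real.exp (-κ) * Real.exp κ) * a θ := by
            field_simp
        _ = a θ := by rw [← Real.exp_add, neg_add_cancel, Real.exp_zero, one_mul]
    have h2 : (∫ θ in (p i)..(p (i + 1)), (Real.exp (-κ) * ((N / (2 * Real.pi)) * ∫ θ' in (p i)..(p (i + 1)), a θ')) * b (N * θ)) ≤
        ∫ θ in (p i)..(p (i + 1)), a θ * b (N * θ) := by
      apply intervalIntegral.integral_mono_on (hle i) ((hbN.const_mul _).intervalIntegrable _ _) (hab.intervalIntegrable _ _)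
      intro θ hθ
      exact mul_le_mul_of_nonneg_right (hpt θ hθ) (hb0 _)
    rw [intervalIntegral.integral_const_mul, hbi i] at h2
    calc Real.exp (-κ) * ((∫ θ in (p i)..(p (i + 1)), a θ) * J)
        = 2 * Real.pi * ((Real.exp (-κ) * ((N / (2 * Real.pi)) * ∫ θ' in (p i)..(p (i + 1)), a θ')) * (J / N)) := by
          field_simp
      _ ≤ _ := by gcongr
  have hsum := Finset.sum_le_sum (fun i (_ : i ∈ Finset.range N) => hi i)
  rw [← Finset.mul_sum, ← Finset.sum_mul, ← Finset.mul_sum,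
    intervalIntegral.sum_integral_adjacent_intervals (fun k _ => ha.intervalIntegrable _ _),
    intervalIntegral.sum_integral_adjacent_intervals (fun k _ => hab.intervalIntegrable _ _), hp0, hpN] at hsum
  exact hsum

theorem pMean : S_mean := by
  intro a κ N ha hap ha0 hN hκ hs k
  have hpi := Real.pi_pos
  have hbc : ∀ k : ℕ, Continuous fun θ : ℝ => ∏ j ∈ Finset.range k, a ((N : ℝ) ^ j * θ) := by
    intro k
    exact continuous_finsetProd _ fun j _ => ha.comp (continuous_const.mul continuous_id)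
  have hbp : ∀ k : ℕ, Function.Periodic (fun θ : ℝ => ∏ j ∈ Finset.range k, a ((N : ℝ) ^ j * θ)) (2 * Real.pi) := by
    intro k θ
    apply Finset.prod_congr rfl
    intro j _
    rw [mul_add]
    have := (hap.nat_mul (N ^ j)) ((N:ℝ) ^ j * θ)
    push_cast at this
    exact this
  induction k with
  | zero =>
    simp
    field_simp
    norm_num
  | succ k ih =>
    set b : ℝ → ℝ := fun θ : ℝ => ∏ j ∈ Finset.range k, a ((N : ℝ) ^ j * θ) with hb
    have hb0 : ∀ θ, 0 ≤ b θ := fun θ => Finset.prod_nonneg fun j _ => (ha0 _).le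
    have h1 := mean_step (κ := κ) ha (hbc k) (hbp k) hb0 hN hs
    have e : ∀ θ : ℝ, ∏ j ∈ Finset.range (k + 1), a ((N : ℝ) ^ j * θ) = a θ * b (N * θ) := by
      intro θ
      rw [Finset.prod_range_succ', pow_zero, one_mul, mul_comm]
      congr 1
      apply Finset.prod_congr rfl
      intro j _
      rw [pow_succ]
      congr 1
      ring
    simp only [e]
    set I : ℝ := ∫ θ in (0:ℝ)..(2 * Real.pi), a θ with hI
    set J : ℝ := ∫ θ in (0:ℝ)..(2 * Real.pi), b θ with hJ
    have hI0 : 0 ≤ I := intervalIntegral.integral_nonneg (by positivity) fun θ _ => (ha0 θ).le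
    have h2 : Real.exp (-κ) * (I * J) ≤ 2 * Real.pi * ∫ θ in (0:ℝ)..(2 * Real.pi), a θ * b (N * θ) := h1
    rw [pow_succ]
    calc (Real.exp (-κ) * (1 / (2 * Real.pi) * I)) ^ k * (Real.exp (-κ) * (1 / (2 * Real.pi) * I))
        ≤ (1 / (2 * Real.pi) * J) * (Real.exp (-κ) * (1 / (2 * Real.pi) * I)) := by
          gcongr
      _ = (1 / (2 * Real.pi)) ^ 2 * (Real.exp (-κ) * (I * J)) := by ring
      _ ≤ (1 / (2 * Real.pi)) ^ 2 * (2 * Real.pi * ∫ θ in (0:ℝ)..(2 * Real.pi), a θ * b (N * θ)) := by gcongr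
      _ = _ := by
          field_simp

end Pool.Agent.Z55U
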