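import Mathlib
import Pool.Agent.Z55U.Stm2
import Pool.Agent.Z55U.D

/-! # Piece H3: the mean inequality for a sequence -/

set_option autoImplicit false
open Complex Filter Topology Set Metric MeasureTheory

namespace Pool.Agent.Z55U

theorem prod_cont (a : ℕ → ℝ → ℝ) (N : ℕ → ℕ) (ha : ∀ i, Continuous (a i)) (k : ℕ) :
    Continuous fun θ : ℝ => ∏ j ∈ Finset.range k, a j ((∏ i ∈ Finset.range j, (N i : ℝ)) * θ) :=
  continuous_finsetProd _ fun j _ => (ha j).comp (continuous_const.mul continuous_id)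

theorem prod_per (a : ℕ → ℝ → ℝ) (N : ℕ → ℕ) (hp : ∀ i, Function.Periodic (a i) (2 * Real.pi)) (k : ℕ) :
    Function.Periodic (fun θ : ℝ => ∏ j ∈ Finset.range k, a j ((∏ i ∈ Finset.range j, (N i : ℝ)) * θ)) (2 * Real.pi) := by
  intro θ
  apply Finset.prod_congr rfl
  intro j _
  rw [mul_add]
  have := ((hp j).nat_mul (∏ i ∈ Finset.range j, N i)) ((∏ i ∈ Finset.range j, (N i : ℝ)) * θ)
  push_cast at this
  exact this

theorem pGmean : S_gmean := by
  intro a κ N ha hp ha0 hN hκ hs k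
  have hpi := Real.pi_pos
  induction k generalizing a N with
  | zero =>
    simp
    field_simp
    norm_num
  | succ k ih =>
    set b : ℝ → ℝ := fun θ : ℝ => ∏ j ∈ Finset.range k, a (j + 1) ((∏ i ∈ Finset.range j, (N (i + 1) : ℝ)) * θ) with hb
    have hb0 : ∀ θ, 0 ≤ b θ := fun θ => Finset.prod_nonneg fun j _ => (ha0 _ _).le
    have hbc : Continuous b := prod_cont (fun j => a (j + 1)) (fun i => N (i + 1)) (fun i => ha _) k
    have hbp : Function.Periodic b (2 * Real.pi) := prod_per (fun j => a (j + 1)) (fun i => N (i + 1)) (fun i => hp _) k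
    have h1 := mean_step (κ := κ) (ha 0) hbc hbp hb0 (hN 0) (hs 0)
    have ih' := ih (fun j => a (j + 1)) (fun i => N (i + 1)) (fun i => ha _) (fun i => hp _) (fun i θ => ha0 _ _)
      (fun i => hN _) (fun i => hs _)
    have e : ∀ θ : ℝ, ∏ j ∈ Finset.range (k + 1), a j ((∏ i ∈ Finset.range j, (N i : ℝ)) * θ) = a 0 θ * b (N 0 * θ) := by
      intro θ
      rw [Finset.prod_range_succ', Finset.prod_range_zero, one_mul, mul_comm]
      congr 1
      apply Finset.prod_congr rfl
      intro j _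
      rw [Finset.prod_range_succ']
      congr 1
      ring
    simp only [e]
    rw [Finset.prod_range_succ']
    set I : ℝ := ∫ θ in (0:ℝ)..(2 * Real.pi), a 0 θ with hI
    set J : ℝ := ∫ θ in (0:ℝ)..(2 * Real.pi), b θ with hJ
    have hI0 : 0 ≤ I := intervalIntegral.integral_nonneg (by positivity) fun θ _ => (ha0 0 θ).le
    have h2 : Real.exp (-κ) * (I * J) ≤ 2 * Real.pi * ∫ θ in (0:ℝ)..(2 * Real.pi), a 0 θ * b (N 0 * θ) := h1
    calc _ ≤ (1 / (2 * Real.pi) * J) * (Real.exp (-κ) * (1 / (2 * Real.pi) * I)) := by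
          gcongr
      _ = (1 / (2 * Real.pi)) ^ 2 * (Real.exp (-κ) * (I * J)) := by ring
      _ ≤ (1 / (2 * Real.pi)) ^ 2 * (2 * Real.pi * ∫ θ in (0:ℝ)..(2 * Real.pi), a 0 θ * b (N 0 * θ)) := by gcongr
      _ = _ := by
          field_simp

end Pool.Agent.Z55U
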