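import Mathlib
import Pool.Agent.Z55U.Stm2
import Pool.Agent.Z55U.E2

/-! # Piece H4 (helper24): the lower bound for a sequence of blocks -/

set_option autoImplicit false
set_option linter.all false
open Complex Filter Topology Set Metric MeasureTheory

namespace Pool.Agent.Z55U

open Pool.Agent.W677.Mar (Sg NN hat)
open Q90.SM (IsSig marshall pmean circ)

namespace H4

open E2

/-- the product of the first `k` integers -/
def Mk (N : ℕ → ℕ) (k : ℕ) : ℕ := ∏ i ∈ Finset.range k, N i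

theorem Mk_succ (N : ℕ → ℕ) (k : ℕ) : Mk N (k + 1) = Mk N k * N k := Finset.prod_range_succ _ _

theorem Mk_pos {N : ℕ → ℕ} (hN : ∀ i, 2 ≤ N i) (k : ℕ) : 0 < Mk N k :=
  Finset.prod_pos fun i _ => by have := hN i; omega

theorem Mk_cast (N : ℕ → ℕ) (k : ℕ) : ((Mk N k : ℕ) : ℝ) = ∏ i ∈ Finset.range k, (N i : ℝ) := by
  unfold Mk
  push_cast
  rfl

theorem Mk_split {N : ℕ → ℕ} (hN : ∀ i, 2 ≤ N i) {j k : ℕ} (h : j < k) :
    ∃ m, Mk N k = Mk N j * m ∧ N j ≤ m := by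
  obtain ⟨d, rfl⟩ := Nat.exists_eq_add_of_lt h
  induction d with
  | zero => exact ⟨N j, by rw [show j + 0 + 1 = j + 1 by omega, Mk_succ], le_rfl⟩
  | succ d ih =>
    obtain ⟨m, h1, h2⟩ := ih (by omega)
    refine ⟨m * N (j + d + 1), ?_, ?_⟩
    · rw [show j + (d + 1) + 1 = (j + d + 1) + 1 by omega, Mk_succ, h1]
      ring
    · calc N j ≤ m := h2
        _ = m * 1 := (mul_one m).symm
        _ ≤ m * N (j + d + 1) := Nat.mul_le_mul_left _ (by have := hN (j + d + 1); omega)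

/-- the iterated functional equation -/
theorem iter {N : ℕ → ℕ} (hN : ∀ i, 2 ≤ N i) {G F : ℕ → ℂ → ℂ}
    (h : ∀ i, ∀ v ∈ ball (0:ℂ) 1, G i v = G (i + 1) (v ^ N i) + F i v) {v : ℂ}
    (hv : v ∈ ball (0:ℂ) 1) (k : ℕ) :
    G 0 v = (∑ j ∈ Finset.range k, F j (v ^ Mk N j)) + G k (v ^ Mk N k) := by
  induction k with
  | zero => simp [Mk]
  | succ k ih =>
    rw [ih, Finset.sum_range_succ]
    have h1 : v ^ Mk N k ∈ ball (0:ℂ) 1 := by
      rw [mem_ball_zero_iff] at hv ⊢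
      rw [norm_pow]
      exact pow_lt_one₀ (norm_nonneg _) hv (Mk_pos hN k).ne'
    rw [h k _ h1, ← pow_mul, ← Mk_succ]
    ring

/-- comparison of the two points -/
theorem close {C p : ℝ} (hC : 1 ≤ C) (hp : 2 ≤ p) {N : ℕ} (hN : 2 ≤ N) {q E E₁ P : ℂ → ℂ}
    (B : Blk C q E E₁) (hP : ∀ v ∈ ball (0:ℂ) 1, ‖P v‖ ≤ p)
    (hPw : ∀ v ∈ ball (0:ℂ) 1, ‖ww P N v‖ ≤ 1 - 1 / (2 * N)) {s φ : ℝ} (hs : 1 - 1 / (N:ℝ) ≤ s) (hs1 : s < 1) :
    ‖E (ww P N (circleMap 0 s φ)) - E₁ (circleMap 0 (1 - 1 / ((N:ℝ) + 1)) φ)‖ ≤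
      6 * C * (1 + √(Real.log N) + p) := by
  have hNr : (2:ℝ) ≤ N := by exact_mod_cast hN
  have hN0 : (0:ℝ) < N := by linarith
  obtain ⟨L, hL⟩ : ∃ L, L = √(Real.log N) := ⟨_, rfl⟩
  have hL0 : 0 ≤ L := by rw [hL]; exact Real.sqrt_nonneg _
  have hs0 : 0 ≤ s := by
    have : 1 / (N:ℝ) ≤ 1 := by
      rw [div_le_one hN0]
      linarith
    linarith
  obtain ⟨u, hu⟩ : ∃ u, u = circleMap 0 s φ := ⟨_, rfl⟩
  have hun : ‖u‖ = s := by rw [hu, norm_circleMap_zero, abs_of_nonneg hs0]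
  have huB : u ∈ ball (0:ℂ) 1 := by rw [mem_ball_zero_iff, hun]; exact hs1
  rw [← hu]
  obtain ⟨x, hx⟩ : ∃ x, x = -P (u ^ N) / N := ⟨_, rfl⟩
  have hw := hPw u huB
  obtain ⟨w, hww⟩ : ∃ w, w = u * Complex.exp x := ⟨_, rfl⟩
  have hwe : ww P N u = w := by rw [hww, hx]; rfl
  rw [hwe] at hw ⊢
  have h2N : 0 < 1 / (2 * (N:ℝ)) := by positivity
  have hwB : w ∈ ball (0:ℂ) 1 := by rw [mem_ball_zero_iff]; linarith
  -- the first difference
  have hsq : √(-Real.log (1 - ‖w‖)) ≤ 1 + L := by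
    have h1 : -Real.log (1 - ‖w‖) ≤ Real.log 2 + Real.log N := by
      rw [← Real.log_mul (by norm_num) hN0.ne', ← Real.log_inv]
      apply Real.log_le_log
      · rw [inv_pos]
        linarith
      · rw [inv_le_comm₀ (by linarith) (by positivity), ← one_div]
        linarith
    have h2 : Real.log 2 ≤ 1 := by
      have := Real.log_two_lt_d9
      linarith
    have hlog : 0 ≤ Real.log N := Real.log_nonneg (by linarith)
    refine Real.sqrt_le_iff.2 ⟨by linarith, ?_⟩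
    have h3 : L ^ 2 = Real.log N := by rw [hL]; exact Real.sq_sqrt hlog
    nlinarith
  have hd1 : ‖E w - E₁ w‖ ≤ C * (2 + L) := by
    refine (B.near w hwB).trans ?_
    have : C * (1 + √(-Real.log (1 - ‖w‖))) ≤ C * (1 + (1 + L)) := by gcongr
    linarith
  -- the distance
  have huN : u ^ N ∈ ball (0:ℂ) 1 := by
    rw [mem_ball_zero_iff, norm_pow, hun]
    exact pow_lt_one₀ hs0 hs1 (by omega)
  have hxn : ‖x‖ ≤ p / N := by
    rw [hx, norm_div, norm_neg, Complex.norm_natCast]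
    apply div_le_div_of_nonneg_right _ hN0.le
    exact hP _ huN
  obtain ⟨ρ, hρ⟩ : ∃ ρ : ℝ, ρ = 1 - 1 / ((N:ℝ) + 1) := ⟨_, rfl⟩
  rw [← hρ]
  have hρ1 : 1 / ((N:ℝ) + 1) ≤ 1 / N := by
    apply one_div_le_one_div_of_le <;> linarith
  have hρ2 : 0 < 1 / ((N:ℝ) + 1) := by positivity
  have hρ3 : 1 / (2 * (N:ℝ)) ≤ 1 / ((N:ℝ) + 1) := by
    apply one_div_le_one_div_of_le <;> linarith
  have hρ4 : 1 / ((N:ℝ) + 1) ≤ 1 := by
    rw [div_le_one (by linarith)]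
    linarith
  have hρ0 : 0 ≤ ρ := by linarith
  have hcn : ‖circleMap 0 ρ φ‖ = ρ := by rw [norm_circleMap_zero, abs_of_nonneg hρ0]
  have hdist : ‖w - circleMap 0 ρ φ‖ ≤ 2 * (p / N) + 2 / N := by
    rcases le_or_gt p N with hpN | hpN
    · have hx1 : p / N ≤ 1 := by rw [div_le_one hN0]; exact hpN
      have hexp : ‖Complex.exp x - 1‖ ≤ 2 * (p / N) := by
        refine (Complex.norm_exp_sub_one_le (hxn.trans hx1)).trans ?_
        linarith
      have h1 : w - circleMap 0 ρ φ = Complex.exp ((φ:ℂ) * Complex.I) * ((s:ℂ) * (Complex.exp x - 1) + ((s - ρ : ℝ) : ℂ)) := by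
        rw [hww, hu, circleMap_zero, circleMap_zero]
        push_cast
        ring
      rw [h1, norm_mul, Complex.norm_exp_ofReal_mul_I, one_mul]
      refine (norm_add_le _ _).trans ?_
      rw [norm_mul, Complex.norm_real, Complex.norm_real, Real.norm_eq_abs, Real.norm_eq_abs, abs_of_nonneg hs0]
      have h2 : s * ‖Complex.exp x - 1‖ ≤ 1 * (2 * (p / N)) := by
        apply mul_le_mul hs1.le hexp (norm_nonneg _) zero_le_one
      have h3 : |s - ρ| ≤ 2 / N := by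
        have h4 : (2:ℝ) / N = 1 / N + 1 / N := by ring
        have h5 : 0 < 1 / (N:ℝ) := by positivity
        rw [abs_le]
        constructor
        · rw [h4]
          linarith
        · rw [h4]
          linarith
      linarith
    · have h1 : 1 ≤ p / N := by rw [le_div_iff₀ hN0]; linarith
      have h2 : 0 < 2 / (N:ℝ) := by positivity
      refine (norm_sub_le _ _).trans ?_
      rw [hcn]
      linarith
  have hd2 : ‖E₁ w - E₁ (circleMap 0 ρ φ)‖ ≤ C * 4 * p + 4 * C := by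
    have h1 := bloch_lip B.dE₁ B.bloch (r := 1 - 1 / (2 * (N:ℝ))) (by linarith) (u := w) (v := circleMap 0 ρ φ) hw (by
      rw [hcn]
      linarith)
    refine h1.trans ?_
    have h2 : C / (1 - (1 - 1 / (2 * (N:ℝ)))) = C * (2 * N) := by
      field_simp
      ring
    rw [h2]
    calc C * (2 * N) * ‖w - circleMap 0 ρ φ‖ ≤ C * (2 * N) * (2 * (p / N) + 2 / N) := by gcongr
      _ = C * 4 * p + 4 * C := by
        field_simp
        ring
  rw [← hL]
  calc ‖E w - E₁ (circleMap 0 ρ φ)‖ ≤ ‖E w - E₁ w‖ + ‖E₁ w - E₁ (circleMap 0 ρ φ)‖ := norm_sub_le_norm_sub_add_norm_sub _ _ _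
    _ ≤ C * (2 + L) + (C * 4 * p + 4 * C) := add_le_add hd1 hd2
    _ ≤ 6 * C * (1 + L + p) := by nlinarith [mul_nonneg (by linarith : (0:ℝ) ≤ C) hL0]

end H4

open E2 H4 in
theorem pGlow (h1 : S_gfe1) (h2 : S_gfe2) (h3 : S_gmean) (h4 : S_sig) : S_glow := by
  intro C hC
  obtain ⟨N₀, hN₀, hfe⟩ := h1 C hC
  obtain ⟨KG, hKG, hfe2⟩ := h2 C hC
  refine ⟨N₀, 19 * C, hN₀, by linarith, ?_⟩
  intro N q E E₁ p hN hS hPp
  obtain ⟨P, hP⟩ := hfe N q E E₁ p hN hS hPp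
  obtain ⟨hinj, G, hG⟩ := hfe2 N q E E₁ P p hS hP
  have hN2 : ∀ i, 2 ≤ N i := hS.two
  refine ⟨_, _, h4 (P 0) (G 0) (hP.dP 0) (hG 0).1 (hG 0).2.1 (hinj 0) (hG 0).2.2.1, ?_⟩
  intro t
  have hpi := Real.pi_pos
  have ht0 : 0 ≤ ‖t‖ := norm_nonneg t
  have hρ : ∀ i, 0 ≤ 1 - 1 / ((N i : ℝ) + 1) ∧ 1 - 1 / ((N i : ℝ) + 1) < 1 := by
    intro i
    have hNi : (2:ℝ) ≤ N i := by exact_mod_cast hN2 i
    have h5 : 0 < 1 / ((N i : ℝ) + 1) := by positivity
    have h6 : 1 / ((N i : ℝ) + 1) ≤ 1 := by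
      rw [div_le_one (by linarith)]
      linarith
    exact ⟨by linarith, by linarith⟩
  -- the functions `a i`
  obtain ⟨a, ha⟩ : ∃ a : ℕ → ℝ → ℝ,
      a = fun i θ => ‖Complex.exp (t * E₁ i (circleMap 0 (1 - 1 / ((N i : ℝ) + 1)) θ))‖ := ⟨_, rfl⟩
  have hac : ∀ i, Continuous (a i) := by
    intro i
    rw [ha]
    exact cont_exp (hS.blk i).dE₁ t (hρ i).1 (hρ i).2
  have hap : ∀ i, Function.Periodic (a i) (2 * Real.pi) := by
    intro i θ
    rw [ha]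
    show ‖Complex.exp (t * E₁ i (circleMap 0 _ (θ + 2 * Real.pi)))‖ = _
    rw [periodic_circleMap 0 _ θ]
  have ha0 : ∀ i θ, 0 < a i θ := by
    intro i θ
    rw [ha]
    exact norm_pos_iff.2 (Complex.exp_ne_zero _)
  have hκ : 0 ≤ 13 * C * ‖t‖ := by positivity
  have hmean := h3 a (13 * C * ‖t‖) N hac hap ha0 (fun i => by have := hN2 i; omega) hκ (by
    intro i θ θ' h
    rw [ha]
    refine exp_move ?_
    exact osc hC (hN2 i) (hS.blk i).dE₁ (hS.blk i).bloch h)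
  have hp0 : ∀ i, 2 ≤ p i := hPp.1
  refine ⟨Real.exp (-(‖t‖ * (2 * p 0 + KG))), Real.exp_pos _, ?_⟩
  intro k
  rw [← Mk_cast]
  have hMk : (0:ℝ) < (Mk N k : ℕ) := by exact_mod_cast Mk_pos hN2 k
  obtain ⟨R, hR⟩ : ∃ R : ℝ, R = (2:ℝ) ^ ((1:ℝ) / ((Mk N k : ℕ) : ℝ)) := ⟨_, rfl⟩
  rw [← hR]
  have hR1 : 1 < R := by rw [hR]; exact Real.one_lt_rpow (by norm_num) (by positivity)
  have hR0 : 0 < R := by linarith
  have hRk : R ^ Mk N k = 2 := by
    rw [hR, ← Real.rpow_natCast, ← Real.rpow_mul (by norm_num)]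
    rw [one_div_mul_cancel (by positivity), Real.rpow_one]
  obtain ⟨r, hr⟩ : ∃ r : ℝ, r = R⁻¹ := ⟨_, rfl⟩
  have hr0 : 0 < r := by rw [hr]; positivity
  have hr1 : r < 1 := by rw [hr]; exact inv_lt_one_of_one_lt₀ hR1
  have hrk : r ^ Mk N k = 1 / 2 := by rw [hr, inv_pow, hRk, one_div]
  -- the function which is integrated
  obtain ⟨g, hg⟩ : ∃ g : ℝ → ℝ,
      g = fun θ => ‖Complex.exp (t * (G 0 (circleMap 0 r θ) + P 0 (circleMap 0 r θ) - P 0 0))‖ := ⟨_, rfl⟩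
  have hgc : Continuous g := by
    have := cont_exp (H := fun v => G 0 v + P 0 v - P 0 0) (((hG 0).1.add (hP.dP 0)).sub (differentiableOn_const _)) t hr0.le hr1
    rw [hg]
    exact this
  have hgp : Function.Periodic g (2 * Real.pi) := by
    intro θ
    rw [hg]
    show ‖Complex.exp (t * (G 0 (circleMap 0 r (θ + 2 * Real.pi)) + P 0 (circleMap 0 r (θ + 2 * Real.pi)) - P 0 0))‖ = _
    rw [periodic_circleMap 0 r θ]
  have hpm : pmean t R (fun z => G 0 z⁻¹ + P 0 z⁻¹ - P 0 0) = (1 / (2 * Real.pi)) * ∫ θ in (0:ℝ)..(2 * Real.pi), g θ := by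
    unfold pmean
    congr 1
    have e1 : ∀ θ : ℝ, ‖Complex.exp (t * (G 0 (circ R θ)⁻¹ + P 0 (circ R θ)⁻¹ - P 0 0))‖ = g (-θ) := by
      intro θ
      have e2 : (circ R θ)⁻¹ = circleMap 0 r (-θ) := by
        unfold circ
        rw [circleMap_zero, hr, mul_inv, ← Complex.exp_neg]
        push_cast
        ring_nf
      rw [e2, hg]
    simp only [e1]
    rw [intervalIntegral.integral_comp_neg]
    have e3 := hgp.intervalIntegral_add_eq (-(2 * Real.pi)) 0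
    rw [neg_add_cancel, zero_add] at e3
    rw [neg_zero]
    exact e3
  rw [hpm]
  -- the errors
  obtain ⟨δ, hδ⟩ : ∃ δ : ℕ → ℝ, δ = fun i => 6 * C * (1 + √(Real.log (N i)) + p (i + 1)) := ⟨_, rfl⟩
  have hpt : ∀ θ : ℝ, Real.exp (-(‖t‖ * (2 * p 0 + KG))) *
      (∏ i ∈ Finset.range k, Real.exp (-(δ i * ‖t‖))) *
      ∏ j ∈ Finset.range k, a j ((∏ i ∈ Finset.range j, (N i : ℝ)) * θ) ≤ g θ := by
    intro θ
    obtain ⟨v, hv⟩ : ∃ v, v = circleMap 0 r θ := ⟨_, rfl⟩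
    have hvB : v ∈ ball (0:ℂ) 1 := by rw [hv]; exact circle_mem hr0.le hr1 θ
    have hit := iter hN2 (G := G) (F := fun i v => E i (ww (P (i + 1)) (N i) v)) (fun i v hv => (hG i).2.2.2.1 v hv) hvB k
    have hlast : ‖G k (v ^ Mk N k)‖ ≤ KG := by
      apply (hG k).2.2.2.2
      rw [norm_pow, hv, norm_circleMap_zero, abs_of_nonneg hr0.le, hrk]
    have hterm : ∀ j ∈ Finset.range k, ‖E j (ww (P (j + 1)) (N j) (v ^ Mk N j)) -
        E₁ j (circleMap 0 (1 - 1 / ((N j : ℝ) + 1)) ((∏ i ∈ Finset.range j, (N i : ℝ)) * θ))‖ ≤ δ j := by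
      intro j hj
      rw [Finset.mem_range] at hj
      have e1 : v ^ Mk N j = circleMap 0 (r ^ Mk N j) ((∏ i ∈ Finset.range j, (N i : ℝ)) * θ) := by
        rw [hv, circleMap_pow', Mk_cast]
      rw [e1, hδ]
      have hs1 : r ^ Mk N j < 1 := pow_lt_one₀ hr0.le hr1 (Mk_pos hN2 j).ne'
      refine close hC (hp0 (j + 1)) (hN2 j) (hS.blk j) (hP.le (j + 1)) (hP.w j) ?_ hs1
      apply near_one (hN2 j) (by positivity)
      obtain ⟨m, hm1, hm2⟩ := Mk_split hN2 hj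
      rw [← hrk, hm1, pow_mul]
      exact pow_le_pow_of_le_one (by positivity) hs1.le hm2
    have hprod : ∏ j ∈ Finset.range k, a j ((∏ i ∈ Finset.range j, (N i : ℝ)) * θ) =
        ‖Complex.exp (t * ∑ j ∈ Finset.range k,
          E₁ j (circleMap 0 (1 - 1 / ((N j : ℝ) + 1)) ((∏ i ∈ Finset.range j, (N i : ℝ)) * θ)))‖ := by
      rw [Finset.mul_sum, Complex.exp_sum, norm_prod, ha]
    have hgθ : g θ = ‖Complex.exp (t * (G 0 v + P 0 v - P 0 0))‖ := by rw [hg, hv]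
    rw [hprod, hgθ]
    have hdiff : ‖(∑ j ∈ Finset.range k,
        E₁ j (circleMap 0 (1 - 1 / ((N j : ℝ) + 1)) ((∏ i ∈ Finset.range j, (N i : ℝ)) * θ))) -
        (G 0 v + P 0 v - P 0 0)‖ ≤ (∑ i ∈ Finset.range k, δ i) + (2 * p 0 + KG) := by
      have e1 : (∑ j ∈ Finset.range k,
          E₁ j (circleMap 0 (1 - 1 / ((N j : ℝ) + 1)) ((∏ i ∈ Finset.range j, (N i : ℝ)) * θ))) -
          (G 0 v + P 0 v - P 0 0) =
          (∑ j ∈ Finset.range k,
            (E₁ j (circleMap 0 (1 - 1 / ((N j : ℝ) + 1)) ((∏ i ∈ Finset.range j, (N i : ℝ)) * θ)) -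
            E j (ww (P (j + 1)) (N j) (v ^ Mk N j)))) + (P 0 0 - P 0 v - G k (v ^ Mk N k)) := by
        rw [hit, Finset.sum_sub_distrib]
        ring
      rw [e1]
      refine (norm_add_le _ _).trans (add_le_add ?_ ?_)
      · refine norm_sum_le_of_le _ fun j hj => ?_
        rw [norm_sub_rev]
        exact hterm j hj
      · have h0 : (0:ℂ) ∈ ball (0:ℂ) 1 := by simp
        have g1 := hP.le 0 0 h0
        have g2 := hP.le 0 v hvB
        calc ‖P 0 0 - P 0 v - G k (v ^ Mk N k)‖ ≤ ‖P 0 0 - P 0 v‖ + ‖G k (v ^ Mk N k)‖ := norm_sub_le _ _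
          _ ≤ ‖P 0 0‖ + ‖P 0 v‖ + ‖G k (v ^ Mk N k)‖ := by gcongr; exact norm_sub_le _ _
          _ ≤ _ := by linarith
    have h5 := exp_move (t := t) hdiff
    have h6 : Real.exp (-(‖t‖ * (2 * p 0 + KG))) * (∏ i ∈ Finset.range k, Real.exp (-(δ i * ‖t‖))) =
        (Real.exp (((∑ i ∈ Finset.range k, δ i) + (2 * p 0 + KG)) * ‖t‖))⁻¹ := by
      rw [← Real.exp_sum, ← Real.exp_add, ← Real.exp_neg]
      congr 1
      rw [Finset.sum_neg_distrib, ← Finset.sum_mul]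
      ring
    rw [h6, inv_mul_le_iff₀ (Real.exp_pos _)]
    exact h5
  -- integration
  have hint : Real.exp (-(‖t‖ * (2 * p 0 + KG))) * (∏ i ∈ Finset.range k, Real.exp (-(δ i * ‖t‖))) *
      ∫ θ in (0:ℝ)..(2 * Real.pi), ∏ j ∈ Finset.range k, a j ((∏ i ∈ Finset.range j, (N i : ℝ)) * θ) ≤
      ∫ θ in (0:ℝ)..(2 * Real.pi), g θ := by
    rw [← intervalIntegral.integral_const_mul]
    apply intervalIntegral.integral_mono_on (by positivity)
    · apply Continuous.intervalIntegrable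
      exact continuous_const.mul (continuous_finset_prod _ fun j _ => (hac j).comp (continuous_const.mul continuous_id))
    · exact hgc.intervalIntegrable _ _
    · intro θ _
      exact hpt θ
  have hmk := hmean k
  obtain ⟨J, hJ⟩ : ∃ J, J = ∫ θ in (0:ℝ)..(2 * Real.pi), ∏ j ∈ Finset.range k, a j ((∏ i ∈ Finset.range j, (N i : ℝ)) * θ) :=
    ⟨_, rfl⟩
  rw [← hJ] at hmk hint
  have hXm : ∀ i, Xm (N i) (E₁ i) t = (1 / (2 * Real.pi)) * ∫ θ in (0:ℝ)..(2 * Real.pi), a i θ := by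
    intro i
    unfold Xm
    rw [ha]
  have hX0 : ∀ i, 0 ≤ Xm (N i) (E₁ i) t := by
    intro i
    rw [hXm]
    exact mul_nonneg (by positivity) (intervalIntegral.integral_nonneg (by positivity) fun θ _ => (ha0 i θ).le)
  simp only [← hXm] at hmk
  have hstep : ∏ i ∈ Finset.range k, (Real.exp (-(19 * C * ‖t‖ * (1 + √(Real.log (N i)) + p (i + 1)))) * Xm (N i) (E₁ i) t) ≤
      (∏ i ∈ Finset.range k, Real.exp (-(δ i * ‖t‖))) *
        ∏ i ∈ Finset.range k, (Real.exp (-(13 * C * ‖t‖)) * Xm (N i) (E₁ i) t) := by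
    rw [← Finset.prod_mul_distrib]
    refine Finset.prod_le_prod (fun i _ => mul_nonneg (Real.exp_pos _).le (hX0 i)) fun i _ => ?_
    rw [← mul_assoc, ← Real.exp_add]
    apply mul_le_mul_of_nonneg_right _ (hX0 i)
    apply Real.exp_le_exp.2
    rw [hδ]
    have h7 : 0 ≤ 13 * C * ‖t‖ * √(Real.log (N i)) := by positivity
    have h8 : 0 ≤ 13 * C * ‖t‖ * p (i + 1) := mul_nonneg (by positivity) (by linarith [hp0 (i + 1)])
    simp only
    linarith
  have hprod0 : 0 ≤ ∏ i ∈ Finset.range k, Real.exp (-(δ i * ‖t‖)) := Finset.prod_nonneg fun i _ => (Real.exp_pos _).le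
  calc Real.exp (-(‖t‖ * (2 * p 0 + KG))) *
        ∏ i ∈ Finset.range k, (Real.exp (-(19 * C * ‖t‖ * (1 + √(Real.log (N i)) + p (i + 1)))) * Xm (N i) (E₁ i) t)
      ≤ Real.exp (-(‖t‖ * (2 * p 0 + KG))) * ((∏ i ∈ Finset.range k, Real.exp (-(δ i * ‖t‖))) *
        ∏ i ∈ Finset.range k, (Real.exp (-(13 * C * ‖t‖)) * Xm (N i) (E₁ i) t)) := by gcongr
    _ ≤ Real.exp (-(‖t‖ * (2 * p 0 + KG))) * ((∏ i ∈ Finset.range k, Real.exp (-(δ i * ‖t‖))) *
        (1 / (2 * Real.pi) * J)) := by gcongr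
    _ = (1 / (2 * Real.pi)) * (Real.exp (-(‖t‖ * (2 * p 0 + KG))) *
        (∏ i ∈ Finset.range k, Real.exp (-(δ i * ‖t‖))) * J) := by ring
    _ ≤ _ := by gcongr

end Pool.Agent.Z55U
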