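import Mathlib
import Pool.Agent.Z55U.Stm2

/-! # Piece H5: countably many blocks suffice -/

set_option autoImplicit false
open Complex Filter Topology Set Metric MeasureTheory

namespace Pool.Agent.Z55U

theorem pDen : S_den := by
  intro C r hr hr1 ⟨q₀, E₀, F₀, hB₀⟩
  have hsub : sphere (0:ℂ) r ⊆ ball 0 1 := by
    intro x hx
    rw [mem_sphere_zero_iff_norm] at hx
    rw [mem_ball_zero_iff, hx]
    exact hr1
  have hcont : ∀ q E E₁ : ℂ → ℂ, Blk C q E E₁ → Continuous (fun x : sphere (0:ℂ) r => E₁ x) := by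
    intro q E E₁ hB
    exact (hB.dE₁.continuousOn.mono hsub).domRestrict
  let S : Set C(sphere (0:ℂ) r, ℂ) := {f | ∃ q E E₁ : ℂ → ℂ, Blk C q E E₁ ∧ ∀ x : sphere (0:ℂ) r, f x = E₁ x}
  have hne : Nonempty S := ⟨⟨⟨fun x => F₀ x, hcont _ _ _ hB₀⟩, q₀, E₀, F₀, hB₀, fun _ => rfl⟩⟩
  obtain ⟨u, hu⟩ := TopologicalSpace.exists_dense_seq S
  have hch : ∀ m : ℕ, ∃ q E E₁ : ℂ → ℂ, Blk C q E E₁ ∧ ∀ x : sphere (0:ℂ) r, (u m).1 x = E₁ x := fun m => (u m).2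
  choose q E E₁ hB hE using hch
  refine ⟨q, E, E₁, hB, ?_⟩
  intro q' E' E₁' hB'
  let f : S := ⟨⟨fun x => E₁' x, hcont _ _ _ hB'⟩, q', E', E₁', hB', fun _ => rfl⟩
  obtain ⟨m, hm⟩ := hu.exists_dist_lt f (ε := 1) one_pos
  refine ⟨m, fun θ => ?_⟩
  have hx : circleMap 0 r θ ∈ sphere (0:ℂ) r := circleMap_mem_sphere 0 hr.le θ
  have h1 : dist (f.1 ⟨_, hx⟩) ((u m).1 ⟨_, hx⟩) ≤ dist f.1 (u m).1 := ContinuousMap.dist_apply_le_dist _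
  rw [hE m ⟨_, hx⟩, dist_eq_norm] at h1
  refine le_trans h1 ?_
  exact hm.le

end Pool.Agent.Z55U
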