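import Mathlib
import Pool.Agent.Z55U.Stm2
import Pool.Agent.Z55U.F2

/-! # Piece H6, part 1: runs, the bounds `p i`, lower bounds for the means -/

set_option autoImplicit false
open Complex Filter Topology Set Metric MeasureTheory

namespace Pool.Agent.Z55U

open Pool.Agent.W677.Mar (Sg NN hat)
open Q90.SM (IsSig marshall pmean circ S_ext)

/-! ### Means are at least the value at the centre -/

theorem mean_ge {F : ℂ → ℂ} (hF : DifferentiableOn ℂ F (ball 0 1)) {r : ℝ} (h0 : 0 ≤ r) (h1 : r < 1) :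
    ‖F 0‖ ≤ (1 / (2 * Real.pi)) * ∫ θ in (0:ℝ)..(2 * Real.pi), ‖F (circleMap 0 r θ)‖ := by
  have hpi := Real.pi_pos
  have hsub : closedBall (0:ℂ) |r| ⊆ ball 0 1 := by
    rw [abs_of_nonneg h0]
    exact closedBall_subset_ball h1
  have hdc : DiffContOnCl ℂ F (ball (0:ℂ) |r|) := by
    refine ⟨hF.mono (ball_subset_closedBall.trans hsub), (hF.continuousOn.mono ?_)⟩
    exact (closure_ball_subset_closedBall).trans hsub
  have h2 := hdc.circleAverage
  rw [← h2, Real.circleAverage_def, norm_smul, Real.norm_of_nonneg (by positivity), one_div]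
  gcongr
  exact intervalIntegral.norm_integral_le_integral_norm (by positivity)

theorem pmean_ge_one (hx : S_ext) {ψ h : ℂ → ℂ} (hS : IsSig ψ h) (t : ℂ) {R : ℝ} (hR : 1 < R) : 1 ≤ pmean t R h := by
  have S := (hx ψ h hS).1
  rw [pmean_eq hx hS t hR]
  have hRi0 : 0 < R⁻¹ := by positivity
  have hRi1 : R⁻¹ < 1 := inv_lt_one_of_one_lt₀ hR
  have h1 := mean_ge (F := fun v => Complex.exp (t * hat h 0 v)) ((S.dH.const_mul t).cexp) hRi0.le hRi1
  rw [S.H0, mul_zero, Complex.exp_zero, norm_one, one_div] at h1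
  exact h1

theorem rho_mem {N : ℕ} (hN : 2 ≤ N) : 0 ≤ 1 - 1 / ((N : ℝ) + 1) ∧ 1 - 1 / ((N : ℝ) + 1) < 1 ∧ 0 < 1 - 1 / ((N : ℝ) + 1) := by
  have hN2 : (2:ℝ) ≤ N := by exact_mod_cast hN
  have h1 : 1 / ((N:ℝ) + 1) ≤ 1 / 3 := by
    apply one_div_le_one_div_of_le <;> linarith
  have h2 : 0 < 1 / ((N:ℝ) + 1) := by positivity
  refine ⟨by linarith, by linarith, by linarith⟩

theorem Xm_pos' {C : ℝ} {q E E₁ : ℂ → ℂ} (B : Blk C q E E₁) (t : ℂ) {N : ℕ} (hN : 2 ≤ N) :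
    Real.exp (-(C * ‖t‖)) ≤ Xm N E₁ t := by
  obtain ⟨h0, h1, -⟩ := rho_mem hN
  have h2 := mean_ge (F := fun v => Complex.exp (t * E₁ v)) ((B.dE₁.const_mul t).cexp) h0 h1
  refine le_trans ?_ h2
  have h3 := B.near 0 (mem_ball_self one_pos)
  rw [B.E0, norm_zero, sub_zero, Real.log_one, neg_zero, Real.sqrt_zero, add_zero, mul_one, zero_sub, norm_neg] at h3
  rw [Complex.norm_exp]
  apply Real.exp_le_exp.2
  have h4 : -(t * E₁ 0).re ≤ ‖t‖ * ‖E₁ 0‖ := by
    rw [← norm_mul, ← Complex.neg_re]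
    refine (Complex.re_le_norm _).trans (le_of_eq (norm_neg _))
  have h5 : ‖t‖ * ‖E₁ 0‖ ≤ ‖t‖ * C := by gcongr
  linarith

theorem Xm_near {E₁ E₁' : ℂ → ℂ} {C : ℝ} {q E q' E' : ℂ → ℂ} (B : Blk C q E E₁) (B' : Blk C q' E' E₁') {N : ℕ} (hN : 2 ≤ N)
    (h : ∀ θ : ℝ, ‖E₁' (circleMap 0 (1 - 1 / ((N : ℝ) + 1)) θ) - E₁ (circleMap 0 (1 - 1 / ((N : ℝ) + 1)) θ)‖ ≤ 1) (t : ℂ) :
    Xm N E₁' t ≤ Real.exp ‖t‖ * Xm N E₁ t := by
  obtain ⟨h0, h1, -⟩ := rho_mem hN
  have hpi := Real.pi_pos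
  have hc := cont_exp B.dE₁ t h0 h1
  have hc' := cont_exp B'.dE₁ t h0 h1
  unfold Xm
  have h2 : (∫ θ in (0:ℝ)..(2 * Real.pi), ‖Complex.exp (t * E₁' (circleMap 0 (1 - 1 / ((N : ℝ) + 1)) θ))‖) ≤
      Real.exp ‖t‖ * ∫ θ in (0:ℝ)..(2 * Real.pi), ‖Complex.exp (t * E₁ (circleMap 0 (1 - 1 / ((N : ℝ) + 1)) θ))‖ := by
    rw [← intervalIntegral.integral_const_mul]
    apply intervalIntegral.integral_mono_on (by positivity) (hc'.intervalIntegrable _ _)
      ((hc.const_mul _).intervalIntegrable _ _)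
    intro θ _
    have := exp_move (t := t) (h θ)
    rwa [one_mul] at this
  calc _ ≤ 1 / (2 * Real.pi) * (Real.exp ‖t‖ * ∫ θ in (0:ℝ)..(2 * Real.pi), ‖Complex.exp (t * E₁ (circleMap 0 (1 - 1 / ((N : ℝ) + 1)) θ))‖) := by
        gcongr
    _ = _ := by ring

/-! ### Runs -/

/-- the number of the run of `i` -/
def run (i : ℕ) : ℕ := Nat.log 2 (Nat.log 2 (i + 4))

theorem run_mono : Monotone run := by
  intro i j hij
  unfold run
  exact Nat.log_mono_right (Nat.log_mono_right (by omega))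

theorem log_add_le (x j : ℕ) (hx : x ≠ 0) : Nat.log 2 (x + j) ≤ Nat.log 2 x + j := by
  induction j with
  | zero => simp
  | succ j ih =>
    have h1 : x + (j + 1) ≤ (x + j) * 2 := by omega
    calc Nat.log 2 (x + (j + 1)) ≤ Nat.log 2 ((x + j) * 2) := Nat.log_mono_right h1
      _ = Nat.log 2 (x + j) + 1 := Nat.log_mul_base (by norm_num) (by omega)
      _ ≤ Nat.log 2 x + (j + 1) := by omega

theorem run_add (i j : ℕ) : run (i + j) ≤ run i + j := by
  unfold run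
  have h1 : Nat.log 2 (i + j + 4) ≤ Nat.log 2 (i + 4) + j := by
    have := log_add_le (i + 4) j (by omega)
    have e : i + j + 4 = i + 4 + j := by omega
    rwa [e]
  have h2 : Nat.log 2 (i + 4) ≠ 0 := by
    have : 1 ≤ Nat.log 2 (i + 4) := Nat.le_log_of_pow_le (by norm_num) (by omega)
    omega
  exact (Nat.log_mono_right h1).trans (log_add_le _ _ h2)

theorem run_eq {r i : ℕ} (h1 : 2 ^ (2 ^ r) ≤ i + 4) (h2 : i + 4 < 2 ^ (2 ^ (r + 1))) : run i = r := by
  unfold run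
  apply Nat.log_eq_of_pow_le_of_lt_pow
  · exact Nat.le_log_of_pow_le (by norm_num) h1
  · exact Nat.log_lt_of_lt_pow (by omega) h2

/-- the number of the block of a run -/
def ee (r : ℕ) : ℕ × ℕ := Nat.unpair (Nat.unpair r).1

theorem ee_le (r : ℕ) : (ee r).1 ≤ r := (Nat.unpair_left_le _).trans (Nat.unpair_left_le _)

theorem ee_pair (n m j : ℕ) : ee (Nat.pair (Nat.pair n m) j) = (n, m) := by
  unfold ee
  rw [Nat.unpair_pair]
  exact Nat.unpair_pair n m

/-! ### The bounds -/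

/-- `1 + √(log N)` -/
noncomputable def sq (N : ℕ) : ℝ := 1 + √(Real.log N)

theorem sq_one (N : ℕ) : 1 ≤ sq N := by
  unfold sq
  have := Real.sqrt_nonneg (Real.log N)
  linarith

theorem sq_le (N : ℕ) : sq N ≤ 1 + N := by
  unfold sq
  have h : √(Real.log N) ≤ N := by
    rcases Nat.eq_zero_or_pos N with h0 | h0
    · rw [h0]
      simp
    · have h1 : (1:ℝ) ≤ N := by exact_mod_cast h0
      apply Real.sqrt_le_iff.2
      refine ⟨by linarith, ?_⟩
      have h2 := Real.log_le_sub_one_of_pos (by linarith : (0:ℝ) < N)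
      nlinarith
  linarith

section

variable (C : ℝ) (N₀ : ℕ) (N : ℕ → ℕ)

/-- the bounds `p i` -/
noncomputable def pp (i : ℕ) : ℝ := ∑' j : ℕ, (1 / 2 : ℝ) ^ j * (2 * C * sq (N (i + j)))

variable {C N₀ N}

theorem term_le (hC : 1 ≤ C) (hN : ∀ i, N i ≤ N₀ + run i) (i j : ℕ) :
    (1 / 2 : ℝ) ^ j * (2 * C * sq (N (i + j))) ≤
      2 * C * (1 + N₀ + run i) * (1 / 2 : ℝ) ^ j + 2 * C * ((j:ℝ) * (1 / 2 : ℝ) ^ j) := by
  have h1 : sq (N (i + j)) ≤ 1 + N₀ + run i + j := by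
    refine (sq_le _).trans ?_
    have h2 : N (i + j) ≤ N₀ + (run i + j) := (hN _).trans (by have := run_add i j; omega)
    have h3 : (N (i + j) : ℝ) ≤ N₀ + (run i + j) := by exact_mod_cast h2
    linarith
  have h4 : (0:ℝ) < (1 / 2) ^ j := by positivity
  calc (1 / 2 : ℝ) ^ j * (2 * C * sq (N (i + j))) ≤ (1 / 2 : ℝ) ^ j * (2 * C * (1 + N₀ + run i + j)) := by gcongr
    _ = _ := by ring

theorem hasSum_dom (x : ℝ) : HasSum (fun j : ℕ => x * (1 / 2 : ℝ) ^ j + 2 * C * ((j:ℝ) * (1 / 2 : ℝ) ^ j)) (2 * x + 4 * C) := by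
  have h1 : HasSum (fun j : ℕ => (1 / 2 : ℝ) ^ j) 2 := hasSum_geometric_two
  have h2 : HasSum (fun j : ℕ => (j:ℝ) * (1 / 2 : ℝ) ^ j) 2 := by
    have := hasSum_coe_mul_geometric_of_norm_lt_one (r := (1 / 2 : ℝ)) (by norm_num)
    norm_num at this ⊢
    exact this
  have h3 := (h1.mul_left x).add (h2.mul_left (2 * C))
  have e : 2 * x + 4 * C = x * 2 + 2 * C * 2 := by ring
  rw [e]
  exact h3

theorem pp_summable (hC : 1 ≤ C) (hN : ∀ i, N i ≤ N₀ + run i) (i : ℕ) :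
    Summable fun j : ℕ => (1 / 2 : ℝ) ^ j * (2 * C * sq (N (i + j))) := by
  refine Summable.of_nonneg_of_le (fun j => ?_) (fun j => term_le hC hN i j) (hasSum_dom (C := C) (2 * C * (1 + N₀ + run i))).summable
  have := sq_one (N (i + j))
  positivity

theorem pp_rec (hC : 1 ≤ C) (hN : ∀ i, N i ≤ N₀ + run i) (i : ℕ) : pp C N i = 2 * C * sq (N i) + pp C N (i + 1) / 2 := by
  unfold pp
  rw [(pp_summable hC hN i).tsum_eq_zero_add]
  congr 1
  · simp
  · rw [← tsum_div_const]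
    congr 1
    funext j
    have e : i + (j + 1) = i + 1 + j := by omega
    rw [e, pow_succ]
    ring

theorem pp_nonneg (hC : 1 ≤ C) (i : ℕ) : 0 ≤ pp C N i := by
  unfold pp
  apply tsum_nonneg
  intro j
  have := sq_one (N (i + j))
  positivity

theorem pp_le (hC : 1 ≤ C) (hN : ∀ i, N i ≤ N₀ + run i) (i : ℕ) : pp C N i ≤ 4 * C * (2 + N₀ + run i) := by
  unfold pp
  refine ((pp_summable hC hN i).tsum_le_tsum (fun j => term_le hC hN i j) (hasSum_dom (C := C) (2 * C * (1 + N₀ + run i))).summable).trans ?_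
  rw [(hasSum_dom (C := C) (2 * C * (1 + N₀ + run i))).tsum_eq]
  linarith

theorem pp_Pp (hC : 1 ≤ C) (hN : ∀ i, N i ≤ N₀ + run i) : Pp C N (pp C N) := by
  refine ⟨fun i => ?_, fun i => ?_⟩
  · have h1 := pp_rec hC hN i
    have h2 := pp_nonneg (N := N) hC (i + 1)
    have h3 := sq_one (N i)
    nlinarith
  · have h1 := pp_rec hC hN i
    unfold sq at h1
    linarith

/-- the total loss -/
theorem loss_le (hC : 1 ≤ C) (hN : ∀ i, N i ≤ N₀ + run i) (k : ℕ) :
    ∑ i ∈ Finset.range k, (sq (N i) + pp C N (i + 1)) ≤ 5 * C * ∑ i ∈ Finset.range k, sq (N i) + 12 * C * (3 + N₀ + run k) := by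
  have h1 : ∑ i ∈ Finset.range k, pp C N (i + 1) =
      2 * C * ∑ i ∈ Finset.range k, sq (N (i + 1)) + (∑ i ∈ Finset.range k, pp C N (i + 1 + 1)) / 2 := by
    rw [Finset.mul_sum, Finset.sum_div, ← Finset.sum_add_distrib]
    apply Finset.sum_congr rfl
    intro i _
    exact pp_rec hC hN (i + 1)
  have h2 : ∑ i ∈ Finset.range k, pp C N (i + 1 + 1) = ∑ i ∈ Finset.range k, pp C N (i + 1) + pp C N (k + 1) - pp C N 1 := by
    have e1 := Finset.sum_range_succ (fun i => pp C N (i + 1)) k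
    have e2 := Finset.sum_range_succ' (fun i => pp C N (i + 1)) k
    rw [zero_add] at e2
    linarith
  have h3 : ∑ i ∈ Finset.range k, sq (N (i + 1)) ≤ ∑ i ∈ Finset.range k, sq (N i) + sq (N k) := by
    have e1 := Finset.sum_range_succ (fun i => sq (N i)) k
    have e2 := Finset.sum_range_succ' (fun i => sq (N i)) k
    have := sq_one (N 0)
    linarith
  have h4 : sq (N k) ≤ 1 + N₀ + run k := by
    refine (sq_le _).trans ?_
    have : (N k : ℝ) ≤ N₀ + run k := by exact_mod_cast hN k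
    linarith
  have h5 : pp C N (k + 1) ≤ 4 * C * (3 + N₀ + run k) := by
    refine (pp_le hC hN (k + 1)).trans ?_
    have : (run (k + 1) : ℝ) ≤ run k + 1 := by exact_mod_cast run_add k 1
    apply mul_le_mul_of_nonneg_left _ (by positivity)
    linarith
  have h6 := pp_nonneg (N := N) hC 1
  rw [Finset.sum_add_distrib]
  have hs0 : 0 ≤ ∑ i ∈ Finset.range k, sq (N i) := Finset.sum_nonneg fun i _ => by
    have := sq_one (N i)
    linarith
  have h7 : ∑ i ∈ Finset.range k, pp C N (i + 1) ≤ 4 * C * (∑ i ∈ Finset.range k, sq (N i) + sq (N k)) + pp C N (k + 1) := by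
    have : 2 * C * ∑ i ∈ Finset.range k, sq (N (i + 1)) ≤ 2 * C * (∑ i ∈ Finset.range k, sq (N i) + sq (N k)) := by gcongr
    linarith
  have h8 : 4 * C * (∑ i ∈ Finset.range k, sq (N i) + sq (N k)) ≤ 4 * C * ∑ i ∈ Finset.range k, sq (N i) + 4 * C * (3 + N₀ + run k) := by
    rw [mul_add]
    have : 4 * C * sq (N k) ≤ 4 * C * (3 + N₀ + run k) := by
      gcongr
      linarith
    linarith
  have h9 : 0 ≤ C * (3 + N₀ + run k) := by positivity
  nlinarith

end

end Pool.Agent.Z55U
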