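import Mathlib
import Pool.Agent.Z55U.H6a

/-! # Piece H6: the universal map -/

set_option autoImplicit false
open Complex Filter Topology Set Metric MeasureTheory

namespace Pool.Agent.Z55U

open Pool.Agent.W677.Mar (Sg NN hat)
open Q90.SM (IsSig marshall pmean circ S_ext)

theorem rad_lower' {Q : ℝ} (hQ : 0 < Q) : 1 < (2:ℝ) ^ ((1:ℝ) / Q) ∧ 1 / (2 * Q) ≤ (2:ℝ) ^ ((1:ℝ) / Q) - 1 := by
  have hx : 0 < (1:ℝ) / Q := by positivity
  refine ⟨Real.one_lt_rpow one_lt_two hx, ?_⟩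
  have h1 : (2:ℝ) ^ ((1:ℝ) / Q) = Real.exp (Real.log 2 * ((1:ℝ) / Q)) := Real.rpow_def_of_pos two_pos _
  have h2 := Real.add_one_le_exp (Real.log 2 * ((1:ℝ) / Q))
  have h3 : (1:ℝ) / 2 ≤ Real.log 2 := by
    have := Real.log_two_gt_d9
    linarith
  have h4 : 1 / (2 * Q) = 1 / 2 * ((1:ℝ) / Q) := by
    field_simp
  rw [h1, h4]
  have h5 : 1 / 2 * ((1:ℝ) / Q) ≤ Real.log 2 * ((1:ℝ) / Q) := by gcongr
  linarith

theorem rad_upper {Q : ℝ} (hQ : 1 ≤ Q) : (2:ℝ) ^ ((1:ℝ) / Q) ≤ 1 + 1 / Q := by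
  have h1 : 0 ≤ 1 / Q := by positivity
  have h2 : 1 / Q ≤ 1 := by
    rw [div_le_one (by linarith)]
    exact hQ
  have := rpow_one_add_le_one_add_mul_self (s := (1:ℝ)) (p := 1 / Q) (by norm_num) h1 h2
  have e : (1:ℝ) + 1 = 2 := by norm_num
  rw [e, mul_one] at this
  exact this

theorem split_le {f : ℕ → ℝ} {a k : ℕ} (hak : a ≤ k) {A B : ℝ} (h1 : ∀ i, i < a → f i ≤ A)
    (h2 : ∀ i, a ≤ i → i < k → f i = B) : ∑ i ∈ Finset.range k, f i ≤ a * A + ((k:ℝ) - a) * B := by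
  rw [← Finset.sum_range_add_sum_Ico f hak]
  have g1 : ∑ i ∈ Finset.range a, f i ≤ a * A := by
    have := Finset.sum_le_sum (s := Finset.range a) (f := f) (g := fun _ => A) (fun i hi => h1 i (Finset.mem_range.1 hi))
    rwa [Finset.sum_const, Finset.card_range, nsmul_eq_mul] at this
  have g2 : ∑ i ∈ Finset.Ico a k, f i = ((k:ℝ) - a) * B := by
    rw [Finset.sum_congr rfl (g := fun _ => B) (fun i hi => h2 i (Finset.mem_Ico.1 hi).1 (Finset.mem_Ico.1 hi).2),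
      Finset.sum_const, Nat.card_Ico, nsmul_eq_mul, Nat.cast_sub hak]
  linarith

theorem split_ge {f : ℕ → ℝ} {a k : ℕ} (hak : a ≤ k) {A B : ℝ} (h1 : ∀ i, i < a → A ≤ f i)
    (h2 : ∀ i, a ≤ i → i < k → f i = B) : a * A + ((k:ℝ) - a) * B ≤ ∑ i ∈ Finset.range k, f i := by
  have := split_le (f := fun i => -f i) (A := -A) (B := -B) hak (fun i hi => neg_le_neg (h1 i hi))
    (fun i hi hk => by rw [h2 i hi hk])
  rw [Finset.sum_neg_distrib] at this
  linarith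

theorem two_mul_le_pow (r : ℕ) (hr : 1 ≤ r) : 2 * r ≤ 2 ^ r := by
  obtain ⟨s, rfl⟩ := Nat.exists_eq_add_of_le hr
  have h1 : s < 2 ^ s := Nat.lt_two_pow_self
  rw [pow_add]
  omega

theorem sq_le_pow (r : ℕ) (hr : 1 ≤ r) : (r + 1) ^ 2 ≤ 2 ^ (2 ^ r) := by
  have h1 : r + 1 ≤ 2 ^ r := Nat.lt_two_pow_self
  calc (r + 1) ^ 2 ≤ (2 ^ r) ^ 2 := Nat.pow_le_pow_left h1 2
    _ = 2 ^ (2 * r) := by rw [← pow_mul, mul_comm]
    _ ≤ 2 ^ (2 ^ r) := Nat.pow_le_pow_right (by norm_num) (two_mul_le_pow r hr)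

/-- the real inequality for a run -/
theorem run_ineq {y D : ℝ} {r : ℕ} (hr : 1 ≤ r) (hD : 0 ≤ D)
    (h : ((((2:ℕ) ^ (2 ^ r) : ℕ) : ℝ) ^ 2 - (((2:ℕ) ^ (2 ^ r) : ℕ) : ℝ)) * y ≤ D * ((((2:ℕ) ^ (2 ^ r) : ℕ) : ℝ) * (r + 1))) :
    (r:ℝ) * y ≤ D := by
  set S : ℝ := (((2:ℕ) ^ (2 ^ r) : ℕ) : ℝ) with hS
  have h1 : ((r:ℝ) + 1) ^ 2 ≤ S := by
    rw [hS]
    exact_mod_cast sq_le_pow r hr
  have hr1 : (1:ℝ) ≤ r := by exact_mod_cast hr
  have hS0 : 0 < S := by nlinarith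
  have h2 : (S - 1) * y ≤ D * (r + 1) := by
    have e1 : (S ^ 2 - S) * y = S * ((S - 1) * y) := by ring
    have e2 : D * (S * (r + 1)) = S * (D * (r + 1)) := by ring
    rw [e1, e2] at h
    exact le_of_mul_le_mul_left h hS0
  by_cases hy : y ≤ 0
  · nlinarith
  · push Not at hy
    have h3 : (r:ℝ) * (r + 1) * y ≤ (S - 1) * y := by
      apply mul_le_mul_of_nonneg_right _ hy.le
      nlinarith
    have h4 : ((r:ℝ) + 1) * (r * y) ≤ ((r:ℝ) + 1) * D := by nlinarith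
    exact le_of_mul_le_mul_left h4 (by linarith)

theorem nat_facts {r S k₀ : ℕ} (h : (r + 1) ^ 2 ≤ S) (hr : k₀ + 1 < r) :
    4 ≤ S ∧ S < S ^ 2 ∧ k₀ + 4 ≤ S ^ 2 ∧ S ^ 2 < (S ^ 2) ^ 2 := by
  have h1 : 9 ≤ (r + 1) ^ 2 := by nlinarith
  have h2 : 9 ≤ S := h1.trans h
  have h3 : S < S ^ 2 := by nlinarith
  have h4 : k₀ + 4 ≤ (r + 1) ^ 2 := by nlinarith
  refine ⟨by omega, h3, by omega, ?_⟩
  have h5 : 2 ≤ S ^ 2 := by omega
  nlinarith

theorem real_facts {x r S a : ℝ} (hx : 0 ≤ x) (hr : 0 ≤ r) (hS : 1 ≤ S) (ha : a ≤ S) (ha0 : 0 ≤ a) :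
    a * (1 + x + r) ≤ (1 + x) * (S * (r + 1)) ∧ 3 + x + (r + 1) ≤ (4 + x) * (S * (r + 1)) ∧
    a * (x + r) ≤ (1 + x) * (S * (r + 1)) ∧ 1 ≤ S * (r + 1) ∧ a ≤ S * (r + 1) := by
  have h0 : 0 ≤ x * r := mul_nonneg hx hr
  have h1 : 1 + x + r ≤ (1 + x) * (r + 1) := by nlinarith
  have h2 : 3 + x + (r + 1) ≤ (4 + x) * (r + 1) := by nlinarith
  have h3 : x + r ≤ (1 + x) * (r + 1) := by nlinarith
  have h4 : r + 1 ≤ S * (r + 1) := by nlinarith
  refine ⟨?_, ?_, ?_, by linarith, ?_⟩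
  · calc a * (1 + x + r) ≤ S * ((1 + x) * (r + 1)) := by gcongr
      _ = _ := by ring
  · refine h2.trans ?_
    gcongr
  · calc a * (x + r) ≤ S * ((1 + x) * (r + 1)) := by gcongr
      _ = _ := by ring
  · nlinarith

theorem pStar (hx : S_ext) (hlow : S_glow) (hden : S_den) : S_star := by
  intro C hC hex
  obtain ⟨N₀, K, hN₀, hK, hlow⟩ := hlow C hC
  have hden' := fun n : ℕ => hden C (1 - 1 / (((N₀ + n : ℕ) : ℝ) + 1)) (rho_mem (N := N₀ + n) (by omega)).2.2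
    (rho_mem (N := N₀ + n) (by omega)).2.1 hex
  choose fq fE fE₁ hB hd using hden'
  obtain ⟨N, hNdef⟩ : ∃ N : ℕ → ℕ, N = fun i => N₀ + (ee (run i)).1 := ⟨_, rfl⟩
  obtain ⟨q, hqdef⟩ : ∃ q : ℕ → ℂ → ℂ, q = fun i => fq (ee (run i)).1 (ee (run i)).2 := ⟨_, rfl⟩
  obtain ⟨E, hEdef⟩ : ∃ q : ℕ → ℂ → ℂ, q = fun i => fE (ee (run i)).1 (ee (run i)).2 := ⟨_, rfl⟩
  obtain ⟨E₁, hE₁def⟩ : ∃ q : ℕ → ℂ → ℂ, q = fun i => fE₁ (ee (run i)).1 (ee (run i)).2 := ⟨_, rfl⟩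
  have hNe : ∀ i, N i = N₀ + (ee (run i)).1 := fun i => by rw [hNdef]
  have hN : ∀ i, N i ≤ N₀ + run i := by
    intro i
    rw [hNe]
    have := ee_le (run i)
    omega
  have hN2 : ∀ i, 2 ≤ N i := by
    intro i
    rw [hNe]
    omega
  have hblk : ∀ i, Blk C (q i) (E i) (E₁ i) := by
    intro i
    rw [hqdef, hEdef, hE₁def]
    exact hB _ _
  have hsys : Sys C N q E E₁ := ⟨hN2, hblk⟩
  obtain ⟨ψ, h, hS, hk⟩ := hlow N q E E₁ (pp C N) (fun i => by rw [hNe]; omega) hsys (pp_Pp hC hN)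
  refine ⟨N₀, 5 * C * K + 1, ψ, h, hN₀, by nlinarith [mul_nonneg (by linarith : (0:ℝ) ≤ C) (by linarith : (0:ℝ) ≤ K)], hS, ?_⟩
  intro t b hb
  have hb0 : 0 ≤ b := by
    by_contra hneg
    push Not at hneg
    obtain ⟨R₀, hR₀, h'⟩ := hb (-b / 2) (by linarith)
    set δ : ℝ := min (1 / 2) ((R₀ - 1) / 2) with hδ
    have hδ0 : 0 < δ := lt_min (by norm_num) (by linarith)
    have hδ1 : δ ≤ 1 / 2 := min_le_left _ _
    have hδ2 : δ ≤ (R₀ - 1) / 2 := min_le_right _ _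
    have h1 := h' (1 + δ) (by linarith) (by linarith)
    rw [add_sub_cancel_left] at h1
    have h2 : δ ^ (-(b + -b / 2)) < 1 := Real.rpow_lt_one hδ0.le (by linarith) (by linarith)
    have h3 := pmean_ge_one hx hS t (R := 1 + δ) (by linarith)
    linarith
  refine ⟨hb0, ?_⟩
  intro M hM q' E' E₁' B'
  obtain ⟨n, rfl⟩ := Nat.exists_eq_add_of_le hM
  obtain ⟨m, hm⟩ := hd n q' E' E₁' B'
  obtain ⟨c, hc, hk⟩ := hk t
  have hM2 : 2 ≤ N₀ + n := by omega
  have hM0 : (0:ℝ) < ((N₀ + n : ℕ) : ℝ) := by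
    have : 0 < N₀ + n := by omega
    exact_mod_cast this
  set X : ℝ := Xm (N₀ + n) (fE₁ n m) t with hX
  have hX1 : Real.exp (-(C * ‖t‖)) ≤ X := Xm_pos' (hB n m) t hM2
  have hX0 : 0 < X := (Real.exp_pos _).trans_le hX1
  have hXi : ∀ i, Real.exp (-(C * ‖t‖)) ≤ Xm (N i) (E₁ i) t := fun i => Xm_pos' (hblk i) t (hN2 i)
  have ht := norm_nonneg t
  have hC0 : 0 ≤ C := by linarith
  have hK0 : 0 ≤ K := by linarith
  -- the logarithmic inequality at every level `k`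
  have hlog : ∀ ε : ℝ, 0 < ε → ∃ k₀ : ℕ, ∀ k : ℕ, k₀ ≤ k →
      Real.log c - K * ‖t‖ * ∑ i ∈ Finset.range k, (sq (N i) + pp C N (i + 1)) +
        ∑ i ∈ Finset.range k, Real.log (Xm (N i) (E₁ i) t) ≤
      (b + ε) * (Real.log 2 + ∑ i ∈ Finset.range k, Real.log (N i)) := by
    intro ε hε
    obtain ⟨R₀, hR₀, hR⟩ := hb ε hε
    obtain ⟨k₀, hk₀⟩ := exists_nat_gt (1 / (R₀ - 1))
    refine ⟨k₀, fun k hkk => ?_⟩
    set Q : ℝ := ∏ i ∈ Finset.range k, (N i : ℝ) with hQ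
    have hNi0 : ∀ i, (0:ℝ) < N i := by
      intro i
      have : 0 < N i := by have := hN2 i; omega
      exact_mod_cast this
    have hQ2 : (2:ℝ) ^ k ≤ Q := by
      rw [hQ]
      calc (2:ℝ) ^ k = ∏ _i ∈ Finset.range k, (2:ℝ) := by rw [Finset.prod_const, Finset.card_range]
        _ ≤ ∏ i ∈ Finset.range k, (N i : ℝ) := by
          apply Finset.prod_le_prod (fun _ _ => by norm_num)
          intro i _
          exact_mod_cast hN2 i
    have hk2 : (k:ℝ) < 2 ^ k := by exact_mod_cast Nat.lt_two_pow_self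
    have hk1 : (1:ℝ) ≤ 2 ^ k := one_le_pow₀ (by norm_num)
    have hQ1 : 1 ≤ Q := hk1.trans hQ2
    have hQ0 : 0 < Q := by linarith
    obtain ⟨g1, g2⟩ := rad_lower' hQ0
    have g3 : (2:ℝ) ^ ((1:ℝ) / Q) < R₀ := by
      refine (rad_upper hQ1).trans_lt ?_
      have h1 : 1 / (R₀ - 1) < Q := by
        have : (k₀:ℝ) ≤ k := by exact_mod_cast hkk
        linarith
      have hR1 : 0 < R₀ - 1 := by linarith
      rw [div_lt_iff₀ hR1] at h1
      have : 1 / Q < R₀ - 1 := by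
        rw [div_lt_iff₀ hQ0]
        linarith
      linarith
    have h3 := (hk k).trans (hR _ g1 g3)
    have h4 : ((2:ℝ) ^ ((1:ℝ) / Q) - 1) ^ (-(b + ε)) ≤ (1 / (2 * Q)) ^ (-(b + ε)) :=
      Real.rpow_le_rpow_of_nonpos (by positivity) g2 (by linarith)
    have h5 : (1 / (2 * Q)) ^ (-(b + ε)) = Real.exp ((b + ε) * (Real.log 2 + ∑ i ∈ Finset.range k, Real.log (N i))) := by
      rw [one_div, Real.inv_rpow (by positivity), Real.rpow_neg (by positivity), inv_inv,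
        Real.rpow_def_of_pos (by positivity), Real.log_mul (by norm_num) hQ0.ne', hQ,
        Real.log_prod (fun i _ => (hNi0 i).ne'), mul_comm]
    rw [h5] at h4
    have h6 : ∏ i ∈ Finset.range k, (Real.exp (-(K * ‖t‖ * (1 + √(Real.log (N i)) + pp C N (i + 1)))) * Xm (N i) (E₁ i) t) =
        Real.exp (-(K * ‖t‖ * ∑ i ∈ Finset.range k, (sq (N i) + pp C N (i + 1))) + ∑ i ∈ Finset.range k, Real.log (Xm (N i) (E₁ i) t)) := by
      rw [Real.exp_add, Finset.mul_sum, ← Finset.sum_neg_distrib, Real.exp_sum, Real.exp_sum,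
        ← Finset.prod_mul_distrib]
      apply Finset.prod_congr rfl
      intro i _
      rw [Real.exp_log ((Real.exp_pos _).trans_le (hXi i))]
      rfl
    rw [h6] at h3
    have h7 : Real.exp (Real.log c + (-(K * ‖t‖ * ∑ i ∈ Finset.range k, (sq (N i) + pp C N (i + 1))) +
        ∑ i ∈ Finset.range k, Real.log (Xm (N i) (E₁ i) t))) ≤
        Real.exp ((b + ε) * (Real.log 2 + ∑ i ∈ Finset.range k, Real.log (N i))) := by
      rw [Real.exp_add, Real.exp_log hc]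
      exact h3.trans h4
    have h8 := Real.exp_le_exp.1 h7
    linarith
  -- the key estimate
  have key : ∀ ε : ℝ, 0 < ε → Real.log X ≤ 5 * C * K * ‖t‖ * sq (N₀ + n) + (b + ε) * Real.log ((N₀ + n : ℕ) : ℝ) := by
    intro ε hε
    by_contra hcon
    push Not at hcon
    set y : ℝ := Real.log X - 5 * C * K * ‖t‖ * sq (N₀ + n) - (b + ε) * Real.log ((N₀ + n : ℕ) : ℝ) with hy
    have hy0 : 0 < y := by
      rw [hy]
      linarith
    obtain ⟨k₀, hk₀⟩ := hlog ε hε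
    set D : ℝ := |Real.log c| + 5 * C * K * ‖t‖ * (1 + N₀) + 12 * C * K * ‖t‖ * (4 + N₀) + C * ‖t‖ + (b + ε) * (2 + N₀) with hD
    have hbε : 0 ≤ b + ε := by linarith
    have hD0 : 0 ≤ D := by positivity
    obtain ⟨j, hj⟩ := exists_nat_gt (max (D / y) (k₀ + 1))
    set r : ℕ := Nat.pair (Nat.pair n m) j with hr
    have hrj : j ≤ r := Nat.right_le_pair _ _
    have hjr : (j:ℝ) ≤ r := by exact_mod_cast hrj
    have hr1 : D / y < r := ((le_max_left _ _).trans_lt hj).trans_le hjr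
    have hr2 : (k₀:ℝ) + 1 < r := ((le_max_right _ _).trans_lt hj).trans_le hjr
    have hr3 : k₀ + 1 < r := by exact_mod_cast hr2
    have hr4 : 1 ≤ r := by omega
    have hee : ee r = (n, m) := ee_pair n m j
    set S : ℕ := 2 ^ (2 ^ r) with hSdef
    have hSq : 2 ^ (2 ^ (r + 1)) = S ^ 2 := by
      rw [hSdef, ← pow_mul, pow_succ]
    have hSr : (r + 1) ^ 2 ≤ S := sq_le_pow r hr4
    obtain ⟨hS4, hSS, hkS, hS2S⟩ := nat_facts hSr hr3
    obtain ⟨a, ha⟩ : ∃ a, a = S - 4 := ⟨_, rfl⟩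
    obtain ⟨k, hkdef⟩ : ∃ k, k = S ^ 2 - 4 := ⟨_, rfl⟩
    have ha4 : a + 4 = S := by omega
    have hk4 : k + 4 = S ^ 2 := by omega
    have hak : a ≤ k := by omega
    have hkk₀ : k₀ ≤ k := by omega
    have hrun : ∀ i, a ≤ i → i < k → run i = r := by
      intro i h1 h2
      apply run_eq
      · rw [← hSdef]
        omega
      · rw [hSq]
        omega
    have hruna : ∀ i, i < a → run i ≤ r := by
      intro i hi
      have h1 := run_mono hi.le
      have h2 : run a = r := hrun a le_rfl (by omega)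
      omega
    have hrunk : run k = r + 1 := by
      apply run_eq
      · rw [hSq]
        omega
      · have e : 2 ^ (2 ^ (r + 1 + 1)) = (S ^ 2) ^ 2 := by
          rw [← hSq, ← pow_mul, pow_succ 2 (r + 1)]
        rw [e, hk4]
        exact hS2S
    have hNa : ∀ i, a ≤ i → i < k → N i = N₀ + n := by
      intro i h1 h2
      rw [hNe, hrun i h1 h2, hee]
    have hXa : ∀ i, a ≤ i → i < k → Xm (N i) (E₁ i) t = X := by
      intro i h1 h2
      rw [hNa i h1 h2, hX, hE₁def]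
      simp only [hrun i h1 h2, hee]
    have hNr : ∀ i, i < a → (N i : ℝ) ≤ N₀ + r := by
      intro i hi
      have h1 := hN i
      have h2 := hruna i hi
      have : N i ≤ N₀ + r := by omega
      exact_mod_cast this
    have s1 : ∑ i ∈ Finset.range k, sq (N i) ≤ a * (1 + N₀ + r) + ((k:ℝ) - a) * sq (N₀ + n) := by
      apply split_le hak
      · intro i hi
        have := sq_le (N i)
        have := hNr i hi
        linarith
      · intro i h1 h2
        rw [hNa i h1 h2]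
    have s2 : a * (-(C * ‖t‖)) + ((k:ℝ) - a) * Real.log X ≤ ∑ i ∈ Finset.range k, Real.log (Xm (N i) (E₁ i) t) := by
      apply split_ge hak
      · intro i _
        rw [Real.le_log_iff_exp_le ((Real.exp_pos _).trans_le (hXi i))]
        exact hXi i
      · intro i h1 h2
        rw [hXa i h1 h2]
    have s3 : ∑ i ∈ Finset.range k, Real.log (N i) ≤ a * (N₀ + r) + ((k:ℝ) - a) * Real.log ((N₀ + n : ℕ) : ℝ) := by
      apply split_le hak
      · intro i hi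
        refine le_trans ?_ (hNr i hi)
        have h1 : (0:ℝ) < N i := by
          have : 0 < N i := by have := hN2 i; omega
          exact_mod_cast this
        have := Real.log_le_sub_one_of_pos h1
        linarith
      · intro i h1 h2
        rw [hNa i h1 h2]
    have s4 := loss_le hC hN k
    have s5 := hk₀ k hkk₀
    rw [hrunk] at s4
    push_cast at s4
    have hL : ((k:ℝ) - a) = (S:ℝ) ^ 2 - S := by
      have e1 : (k:ℝ) + 4 = (S:ℝ) ^ 2 := by exact_mod_cast hk4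
      have e2 : (a:ℝ) + 4 = S := by exact_mod_cast ha4
      linarith
    have hr0 : (0:ℝ) ≤ r := Nat.cast_nonneg r
    have hSr1 : (1:ℝ) ≤ S := by
      have : 1 ≤ S := by omega
      exact_mod_cast this
    have haS : (a:ℝ) ≤ S := by
      have : a ≤ S := by omega
      exact_mod_cast this
    have ha0 : (0:ℝ) ≤ a := Nat.cast_nonneg a
    have hl2 : Real.log 2 ≤ 1 := by
      have := Real.log_two_lt_d9
      linarith
    have hN0r : (0:ℝ) ≤ N₀ := Nat.cast_nonneg N₀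
    obtain ⟨w1, w2, w3, w4, w5⟩ := real_facts hN0r hr0 hSr1 haS ha0
    -- collect
    have t1 : K * ‖t‖ * ∑ i ∈ Finset.range k, (sq (N i) + pp C N (i + 1)) ≤
        5 * C * K * ‖t‖ * (1 + N₀) * (S * (r + 1)) + 12 * C * K * ‖t‖ * (4 + N₀) * (S * (r + 1)) +
        ((k:ℝ) - a) * (5 * C * K * ‖t‖ * sq (N₀ + n)) := by
      have u1 : ∑ i ∈ Finset.range k, (sq (N i) + pp C N (i + 1)) ≤
          5 * C * (a * (1 + N₀ + r) + ((k:ℝ) - a) * sq (N₀ + n)) + 12 * C * (3 + N₀ + (r + 1)) := by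
        refine s4.trans ?_
        gcongr
      calc K * ‖t‖ * ∑ i ∈ Finset.range k, (sq (N i) + pp C N (i + 1))
          ≤ K * ‖t‖ * (5 * C * ((1 + N₀) * (S * (r + 1)) + ((k:ℝ) - a) * sq (N₀ + n)) + 12 * C * ((4 + N₀) * (S * (r + 1)))) := by
            gcongr
            refine u1.trans ?_
            gcongr
        _ = _ := by ring
    have t2 : (b + ε) * (Real.log 2 + ∑ i ∈ Finset.range k, Real.log (N i)) ≤
        (b + ε) * (2 + N₀) * (S * (r + 1)) + ((k:ℝ) - a) * ((b + ε) * Real.log ((N₀ + n : ℕ) : ℝ)) := by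
      calc (b + ε) * (Real.log 2 + ∑ i ∈ Finset.range k, Real.log (N i))
          ≤ (b + ε) * (S * (r + 1) + ((1 + N₀) * (S * (r + 1)) + ((k:ℝ) - a) * Real.log ((N₀ + n : ℕ) : ℝ))) := by
            gcongr
            · linarith
            · exact s3.trans (by gcongr)
        _ = _ := by ring
    have t3 : -(|Real.log c| * (S * (r + 1))) ≤ Real.log c := by
      have u1 : -|Real.log c| ≤ Real.log c := neg_abs_le _
      have u3 : |Real.log c| * 1 ≤ |Real.log c| * (S * (r + 1)) := by gcongr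
      linarith
    have t4 : -(C * ‖t‖ * (S * (r + 1))) ≤ a * (-(C * ‖t‖)) := by
      have u1 : C * ‖t‖ * a ≤ C * ‖t‖ * (S * (r + 1)) := by
        gcongr
      linarith
    have t5 : ((S:ℝ) ^ 2 - S) * y ≤ D * (S * (r + 1)) := by
      rw [← hL, hy, hD]
      have e : ((k:ℝ) - a) * (Real.log X - 5 * C * K * ‖t‖ * sq (N₀ + n) - (b + ε) * Real.log ((N₀ + n : ℕ) : ℝ)) =
        ((k:ℝ) - a) * Real.log X - ((k:ℝ) - a) * (5 * C * K * ‖t‖ * sq (N₀ + n)) - ((k:ℝ) - a) * ((b + ε) * Real.log ((N₀ + n : ℕ) : ℝ)) := by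
        ring
      rw [e]
      linarith
    have t6 := run_ineq hr4 hD0 t5
    rw [div_lt_iff₀ hy0] at hr1
    linarith
  have key2 : Real.log X ≤ 5 * C * K * ‖t‖ * sq (N₀ + n) + b * Real.log ((N₀ + n : ℕ) : ℝ) := by
    have hlim : Tendsto (fun ε : ℝ => 5 * C * K * ‖t‖ * sq (N₀ + n) + (b + ε) * Real.log ((N₀ + n : ℕ) : ℝ)) (𝓝[>] 0)
        (𝓝 (5 * C * K * ‖t‖ * sq (N₀ + n) + b * Real.log ((N₀ + n : ℕ) : ℝ))) := by
      have h1 : Continuous fun ε : ℝ => 5 * C * K * ‖t‖ * sq (N₀ + n) + (b + ε) * Real.log ((N₀ + n : ℕ) : ℝ) := by fun_prop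
      have := (h1.tendsto 0).mono_left (nhdsWithin_le_nhds (s := Ioi 0))
      simpa using this
    refine ge_of_tendsto hlim ?_
    filter_upwards [self_mem_nhdsWithin] with ε hε
    exact key ε hε
  have h1 := Xm_near (hB n m) B' hM2 hm t
  calc Xm (N₀ + n) E₁' t ≤ Real.exp ‖t‖ * X := h1
    _ = Real.exp (‖t‖ + Real.log X) := by rw [Real.exp_add, Real.exp_log hX0]
    _ ≤ Real.exp (‖t‖ + (5 * C * K * ‖t‖ * sq (N₀ + n) + b * Real.log ((N₀ + n : ℕ) : ℝ))) := by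
        apply Real.exp_le_exp.2
        linarith
    _ ≤ Real.exp ((5 * C * K + 1) * ‖t‖ * (1 + √(Real.log ((N₀ + n : ℕ) : ℝ))) + b * Real.log ((N₀ + n : ℕ) : ℝ)) := by
        apply Real.exp_le_exp.2
        have h2 := sq_one (N₀ + n)
        have e : (5 * C * K + 1) * ‖t‖ * (1 + √(Real.log ((N₀ + n : ℕ) : ℝ))) = 5 * C * K * ‖t‖ * sq (N₀ + n) + ‖t‖ * sq (N₀ + n) := by
          unfold sq
          ring
        rw [e]
        nlinarith
    _ = Real.exp ((5 * C * K + 1) * ‖t‖ * (1 + √(Real.log ((N₀ + n : ℕ) : ℝ)))) * ((N₀ + n : ℕ) : ℝ) ^ b := by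
        rw [Real.exp_add, Real.rpow_def_of_pos hM0, mul_comm b]

end Pool.Agent.Z55U
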