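import Pool.Agent.Z55U.Stm
import Pool.Agent.Q90.SM.Eqv

/-! # G: the equivalence -/

set_option autoImplicit false
open Complex Filter Topology Set Metric MeasureTheory

namespace Pool.Agent.Z55U

open Q90.SM (IsSig marshall pmean circ L_pos S_ext S_gavg Q1 Q2 mean_le norm_circ gol q21)

namespace G

theorem q_eq {R : ℝ} (hR : 1 < R) : R ^ 2 / (R ^ 2 - 1) = R ^ 2 / (R + 1) * (R - 1)⁻¹ := by
  have h1 : R - 1 ≠ 0 := by linarith
  have h2 : R + 1 ≠ 0 := by linarith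
  have h3 : R ^ 2 - 1 = (R + 1) * (R - 1) := by ring
  rw [h3]
  field_simp

/-- `R² / (R² - 1) ≤ 1 / (R - 1)` near `1` -/
theorem q_le {R : ℝ} (hR : 1 < R) (hR' : R ≤ 3 / 2) : R ^ 2 / (R ^ 2 - 1) ≤ (R - 1)⁻¹ := by
  rw [q_eq hR]
  have h1 : 0 < (R - 1)⁻¹ := inv_pos.2 (by linarith)
  have h2 : R ^ 2 / (R + 1) ≤ 1 := by
    rw [div_le_one (by linarith)]
    nlinarith
  calc R ^ 2 / (R + 1) * (R - 1)⁻¹ ≤ 1 * (R - 1)⁻¹ := by gcongr
    _ = _ := one_mul _

/-- `1 / (R - 1) ≤ 2 R² / (R² - 1)` -/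
theorem le_q {R : ℝ} (hR : 1 < R) : (R - 1)⁻¹ ≤ 2 * (R ^ 2 / (R ^ 2 - 1)) := by
  rw [q_eq hR]
  have h1 : 0 < (R - 1)⁻¹ := inv_pos.2 (by linarith)
  have h2 : 1 ≤ 2 * (R ^ 2 / (R + 1)) := by
    rw [← mul_div_assoc, le_div_iff₀ (by linarith)]
    nlinarith
  nlinarith

theorem q_pos {R : ℝ} (hR : 1 < R) : 0 < R ^ 2 / (R ^ 2 - 1) := by
  have : 0 < R ^ 2 - 1 := by nlinarith
  positivity

theorem q_ge_one {R : ℝ} (hR : 1 < R) : 1 ≤ R ^ 2 / (R ^ 2 - 1) := by
  have : 0 < R ^ 2 - 1 := by nlinarith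
  rw [le_div_iff₀ this]
  linarith

/-- a constant is at most a small negative power near `1` -/
theorem const_le (C ε : ℝ) (hε : 0 < ε) : ∃ R₀ : ℝ, 1 < R₀ ∧ ∀ R : ℝ, 1 < R → R < R₀ → C ≤ (R - 1) ^ (-ε) := by
  have h1 : Tendsto (fun x : ℝ => x ^ (-ε)) (𝓝[>] 0) atTop := tendsto_rpow_neg_nhdsGT_zero (neg_lt_zero.2 hε)
  have h2 := h1.eventually_ge_atTop C
  rw [eventually_nhdsWithin_iff, Metric.eventually_nhds_iff] at h2
  obtain ⟨δ, hδ, h3⟩ := h2
  refine ⟨1 + δ, by linarith, fun R h4 h5 => ?_⟩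
  refine h3 ?_ ?_
  · rw [Real.dist_eq, sub_zero, abs_of_pos (by linarith)]
    linarith
  · show 0 < R - 1
    linarith

theorem pm_mul {ψ h : ℂ → ℂ} (hS : IsSig ψ h) {R : ℝ} (hR : 1 < R) (t : ℂ) {c : ℝ} (hc : 0 < c) :
    pmean t R h ≤ marshall (1 / (4 * c)) R h * (R ^ 2 / (R ^ 2 - 1)) ^ (c * ‖t‖ ^ 2) := by
  have hL := L_pos hR
  have hcont := hS.cont hR
  have hq := q_pos hR
  set L : ℝ := Real.log (R ^ 2 / (R ^ 2 - 1)) with hLdef
  have e1 : (R ^ 2 / (R ^ 2 - 1)) ^ (c * ‖t‖ ^ 2) = Real.exp (c * ‖t‖ ^ 2 * L) := by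
    rw [Real.rpow_def_of_pos hq, mul_comm]
  calc pmean t R h ≤ (1 / (2 * Real.pi)) * ∫ θ in (0:ℝ)..(2 * Real.pi),
        Real.exp (1 / (4 * c) * ‖h (circ R θ)‖ ^ 2 / L) * Real.exp (c * ‖t‖ ^ 2 * L) := by
        apply mean_le
        · exact (Complex.continuous_exp.comp (continuous_const.mul hcont)).norm
        · exact (Real.continuous_exp.comp ((continuous_const.mul (hcont.norm.pow 2)).div_const _)).mul continuous_const
        · intro θ
          rw [Complex.norm_exp, ← Real.exp_add]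
          apply Real.exp_le_exp.2
          have h3 : (t * h (circ R θ)).re ≤ ‖t‖ * ‖h (circ R θ)‖ := by
            rw [← norm_mul]
            exact Complex.re_le_norm _
          refine h3.trans ?_
          set y := ‖h (circ R θ)‖
          have h4 : 1 / (4 * c) * y ^ 2 / L + c * ‖t‖ ^ 2 * L - ‖t‖ * y = (y / (2 * c * L) - ‖t‖) ^ 2 * (c * L) := by
            field_simp
            ring
          have h5 : 0 ≤ (y / (2 * c * L) - ‖t‖) ^ 2 * (c * L) := by positivity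
          linarith
    _ = marshall (1 / (4 * c)) R h * Real.exp (c * ‖t‖ ^ 2 * L) := by
        rw [intervalIntegral.integral_mul_const, ← mul_assoc]
        rfl
    _ = _ := by rw [e1]

/-- larger exponents, by the growth bound of Goluzin -/
theorem pm_big (hx : S_ext) {ψ h : ℂ → ℂ} (hS : IsSig ψ h) {R : ℝ} (hR : 1 < R) (t : ℂ) {s : ℝ}
    (hs1 : s ≤ ‖t‖) (ht : 0 < ‖t‖) :
    pmean t R h ≤ pmean (((s / ‖t‖ : ℝ) : ℂ) * t) R h * (R ^ 2 / (R ^ 2 - 1)) ^ (‖t‖ - s) := by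
  have hL := L_pos hR
  have hcont := hS.cont hR
  have hq := q_pos hR
  set L : ℝ := Real.log (R ^ 2 / (R ^ 2 - 1)) with hLdef
  have e1 : (R ^ 2 / (R ^ 2 - 1)) ^ (‖t‖ - s) = Real.exp ((‖t‖ - s) * L) := by
    rw [Real.rpow_def_of_pos hq, mul_comm]
  calc pmean t R h ≤ (1 / (2 * Real.pi)) * ∫ θ in (0:ℝ)..(2 * Real.pi),
        ‖Complex.exp (((s / ‖t‖ : ℝ) : ℂ) * t * h (circ R θ))‖ * Real.exp ((‖t‖ - s) * L) := by
        apply mean_le
        · exact (Complex.continuous_exp.comp (continuous_const.mul hcont)).norm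
        · exact (Complex.continuous_exp.comp (continuous_const.mul hcont)).norm.mul continuous_const
        · intro θ
          rw [Complex.norm_exp, Complex.norm_exp, ← Real.exp_add]
          apply Real.exp_le_exp.2
          have h1 := gol hx hS (z := circ R θ) (by rw [norm_circ (by linarith)]; exact hR)
          rw [norm_circ (by linarith)] at h1
          have h3 : (t * h (circ R θ)).re ≤ ‖t‖ * L := by
            calc (t * h (circ R θ)).re ≤ ‖t * h (circ R θ)‖ := Complex.re_le_norm _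
              _ = ‖t‖ * ‖h (circ R θ)‖ := norm_mul _ _
              _ ≤ ‖t‖ * L := by gcongr
          have h4 : (((s / ‖t‖ : ℝ) : ℂ) * t * h (circ R θ)).re = s / ‖t‖ * (t * h (circ R θ)).re := by
            rw [mul_assoc, Complex.re_ofReal_mul]
          rw [h4]
          have h5 : 0 ≤ 1 - s / ‖t‖ := by
            rw [sub_nonneg, div_le_one ht]
            exact hs1
          have h6 : (1 - s / ‖t‖) * (t * h (circ R θ)).re ≤ (1 - s / ‖t‖) * (‖t‖ * L) := by gcongr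
          have h7 : (1 - s / ‖t‖) * (‖t‖ * L) = (‖t‖ - s) * L := by
            field_simp
          linarith
    _ = _ := by
        rw [intervalIntegral.integral_mul_const, ← mul_assoc, e1]
        rfl

theorem pmean_nonneg (t : ℂ) (R : ℝ) (h : ℂ → ℂ) : 0 ≤ pmean t R h := by
  unfold pmean
  have hpi := Real.pi_pos
  apply mul_nonneg (by positivity)
  apply intervalIntegral.integral_nonneg (by positivity)
  intro _ _
  positivity

end G

open G in
theorem pEqv : S_uni → Q90.SM.S_gavg → Q90.SM.S_ext → S_eqv := by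
  intro hU hg hx α hα
  tfae_have 1 → 2 := by
    intro h a ha haα ψ h' hS ε hε
    obtain ⟨C, R₀, hR₀, hC⟩ := h a ha haα
    obtain ⟨R₁, hR₁, hC₁⟩ := const_le C ε hε
    refine ⟨min R₀ R₁, lt_min hR₀ hR₁, fun R h1 h2 => ?_⟩
    exact (hC R h1 (lt_of_lt_of_le h2 (min_le_left _ _)) ψ h' hS).trans
      (hC₁ R h1 (lt_of_lt_of_le h2 (min_le_right _ _)))
  tfae_have 2 → 3 := by
    intro h t ht ψ h' hS ε hε
    -- choose `c` slightly above `1 / (4 α)`
    obtain ⟨δ, hδ, hδt⟩ : ∃ δ : ℝ, 0 < δ ∧ δ * ‖t‖ ^ 2 ≤ ε / 2 := by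
      refine ⟨ε / 2 / (‖t‖ ^ 2 + 1), by positivity, ?_⟩
      rw [div_mul_eq_mul_div, div_le_iff₀ (by positivity)]
      nlinarith [sq_nonneg ‖t‖]
    set c : ℝ := 1 / (4 * α) + δ with hc
    have hc0 : 0 < c := by positivity
    have hac : 1 / (4 * c) < α := by
      rw [div_lt_iff₀ (by positivity), hc]
      have h1 : α * (4 * (1 / (4 * α) + δ)) = 1 + 4 * α * δ := by
        field_simp
      rw [h1]
      have : 0 < α * δ := by positivity
      linarith
    obtain ⟨R₀, hR₀, hR⟩ := h (1 / (4 * c)) (by positivity) hac ψ h' hS (ε / 2) (by positivity)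
    refine ⟨min R₀ (3 / 2), lt_min hR₀ (by norm_num), fun R h1 h2 => ?_⟩
    have h3 : R < R₀ := lt_of_lt_of_le h2 (min_le_left _ _)
    have h4 : R ≤ 3 / 2 := (lt_of_lt_of_le h2 (min_le_right _ _)).le
    have h5 : 0 < R - 1 := by linarith
    have h6 : R - 1 ≤ 1 := by linarith
    calc pmean t R h' ≤ marshall (1 / (4 * c)) R h' * (R ^ 2 / (R ^ 2 - 1)) ^ (c * ‖t‖ ^ 2) := pm_mul hS h1 t hc0
      _ ≤ (R - 1) ^ (-(ε / 2)) * ((R - 1)⁻¹) ^ (c * ‖t‖ ^ 2) := by
          have h7 := hR R h1 h3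
          have h8 := q_le h1 h4
          have h9 := (q_pos h1).le
          gcongr
      _ = (R - 1) ^ (-(ε / 2) - c * ‖t‖ ^ 2) := by
          rw [Real.inv_rpow h5.le, ← Real.rpow_neg h5.le, ← Real.rpow_add h5]
          rfl
      _ ≤ (R - 1) ^ (-(‖t‖ ^ 2 / (4 * α) + ε)) := by
          apply Real.rpow_le_rpow_of_exponent_ge h5 h6
          have h7 : c * ‖t‖ ^ 2 = ‖t‖ ^ 2 / (4 * α) + δ * ‖t‖ ^ 2 := by
            rw [hc]
            ring
          rw [h7]
          linarith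
  tfae_have 3 → 1 := by
    intro h
    have hQ2 : Q2 univ α := by
      intro c hc
      have hc0 : 0 < c := lt_trans (by positivity) hc
      obtain ⟨C, R₀, hC1, hR₀, hR₀', hU⟩ := hU
      -- `ε = c - 1 / (4 α)`
      set ε : ℝ := c - 1 / (4 * α) with hε
      have hε0 : 0 < ε := by rw [hε]; linarith
      set K : ℝ := C * Real.exp (C ^ 2 / (4 * ε)) * (2:ℝ) ^ (c * (2 * α) ^ 2) with hK
      have hKpos : 0 < K := by positivity
      have small : ∀ R : ℝ, 1 < R → R < R₀ → ∀ ψ h' : ℂ → ℂ, IsSig ψ h' → ∀ t : ℂ, ‖t‖ ≤ 2 * α →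
          pmean t R h' ≤ K * (R ^ 2 / (R ^ 2 - 1)) ^ (c * ‖t‖ ^ 2) := by
        intro R hR hRR ψ h' hS t ht
        have h1 := hU t (‖t‖ ^ 2 / (4 * α)) (fun ψ h' hS => h t ht ψ h' hS) ψ h' hS R hR hRR
        have h5 : 0 < R - 1 := by linarith
        have h6 : 0 < (R - 1)⁻¹ := inv_pos.2 h5
        have h7 : 1 ≤ (R - 1)⁻¹ := by
          rw [one_le_inv₀ h5]
          linarith
        have hl : 0 ≤ Real.log (1 / (R - 1)) := by
          rw [one_div]
          exact Real.log_nonneg h7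
        have h8 : C * ‖t‖ * √(Real.log (1 / (R - 1))) ≤ ε * ‖t‖ ^ 2 * Real.log (1 / (R - 1)) + C ^ 2 / (4 * ε) := by
          have h9 : √(Real.log (1 / (R - 1))) ^ 2 = Real.log (1 / (R - 1)) := Real.sq_sqrt hl
          set y := √(Real.log (1 / (R - 1)))
          rw [← h9]
          have h10 : ε * ‖t‖ ^ 2 * y ^ 2 + C ^ 2 / (4 * ε) - C * ‖t‖ * y = (2 * ε * ‖t‖ * y - C) ^ 2 / (4 * ε) := by
            field_simp
            ring
          have h11 : 0 ≤ (2 * ε * ‖t‖ * y - C) ^ 2 / (4 * ε) := by positivity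
          linarith
        have h12 : Real.exp (ε * ‖t‖ ^ 2 * Real.log (1 / (R - 1))) = ((R - 1)⁻¹) ^ (ε * ‖t‖ ^ 2) := by
          rw [one_div, Real.rpow_def_of_pos h6, mul_comm]
        have h13 : (R - 1) ^ (-(‖t‖ ^ 2 / (4 * α))) = ((R - 1)⁻¹) ^ (‖t‖ ^ 2 / (4 * α)) := by
          rw [Real.inv_rpow h5.le, ← Real.rpow_neg h5.le]
        have hq := q_pos hR
        calc pmean t R h' ≤ C * Real.exp (C * ‖t‖ * √(Real.log (1 / (R - 1)))) * (R - 1) ^ (-(‖t‖ ^ 2 / (4 * α))) := h1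
          _ ≤ C * Real.exp (ε * ‖t‖ ^ 2 * Real.log (1 / (R - 1)) + C ^ 2 / (4 * ε)) * (R - 1) ^ (-(‖t‖ ^ 2 / (4 * α))) := by
              gcongr
          _ = C * Real.exp (C ^ 2 / (4 * ε)) * ((R - 1)⁻¹) ^ (c * ‖t‖ ^ 2) := by
              rw [Real.exp_add, h12, h13]
              have h14 : c * ‖t‖ ^ 2 = ε * ‖t‖ ^ 2 + ‖t‖ ^ 2 / (4 * α) := by
                rw [hε]
                ring
              rw [h14, Real.rpow_add h6]
              ring
          _ ≤ C * Real.exp (C ^ 2 / (4 * ε)) * (2 * (R ^ 2 / (R ^ 2 - 1))) ^ (c * ‖t‖ ^ 2) := by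
              have := le_q hR
              gcongr
          _ = C * Real.exp (C ^ 2 / (4 * ε)) * ((2:ℝ) ^ (c * ‖t‖ ^ 2) * (R ^ 2 / (R ^ 2 - 1)) ^ (c * ‖t‖ ^ 2)) := by
              rw [Real.mul_rpow (by norm_num) hq.le]
          _ ≤ C * Real.exp (C ^ 2 / (4 * ε)) * ((2:ℝ) ^ (c * (2 * α) ^ 2) * (R ^ 2 / (R ^ 2 - 1)) ^ (c * ‖t‖ ^ 2)) := by
              have h15 : (2:ℝ) ^ (c * ‖t‖ ^ 2) ≤ (2:ℝ) ^ (c * (2 * α) ^ 2) := by
                apply Real.rpow_le_rpow_of_exponent_le (by norm_num)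
                gcongr
              gcongr
          _ = _ := by
              rw [hK]
              ring
      refine ⟨K, R₀, hR₀, fun R hR hRR ψ _ h' hS t _ => ?_⟩
      rcases le_or_gt ‖t‖ (2 * α) with h1 | h1
      · exact small R hR hRR ψ h' hS t h1
      · have ht : 0 < ‖t‖ := by linarith
        have hq := q_pos hR
        have h2 := pm_big hx hS hR t h1.le ht
        have h3 : ‖((2 * α / ‖t‖ : ℝ) : ℂ) * t‖ = 2 * α := by
          rw [norm_mul, Complex.norm_real, Real.norm_of_nonneg (by positivity)]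
          field_simp
        have h4 := small R hR hRR ψ h' hS (((2 * α / ‖t‖ : ℝ) : ℂ) * t) h3.le
        rw [h3] at h4
        calc pmean t R h' ≤ pmean (((2 * α / ‖t‖ : ℝ) : ℂ) * t) R h' * (R ^ 2 / (R ^ 2 - 1)) ^ (‖t‖ - 2 * α) := h2
          _ ≤ K * (R ^ 2 / (R ^ 2 - 1)) ^ (c * (2 * α) ^ 2) * (R ^ 2 / (R ^ 2 - 1)) ^ (‖t‖ - 2 * α) := by gcongr
          _ = K * (R ^ 2 / (R ^ 2 - 1)) ^ (c * (2 * α) ^ 2 + (‖t‖ - 2 * α)) := by
              rw [mul_assoc, ← Real.rpow_add hq]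
          _ ≤ K * (R ^ 2 / (R ^ 2 - 1)) ^ (c * ‖t‖ ^ 2) := by
              have h5 : c * (2 * α) ^ 2 + (‖t‖ - 2 * α) ≤ c * ‖t‖ ^ 2 := by
                have h6 : 1 ≤ c * (4 * α) := by
                  have : 1 / (4 * α) * (4 * α) ≤ c * (4 * α) := by gcongr
                  have e : 1 / (4 * α) * (4 * α) = 1 := by field_simp
                  linarith
                have h7 : 1 ≤ c * (‖t‖ + 2 * α) := by
                  have : c * (4 * α) ≤ c * (‖t‖ + 2 * α) := by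
                    gcongr
                    linarith
                  linarith
                nlinarith
              have h8 := q_ge_one hR
              gcongr
    intro a ha haα
    obtain ⟨C, R₀, hR₀, hC⟩ := q21 hx hg hQ2 hα a ha haα
    exact ⟨C, R₀, hR₀, fun R h1 h2 ψ h' hS => hC R h1 h2 ψ (mem_univ _) h' hS⟩
  tfae_finish

end Pool.Agent.Z55U
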