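import Pool.Agent.Z55U.Stm2
import Pool.Agent.Z55U.G

/-! # H8: the equivalence for the universal map -/

set_option autoImplicit false
open Complex Filter Topology Set Metric MeasureTheory

namespace Pool.Agent.Z55U

open Q90.SM (IsSig marshall pmean circ L_pos S_ext S_gavg Q1 Q2 mean_le norm_circ gol q21)

namespace H8

open G

/-- for one single map: exponent zero in Marshall's mean gives Binder's bound -/
theorem single {ψ h' : ℂ → ℂ} (hS : IsSig ψ h') {α : ℝ} (hα : 0 < α) (h : QIs h' α) : QBs h' α := by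
  intro t ht ε hε
  -- choose `c` slightly above `1 / (4 α)`
  obtain ⟨δ, hδ, hδt⟩ : ∃ δ : ℝ, 0 < δ ∧ δ * ‖t‖ ^ 2 ≤ ε / 2 := by
    refine ⟨ε / 2 / (‖t‖ ^ 2 + 1), by positivity, ?_⟩
    rw [div_mul_eq_mul_div, div_le_iff₀ (by positivity)]
    nlinarith [sq_nonneg ‖t‖]
  set c : ℝ := 1 / (4 * α) + δ with hc
  have hc0 : 0 < c := by positivity
  have hac : 1 / (4 * c) < α := by
    rw [div_lt_iff₀ (by positivity), hc]
    have h1 : α * (4 * (1 / (4 * α) + δ)) = 1 + 4 * α * δ := by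
      field_simp
    rw [h1]
    have : 0 < α * δ := by positivity
    linarith
  obtain ⟨R₀, hR₀, hR⟩ := h (1 / (4 * c)) (by positivity) hac (ε / 2) (by positivity)
  refine ⟨min R₀ (3 / 2), lt_min hR₀ (by norm_num), fun R h1 h2 => ?_⟩
  have h3 : R < R₀ := lt_of_lt_of_le h2 (min_le_left _ _)
  have h4 : R ≤ 3 / 2 := (lt_of_lt_of_le h2 (min_le_right _ _)).le
  have h5 : 0 < R - 1 := by linarith
  have h6 : R - 1 ≤ 1 := by linarith
  calc pmean t R h' ≤ marshall (1 / (4 * c)) R h' * (R ^ 2 / (R ^ 2 - 1)) ^ (c * ‖t‖ ^ 2) := pm_mul hS h1 t hc0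
    _ ≤ (R - 1) ^ (-(ε / 2)) * ((R - 1)⁻¹) ^ (c * ‖t‖ ^ 2) := by
        have h7 := hR R h1 h3
        have h8 := q_le h1 h4
        have h9 := (q_pos h1).le
        gcongr
    _ = (R - 1) ^ (-(ε / 2) - c * ‖t‖ ^ 2) := by
        rw [Real.inv_rpow h5.le, ← Real.rpow_neg h5.le, ← Real.rpow_add h5]
        rfl
    _ ≤ (R - 1) ^ (-(‖t‖ ^ 2 / (4 * α) + ε)) := by
        apply Real.rpow_le_rpow_of_exponent_ge h5 h6
        have h7 : c * ‖t‖ ^ 2 = ‖t‖ ^ 2 / (4 * α) + δ * ‖t‖ ^ 2 := by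
          rw [hc]
          ring
        rw [h7]
        linarith

end H8

open G H8 in
theorem pEqv2 : Q90.SM.S_gavg → Q90.SM.S_ext → S_eqv2 := by
  intro hg hx ψ₀ h₀ hS₀ hU α hα
  tfae_have 1 → 2 := by
    intro h a ha haα ψ h' hS ε hε
    obtain ⟨C, R₀, hR₀, hC⟩ := h a ha haα
    obtain ⟨R₁, hR₁, hC₁⟩ := const_le C ε hε
    refine ⟨min R₀ R₁, lt_min hR₀ hR₁, fun R h1 h2 => ?_⟩
    exact (hC R h1 (lt_of_lt_of_le h2 (min_le_left _ _)) ψ h' hS).trans
      (hC₁ R h1 (lt_of_lt_of_le h2 (min_le_right _ _)))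
  tfae_have 2 → 3 := by
    intro h t ht ψ h' hS
    exact single hS hα (fun a ha haα ε hε => h a ha haα ψ h' hS ε hε) t ht
  tfae_have 2 → 4 := by
    intro h a ha haα ε hε
    exact h a ha haα ψ₀ h₀ hS₀ ε hε
  tfae_have 3 → 5 := by
    intro h t ht
    exact h t ht ψ₀ h₀ hS₀
  tfae_have 4 → 5 := fun h => single hS₀ hα h
  tfae_have 5 → 1 := by
    intro h
    have hQ2 : Q2 univ α := by
      intro c hc
      have hc0 : 0 < c := lt_trans (by positivity) hc
      obtain ⟨C, R₀, hC1, hR₀, hR₀', hU⟩ := hU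
      -- `ε = c - 1 / (4 α)`
      set ε : ℝ := c - 1 / (4 * α) with hε
      have hε0 : 0 < ε := by rw [hε]; linarith
      set K : ℝ := C * Real.exp (C ^ 2 / (4 * ε)) * (2:ℝ) ^ (c * (2 * α) ^ 2) with hK
      have hKpos : 0 < K := by positivity
      have small : ∀ R : ℝ, 1 < R → R < R₀ → ∀ ψ h' : ℂ → ℂ, IsSig ψ h' → ∀ t : ℂ, ‖t‖ ≤ 2 * α →
          pmean t R h' ≤ K * (R ^ 2 / (R ^ 2 - 1)) ^ (c * ‖t‖ ^ 2) := by
        intro R hR hRR ψ h' hS t ht
        have h1 := hU t (‖t‖ ^ 2 / (4 * α)) (h t ht) ψ h' hS R hR hRR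
        have h5 : 0 < R - 1 := by linarith
        have h6 : 0 < (R - 1)⁻¹ := inv_pos.2 h5
        have h7 : 1 ≤ (R - 1)⁻¹ := by
          rw [one_le_inv₀ h5]
          linarith
        have hl : 0 ≤ Real.log (1 / (R - 1)) := by
          rw [one_div]
          exact Real.log_nonneg h7
        have h8 : C * ‖t‖ * √(Real.log (1 / (R - 1))) ≤ ε * ‖t‖ ^ 2 * Real.log (1 / (R - 1)) + C ^ 2 / (4 * ε) := by
          have h9 : √(Real.log (1 / (R - 1))) ^ 2 = Real.log (1 / (R - 1)) := Real.sq_sqrt hl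
          set y := √(Real.log (1 / (R - 1)))
          rw [← h9]
          have h10 : ε * ‖t‖ ^ 2 * y ^ 2 + C ^ 2 / (4 * ε) - C * ‖t‖ * y = (2 * ε * ‖t‖ * y - C) ^ 2 / (4 * ε) := by
            field_simp
            ring
          have h11 : 0 ≤ (2 * ε * ‖t‖ * y - C) ^ 2 / (4 * ε) := by positivity
          linarith
        have h12 : Real.exp (ε * ‖t‖ ^ 2 * Real.log (1 / (R - 1))) = ((R - 1)⁻¹) ^ (ε * ‖t‖ ^ 2) := by
          rw [one_div, Real.rpow_def_of_pos h6, mul_comm]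
        have h13 : (R - 1) ^ (-(‖t‖ ^ 2 / (4 * α))) = ((R - 1)⁻¹) ^ (‖t‖ ^ 2 / (4 * α)) := by
          rw [Real.inv_rpow h5.le, ← Real.rpow_neg h5.le]
        have hq := q_pos hR
        calc pmean t R h' ≤ C * Real.exp (C * ‖t‖ * √(Real.log (1 / (R - 1)))) * (R - 1) ^ (-(‖t‖ ^ 2 / (4 * α))) := h1
          _ ≤ C * Real.exp (ε * ‖t‖ ^ 2 * Real.log (1 / (R - 1)) + C ^ 2 / (4 * ε)) * (R - 1) ^ (-(‖t‖ ^ 2 / (4 * α))) := by
              gcongr
          _ = C * Real.exp (C ^ 2 / (4 * ε)) * ((R - 1)⁻¹) ^ (c * ‖t‖ ^ 2) := by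
              rw [Real.exp_add, h12, h13]
              have h14 : c * ‖t‖ ^ 2 = ε * ‖t‖ ^ 2 + ‖t‖ ^ 2 / (4 * α) := by
                rw [hε]
                ring
              rw [h14, Real.rpow_add h6]
              ring
          _ ≤ C * Real.exp (C ^ 2 / (4 * ε)) * (2 * (R ^ 2 / (R ^ 2 - 1))) ^ (c * ‖t‖ ^ 2) := by
              have := le_q hR
              gcongr
          _ = C * Real.exp (C ^ 2 / (4 * ε)) * ((2:ℝ) ^ (c * ‖t‖ ^ 2) * (R ^ 2 / (R ^ 2 - 1)) ^ (c * ‖t‖ ^ 2)) := by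
              rw [Real.mul_rpow (by norm_num) hq.le]
          _ ≤ C * Real.exp (C ^ 2 / (4 * ε)) * ((2:ℝ) ^ (c * (2 * α) ^ 2) * (R ^ 2 / (R ^ 2 - 1)) ^ (c * ‖t‖ ^ 2)) := by
              have h15 : (2:ℝ) ^ (c * ‖t‖ ^ 2) ≤ (2:ℝ) ^ (c * (2 * α) ^ 2) := by
                apply Real.rpow_le_rpow_of_exponent_le (by norm_num)
                gcongr
              gcongr
          _ = _ := by
              rw [hK]
              ring
      refine ⟨K, R₀, hR₀, fun R hR hRR ψ _ h' hS t _ => ?_⟩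
      rcases le_or_gt ‖t‖ (2 * α) with h1 | h1
      · exact small R hR hRR ψ h' hS t h1
      · have ht : 0 < ‖t‖ := by linarith
        have hq := q_pos hR
        have h2 := pm_big hx hS hR t h1.le ht
        have h3 : ‖((2 * α / ‖t‖ : ℝ) : ℂ) * t‖ = 2 * α := by
          rw [norm_mul, Complex.norm_real, Real.norm_of_nonneg (by positivity)]
          field_simp
        have h4 := small R hR hRR ψ h' hS (((2 * α / ‖t‖ : ℝ) : ℂ) * t) h3.le
        rw [h3] at h4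
        calc pmean t R h' ≤ pmean (((2 * α / ‖t‖ : ℝ) : ℂ) * t) R h' * (R ^ 2 / (R ^ 2 - 1)) ^ (‖t‖ - 2 * α) := h2
          _ ≤ K * (R ^ 2 / (R ^ 2 - 1)) ^ (c * (2 * α) ^ 2) * (R ^ 2 / (R ^ 2 - 1)) ^ (‖t‖ - 2 * α) := by gcongr
          _ = K * (R ^ 2 / (R ^ 2 - 1)) ^ (c * (2 * α) ^ 2 + (‖t‖ - 2 * α)) := by
              rw [mul_assoc, ← Real.rpow_add hq]
          _ ≤ K * (R ^ 2 / (R ^ 2 - 1)) ^ (c * ‖t‖ ^ 2) := by
              have h5 : c * (2 * α) ^ 2 + (‖t‖ - 2 * α) ≤ c * ‖t‖ ^ 2 := by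
                have h6 : 1 ≤ c * (4 * α) := by
                  have : 1 / (4 * α) * (4 * α) ≤ c * (4 * α) := by gcongr
                  have e : 1 / (4 * α) * (4 * α) = 1 := by field_simp
                  linarith
                have h7 : 1 ≤ c * (‖t‖ + 2 * α) := by
                  have : c * (4 * α) ≤ c * (‖t‖ + 2 * α) := by
                    gcongr
                    linarith
                  linarith
                nlinarith
              have h8 := q_ge_one hR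
              gcongr
    intro a ha haα
    obtain ⟨C, R₀, hR₀, hC⟩ := q21 hx hg hQ2 hα a ha haα
    exact ⟨C, R₀, hR₀, fun R h1 h2 ψ h' hS => hC R h1 h2 ψ (mem_univ _) h' hS⟩
  tfae_finish

end Pool.Agent.Z55U
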