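import Mathlib
import Pool.Agent.Z55U.H6a

/-! # The version with lower exponents: one sequence of radii for each single map is enough -/

set_option autoImplicit false
open Complex Filter Topology Set Metric MeasureTheory

namespace Pool.Agent.Z55U

open Pool.Agent.W677.Mar (Sg NN hat)
open Pool.Agent.TH325.SI (mn)
open Q90.SM (IsSig marshall pmean circ FF S_ext)

theorem mn_mono_r {F : ℂ → ℂ} (hF : DifferentiableOn ℂ F (ball 0 1)) {s t : ℝ} (h0 : 0 < s) (hst : s ≤ t) (h1 : t < 1) :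
    mn F s ≤ mn F t := by
  have g1 := Pool.Agent.TH325.SI.par hF h0 (hst.trans_lt h1)
  have g2 := Pool.Agent.TH325.SI.par hF (h0.trans_le hst) h1
  apply hasSum_le _ g1 g2
  intro n
  gcongr

/-- the means increase when the circle shrinks -/
theorem pmean_anti (hx : S_ext) {ψ h : ℂ → ℂ} (hS : IsSig ψ h) (t : ℂ) {R R' : ℝ} (hR : 1 < R) (hRR : R ≤ R') :
    pmean t R' h ≤ pmean t R h := by
  have S := (hx ψ h hS).1
  rw [(hx ψ h hS).2.2 t R hR, (hx ψ h hS).2.2 t R' (by linarith)]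
  have h1 : 0 < R'⁻¹ := by
    have : 0 < R' := by linarith
    positivity
  apply mn_mono_r _ h1 _ (inv_lt_one_of_one_lt₀ hR)
  · unfold FF
    exact ((S.dH.const_mul _).cexp)
  · exact inv_anti₀ (by linarith) hRR

/-- the lower integral means exponent of the single map is at most `b` -/
def ExpsF (t : ℂ) (b : ℝ) (h : ℂ → ℂ) : Prop := ∀ ε : ℝ, 0 < ε → ∀ R₀ : ℝ, 1 < R₀ → ∃ R : ℝ, 1 < R ∧ R < R₀ ∧
  pmean t R h ≤ (R - 1) ^ (-(b + ε))

theorem Exps.toF {t : ℂ} {b : ℝ} {h : ℂ → ℂ} (H : Exps t b h) : ExpsF t b h := by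
  intro ε hε R₀ hR₀
  obtain ⟨R₁, hR₁, hR⟩ := H ε hε
  obtain ⟨R, h1, h2⟩ := exists_between (lt_min hR₀ hR₁)
  exact ⟨R, h1, h2.trans_le (min_le_left _ _), hR R h1 (h2.trans_le (min_le_right _ _))⟩

def S_F1F : Prop := ∀ (t : ℂ) (b : ℝ), (∀ ψ h : ℂ → ℂ, IsSig ψ h → ExpsF t b h) → 0 ≤ b ∧
  ∀ (X c : ℝ) (N : ℕ) (ψ h : ℂ → ℂ), 0 ≤ X → 0 < c → 2 ≤ N → IsSig ψ h →
    (∀ k : ℕ, c * X ^ k ≤ pmean t ((2:ℝ) ^ ((1:ℝ) / (N:ℝ) ^ k)) h) → X ≤ (N:ℝ) ^ b

theorem expsF_nonneg {t : ℂ} {b : ℝ} {h : ℂ → ℂ} (hp : ∀ R : ℝ, 1 < R → 1 ≤ pmean t R h) (hb : ExpsF t b h) : 0 ≤ b := by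
  by_contra hneg
  push Not at hneg
  obtain ⟨R, h1, h2, h3⟩ := hb (-b / 2) (by linarith) 2 (by norm_num)
  have h4 : (R - 1) ^ (-(b + -b / 2)) < 1 := Real.rpow_lt_one (by linarith) (by linarith) (by linarith)
  have h5 := hp R h1
  linarith

theorem pF1F (hx : S_ext) : S_F1F := by
  intro t b hb
  have hb0 : 0 ≤ b := expsF_nonneg (fun R hR => pmean_ge_one hx sig_id t hR) (hb _ _ sig_id)
  refine ⟨hb0, ?_⟩
  intro X c N ψ h hX hc hN hS hk
  have hN1 : (1:ℝ) < N := by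
    have : 1 < N := by omega
    exact_mod_cast this
  have hN0 : (0:ℝ) < N := by linarith
  have key : ∀ ε : ℝ, 0 < ε → X ≤ (N:ℝ) ^ (b + ε) := by
    intro ε hε
    by_contra hcon
    push Not at hcon
    set Z : ℝ := (N:ℝ) ^ (b + ε) with hZ
    have hZ0 : 0 < Z := Real.rpow_pos_of_pos hN0 _
    have hq : 1 < X / Z := by rwa [one_lt_div hZ0]
    have h1 := tendsto_pow_atTop_atTop_of_one_lt hq
    obtain ⟨k₀, hk₀⟩ := eventually_atTop.1 (h1.eventually_gt_atTop ((2:ℝ) ^ (b + ε) * Z / c))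
    obtain ⟨R, hR1, hR2, hR3⟩ := hb ψ h hS ε hε ((2:ℝ) ^ ((1:ℝ) / (N:ℝ) ^ k₀)) (rad_lower hN).1
    -- the last radius above `R`
    have hex : ∃ k : ℕ, (2:ℝ) ^ ((1:ℝ) / (N:ℝ) ^ k) ≤ R := by
      obtain ⟨k, hk⟩ := ((rad_tendsto hN).eventually_lt_const hR1).exists
      exact ⟨k, hk.le⟩
    classical
    set k₁ := Nat.find hex with hk₁
    have hk₁s := Nat.find_spec hex
    rw [← hk₁] at hk₁s
    have hmono : ∀ i j : ℕ, i ≤ j → (2:ℝ) ^ ((1:ℝ) / (N:ℝ) ^ j) ≤ (2:ℝ) ^ ((1:ℝ) / (N:ℝ) ^ i) := by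
      intro i j hij
      apply Real.rpow_le_rpow_of_exponent_le (by norm_num)
      apply one_div_le_one_div_of_le (by positivity)
      exact pow_le_pow_right₀ hN1.le hij
    have hlt : k₀ < k₁ := by
      by_contra hle
      push Not at hle
      have := hmono k₁ k₀ hle
      linarith
    obtain ⟨k, hkk⟩ : ∃ k, k₁ = k + 1 := ⟨k₁ - 1, by omega⟩
    have hk₀k : k₀ ≤ k := by omega
    have hRk : R ≤ (2:ℝ) ^ ((1:ℝ) / (N:ℝ) ^ k) := by
      have := Nat.find_min hex (m := k) (by rw [← hk₁]; omega)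
      push Not at this
      exact this.le
    have h2 := (hk k).trans ((pmean_anti hx hS t hR1 hRk).trans hR3)
    obtain ⟨g1, g2⟩ := rad_lower (k := k + 1) hN
    rw [hkk] at hk₁s
    have g3 : 1 / (2 * (N:ℝ) ^ (k + 1)) ≤ R - 1 := by linarith
    have h4 : (R - 1) ^ (-(b + ε)) ≤ (1 / (2 * (N:ℝ) ^ (k + 1))) ^ (-(b + ε)) :=
      Real.rpow_le_rpow_of_nonpos (by positivity) g3 (by linarith)
    have h5 : (1 / (2 * (N:ℝ) ^ (k + 1))) ^ (-(b + ε)) = (2:ℝ) ^ (b + ε) * Z * Z ^ k := by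
      rw [one_div, Real.inv_rpow (by positivity), Real.rpow_neg (by positivity), inv_inv,
        Real.mul_rpow (by norm_num) (by positivity), mul_assoc, ← pow_succ', hZ, ← Real.rpow_natCast, ← Real.rpow_natCast,
        ← Real.rpow_mul hN0.le, ← Real.rpow_mul hN0.le, mul_comm ((k + 1 : ℕ):ℝ)]
    rw [h5] at h4
    have h6 : c * X ^ k ≤ (2:ℝ) ^ (b + ε) * Z * Z ^ k := h2.trans h4
    have h7 := hk₀ k hk₀k
    rw [div_pow, div_lt_div_iff₀ hc (by positivity)] at h7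
    linarith
  have hlim : Tendsto (fun ε : ℝ => (N:ℝ) ^ (b + ε)) (𝓝[>] 0) (𝓝 ((N:ℝ) ^ b)) := by
    have h1 : Continuous fun ε : ℝ => (N:ℝ) ^ (b + ε) :=
      (Real.continuous_const_rpow hN0.ne').comp (continuous_const.add continuous_id)
    have := (h1.tendsto 0).mono_left (nhdsWithin_le_nhds (s := Ioi 0))
    simpa using this
  refine ge_of_tendsto hlim ?_
  filter_upwards [self_mem_nhdsWithin] with ε hε
  exact key ε hε

end Pool.Agent.Z55U
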