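import Mathlib
import Pool.Agent.Z55U.H8
import Pool.Agent.Z55U.J2

/-! # The full list of equivalent statements -/

set_option autoImplicit false
open Complex Filter Topology Set Metric MeasureTheory

namespace Pool.Agent.Z55U

open Pool.Agent.W677.Mar (Sg NN hat)
open Pool.Agent.TH325.SI (mn em la log_eq)
open Q90.SM (IsSig marshall pmean circ FF L_pos S_ext S_gavg)
open G H8 Low

/-- the uniform bound with an explicit constant -/
def QUx (α : ℝ) : Prop := ∃ C R₀ : ℝ, 1 < R₀ ∧ ∀ a : ℝ, 0 < a → a < α → ∀ R : ℝ, 1 < R → R < R₀ →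
  ∀ ψ h : ℂ → ℂ, IsSig ψ h → marshall a R h ≤ Real.exp (C / (α - a))

/-- the uniform bound for the complex power means -/
def UB (α : ℝ) : Prop := ∃ C R₀ : ℝ, 1 < R₀ ∧ ∀ t : ℂ, ‖t‖ ≤ 2 * α → ∀ R : ℝ, 1 < R → R < R₀ →
  ∀ ψ h : ℂ → ℂ, IsSig ψ h →
    pmean t R h ≤ C * Real.exp (C * ‖t‖ * √(Real.log (1 / (R - 1)))) * (R - 1) ^ (-(‖t‖ ^ 2 / (4 * α)))

/-- each single map along some radii -/
def QIF (α : ℝ) : Prop := ∀ a : ℝ, 0 < a → a < α → ∀ ψ h : ℂ → ℂ, IsSig ψ h → ∀ ε : ℝ, 0 < ε → ∀ R₀ : ℝ, 1 < R₀ →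
  ∃ R : ℝ, 1 < R ∧ R < R₀ ∧ marshall a R h ≤ (R - 1) ^ (-ε)

def QBF (α : ℝ) : Prop := ∀ t : ℂ, ‖t‖ ≤ 2 * α → ∀ ψ h : ℂ → ℂ, IsSig ψ h → ExpsF t (‖t‖ ^ 2 / (4 * α)) h

theorem singleF {ψ h' : ℂ → ℂ} (hS : IsSig ψ h') {α : ℝ} (hα : 0 < α)
    (h : ∀ a : ℝ, 0 < a → a < α → ∀ ε : ℝ, 0 < ε → ∀ R₀ : ℝ, 1 < R₀ →
      ∃ R : ℝ, 1 < R ∧ R < R₀ ∧ marshall a R h' ≤ (R - 1) ^ (-ε)) (t : ℂ) : ExpsF t (‖t‖ ^ 2 / (4 * α)) h' := by
  intro ε hε R₀ hR₀
  obtain ⟨δ, hδ, hδt⟩ : ∃ δ : ℝ, 0 < δ ∧ δ * ‖t‖ ^ 2 ≤ ε / 2 := by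
    refine ⟨ε / 2 / (‖t‖ ^ 2 + 1), by positivity, ?_⟩
    rw [div_mul_eq_mul_div, div_le_iff₀ (by positivity)]
    nlinarith [sq_nonneg ‖t‖]
  set c : ℝ := 1 / (4 * α) + δ with hc
  have hc0 : 0 < c := by positivity
  have hac : 1 / (4 * c) < α := by
    rw [div_lt_iff₀ (by positivity), hc]
    have h1 : α * (4 * (1 / (4 * α) + δ)) = 1 + 4 * α * δ := by
      field_simp
    rw [h1]
    have : 0 < α * δ := by positivity
    linarith
  obtain ⟨R, h1, h2, h7⟩ := h (1 / (4 * c)) (by positivity) hac (ε / 2) (by positivity) (min R₀ (3 / 2)) (lt_min hR₀ (by norm_num))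
  refine ⟨R, h1, lt_of_lt_of_le h2 (min_le_left _ _), ?_⟩
  have h4 : R ≤ 3 / 2 := (lt_of_lt_of_le h2 (min_le_right _ _)).le
  have h5 : 0 < R - 1 := by linarith
  have h6 : R - 1 ≤ 1 := by linarith
  calc pmean t R h' ≤ marshall (1 / (4 * c)) R h' * (R ^ 2 / (R ^ 2 - 1)) ^ (c * ‖t‖ ^ 2) := pm_mul hS h1 t hc0
    _ ≤ (R - 1) ^ (-(ε / 2)) * ((R - 1)⁻¹) ^ (c * ‖t‖ ^ 2) := by
        have h8 := q_le h1 h4
        have h9 := (q_pos h1).le
        gcongr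
    _ = (R - 1) ^ (-(ε / 2) - c * ‖t‖ ^ 2) := by
        rw [Real.inv_rpow h5.le, ← Real.rpow_neg h5.le, ← Real.rpow_add h5]
        rfl
    _ ≤ (R - 1) ^ (-(‖t‖ ^ 2 / (4 * α) + ε)) := by
        apply Real.rpow_le_rpow_of_exponent_ge h5 h6
        have h7 : c * ‖t‖ ^ 2 = ‖t‖ ^ 2 / (4 * α) + δ * ‖t‖ ^ 2 := by
          rw [hc]
          ring
        rw [h7]
        linarith

/-- the bound for all complex exponents -/
theorem all_t (hx : S_ext) {α C R : ℝ} (hα : 0 < α) (hC : 1 ≤ C) (hR : 1 < R) (hR' : R < 5 / 4) {ψ h : ℂ → ℂ} (hS : IsSig ψ h)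
    (hU : ∀ t : ℂ, ‖t‖ ≤ 2 * α →
      pmean t R h ≤ C * Real.exp (C * ‖t‖ * √(Real.log (1 / (R - 1)))) * (R - 1) ^ (-(‖t‖ ^ 2 / (4 * α)))) (t : ℂ) :
    pmean t R h ≤ C * Real.exp α * Real.exp (2 * C * ‖t‖ * √(Real.log (R ^ 2 / (R ^ 2 - 1))) +
      ‖t‖ ^ 2 / (4 * α) * Real.log (R ^ 2 / (R ^ 2 - 1))) := by
  have hL := L_pos hR
  have hq := q_pos hR
  have hq1 := q_ge_one hR
  have hx0 : 0 < R - 1 := by linarith
  set L : ℝ := Real.log (R ^ 2 / (R ^ 2 - 1)) with hLdef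
  have hL1 : 1 ≤ L := by
    have h1 : Real.exp 1 ≤ R ^ 2 / (R ^ 2 - 1) := by
      rw [le_div_iff₀ (by nlinarith)]
      have h2 := Real.exp_one_lt_d9
      have h3 : R ^ 2 - 1 ≤ 9 / 16 := by nlinarith
      have h4 : 0 ≤ R ^ 2 - 1 := by nlinarith
      have h5 : Real.exp 1 * (R ^ 2 - 1) ≤ 2.7182818286 * (R ^ 2 - 1) := by gcongr
      norm_num at h5
      linarith
    have := Real.log_le_log (Real.exp_pos 1) h1
    rwa [Real.log_exp] at this
  have hl2 : Real.log 2 ≤ 1 := by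
    have := Real.log_two_lt_d9
    linarith
  have hlog : Real.log (1 / (R - 1)) ≤ L + Real.log 2 := by
    have h1 := le_q hR
    rw [← one_div] at h1
    have h2 := Real.log_le_log (by positivity) h1
    rw [Real.log_mul (by norm_num) hq.ne'] at h2
    linarith
  have hsq : √(Real.log (1 / (R - 1))) ≤ 2 * √L := by
    apply Real.sqrt_le_iff.2
    refine ⟨by positivity, ?_⟩
    rw [mul_pow, Real.sq_sqrt hL.le]
    linarith
  have hpow : ∀ e : ℝ, 0 ≤ e → (R - 1) ^ (-e) ≤ Real.exp (e * Real.log 2 + e * L) := by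
    intro e he
    rw [Real.rpow_def_of_pos hx0]
    apply Real.exp_le_exp.2
    have h1 : Real.log (1 / (R - 1)) = -Real.log (R - 1) := by rw [one_div, Real.log_inv]
    rw [h1] at hlog
    nlinarith
  have hC0 : 0 < C := by linarith
  have ht := norm_nonneg t
  have hsL := Real.sqrt_nonneg L
  rcases le_or_gt ‖t‖ (2 * α) with h1 | h1
  · have h2 := hU t h1
    have h3 := hpow (‖t‖ ^ 2 / (4 * α)) (by positivity)
    have h4 : ‖t‖ ^ 2 / (4 * α) * Real.log 2 ≤ α := by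
      have h5 : ‖t‖ ^ 2 / (4 * α) ≤ α := by
        rw [div_le_iff₀ (by positivity)]
        nlinarith
      have h6 : 0 ≤ Real.log 2 := Real.log_nonneg (by norm_num)
      nlinarith
    calc pmean t R h ≤ C * Real.exp (C * ‖t‖ * √(Real.log (1 / (R - 1)))) * (R - 1) ^ (-(‖t‖ ^ 2 / (4 * α))) := h2
      _ ≤ C * Real.exp (C * ‖t‖ * (2 * √L)) * Real.exp (‖t‖ ^ 2 / (4 * α) * Real.log 2 + ‖t‖ ^ 2 / (4 * α) * L) := by
          gcongr
      _ ≤ C * Real.exp (C * ‖t‖ * (2 * √L)) * Real.exp (α + ‖t‖ ^ 2 / (4 * α) * L) := by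
          gcongr
      _ = _ := by
          rw [Real.exp_add, Real.exp_add]
          have e : C * ‖t‖ * (2 * √L) = 2 * C * ‖t‖ * √L := by ring
          rw [e]
          ring
  · have ht0 : 0 < ‖t‖ := by linarith
    have h2 := pm_big hx hS hR t h1.le ht0
    have h3 : ‖((2 * α / ‖t‖ : ℝ) : ℂ) * t‖ = 2 * α := by
      rw [norm_mul, Complex.norm_real, Real.norm_of_nonneg (by positivity)]
      field_simp
    have h4 := hU (((2 * α / ‖t‖ : ℝ) : ℂ) * t) h3.le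
    rw [h3] at h4
    have e1 : (2 * α) ^ 2 / (4 * α) = α := by
      field_simp
      norm_num
    rw [e1] at h4
    have h5 := hpow α hα.le
    have h6 : (R ^ 2 / (R ^ 2 - 1)) ^ (‖t‖ - 2 * α) = Real.exp ((‖t‖ - 2 * α) * L) := by
      rw [Real.rpow_def_of_pos hq, mul_comm]
    rw [h6] at h2
    have h7 : ‖t‖ - α ≤ ‖t‖ ^ 2 / (4 * α) := by
      rw [le_div_iff₀ (by positivity)]
      nlinarith [sq_nonneg (‖t‖ - 2 * α)]
    calc pmean t R h ≤ pmean (((2 * α / ‖t‖ : ℝ) : ℂ) * t) R h * Real.exp ((‖t‖ - 2 * α) * L) := h2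
      _ ≤ (C * Real.exp (C * (2 * α) * √(Real.log (1 / (R - 1)))) * (R - 1) ^ (-α)) * Real.exp ((‖t‖ - 2 * α) * L) := by gcongr
      _ ≤ (C * Real.exp (C * ‖t‖ * (2 * √L)) * Real.exp (α * Real.log 2 + α * L)) * Real.exp ((‖t‖ - 2 * α) * L) := by
          gcongr
      _ = C * Real.exp (C * ‖t‖ * (2 * √L) + α * Real.log 2 + (‖t‖ - α) * L) := by
          rw [mul_assoc, mul_assoc, ← Real.exp_add, ← Real.exp_add]
          congr 2
          ring
      _ ≤ C * Real.exp (2 * C * ‖t‖ * √L + α + ‖t‖ ^ 2 / (4 * α) * L) := by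
          apply mul_le_mul_of_nonneg_left _ hC0.le
          apply Real.exp_le_exp.2
          have h8 : α * Real.log 2 ≤ α := by nlinarith
          have h9 : (‖t‖ - α) * L ≤ ‖t‖ ^ 2 / (4 * α) * L := by gcongr
          linarith
      _ = _ := by
          have e : 2 * C * ‖t‖ * √L + α + ‖t‖ ^ 2 / (4 * α) * L = α + (2 * C * ‖t‖ * √L + ‖t‖ ^ 2 / (4 * α) * L) := by ring
          rw [e, Real.exp_add α]
          ring

theorem ub_qux (hx : S_ext) (hg : S_gavg) {α : ℝ} (hα : 0 < α) (h : UB α) : QUx α := by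
  obtain ⟨C', R₁, hR₁, hU⟩ := h
  set C : ℝ := max C' 1 with hCdef
  have hC1 : 1 ≤ C := le_max_right _ _
  have hC0 : 0 < C := by linarith
  refine ⟨8 * C ^ 2 * α ^ 2 + 2 * α + (C + α) * α, min R₁ (5 / 4), lt_min hR₁ (by norm_num), ?_⟩
  intro a ha haα R hR hRR ψ h hS
  have hR1 : R < R₁ := hRR.trans_le (min_le_left _ _)
  have hR2 : R < 5 / 4 := hRR.trans_le (min_le_right _ _)
  have hx0 : 0 < R - 1 := by linarith
  have hU' : ∀ t : ℂ, ‖t‖ ≤ 2 * α →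
      pmean t R h ≤ C * Real.exp (C * ‖t‖ * √(Real.log (1 / (R - 1)))) * (R - 1) ^ (-(‖t‖ ^ 2 / (4 * α))) := by
    intro t ht
    refine (hU t ht R hR hR1 ψ h hS).trans ?_
    have h1 : C' ≤ C := le_max_left _ _
    gcongr
  have hL := L_pos hR
  have hall := all_t hx hα hC1 hR hR2 hS hU'
  set L : ℝ := Real.log (R ^ 2 / (R ^ 2 - 1)) with hLdef
  set δ : ℝ := (α - a) / (8 * a * α) with hδ
  have hαa : 0 < α - a := by linarith
  have hδ0 : 0 < δ := by positivity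
  have S := (hx ψ h hS).1
  have hb : (1 / (4 * α) + δ) * L < L / (4 * a) := by
    have e : L / (4 * a) - (1 / (4 * α) + δ) * L = δ * L := by
      rw [hδ]
      field_simp
      ring
    have : 0 < δ * L := by positivity
    linarith
  have h1 := hg (hat h 0) S.dH R⁻¹ (by positivity) (inv_lt_one_of_one_lt₀ hR) (C * Real.exp α * Real.exp (C ^ 2 / δ))
    ((1 / (4 * α) + δ) * L) (L / (4 * a)) (by positivity) hb (by positivity) (by
      intro t
      rw [← (hx ψ h hS).2.2 t R hR]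
      refine (hall t).trans ?_
      rw [mul_assoc (C * Real.exp α) (Real.exp (C ^ 2 / δ)), ← Real.exp_add]
      apply mul_le_mul_of_nonneg_left _ (by positivity)
      apply Real.exp_le_exp.2
      have h2 : 2 * C * ‖t‖ * √L ≤ C ^ 2 / δ + δ * L * ‖t‖ ^ 2 := by
        have h3 : √L ^ 2 = L := Real.sq_sqrt hL.le
        set y := √L
        rw [← h3]
        have h4 : C ^ 2 / δ + δ * y ^ 2 * ‖t‖ ^ 2 - 2 * C * ‖t‖ * y = (δ * ‖t‖ * y - C) ^ 2 / δ := by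
          field_simp
          ring
        have h5 : 0 ≤ (δ * ‖t‖ * y - C) ^ 2 / δ := by positivity
        linarith
      have h6 : (1 / (4 * α) + δ) * L * ‖t‖ ^ 2 = ‖t‖ ^ 2 / (4 * α) * L + δ * L * ‖t‖ ^ 2 := by ring
      rw [h6]
      linarith)
  have e1 : 1 / (4 * (L / (4 * a))) = a / la R⁻¹ := by
    rw [← log_eq hR, ← hLdef]
    field_simp
  rw [e1, ← (hx ψ h hS).2.1 a R hR] at h1
  have e2 : C * Real.exp α * Real.exp (C ^ 2 / δ) * (L / (4 * a)) / (L / (4 * a) - (1 / (4 * α) + δ) * L) =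
      C * Real.exp α * Real.exp (C ^ 2 / δ) * (2 * α / (α - a)) := by
    have e : L / (4 * a) - (1 / (4 * α) + δ) * L = δ * L := by
      rw [hδ]
      field_simp
      ring
    rw [e, mul_div_assoc]
    congr 1
    rw [hδ]
    field_simp
    ring
  rw [e2] at h1
  refine h1.trans ?_
  have g1 : C ≤ Real.exp (C * α / (α - a)) := by
    have h2 : C ≤ C * α / (α - a) := by
      rw [le_div_iff₀ hαa]
      nlinarith
    have h3 := Real.add_one_le_exp (C * α / (α - a))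
    linarith
  have g2 : Real.exp α ≤ Real.exp (α * α / (α - a)) := by
    apply Real.exp_le_exp.2
    rw [le_div_iff₀ hαa]
    nlinarith
  have g3 : Real.exp (C ^ 2 / δ) ≤ Real.exp (8 * C ^ 2 * α ^ 2 / (α - a)) := by
    apply Real.exp_le_exp.2
    have e : C ^ 2 / δ = 8 * C ^ 2 * (a * α) / (α - a) := by
      rw [hδ]
      field_simp
    rw [e]
    gcongr
    nlinarith
  have g4 : 2 * α / (α - a) ≤ Real.exp (2 * α / (α - a)) := by
    have := Real.add_one_le_exp (2 * α / (α - a))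
    linarith
  calc C * Real.exp α * Real.exp (C ^ 2 / δ) * (2 * α / (α - a))
      ≤ Real.exp (C * α / (α - a)) * Real.exp (α * α / (α - a)) * Real.exp (8 * C ^ 2 * α ^ 2 / (α - a)) * Real.exp (2 * α / (α - a)) := by
        gcongr
    _ = Real.exp ((8 * C ^ 2 * α ^ 2 + 2 * α + (C + α) * α) / (α - a)) := by
        rw [← Real.exp_add, ← Real.exp_add, ← Real.exp_add]
        congr 1
        ring

/-- the equivalences -/
theorem tfae_all (hx : S_ext) (hg : S_gavg) (hF : S_uniF) {ψ₀ h₀ : ℂ → ℂ} (hS₀ : IsSig ψ₀ h₀) (hU : Uni h₀) {α : ℝ} (hα : 0 < α) :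
    List.TFAE [QU α, QUx α, UB α, QI α, QIF α, QB α, QBF α, QIs h₀ α, QBs h₀ α] := by
  have h8 := pEqv2 hg hx ψ₀ h₀ hS₀ hU α hα
  tfae_have 1 ↔ 4 := h8.out 0 1
  tfae_have 1 ↔ 6 := h8.out 0 2
  tfae_have 1 ↔ 8 := h8.out 0 3
  tfae_have 1 ↔ 9 := h8.out 0 4
  tfae_have 2 → 1 := by
    rintro ⟨C, R₀, hR₀, h⟩ a ha haα
    exact ⟨Real.exp (C / (α - a)), R₀, hR₀, fun R h1 h2 ψ h' hS => h a ha haα R h1 h2 ψ h' hS⟩
  tfae_have 3 → 2 := ub_qux hx hg hα
  tfae_have 9 → 3 := by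
    intro h
    obtain ⟨C, R₀, hC, hR₀, hR₀', hU⟩ := hU
    exact ⟨C, R₀, hR₀, fun t ht R h1 h2 ψ h' hS => hU t _ (h t ht) ψ h' hS R h1 h2⟩
  tfae_have 7 → 3 := by
    intro h
    obtain ⟨C, R₀, hC, hR₀, hR₀', hU⟩ := hF
    exact ⟨C, R₀, hR₀, fun t ht R h1 h2 ψ h' hS => hU t _ (h t ht) ψ h' hS R h1 h2⟩
  tfae_have 6 → 7 := fun h t ht ψ h' hS => (h t ht ψ h' hS).toF
  tfae_have 4 → 5 := by
    intro h a ha haα ψ h' hS ε hε R₀ hR₀
    obtain ⟨R₁, hR₁, hR⟩ := h a ha haα ψ h' hS ε hε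
    obtain ⟨R, h1, h2⟩ := exists_between (lt_min hR₀ hR₁)
    exact ⟨R, h1, h2.trans_le (min_le_left _ _), hR R h1 (h2.trans_le (min_le_right _ _))⟩
  tfae_have 5 → 7 := by
    intro h t _ ψ h' hS
    exact singleF hS hα (fun a ha haα ε hε R₀ hR₀ => h a ha haα ψ h' hS ε hε R₀ hR₀) t
  tfae_finish

end Pool.Agent.Z55U
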