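import Mathlib
import Pool.Agent.Z55U.J3
import Pool.Agent.Z55U.H1
import Pool.Agent.Z55U.H2
import Pool.Agent.Z55U.H3
import Pool.Agent.Z55U.H4
import Pool.Agent.Z55U.H5
import Pool.Agent.Z55U.H7
import Pool.Agent.Z55U.A12
import Pool.Agent.Z55U.A34
import Pool.Agent.Z55U.A5
import Pool.Agent.Z55U.B1
import Pool.Agent.Z55U.B23
import Pool.Agent.Z55U.C2
import Pool.Agent.Z55U.E1
import Pool.Agent.Z55U.E2
import Pool.Agent.Q90.SM.All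

/-! # Assembly, in terms of the upper and lower integral means exponents -/

set_option autoImplicit false
open Complex Filter Topology Set Metric MeasureTheory

namespace Pool.Agent.Z55U

open Q90.SM (IsSig marshall pmean circ FF L_pos S_ext S_gavg ext_all gavg_all)
open G H8 Low

theorem blk_all : S_blk := pBlk pW (pKK pW) pA pKoe

theorem arc_all : S_arc := pArc pW (pKK pW) (pPt pW (pKK pW)) pSub

theorem low_all : S_low := pLow pFe1 pFe2 pMean pSig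

theorem glow_all : S_glow := pGlow pGfe1 pGfe2 pGmean pSig

theorem star_all : S_star := pStar ext_all glow_all pDen

theorem uni_all : S_uni2 := pUni2 ext_all blk_all arc_all star_all

theorem uniF_all : S_uniF := pUniF ext_all blk_all arc_all low_all (pF1F ext_all)

/-- the quotient whose upper and lower limits are the exponents -/
noncomputable def rat (t : ℂ) (h : ℂ → ℂ) (R : ℝ) : ℝ := Real.log (pmean t R h) / Real.log (1 / (R - 1))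

/-- upper integral means exponent -/
noncomputable def bU (t : ℂ) (h : ℂ → ℂ) : ℝ := limsup (rat t h) (𝓝[>] 1)

/-- lower integral means exponent -/
noncomputable def bL (t : ℂ) (h : ℂ → ℂ) : ℝ := liminf (rat t h) (𝓝[>] 1)

theorem ev_iff {p : ℝ → Prop} : (∀ᶠ R in 𝓝[>] (1:ℝ), p R) ↔ ∃ R₀ : ℝ, 1 < R₀ ∧ ∀ R : ℝ, 1 < R → R < R₀ → p R := by
  rw [Filter.Eventually, mem_nhdsGT_iff_exists_Ioo_subset]
  constructor
  · rintro ⟨u, hu, h⟩
    exact ⟨u, hu, fun R h1 h2 => h ⟨h1, h2⟩⟩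
  · rintro ⟨u, hu, h⟩
    exact ⟨u, hu, fun R hR => h R hR.1 hR.2⟩

theorem fr_iff {p : ℝ → Prop} : (∃ᶠ R in 𝓝[>] (1:ℝ), p R) ↔ ∀ R₀ : ℝ, 1 < R₀ → ∃ R : ℝ, 1 < R ∧ R < R₀ ∧ p R := by
  rw [Filter.Frequently, ev_iff]
  push Not
  rfl

theorem ell_pos {R : ℝ} (h1 : 1 < R) (h2 : R < 3 / 2) : 0 < Real.log (1 / (R - 1)) := by
  apply Real.log_pos
  rw [lt_div_iff₀ (by linarith)]
  linarith

theorem log_pm_nonneg {ψ h : ℂ → ℂ} (hS : IsSig ψ h) (t : ℂ) {R : ℝ} (h1 : 1 < R) : 0 ≤ Real.log (pmean t R h) :=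
  Real.log_nonneg (pmean_ge_one ext_all hS t h1)

theorem pm_le {ψ h : ℂ → ℂ} (hS : IsSig ψ h) (t : ℂ) {R : ℝ} (h1 : 1 < R) (h2 : R < 3 / 2) :
    Real.log (pmean t R h) ≤ ‖t‖ * Real.log (1 / (R - 1)) := by
  have h0 : 0 < pmean t R h := lt_of_lt_of_le one_pos (pmean_ge_one ext_all hS t h1)
  rw [Real.log_le_iff_le_exp h0]
  have hL := L_pos h1
  have hcont := hS.cont h1
  have hle : Real.log (R ^ 2 / (R ^ 2 - 1)) ≤ Real.log (1 / (R - 1)) := by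
    apply Real.log_le_log (q_pos h1)
    rw [one_div]
    exact q_le h1 h2.le
  calc pmean t R h ≤ (1 / (2 * Real.pi)) * ∫ θ in (0:ℝ)..(2 * Real.pi), Real.exp (‖t‖ * Real.log (1 / (R - 1))) := by
        apply Q90.SM.mean_le
        · exact (Complex.continuous_exp.comp (continuous_const.mul hcont)).norm
        · exact continuous_const
        · intro θ
          rw [Complex.norm_exp]
          apply Real.exp_le_exp.2
          have g1 := Q90.SM.gol ext_all hS (z := circ R θ) (by rw [Q90.SM.norm_circ (by linarith)]; exact h1)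
          rw [Q90.SM.norm_circ (by linarith)] at g1
          calc (t * h (circ R θ)).re ≤ ‖t * h (circ R θ)‖ := Complex.re_le_norm _
            _ = ‖t‖ * ‖h (circ R θ)‖ := norm_mul _ _
            _ ≤ ‖t‖ * Real.log (1 / (R - 1)) := by
              gcongr
              exact g1.trans hle
    _ = _ := Q90.SM.mean_const _

theorem rat_bd {ψ h : ℂ → ℂ} (hS : IsSig ψ h) (t : ℂ) : ∀ᶠ R in 𝓝[>] (1:ℝ), 0 ≤ rat t h R ∧ rat t h R ≤ ‖t‖ := by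
  rw [ev_iff]
  refine ⟨3 / 2, by norm_num, fun R h1 h2 => ?_⟩
  have hl := ell_pos h1 h2
  refine ⟨div_nonneg (log_pm_nonneg hS t h1) hl.le, ?_⟩
  unfold rat
  rw [div_le_iff₀ hl]
  exact pm_le hS t h1 h2

theorem rat_le_iff {ψ h : ℂ → ℂ} (hS : IsSig ψ h) (t : ℂ) {b R : ℝ} (h1 : 1 < R) (h2 : R < 3 / 2) :
    rat t h R ≤ b ↔ pmean t R h ≤ (R - 1) ^ (-b) := by
  have hl := ell_pos h1 h2
  have h0 : 0 < pmean t R h := lt_of_lt_of_le one_pos (pmean_ge_one ext_all hS t h1)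
  have hx : 0 < R - 1 := by linarith
  unfold rat
  rw [div_le_iff₀ hl, Real.log_le_iff_le_exp h0, Real.rpow_def_of_pos hx]
  have e : b * Real.log (1 / (R - 1)) = Real.log (R - 1) * -b := by
    rw [one_div, Real.log_inv]
    ring
  rw [e]

theorem bdd_above {ψ h : ℂ → ℂ} (hS : IsSig ψ h) (t : ℂ) : IsBoundedUnder (· ≤ ·) (𝓝[>] (1:ℝ)) (rat t h) :=
  ⟨‖t‖, by
    rw [eventually_map]
    exact (rat_bd hS t).mono fun R hR => hR.2⟩

theorem bdd_below {ψ h : ℂ → ℂ} (hS : IsSig ψ h) (t : ℂ) : IsBoundedUnder (· ≥ ·) (𝓝[>] (1:ℝ)) (rat t h) :=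
  ⟨0, by
    rw [eventually_map]
    exact (rat_bd hS t).mono fun R hR => hR.1⟩

theorem bU_iff {ψ h : ℂ → ℂ} (hS : IsSig ψ h) (t : ℂ) (b : ℝ) : bU t h ≤ b ↔ Exps t b h := by
  constructor
  · intro hb ε hε
    have h1 : limsup (rat t h) (𝓝[>] 1) < b + ε := lt_of_le_of_lt hb (by linarith)
    have h2 := eventually_lt_of_limsup_lt h1 (bdd_above hS t)
    obtain ⟨R₀, hR₀, hR⟩ := ev_iff.1 h2
    refine ⟨min R₀ (3 / 2), lt_min hR₀ (by norm_num), fun R g1 g2 => ?_⟩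
    exact (rat_le_iff hS t g1 (g2.trans_le (min_le_right _ _))).1 (hR R g1 (g2.trans_le (min_le_left _ _))).le
  · intro hb
    apply le_of_forall_pos_le_add
    intro ε hε
    apply limsup_le_of_le (bdd_below hS t).isCoboundedUnder_le
    obtain ⟨R₀, hR₀, hR⟩ := hb ε hε
    rw [ev_iff]
    refine ⟨min R₀ (3 / 2), lt_min hR₀ (by norm_num), fun R g1 g2 => ?_⟩
    exact (rat_le_iff hS t g1 (g2.trans_le (min_le_right _ _))).2 (hR R g1 (g2.trans_le (min_le_left _ _)))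

theorem bL_iff {ψ h : ℂ → ℂ} (hS : IsSig ψ h) (t : ℂ) (b : ℝ) : bL t h ≤ b ↔ ExpsF t b h := by
  constructor
  · intro hb ε hε R₀ hR₀
    have h1 : liminf (rat t h) (𝓝[>] 1) < b + ε := lt_of_le_of_lt hb (by linarith)
    have h2 := frequently_lt_of_liminf_lt (bdd_above hS t).isCoboundedUnder_ge h1
    obtain ⟨R, g1, g2, g3⟩ := fr_iff.1 h2 (min R₀ (3 / 2)) (lt_min hR₀ (by norm_num))
    exact ⟨R, g1, g2.trans_le (min_le_left _ _), (rat_le_iff hS t g1 (g2.trans_le (min_le_right _ _))).1 g3.le⟩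
  · intro hb
    apply le_of_forall_pos_le_add
    intro ε hε
    apply liminf_le_of_frequently_le _ (bdd_below hS t)
    rw [fr_iff]
    intro R₀ hR₀
    obtain ⟨R, g1, g2, g3⟩ := hb ε hε (min R₀ (3 / 2)) (lt_min hR₀ (by norm_num))
    exact ⟨R, g1, g2.trans_le (min_le_left _ _), (rat_le_iff hS t g1 (g2.trans_le (min_le_right _ _))).2 g3⟩

theorem uni_bU {h₀ ψ₀ : ℂ → ℂ} (hS₀ : IsSig ψ₀ h₀) (hU : Uni h₀) : ∃ C R₀ : ℝ, 1 < R₀ ∧ ∀ (t : ℂ) (ψ h : ℂ → ℂ), IsSig ψ h →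
    ∀ R : ℝ, 1 < R → R < R₀ → pmean t R h ≤ C * Real.exp (C * ‖t‖ * √(Real.log (1 / (R - 1)))) * (R - 1) ^ (-(bU t h₀)) := by
  obtain ⟨C, R₀, hC, hR₀, -, hU⟩ := hU
  exact ⟨C, R₀, hR₀, fun t ψ h hS R h1 h2 => hU t (bU t h₀) ((bU_iff hS₀ t _).1 le_rfl) ψ h hS R h1 h2⟩

/-- a uniform bound with the factor `exp (C √log)` bounds the upper exponent -/
theorem exps_of_bound {t : ℂ} {b C R₀ : ℝ} {h : ℂ → ℂ} (hR₀ : 1 < R₀)
    (hb : ∀ R : ℝ, 1 < R → R < R₀ → pmean t R h ≤ C * Real.exp (C * ‖t‖ * √(Real.log (1 / (R - 1)))) * (R - 1) ^ (-b)) :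
    Exps t b h := by
  intro ε hε
  -- absorb the factor
  set C' : ℝ := max C 0 with hC'
  have hC'0 : 0 ≤ C' := le_max_right _ _
  obtain ⟨R₁, hR₁, h2⟩ := const_le (C' * Real.exp ((C' * ‖t‖) ^ 2 / (2 * ε))) (ε / 2) (by linarith)
  refine ⟨min (min R₀ R₁) (3 / 2), lt_min (lt_min hR₀ hR₁) (by norm_num), fun R g1 g2 => ?_⟩
  have g3 : R < R₀ := g2.trans_le ((min_le_left _ _).trans (min_le_left _ _))
  have g4 : R < R₁ := g2.trans_le ((min_le_left _ _).trans (min_le_right _ _))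
  have g5 : R < 3 / 2 := g2.trans_le (min_le_right _ _)
  have hx : 0 < R - 1 := by linarith
  have hl := (ell_pos g1 g5).le
  set y := √(Real.log (1 / (R - 1))) with hy
  have hy0 : 0 ≤ y := Real.sqrt_nonneg _
  have hy2 : y ^ 2 = Real.log (1 / (R - 1)) := Real.sq_sqrt hl
  have e1 : C' * ‖t‖ * y ≤ (C' * ‖t‖) ^ 2 / (2 * ε) + ε / 2 * Real.log (1 / (R - 1)) := by
    rw [← hy2]
    have h4 : (C' * ‖t‖) ^ 2 / (2 * ε) + ε / 2 * y ^ 2 - C' * ‖t‖ * y = (ε * y - C' * ‖t‖) ^ 2 / (2 * ε) := by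
      field_simp
      ring
    have h5 : 0 ≤ (ε * y - C' * ‖t‖) ^ 2 / (2 * ε) := by positivity
    linarith
  have e2 : Real.exp (ε / 2 * Real.log (1 / (R - 1))) = (R - 1) ^ (-(ε / 2)) := by
    rw [Real.rpow_def_of_pos hx, one_div, Real.log_inv]
    congr 1
    ring
  have hCC : C ≤ C' := le_max_left _ _
  calc pmean t R h ≤ C * Real.exp (C * ‖t‖ * y) * (R - 1) ^ (-b) := hb R g1 g3
    _ ≤ C' * Real.exp (C' * ‖t‖ * y) * (R - 1) ^ (-b) := by gcongr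
    _ ≤ C' * Real.exp ((C' * ‖t‖) ^ 2 / (2 * ε) + ε / 2 * Real.log (1 / (R - 1))) * (R - 1) ^ (-b) := by gcongr
    _ = (C' * Real.exp ((C' * ‖t‖) ^ 2 / (2 * ε))) * (R - 1) ^ (-(ε / 2)) * (R - 1) ^ (-b) := by
        rw [Real.exp_add, e2]
        ring
    _ ≤ (R - 1) ^ (-(ε / 2)) * (R - 1) ^ (-(ε / 2)) * (R - 1) ^ (-b) := by
        have := h2 R g1 g4
        gcongr
    _ = (R - 1) ^ (-(b + ε)) := by
        rw [← Real.rpow_add hx, ← Real.rpow_add hx]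
        congr 1
        ring

/-- the final theorem -/
theorem final : ∃ ψ₀ h₀ : ℂ → ℂ, IsSig ψ₀ h₀ ∧
    (∀ (t : ℂ) (ψ h : ℂ → ℂ), IsSig ψ h → bL t h ≤ bU t h ∧ bU t h ≤ bU t h₀) ∧
    (∃ C R₀ : ℝ, 1 < R₀ ∧ ∀ (t : ℂ) (ψ h : ℂ → ℂ), IsSig ψ h →
      ∀ R : ℝ, 1 < R → R < R₀ → pmean t R h ≤ C * Real.exp (C * ‖t‖ * √(Real.log (1 / (R - 1)))) * (R - 1) ^ (-(bU t h₀))) ∧
    (∀ (t : ℂ) (ε : ℝ), 0 < ε → ∃ ψ h : ℂ → ℂ, IsSig ψ h ∧ bU t h₀ - ε < bL t h) ∧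
    ∀ α : ℝ, 0 < α → List.TFAE [QU α, QUx α, UB α, QI α, QIF α,
      ∀ t : ℂ, ‖t‖ ≤ 2 * α → ∀ ψ h : ℂ → ℂ, IsSig ψ h → bU t h ≤ ‖t‖ ^ 2 / (4 * α),
      ∀ t : ℂ, ‖t‖ ≤ 2 * α → ∀ ψ h : ℂ → ℂ, IsSig ψ h → bL t h ≤ ‖t‖ ^ 2 / (4 * α),
      QIs h₀ α,
      ∀ t : ℂ, ‖t‖ ≤ 2 * α → bU t h₀ ≤ ‖t‖ ^ 2 / (4 * α)] := by
  obtain ⟨ψ₀, h₀, hS₀, hU⟩ := uni_all
  have hb := uni_bU hS₀ hU
  refine ⟨ψ₀, h₀, hS₀, ?_, hb, ?_, ?_⟩
  · intro t ψ h hS
    refine ⟨liminf_le_limsup (bdd_above hS t) (bdd_below hS t), ?_⟩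
    obtain ⟨C, R₀, hR₀, hb⟩ := hb
    exact (bU_iff hS t _).2 (exps_of_bound hR₀ (fun R h1 h2 => hb t ψ h hS R h1 h2))
  · intro t ε hε
    by_contra hcon
    push Not at hcon
    obtain ⟨C, R₀, -, hR₀, -, hF⟩ := uniF_all
    have h1 := hF t (bU t h₀ - ε) (fun ψ h hS => (bL_iff hS t _).1 (hcon ψ h hS)) ψ₀ h₀ hS₀
    have h2 := (bU_iff hS₀ t _).2 (exps_of_bound hR₀ h1)
    linarith
  · intro α hα
    have h := tfae_all ext_all gavg_all uniF_all hS₀ hU hα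
    have e6 : QB α ↔ ∀ t : ℂ, ‖t‖ ≤ 2 * α → ∀ ψ h : ℂ → ℂ, IsSig ψ h → bU t h ≤ ‖t‖ ^ 2 / (4 * α) :=
      forall₂_congr fun t _ => forall₂_congr fun ψ h => forall_congr' fun hS => (bU_iff hS t _).symm
    have e7 : QBF α ↔ ∀ t : ℂ, ‖t‖ ≤ 2 * α → ∀ ψ h : ℂ → ℂ, IsSig ψ h → bL t h ≤ ‖t‖ ^ 2 / (4 * α) :=
      forall₂_congr fun t _ => forall₂_congr fun ψ h => forall_congr' fun hS => (bL_iff hS t _).symm
    have e9 : QBs h₀ α ↔ ∀ t : ℂ, ‖t‖ ≤ 2 * α → bU t h₀ ≤ ‖t‖ ^ 2 / (4 * α) :=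
      forall₂_congr fun t _ => (bU_iff hS₀ t _).symm
    rw [e6, e7, e9] at h
    exact h

end Pool.Agent.Z55U
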